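import Pool.Agent.Helper1.Tet.TTFacts

/-! The dihedral angles are real analytic functions of the edge lengths. -/

open Real MeasureTheory Set InnerProductGeometry Filter Topology
open scoped ContDiff

namespace Pool.Agent.Helper1.Tet

theorem contDiff_D (v : Fin 4) : ContDiff ℝ ω (fun l : Fin 6 → ℝ => D l v) := by
  have h : ∀ i j k : Fin 6, ContDiff ℝ ω fun l : Fin 6 → ℝ => heron (l i) (l j) (l k) := by
    intro i j k; unfold heron; fun_prop
  fin_cases v
  · exact h 3 4 5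
  · exact h 1 2 5
  · exact h 0 2 4
  · exact h 0 1 3

theorem contDiff_W (j : Fin 6) : ContDiff ℝ ω (fun l : Fin 6 → ℝ => W l j) := by
  unfold W wform; fun_prop

theorem contDiff_Gr : ContDiff ℝ ω (fun l : Fin 6 → ℝ => Gr l) := by
  unfold Gr; fun_prop

theorem contDiffAt_al {l : Fin 6 → ℝ} (hl : l ∈ TT) (j : Fin 6) :
    ContDiffAt ℝ ω (fun l : Fin 6 → ℝ => al l j) l := by
  obtain ⟨-, hD, hcos, -, hal, -⟩ := TT_facts hl
  have h1 : ContDiffAt ℝ ω (fun l : Fin 6 → ℝ => √(D l (ec j)) * √(D l (ed j))) l :=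
    ((contDiff_D _).contDiffAt.sqrt (hD _).ne').mul ((contDiff_D _).contDiffAt.sqrt (hD _).ne')
  have h0 : √(D l (ec j)) * √(D l (ed j)) ≠ 0 :=
    (mul_pos (sqrt_pos.2 (hD _)) (sqrt_pos.2 (hD _))).ne'
  have h2 : ContDiffAt ℝ ω (fun l : Fin 6 → ℝ => W l j / (√(D l (ec j)) * √(D l (ed j)))) l :=
    (contDiff_W j).contDiffAt.div h1 h0
  have h3 : W l j / (√(D l (ec j)) * √(D l (ed j))) ≠ -1 := by
    rw [← hcos j]
    intro h
    have := cos_lt_cos_of_nonneg_of_le_pi (hal j).1.le le_rfl (hal j).2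
    rw [cos_pi, h] at this
    exact lt_irrefl _ this
  have h4 : W l j / (√(D l (ec j)) * √(D l (ed j))) ≠ 1 := by
    rw [← hcos j]
    intro h
    have := cos_lt_cos_of_nonneg_of_le_pi le_rfl (hal j).2.le (hal j).1
    rw [cos_zero, h] at this
    exact lt_irrefl _ this
  exact (contDiffAt_arccos h3 h4).comp l h2

theorem analyticAt_al {l : Fin 6 → ℝ} (hl : l ∈ TT) (j : Fin 6) :
    AnalyticAt ℝ (fun l : Fin 6 → ℝ => al l j) l := (contDiffAt_al hl j).analyticAt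

theorem isOpen_TT : IsOpen TT := by
  have h1 : TT = (⋂ a : Fin 4, ⋂ b : Fin 4, ⋂ c : Fin 4,
      {l : Fin 6 → ℝ | a ≠ b → b ≠ c → a ≠ c → l (ix a c) < l (ix a b) + l (ix b c)}) ∩
      {l | 0 < Gr l} := by
    ext l
    simp only [TT, Tri, mem_ofPred_eq, mem_inter_iff, mem_iInter]
  rw [h1]
  refine IsOpen.inter ?_ (isOpen_lt continuous_const contDiff_Gr.continuous)
  refine isOpen_iInter_of_finite fun a => isOpen_iInter_of_finite fun b =>
    isOpen_iInter_of_finite fun c => ?_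
  by_cases h : a ≠ b ∧ b ≠ c ∧ a ≠ c
  · have : {l : Fin 6 → ℝ | a ≠ b → b ≠ c → a ≠ c → l (ix a c) < l (ix a b) + l (ix b c)} =
        {l : Fin 6 → ℝ | l (ix a c) < l (ix a b) + l (ix b c)} := by
      ext l; simp [h.1, h.2.1, h.2.2]
    rw [this]
    exact isOpen_lt (by fun_prop) (by fun_prop)
  · have : {l : Fin 6 → ℝ | a ≠ b → b ≠ c → a ≠ c → l (ix a c) < l (ix a b) + l (ix b c)} =
        univ := by
      ext l; simp only [mem_ofPred_eq, mem_univ, iff_true]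
      intro h1 h2 h3
      exact absurd ⟨h1, h2, h3⟩ h
    rw [this]
    exact isOpen_univ

/-- scaling -/
theorem D_smul (t : ℝ) (l : Fin 6 → ℝ) (v : Fin 4) : D (t • l) v = t ^ 4 * D l v := by
  fin_cases v <;> simp [D, heron] <;> ring

theorem W_smul (t : ℝ) (l : Fin 6 → ℝ) (j : Fin 6) : W (t • l) j = t ^ 4 * W l j := by
  unfold W wform; simp only [Pi.smul_apply, smul_eq_mul]; ring

theorem Gr_smul (t : ℝ) (l : Fin 6 → ℝ) : Gr (t • l) = t ^ 6 * Gr l := by
  unfold Gr; simp only [Pi.smul_apply, smul_eq_mul]; ring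

theorem al_smul {t : ℝ} (ht : 0 < t) (l : Fin 6 → ℝ) : al (t • l) = al l := by
  funext j
  unfold al
  rw [W_smul, D_smul, D_smul]
  have h1 : √(t ^ 4) = t ^ 2 := by
    rw [show t ^ 4 = (t ^ 2) ^ 2 by ring]
    exact sqrt_sq (by positivity)
  rw [sqrt_mul (by positivity), sqrt_mul (by positivity), h1]
  congr 1
  rw [show t ^ 2 * √(D l (ec j)) * (t ^ 2 * √(D l (ed j))) =
    t ^ 4 * (√(D l (ec j)) * √(D l (ed j))) by ring]
  exact mul_div_mul_left _ _ (by positivity)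

theorem Tri_smul {t : ℝ} (ht : 0 < t) {l : Fin 6 → ℝ} : Tri (t • l) ↔ Tri l := by
  unfold Tri
  simp only [Pi.smul_apply, smul_eq_mul, ← mul_add, mul_lt_mul_iff_right₀ ht]

theorem TT_smul {t : ℝ} (ht : 0 < t) {l : Fin 6 → ℝ} : t • l ∈ TT ↔ l ∈ TT := by
  unfold TT
  simp only [mem_ofPred_eq, Tri_smul ht, Gr_smul]
  rw [mul_pos_iff_of_pos_left (by positivity)]

end Pool.Agent.Helper1.Tet
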