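import Pool.Agent.Helper1.Tet.Defs

/-!
# Tetrahedra: linear inequalities between the angles of four vectors with sum zero
-/

open Real MeasureTheory Set InnerProductGeometry
open scoped RealInnerProductSpace

namespace Pool.Agent.Helper1.Tet

section
variable {V : Type*} [NormedAddCommGroup V] [InnerProductSpace ℝ V]

lemma t3_triple (a b c : V) : angle a b + angle b c + angle a c ≤ 2 * π := by
  have h := angle_le_angle_add_angle a (-c) b
  rw [angle_neg_right, angle_neg_left, angle_comm c b] at h
  linarith

lemma t3_quad {a b c d : V} (hb : b ≠ 0) (hd : d ≠ 0) (hc : c ≠ 0)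
    (hs : a + b + c + d = 0) :
    2 * π ≤ angle a b + angle b c + angle c d + angle a d := by
  by_cases hE : c + d = 0
  · have h1 : d = -c := (neg_eq_of_add_eq_zero_right hE).symm
    have h2 : a = -b := by
      have : a + b = 0 := by
        have h3 : a + b + (c + d) = 0 := by rw [← hs]; abel
        rwa [hE, add_zero] at h3
      exact eq_neg_of_add_eq_zero_left this
    have e1 : angle a b = π := by
      rw [h2, angle_neg_left, angle_self hb]; ring
    have e2 : angle c d = π := by
      rw [h1, angle_neg_right, angle_self hc]; ring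
    have e3 := angle_nonneg b c
    have e4 := angle_nonneg a d
    linarith
  · have hbE : b + (c + d) = -a := by
      have : a + (b + (c + d)) = 0 := by rw [← hs]; abel
      exact (neg_eq_of_add_eq_zero_right this).symm
    have h1 := angle_eq_angle_add_add_angle_add b hE
    rw [hbE] at h1
    have h2 := angle_eq_angle_add_add_angle_add c hd
    have h3 := angle_le_angle_add_angle (-a) (c + d) d
    have h4 := angle_le_angle_add_angle b c (c + d)
    have e1 : angle b (-a) = π - angle a b := by rw [angle_neg_right, angle_comm]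
    have e2 : angle (-a) d = π - angle a d := angle_neg_left a d
    have e3 : angle (c + d) (-a) = angle (-a) (c + d) := angle_comm _ _
    have e4 : angle (c + d) d = angle d (c + d) := angle_comm _ _
    rw [e1] at h1
    rw [e2] at h3
    linarith

theorem angle_ineqs {V : Type*} [NormedAddCommGroup V] [InnerProductSpace ℝ V] (n : Fin 4 → V)
    (hn : ∀ i, n i ≠ 0) (hs : ∑ i, n i = 0) (α : Fin 6 → ℝ)
    (hα : ∀ j, α j = π - angle (n (ec j)) (n (ed j))) :
    (∀ v, 0 ≤ sv α v) ∧ (∀ c, 0 ≤ gc α c) := by
  have hs' : n 0 + n 1 + n 2 + n 3 = 0 := by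
    rw [← hs, Fin.sum_univ_four]
  have a0 : α 0 = π - angle (n 2) (n 3) := hα 0
  have a1 : α 1 = π - angle (n 1) (n 3) := hα 1
  have a2 : α 2 = π - angle (n 1) (n 2) := hα 2
  have a3 : α 3 = π - angle (n 0) (n 3) := hα 3
  have a4 : α 4 = π - angle (n 0) (n 2) := hα 4
  have a5 : α 5 = π - angle (n 0) (n 1) := hα 5
  constructor
  · intro v
    fin_cases v
    · have : sv α 0 = α 0 + α 1 + α 2 - π := by
        simp [sv, Fin.sum_univ_succ, ea, eb]; ring
      change 0 ≤ sv α 0
      have h := t3_triple (n 1) (n 2) (n 3)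
      rw [this]; linarith
    · have : sv α 1 = α 0 + α 3 + α 4 - π := by
        simp [sv, Fin.sum_univ_succ, ea, eb]; ring
      change 0 ≤ sv α 1
      have h := t3_triple (n 0) (n 2) (n 3)
      rw [this]; linarith
    · have : sv α 2 = α 1 + α 3 + α 5 - π := by
        simp [sv, Fin.sum_univ_succ, ea, eb]; ring
      change 0 ≤ sv α 2
      have h := t3_triple (n 0) (n 1) (n 3)
      rw [this]; linarith
    · have : sv α 3 = α 2 + α 4 + α 5 - π := by
        simp [sv, Fin.sum_univ_succ, ea, eb]; ring
      change 0 ≤ sv α 3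
      have h := t3_triple (n 0) (n 1) (n 2)
      rw [this]; linarith
  · intro c
    fin_cases c
    · have : gc α 0 = 2 * π - (α 1 + α 2 + α 3 + α 4) := by
        simp [gc, Fin.sum_univ_succ, cl]; ring
      change 0 ≤ gc α 0
      -- pairs 13, 12, 03, 02: the cycle 1 3 0 2
      have h := t3_quad (a := n 1) (b := n 3) (c := n 0) (d := n 2) (hn 3) (hn 2) (hn 0)
        (by rw [← hs']; abel)
      rw [angle_comm (n 3) (n 0)] at h
      rw [this]; linarith
    · have : gc α 1 = 2 * π - (α 0 + α 2 + α 3 + α 5) := by
        simp [gc, Fin.sum_univ_succ, cl]; ring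
      change 0 ≤ gc α 1
      -- pairs 23, 12, 03, 01: the cycle 2 3 0 1
      have h := t3_quad (a := n 2) (b := n 3) (c := n 0) (d := n 1) (hn 3) (hn 1) (hn 0)
        (by rw [← hs']; abel)
      rw [angle_comm (n 3) (n 0), angle_comm (n 2) (n 1)] at h
      rw [this]; linarith
    · have : gc α 2 = 2 * π - (α 0 + α 1 + α 4 + α 5) := by
        simp [gc, Fin.sum_univ_succ, cl]; ring
      change 0 ≤ gc α 2
      -- pairs 23, 13, 02, 01: the cycle 3 2 0 1
      have h := t3_quad (a := n 3) (b := n 2) (c := n 0) (d := n 1) (hn 2) (hn 1) (hn 0)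
        (by rw [← hs']; abel)
      rw [angle_comm (n 3) (n 2), angle_comm (n 2) (n 0), angle_comm (n 3) (n 1)] at h
      rw [this]; linarith

end

end Pool.Agent.Helper1.Tet
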