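import Pool.Agent.Helper1.Tet.Defs

/-!
# Boundary points of an angular region
-/

open Real MeasureTheory Set InnerProductGeometry Filter Topology
open scoped RealInnerProductSpace ENNReal

namespace Pool.Agent.Helper1.Tet

namespace BD

theorem det_GG_eq (α : Fin 6 → ℝ) : (GG α).det =
    1 - cos (α 0) ^ 2 - cos (α 1) ^ 2 - cos (α 2) ^ 2 - cos (α 3) ^ 2 - cos (α 4) ^ 2
      - cos (α 5) ^ 2 + cos (α 0) ^ 2 * cos (α 5) ^ 2 + cos (α 1) ^ 2 * cos (α 4) ^ 2
      + cos (α 2) ^ 2 * cos (α 3) ^ 2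
      - 2 * (cos (α 0) * cos (α 1) * cos (α 2) + cos (α 0) * cos (α 3) * cos (α 4)
        + cos (α 1) * cos (α 3) * cos (α 5) + cos (α 2) * cos (α 4) * cos (α 5))
      - 2 * (cos (α 0) * cos (α 5) * cos (α 1) * cos (α 4)
        + cos (α 0) * cos (α 5) * cos (α 2) * cos (α 3)
        + cos (α 1) * cos (α 4) * cos (α 2) * cos (α 3)) := by
  simp [GG, Matrix.det_succ_row_zero, Fin.sum_univ_succ, Matrix.submatrix, Fin.succAbove]
  ring

theorem adj_GG_eq (α : Fin 6 → ℝ) (j : Fin 6) : (GG α).adjugate (ec j) (ed j) =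
    cos (α j) * (1 - cos (α (ix (ec j) (ed j))) ^ 2)
      + cos (α (ix (eb j) (ed j))) * cos (α (ix (eb j) (ec j)))
      + cos (α (ix (ea j) (ed j))) * cos (α (ix (ea j) (ec j)))
      + cos (α (ix (ec j) (ed j))) * (cos (α (ix (eb j) (ed j))) * cos (α (ix (ea j) (ec j)))
        + cos (α (ix (ea j) (ed j))) * cos (α (ix (eb j) (ec j)))) := by
  fin_cases j <;>
  · simp [GG, Matrix.adjugate_fin_succ_eq_det_submatrix, Matrix.det_succ_row_zero,
      Fin.sum_univ_succ, Matrix.submatrix, Fin.succAbove, ea, eb, ec, ed, ix]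
    try ring

theorem sin_prod (x Y Z : ℝ) :
    4 * sin ((x + Y + Z - π) / 2) * sin ((π + Z - x - Y) / 2) * sin ((π + Y - x - Z) / 2)
      * sin ((π + x - Y - Z) / 2)
      = 1 - cos x ^ 2 - cos Y ^ 2 - cos Z ^ 2 - 2 * cos x * cos Y * cos Z := by
  have h1 : 2 * sin ((x + Y + Z - π) / 2) * sin ((π + x - Y - Z) / 2)
      = -cos (Y + Z) - cos x := by
    have e1 : -cos (Y + Z) = cos ((x + Y + Z - π) / 2 - (π + x - Y - Z) / 2) := by
      rw [show (x + Y + Z - π) / 2 - (π + x - Y - Z) / 2 = (Y + Z) - π by ring, cos_sub_pi]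
    have e2 : cos x = cos ((x + Y + Z - π) / 2 + (π + x - Y - Z) / 2) := by
      congr 1; ring
    rw [e1, e2, cos_sub, cos_add]
    ring
  have h2 : 2 * sin ((π + Z - x - Y) / 2) * sin ((π + Y - x - Z) / 2)
      = cos (Y - Z) + cos x := by
    have e1 : cos (Y - Z) = cos ((π + Z - x - Y) / 2 - (π + Y - x - Z) / 2) := by
      rw [show (π + Z - x - Y) / 2 - (π + Y - x - Z) / 2 = Z - Y by ring, ← cos_neg]
      congr 1; ring
    have e2 : cos x = - cos ((π + Z - x - Y) / 2 + (π + Y - x - Z) / 2) := by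
      rw [show (π + Z - x - Y) / 2 + (π + Y - x - Z) / 2 = π - x by ring, cos_pi_sub]
      ring
    rw [e1, e2, cos_sub, cos_add]
    ring
  have h3 : 4 * sin ((x + Y + Z - π) / 2) * sin ((π + Z - x - Y) / 2) * sin ((π + Y - x - Z) / 2)
      * sin ((π + x - Y - Z) / 2) =
      (2 * sin ((x + Y + Z - π) / 2) * sin ((π + x - Y - Z) / 2)) *
      (2 * sin ((π + Z - x - Y) / 2) * sin ((π + Y - x - Z) / 2)) := by ring
  rw [h3, h1, h2, cos_add, cos_sub]
  have hy := sin_sq_add_cos_sq Y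
  have hz := sin_sq_add_cos_sq Z
  have ey : sin Y ^ 2 = 1 - cos Y ^ 2 := by linarith
  have ez : sin Z ^ 2 = 1 - cos Z ^ 2 := by linarith
  have h4 : (-(cos Y * cos Z - sin Y * sin Z) - cos x) * (cos Y * cos Z + sin Y * sin Z + cos x)
      = sin Y ^ 2 * sin Z ^ 2 - cos Y ^ 2 * cos Z ^ 2 - cos x ^ 2
        - 2 * cos x * cos Y * cos Z := by ring
  rw [h4, ey, ez]
  ring

/-- the vanishing cofactor forces the extremal case -/
theorem gap_zero {x y z X Y Z : ℝ} (hsum : x + y + z = π)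
    (ha : 0 < x + Y + Z - π) (hb : 0 < y + X + Z - π) (hc : 0 < z + X + Y - π)
    (ga : 0 ≤ 2 * π - (y + z + Y + Z)) (gb : 0 ≤ 2 * π - (x + z + X + Z))
    (gc' : 0 ≤ 2 * π - (x + y + X + Y))
    (hA : 1 - cos x ^ 2 - cos Y ^ 2 - cos Z ^ 2 - 2 * cos x * cos Y * cos Z = 0) :
    2 * π - (y + z + Y + Z) = 0 := by
  have hx0 : x < π := by linarith
  rw [← sin_prod] at hA
  have s1 : sin ((x + Y + Z - π) / 2) ≠ 0 := (sin_pos_of_pos_of_lt_pi (by linarith) (by linarith)).ne'
  have s2 : sin ((π + Z - x - Y) / 2) ≠ 0 := (sin_pos_of_pos_of_lt_pi (by linarith) (by linarith)).ne'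
  have s3 : sin ((π + Y - x - Z) / 2) ≠ 0 := (sin_pos_of_pos_of_lt_pi (by linarith) (by linarith)).ne'
  have s4 : sin ((π + x - Y - Z) / 2) = 0 := by
    rcases mul_eq_zero.1 hA with h | h
    · exfalso
      rcases mul_eq_zero.1 h with h | h
      · rcases mul_eq_zero.1 h with h | h
        · rcases mul_eq_zero.1 h with h | h
          · norm_num at h
          · exact s1 h
        · exact s2 h
      · exact s3 h
    · exact h
  by_contra hne
  have hpos : 0 < 2 * π - (y + z + Y + Z) := lt_of_le_of_ne ga (Ne.symm hne)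
  have := sin_pos_of_pos_of_lt_pi (x := (π + x - Y - Z) / 2) (by linarith) (by linarith)
  linarith

theorem core {x y z X Y Z : ℝ} (hsum : x + y + z = π)
    (ha : 0 < x + Y + Z - π) (hb : 0 < y + X + Z - π) (hc : 0 < z + X + Y - π)
    (ga : 0 ≤ 2 * π - (y + z + Y + Z)) (gb : 0 ≤ 2 * π - (x + z + X + Z))
    (gc' : 0 ≤ 2 * π - (x + y + X + Y))
    (hdet : 1 - cos x ^ 2 - cos y ^ 2 - cos z ^ 2 - cos X ^ 2 - cos Y ^ 2 - cos Z ^ 2
      + cos x ^ 2 * cos X ^ 2 + cos y ^ 2 * cos Y ^ 2 + cos z ^ 2 * cos Z ^ 2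
      - 2 * (cos x * cos y * cos z + cos x * cos Y * cos Z + cos y * cos X * cos Z
        + cos z * cos X * cos Y)
      - 2 * (cos x * cos X * cos y * cos Y + cos x * cos X * cos z * cos Z
        + cos y * cos Y * cos z * cos Z) = 0) :
    ∃ κ : ℝ, κ ≠ 0 ∧
      (cos x * (1 - cos X ^ 2) + cos z * cos y + cos Y * cos Z
        + cos X * (cos z * cos Z + cos y * cos Y)) * sin x = κ ∧
      (cos y * (1 - cos Y ^ 2) + cos z * cos x + cos X * cos Z
        + cos Y * (cos z * cos Z + cos x * cos X)) * sin y = κ ∧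
      (cos z * (1 - cos Z ^ 2) + cos y * cos x + cos X * cos Y
        + cos Z * (cos y * cos Y + cos x * cos X)) * sin z = κ ∧
      cos X * (1 - cos x ^ 2) + cos z * cos Y + cos y * cos Z
        + cos x * (cos z * cos Z + cos y * cos Y) = 0 ∧
      cos Y * (1 - cos y ^ 2) + cos z * cos X + cos x * cos Z
        + cos y * (cos z * cos Z + cos x * cos X) = 0 ∧
      cos Z * (1 - cos z ^ 2) + cos y * cos X + cos x * cos Y
        + cos z * (cos y * cos Y + cos x * cos X) = 0 := by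
  have hx : 0 < x := by linarith
  have hy : 0 < y := by linarith
  have hz : 0 < z := by linarith
  have sxp : 0 < sin x := sin_pos_of_pos_of_lt_pi hx (by linarith)
  have syp : 0 < sin y := sin_pos_of_pos_of_lt_pi hy (by linarith)
  have szp : 0 < sin z := sin_pos_of_pos_of_lt_pi hz (by linarith)
  -- trigonometric relations
  have R1x : sin x = sin y * cos z + cos y * sin z := by
    rw [← sin_add, show y + z = π - x by linarith, sin_pi_sub]
  have R1y : sin y = sin x * cos z + cos x * sin z := by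
    rw [← sin_add, show x + z = π - y by linarith, sin_pi_sub]
  have R1z : sin z = sin x * cos y + cos x * sin y := by
    rw [← sin_add, show x + y = π - z by linarith, sin_pi_sub]
  have R2x : cos x = sin y * sin z - cos y * cos z := by
    have : cos (y + z) = - cos x := by rw [show y + z = π - x by linarith, cos_pi_sub]
    rw [cos_add] at this; linarith
  have R2y : cos y = sin x * sin z - cos x * cos z := by
    have : cos (x + z) = - cos y := by rw [show x + z = π - y by linarith, cos_pi_sub]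
    rw [cos_add] at this; linarith
  have R2z : cos z = sin x * sin y - cos x * cos y := by
    have : cos (x + y) = - cos z := by rw [show x + y = π - z by linarith, cos_pi_sub]
    rw [cos_add] at this; linarith
  have Qx := sin_sq_add_cos_sq x
  have Qy := sin_sq_add_cos_sq y
  have Qz := sin_sq_add_cos_sq z
  -- abbreviations
  generalize hsx : sin x = sx at *
  generalize hsy : sin y = sy at *
  generalize hsz : sin z = sz at *
  generalize hcx : cos x = cx at *
  generalize hcy : cos y = cy at *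
  generalize hcz : cos z = cz at *
  have hB : 1 - cx ^ 2 - cy ^ 2 - cz ^ 2 - 2 * cx * cy * cz = 0 := by
    have e : sy ^ 2 * sz ^ 2 = (1 - cy ^ 2) * (1 - cz ^ 2) := by
      rw [show sy ^ 2 = 1 - cy ^ 2 by linarith, show sz ^ 2 = 1 - cz ^ 2 by linarith]
    have e2 : (cx + cy * cz) ^ 2 = sy ^ 2 * sz ^ 2 := by rw [R2x]; ring
    nlinarith
  have hw : sx * cos X + sy * cos Y + sz * cos Z = 0 := by
    have h1 : (sx * cos X + sy * cos Y + sz * cos Z) ^ 2 = 0 := by
      have e : (sx * cos X + sy * cos Y + sz * cos Z) ^ 2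
          = sx ^ 2 * cos X ^ 2 + sy ^ 2 * cos Y ^ 2 + sz ^ 2 * cos Z ^ 2
            + 2 * (sx * sy) * cos X * cos Y + 2 * (sx * sz) * cos X * cos Z
            + 2 * (sy * sz) * cos Y * cos Z := by ring
      rw [e, show sx ^ 2 = 1 - cx ^ 2 by linarith, show sy ^ 2 = 1 - cy ^ 2 by linarith,
        show sz ^ 2 = 1 - cz ^ 2 by linarith, show sx * sy = cz + cx * cy by linarith,
        show sx * sz = cy + cx * cz by linarith, show sy * sz = cx + cy * cz by linarith]
      linear_combination hB - hdet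
    exact pow_eq_zero_iff (two_ne_zero) |>.1 h1
  generalize hCX : cos X = CX at *
  generalize hCY : cos Y = CY at *
  generalize hCZ : cos Z = CZ at *
  set κ : ℝ := sx * sy * sz - (sx * cx * CX ^ 2 + sy * cy * CY ^ 2 + sz * cz * CZ ^ 2) with hκ
  refine ⟨κ, ?_, ?_, ?_, ?_, ?_, ?_, ?_⟩
  · intro h0
    -- all principal cofactors vanish
    have hAa : sy * sz * (1 - cx ^ 2 - CY ^ 2 - CZ ^ 2 - 2 * cx * CY * CZ) = 0 := by
      have e : sy * sz * (1 - cx ^ 2 - CY ^ 2 - CZ ^ 2 - 2 * cx * CY * CZ) = sx * κ := by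
        rw [hκ]
        have e1 : (sx * CX) ^ 2 = (sy * CY + sz * CZ) ^ 2 := by
          rw [show sx * CX = -(sy * CY + sz * CZ) by linarith]; ring
        linear_combination (-(sy * sz)) * Qx + cx * e1 - sy * CY ^ 2 * R1z - sz * CZ ^ 2 * R1y
      rw [e, h0, mul_zero]
    have hAb : sx * sz * (1 - cy ^ 2 - CX ^ 2 - CZ ^ 2 - 2 * cy * CX * CZ) = 0 := by
      have e : sx * sz * (1 - cy ^ 2 - CX ^ 2 - CZ ^ 2 - 2 * cy * CX * CZ) = sy * κ := by
        rw [hκ]
        have e1 : (sy * CY) ^ 2 = (sx * CX + sz * CZ) ^ 2 := by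
          rw [show sy * CY = -(sx * CX + sz * CZ) by linarith]; ring
        linear_combination (-(sx * sz)) * Qy + cy * e1 - sx * CX ^ 2 * R1z - sz * CZ ^ 2 * R1x
      rw [e, h0, mul_zero]
    have hAc : sx * sy * (1 - cz ^ 2 - CX ^ 2 - CY ^ 2 - 2 * cz * CX * CY) = 0 := by
      have e : sx * sy * (1 - cz ^ 2 - CX ^ 2 - CY ^ 2 - 2 * cz * CX * CY) = sz * κ := by
        rw [hκ]
        have e1 : (sz * CZ) ^ 2 = (sx * CX + sy * CY) ^ 2 := by
          rw [show sz * CZ = -(sx * CX + sy * CY) by linarith]; ring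
        linear_combination (-(sx * sy)) * Qz + cz * e1 - sx * CX ^ 2 * R1y - sy * CY ^ 2 * R1x
      rw [e, h0, mul_zero]
    have hA : 1 - cx ^ 2 - CY ^ 2 - CZ ^ 2 - 2 * cx * CY * CZ = 0 := by
      rcases mul_eq_zero.1 hAa with h | h
      · exact absurd h (by positivity)
      · exact h
    have hB' : 1 - cy ^ 2 - CX ^ 2 - CZ ^ 2 - 2 * cy * CX * CZ = 0 := by
      rcases mul_eq_zero.1 hAb with h | h
      · exact absurd h (by positivity)
      · exact h
    have hC : 1 - cz ^ 2 - CX ^ 2 - CY ^ 2 - 2 * cz * CX * CY = 0 := by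
      rcases mul_eq_zero.1 hAc with h | h
      · exact absurd h (by positivity)
      · exact h
    subst hcx hcy hcz hCX hCY hCZ
    have g1 := gap_zero hsum ha hb hc ga gb gc' hA
    have g2 := gap_zero (x := y) (y := x) (z := z) (X := Y) (Y := X) (Z := Z) (by linarith)
      hb ha (by linarith) gb ga (by linarith) hB'
    have g3 := gap_zero (x := z) (y := x) (z := y) (X := Z) (Y := X) (Z := Y) (by linarith)
      hc (by linarith) (by linarith) (by linarith) (by linarith) (by linarith) hC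
    have eX : X = π - x := by linarith
    have eY : Y = π - y := by linarith
    have eZ : Z = π - z := by linarith
    rw [eX, eY, eZ, cos_pi_sub, cos_pi_sub, cos_pi_sub] at hw
    -- sin x cos x + sin y cos y + sin z cos z = 2 sin x sin y sin z
    have hfin : sx * cos x + sy * cos y + sz * cos z = 2 * (sx * sy * sz) := by
      linear_combination cos y * R1y + cos z * R1z - cos x * R1x + 2 * sx * R2x
    have : 0 < sx * sy * sz := by positivity
    linarith
  · linear_combination (cz * CZ + cy * CY) * hw + sx * R2x + CY * CZ * R1x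
  · linear_combination (cz * CZ + cx * CX) * hw + sy * R2y + CX * CZ * R1y
  · linear_combination (cy * CY + cx * CX) * hw + sz * R2z + CX * CY * R1z
  · linear_combination sx * hw + CY * R2z + CZ * R2y - CX * Qx
  · linear_combination sy * hw + CX * R2z + CZ * R2x - CY * Qy
  · linear_combination sz * hw + CX * R2y + CY * R2x - CZ * Qz

theorem Phi_0 (α : Fin 6 → ℝ) : Phi α 0 = (cos (α 0) * (1 - cos (α 5) ^ 2)
      + cos (α 4) * cos (α 3) + cos (α 2) * cos (α 1)
      + cos (α 5) * (cos (α 4) * cos (α 1) + cos (α 2) * cos (α 3)))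
      * sin (α 0) := by
  rw [Phi, adj_GG_eq]; rfl

theorem Phi_1 (α : Fin 6 → ℝ) : Phi α 1 = (cos (α 1) * (1 - cos (α 4) ^ 2)
      + cos (α 5) * cos (α 3) + cos (α 2) * cos (α 0)
      + cos (α 4) * (cos (α 5) * cos (α 0) + cos (α 2) * cos (α 3)))
      * sin (α 1) := by
  rw [Phi, adj_GG_eq]; rfl

theorem Phi_2 (α : Fin 6 → ℝ) : Phi α 2 = (cos (α 2) * (1 - cos (α 3) ^ 2)
      + cos (α 5) * cos (α 4) + cos (α 1) * cos (α 0)
      + cos (α 3) * (cos (α 5) * cos (α 0) + cos (α 1) * cos (α 4)))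
      * sin (α 2) := by
  rw [Phi, adj_GG_eq]; rfl

theorem Phi_3 (α : Fin 6 → ℝ) : Phi α 3 = (cos (α 3) * (1 - cos (α 2) ^ 2)
      + cos (α 5) * cos (α 1) + cos (α 4) * cos (α 0)
      + cos (α 2) * (cos (α 5) * cos (α 0) + cos (α 4) * cos (α 1)))
      * sin (α 3) := by
  rw [Phi, adj_GG_eq]; rfl

theorem Phi_4 (α : Fin 6 → ℝ) : Phi α 4 = (cos (α 4) * (1 - cos (α 1) ^ 2)
      + cos (α 5) * cos (α 2) + cos (α 3) * cos (α 0)
      + cos (α 1) * (cos (α 5) * cos (α 0) + cos (α 3) * cos (α 2)))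
      * sin (α 4) := by
  rw [Phi, adj_GG_eq]; rfl

theorem Phi_5 (α : Fin 6 → ℝ) : Phi α 5 = (cos (α 5) * (1 - cos (α 0) ^ 2)
      + cos (α 4) * cos (α 2) + cos (α 3) * cos (α 1)
      + cos (α 0) * (cos (α 4) * cos (α 1) + cos (α 3) * cos (α 2)))
      * sin (α 5) := by
  rw [Phi, adj_GG_eq]; rfl

theorem sv_eq (α : Fin 6 → ℝ) : sv α 0 = α 0 + α 1 + α 2 - π ∧ sv α 1 = α 0 + α 3 + α 4 - π ∧
    sv α 2 = α 1 + α 3 + α 5 - π ∧ sv α 3 = α 2 + α 4 + α 5 - π := by
  refine ⟨?_, ?_, ?_, ?_⟩ <;> simp [sv, ea, eb, Fin.sum_univ_succ] <;> ring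

theorem gc_eq (α : Fin 6 → ℝ) : gc α 0 = 2 * π - (α 1 + α 2 + α 3 + α 4) ∧
    gc α 1 = 2 * π - (α 0 + α 2 + α 3 + α 5) ∧ gc α 2 = 2 * π - (α 0 + α 1 + α 4 + α 5) := by
  refine ⟨?_, ?_, ?_⟩ <;> simp [gc, cl, Fin.sum_univ_succ] <;> ring

end BD

open BD

theorem boundary_point (α : Fin 6 → ℝ) (d : Fin 4) (hs : ∀ v, v ≠ d → 0 < sv α v)
    (hd : sv α d = 0) (hg : ∀ c, 0 ≤ gc α c) (hdet : (GG α).det = 0) :
    ∃ κ : ℝ, κ ≠ 0 ∧ ∀ j, Phi α j = if ea j = d ∨ eb j = d then κ else 0 := by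
  rw [det_GG_eq] at hdet
  have hg0 := hg 0
  have hg1 := hg 1
  have hg2 := hg 2
  obtain ⟨G0, G1, G2⟩ := gc_eq α
  obtain ⟨S0, S1, S2, S3⟩ := sv_eq α
  rw [G0] at hg0
  rw [G1] at hg1
  rw [G2] at hg2
  have P0 := Phi_0 α
  have P1 := Phi_1 α
  have P2 := Phi_2 α
  have P3 := Phi_3 α
  have P4 := Phi_4 α
  have P5 := Phi_5 α
  have hcase : d = 0 ∨ d = 1 ∨ d = 2 ∨ d = 3 := by
    fin_cases d <;> simp
  rcases hcase with rfl | rfl | rfl | rfl
  · rw [S0] at hd
    have t1 := hs 1 (by decide)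
    rw [S1] at t1
    have t2 := hs 2 (by decide)
    rw [S2] at t2
    have t3 := hs 3 (by decide)
    rw [S3] at t3
    obtain ⟨κ, hκ, e1, e2, e3, e4, e5, e6⟩ := core (x := α 0) (y := α 1) (z := α 2)
      (X := α 5) (Y := α 4) (Z := α 3) (by linarith) (by linarith) (by linarith)
      (by linarith) (by linarith) (by linarith) (by linarith) (by linear_combination hdet)
    have r0 : Phi α 0 = κ := by rw [P0]; linear_combination e1
    have r1 : Phi α 1 = κ := by rw [P1]; linear_combination e2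
    have r2 : Phi α 2 = κ := by rw [P2]; linear_combination e3
    have r5 : Phi α 5 = 0 := by rw [P5]; linear_combination sin (α 5) * e4
    have r4 : Phi α 4 = 0 := by rw [P4]; linear_combination sin (α 4) * e5
    have r3 : Phi α 3 = 0 := by rw [P3]; linear_combination sin (α 3) * e6
    refine ⟨κ, hκ, fun j => ?_⟩
    fin_cases j
    · rw [show ((⟨0, by decide⟩ : Fin 6)) = 0 from rfl, r0]; simp [ea, eb]
    · rw [show ((⟨1, by decide⟩ : Fin 6)) = 1 from rfl, r1]; simp [ea, eb]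
    · rw [show ((⟨2, by decide⟩ : Fin 6)) = 2 from rfl, r2]; simp [ea, eb]
    · rw [show ((⟨3, by decide⟩ : Fin 6)) = 3 from rfl, r3]; simp [ea, eb]
    · rw [show ((⟨4, by decide⟩ : Fin 6)) = 4 from rfl, r4]; simp [ea, eb]
    · rw [show ((⟨5, by decide⟩ : Fin 6)) = 5 from rfl, r5]; simp [ea, eb]
  · rw [S1] at hd
    have t0 := hs 0 (by decide)
    rw [S0] at t0
    have t2 := hs 2 (by decide)
    rw [S2] at t2
    have t3 := hs 3 (by decide)
    rw [S3] at t3
    obtain ⟨κ, hκ, e1, e2, e3, e4, e5, e6⟩ := core (x := α 0) (y := α 3) (z := α 4)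
      (X := α 5) (Y := α 2) (Z := α 1) (by linarith) (by linarith) (by linarith)
      (by linarith) (by linarith) (by linarith) (by linarith) (by linear_combination hdet)
    have r0 : Phi α 0 = κ := by rw [P0]; linear_combination e1
    have r3 : Phi α 3 = κ := by rw [P3]; linear_combination e2
    have r4 : Phi α 4 = κ := by rw [P4]; linear_combination e3
    have r5 : Phi α 5 = 0 := by rw [P5]; linear_combination sin (α 5) * e4
    have r2 : Phi α 2 = 0 := by rw [P2]; linear_combination sin (α 2) * e5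
    have r1 : Phi α 1 = 0 := by rw [P1]; linear_combination sin (α 1) * e6
    refine ⟨κ, hκ, fun j => ?_⟩
    fin_cases j
    · rw [show ((⟨0, by decide⟩ : Fin 6)) = 0 from rfl, r0]; simp [ea, eb]
    · rw [show ((⟨1, by decide⟩ : Fin 6)) = 1 from rfl, r1]; simp [ea, eb]
    · rw [show ((⟨2, by decide⟩ : Fin 6)) = 2 from rfl, r2]; simp [ea, eb]
    · rw [show ((⟨3, by decide⟩ : Fin 6)) = 3 from rfl, r3]; simp [ea, eb]
    · rw [show ((⟨4, by decide⟩ : Fin 6)) = 4 from rfl, r4]; simp [ea, eb]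
    · rw [show ((⟨5, by decide⟩ : Fin 6)) = 5 from rfl, r5]; simp [ea, eb]
  · rw [S2] at hd
    have t0 := hs 0 (by decide)
    rw [S0] at t0
    have t1 := hs 1 (by decide)
    rw [S1] at t1
    have t3 := hs 3 (by decide)
    rw [S3] at t3
    obtain ⟨κ, hκ, e1, e2, e3, e4, e5, e6⟩ := core (x := α 1) (y := α 3) (z := α 5)
      (X := α 4) (Y := α 2) (Z := α 0) (by linarith) (by linarith) (by linarith)
      (by linarith) (by linarith) (by linarith) (by linarith) (by linear_combination hdet)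
    have r1 : Phi α 1 = κ := by rw [P1]; linear_combination e1
    have r3 : Phi α 3 = κ := by rw [P3]; linear_combination e2
    have r5 : Phi α 5 = κ := by rw [P5]; linear_combination e3
    have r4 : Phi α 4 = 0 := by rw [P4]; linear_combination sin (α 4) * e4
    have r2 : Phi α 2 = 0 := by rw [P2]; linear_combination sin (α 2) * e5
    have r0 : Phi α 0 = 0 := by rw [P0]; linear_combination sin (α 0) * e6
    refine ⟨κ, hκ, fun j => ?_⟩
    fin_cases j
    · rw [show ((⟨0, by decide⟩ : Fin 6)) = 0 from rfl, r0]; simp [ea, eb]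
    · rw [show ((⟨1, by decide⟩ : Fin 6)) = 1 from rfl, r1]; simp [ea, eb]
    · rw [show ((⟨2, by decide⟩ : Fin 6)) = 2 from rfl, r2]; simp [ea, eb]
    · rw [show ((⟨3, by decide⟩ : Fin 6)) = 3 from rfl, r3]; simp [ea, eb]
    · rw [show ((⟨4, by decide⟩ : Fin 6)) = 4 from rfl, r4]; simp [ea, eb]
    · rw [show ((⟨5, by decide⟩ : Fin 6)) = 5 from rfl, r5]; simp [ea, eb]
  · rw [S3] at hd
    have t0 := hs 0 (by decide)
    rw [S0] at t0
    have t1 := hs 1 (by decide)
    rw [S1] at t1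
    have t2 := hs 2 (by decide)
    rw [S2] at t2
    obtain ⟨κ, hκ, e1, e2, e3, e4, e5, e6⟩ := core (x := α 2) (y := α 4) (z := α 5)
      (X := α 3) (Y := α 1) (Z := α 0) (by linarith) (by linarith) (by linarith)
      (by linarith) (by linarith) (by linarith) (by linarith) (by linear_combination hdet)
    have r2 : Phi α 2 = κ := by rw [P2]; linear_combination e1
    have r4 : Phi α 4 = κ := by rw [P4]; linear_combination e2
    have r5 : Phi α 5 = κ := by rw [P5]; linear_combination e3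
    have r3 : Phi α 3 = 0 := by rw [P3]; linear_combination sin (α 3) * e4
    have r1 : Phi α 1 = 0 := by rw [P1]; linear_combination sin (α 1) * e5
    have r0 : Phi α 0 = 0 := by rw [P0]; linear_combination sin (α 0) * e6
    refine ⟨κ, hκ, fun j => ?_⟩
    fin_cases j
    · rw [show ((⟨0, by decide⟩ : Fin 6)) = 0 from rfl, r0]; simp [ea, eb]
    · rw [show ((⟨1, by decide⟩ : Fin 6)) = 1 from rfl, r1]; simp [ea, eb]
    · rw [show ((⟨2, by decide⟩ : Fin 6)) = 2 from rfl, r2]; simp [ea, eb]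
    · rw [show ((⟨3, by decide⟩ : Fin 6)) = 3 from rfl, r3]; simp [ea, eb]
    · rw [show ((⟨4, by decide⟩ : Fin 6)) = 4 from rfl, r4]; simp [ea, eb]
    · rw [show ((⟨5, by decide⟩ : Fin 6)) = 5 from rfl, r5]; simp [ea, eb]

end Pool.Agent.Helper1.Tet
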