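import Pool.Agent.Helper1.Tet.Defs

/-! Finite combinatorial identities about the edges of a tetrahedron. -/

open Real Set

namespace Pool.Agent.Helper1.Tet

theorem ix_comm (a b : Fin 4) : ix a b = ix b a := by
  revert a b; decide

/-- completion of a vertex and a class to a labelling -/
theorem exists_labels (c : Fin 3) (b : Fin 4) : ∃ a e d : Fin 4,
    a ≠ b ∧ a ≠ e ∧ a ≠ d ∧ b ≠ e ∧ b ≠ d ∧ e ≠ d ∧ cl (ix b d) = c := by
  revert c b; decide

/-- the slack of the face opposite to `d` with middle vertex `b` -/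
theorem slack_eq (l : Fin 6 → ℝ) (a b e d : Fin 4) (hab : a ≠ b) (hae : a ≠ e) (had : a ≠ d)
    (hbe : b ≠ e) (hbd : b ≠ d) (hed : e ≠ d) :
    l (ix a b) + l (ix b e) - l (ix a e) = qq l (cl (ix b d)) - tt l b := by
  fin_cases a <;> fin_cases b <;> first | exact absurd rfl hab | skip
  all_goals fin_cases e <;> first | exact absurd rfl hae | exact absurd rfl hbe | skip
  all_goals fin_cases d <;>
    first | exact absurd rfl had | exact absurd rfl hbd | exact absurd rfl hed | skip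
  all_goals
    simp [qq, tt, ix, cl, ea, eb, Fin.sum_univ_succ]
    try ring

/-- the edges in terms of `tt` and `qq` -/
theorem edge_eq (l : Fin 6 → ℝ) (a b : Fin 4) (hab : a ≠ b) :
    2 * l (ix a b) = (∑ c, if c = cl (ix a b) then 0 else qq l c) - tt l a - tt l b := by
  fin_cases a <;> fin_cases b <;> first | exact absurd rfl hab | skip
  all_goals
    simp [qq, tt, ix, cl, ea, eb, Fin.sum_univ_succ]
    try ring

theorem class1 : ∀ (a b e d : Fin 4), a ≠ b ∧ a ≠ e ∧ a ≠ d ∧ b ≠ e ∧ b ≠ d ∧ e ≠ d →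
    cl (ix a e) = cl (ix b d) := by decide

theorem class2 : ∀ (b d : Fin 4), cl (ix d b) = cl (ix b d) := by decide

theorem class3 : ∀ (a b e d : Fin 4), a ≠ b ∧ a ≠ e ∧ a ≠ d ∧ b ≠ e ∧ b ≠ d ∧ e ≠ d →
    cl (ix d e) = cl (ix a b) := by decide

theorem class4 : ∀ (a b e d : Fin 4), a ≠ b ∧ a ≠ e ∧ a ≠ d ∧ b ≠ e ∧ b ≠ d ∧ e ≠ d →
    cl (ix d a) = cl (ix b e) := by decide

set_option synthInstance.maxSize 10000 in
theorem class5 : ∀ (a b e d : Fin 4), a ≠ b ∧ a ≠ e ∧ a ≠ d ∧ b ≠ e ∧ b ≠ d ∧ e ≠ d ∧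
    cl (ix b d) = 0 →
    ((cl (ix a b) = 1 ∧ cl (ix b e) = 2) ∨ (cl (ix a b) = 2 ∧ cl (ix b e) = 1)) := by decide

end Pool.Agent.Helper1.Tet
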