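import Pool.Agent.Helper1.Tet.Volume

/-! # T23: counting the tiles of a tiling -/

open Real MeasureTheory Set InnerProductGeometry Filter Topology
open scoped RealInnerProductSpace ENNReal

namespace Pool.Agent.Helper1.Tet

lemma exists_edge (a b : Fin 4) (h : a ≠ b) : ∃ j : Fin 6, (ea j = a ∧ eb j = b) ∨ (ea j = b ∧ eb j = a) := by
  revert a b
  decide

lemma dist_vertex_le (p : Fin 4 → E3) (a b : Fin 4) : dist (p a) (p b) ≤ ∑ j, len p j := by
  have h0 : ∀ j, 0 ≤ len p j := fun j => dist_nonneg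
  by_cases h : a = b
  · subst h
    rw [dist_self]
    exact Finset.sum_nonneg fun j _ => h0 j
  · obtain ⟨j, hj | hj⟩ := exists_edge a b h
    · calc dist (p a) (p b) = len p j := by rw [len, hj.1, hj.2]
        _ ≤ _ := Finset.single_le_sum (f := len p) (fun i _ => h0 i) (Finset.mem_univ j)
    · calc dist (p a) (p b) = len p j := by rw [len, hj.1, hj.2, dist_comm]
        _ ≤ _ := Finset.single_le_sum (f := len p) (fun i _ => h0 i) (Finset.mem_univ j)

lemma dist_tile_le (p : Fin 4 → E3) {y z : E3} (hy : y ∈ convexHull ℝ (range p))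
    (hz : z ∈ convexHull ℝ (range p)) : dist y z ≤ ∑ j, len p j := by
  have hb : Bornology.IsBounded (convexHull ℝ (range p)) :=
    ((finite_range p).isCompact_convexHull ℝ).isBounded
  refine (Metric.dist_le_diam_of_mem hb hy hz).trans ?_
  rw [convexHull_diam]
  apply Metric.diam_le_of_forall_dist_le (Finset.sum_nonneg fun j _ => dist_nonneg)
  rintro _ ⟨a, rfl⟩ _ ⟨b, rfl⟩
  exact dist_vertex_le p a b

lemma isClosed_tile' (p : Fin 4 → E3) : IsClosed (convexHull ℝ (range p)) :=
  (finite_range p).isClosed_convexHull ℝ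

lemma aedisjoint_tile' (p q : Fin 4 → E3)
    (h : Disjoint (interior (convexHull ℝ (range p))) (interior (convexHull ℝ (range q)))) :
    volume (convexHull ℝ (range p) ∩ convexHull ℝ (range q)) = 0 := by
  have h1 := (convex_convexHull ℝ (range p)).addHaar_frontier (volume : Measure E3)
  have h2 := (convex_convexHull ℝ (range q)).addHaar_frontier (volume : Measure E3)
  have hsub : convexHull ℝ (range p) ∩ convexHull ℝ (range q) ⊆
      frontier (convexHull ℝ (range p)) ∪ frontier (convexHull ℝ (range q)) := by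
    rintro y ⟨hy1, hy2⟩
    by_cases h3 : y ∈ interior (convexHull ℝ (range p))
    · right
      rw [(isClosed_tile' q).frontier_eq]
      refine ⟨hy2, fun h4 => ?_⟩
      exact Set.disjoint_left.1 h h3 h4
    · left
      rw [(isClosed_tile' p).frontier_eq]
      exact ⟨hy1, h3⟩
  exact measure_mono_null hsub (measure_union_null h1 h2)

lemma ball_vol (R : ℝ) (hR : 0 ≤ R) : volume (Metric.ball (0 : E3) R) =
    ENNReal.ofReal (R ^ 3 * (volume (Metric.ball (0 : E3) 1)).toReal) := by
  rw [Measure.addHaar_ball volume (0 : E3) hR, finrank_euclideanSpace_fin,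
    ENNReal.ofReal_mul (by positivity), ENNReal.ofReal_toReal measure_ball_lt_top.ne]

theorem tiling_counts {ι : Type*} (P : ι → Fin 4 → E3) (l : Fin 6 → ℝ)
    (hP : ∀ i, AffineIndependent ℝ (P i)) (hl : ∀ i, len (P i) = l)
    (hcov : ⋃ i, convexHull ℝ (range (P i)) = univ)
    (hdis : Pairwise fun i i' => Disjoint (interior (convexHull ℝ (range (P i))))
      (interior (convexHull ℝ (range (P i'))))) :
    (∀ R : ℝ, {i | (convexHull ℝ (range (P i)) ∩ Metric.ball 0 R).Nonempty}.Finite) ∧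
    (∃ K : ℝ, ∀ R : ℝ, 1 ≤ R → ({i | (convexHull ℝ (range (P i)) ∩ Metric.ball 0 R).Nonempty ∧
      ¬ convexHull ℝ (range (P i)) ⊆ Metric.ball 0 R}.ncard : ℝ) ≤ K * R ^ 2) ∧
    (∃ c > 0, ∃ R₀ : ℝ, ∀ R : ℝ, R₀ ≤ R →
      c * R ^ 3 ≤ ({i | convexHull ℝ (range (P i)) ⊆ Metric.ball 0 R}.ncard : ℝ)) := by
  classical
  set T : ι → Set E3 := fun i => convexHull ℝ (range (P i)) with hT
  have hι : Nonempty ι := by
    have h0 : (0 : E3) ∈ ⋃ i, convexHull ℝ (range (P i)) := by rw [hcov]; exact mem_univ _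
    obtain ⟨i, _⟩ := mem_iUnion.1 h0
    exact ⟨i⟩
  obtain ⟨i₀⟩ := hι
  -- common volume
  obtain ⟨c₀, _, hc₀⟩ := volume_tet
  set V : ℝ := (volume (T i₀)).toReal with hV
  have hVpos : 0 < V := ENNReal.toReal_pos (volume_pos_tet _ (hP i₀)).ne' (volume_lt_top_tet _).ne
  have hvol : ∀ i, volume (T i) = ENNReal.ofReal V := by
    intro i
    have h1 : volume (T i) = volume (T i₀) := by
      rw [hT]
      simp only
      rw [hc₀ _ (hP i), hc₀ _ (hP i₀), hl, hl]
    rw [h1, hV, ENNReal.ofReal_toReal (volume_lt_top_tet _).ne]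
  -- common diameter bound
  set d : ℝ := ∑ j, l j + 1 with hd
  have hl0 : ∀ j, 0 ≤ l j := fun j => by rw [← hl i₀]; exact dist_nonneg
  have hd1 : 1 ≤ d := by
    have := Finset.sum_nonneg (fun j (_ : j ∈ (Finset.univ : Finset (Fin 6))) => hl0 j)
    linarith
  have hdiam : ∀ i, ∀ y ∈ T i, ∀ z ∈ T i, ‖y - z‖ ≤ d := by
    intro i y hy z hz
    have h1 := dist_tile_le (P i) hy hz
    rw [hl i, dist_eq_norm] at h1
    linarith
  have hTne : ∀ i, (T i).Nonempty := fun i => ⟨P i 0, subset_convexHull ℝ _ (mem_range_self 0)⟩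
  set κ : ℝ := (volume (Metric.ball (0 : E3) 1)).toReal with hκ
  have hκpos : 0 < κ := ENNReal.toReal_pos (Metric.measure_ball_pos volume _ one_pos).ne'
    measure_ball_lt_top.ne
  -- packing
  have hunion : ∀ s : Finset ι, volume (⋃ i ∈ s, T i) = ENNReal.ofReal (s.card * V) := by
    intro s
    rw [measure_biUnion_finset₀]
    · rw [Finset.sum_congr rfl (fun i _ => hvol i), Finset.sum_const, nsmul_eq_mul,
        ENNReal.ofReal_mul (Nat.cast_nonneg _), ENNReal.ofReal_natCast]
    · intro i _ i' _ hii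
      exact aedisjoint_tile' (P i) (P i') (hdis hii)
    · intro i _
      exact (isClosed_tile' (P i)).measurableSet.nullMeasurableSet
  have hpack : ∀ (s : Finset ι) (Q : Set E3) (q : ℝ), 0 ≤ q → volume Q ≤ ENNReal.ofReal q →
      (∀ i ∈ s, T i ⊆ Q) → (s.card : ℝ) * V ≤ q := by
    intro s Q q hq hQ hs
    have h1 : ENNReal.ofReal (s.card * V) ≤ ENNReal.ofReal q := by
      rw [← hunion s]
      exact (measure_mono (iUnion₂_subset hs)).trans hQ
    exact (ENNReal.ofReal_le_ofReal_iff hq).1 h1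
  have hnear : ∀ (R : ℝ) (i : ι), (T i ∩ Metric.ball 0 R).Nonempty → T i ⊆ Metric.ball 0 (R + d) := by
    rintro R i ⟨z, hz, hzb⟩ y hy
    rw [mem_ball_zero_iff] at hzb ⊢
    have h1 := hdiam i y hy z hz
    have h2 : ‖y‖ ≤ ‖y - z‖ + ‖z‖ := by
      calc ‖y‖ = ‖(y - z) + z‖ := by rw [sub_add_cancel]
        _ ≤ _ := norm_add_le _ _
    linarith
  have hfin : ∀ R : ℝ, {i | (T i ∩ Metric.ball 0 R).Nonempty}.Finite := by
    intro R
    by_contra hinf
    obtain ⟨n, hn⟩ := exists_nat_gt (((|R| + d) ^ 3 * κ) / V)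
    obtain ⟨s, hs1, hs2⟩ := Set.Infinite.exists_subset_card_eq hinf n
    have h1 := hpack s (Metric.ball 0 (|R| + d)) ((|R| + d) ^ 3 * κ) (by positivity)
      (by rw [ball_vol _ (by positivity)])
      (fun i hi => (hnear R i (hs1 hi)).trans (Metric.ball_subset_ball (by
        have := le_abs_self R; linarith)))
    rw [hs2] at h1
    rw [div_lt_iff₀ hVpos] at hn
    linarith
  refine ⟨hfin, ?_, ?_⟩
  · -- boundary tiles
    refine ⟨(8 * d + 8 * d ^ 3) * κ / V, fun R hR => ?_⟩
    have hRpos : 0 < R := by linarith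
    have hfb : {i | (T i ∩ Metric.ball 0 R).Nonempty ∧ ¬ T i ⊆ Metric.ball 0 R}.Finite :=
      (hfin R).subset fun i hi => hi.1
    rw [Set.ncard_eq_toFinset_card _ hfb]
    rw [div_mul_eq_mul_div, le_div_iff₀ hVpos]
    have hsub : ∀ i ∈ hfb.toFinset, T i ⊆ Metric.ball 0 (R + d) \ Metric.ball 0 (R - d) := by
      intro i hi y hy
      rw [Set.Finite.mem_toFinset] at hi
      obtain ⟨h1, h2⟩ := hi
      refine ⟨hnear R i h1 hy, ?_⟩
      rw [Set.not_subset] at h2
      obtain ⟨z, hz, hzb⟩ := h2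
      rw [mem_ball_zero_iff, not_lt] at hzb ⊢
      have h3 := hdiam i z hz y hy
      have h4 : ‖z‖ ≤ ‖z - y‖ + ‖y‖ := by
        calc ‖z‖ = ‖(z - y) + y‖ := by rw [sub_add_cancel]
          _ ≤ _ := norm_add_le _ _
      linarith
    rcases le_total d R with hdR | hdR
    · have hvolQ : volume (Metric.ball (0 : E3) (R + d) \ Metric.ball 0 (R - d)) ≤
          ENNReal.ofReal (((R + d) ^ 3 - (R - d) ^ 3) * κ) := by
        rw [measure_sdiff (Metric.ball_subset_ball (by linarith))
          Metric.isOpen_ball.measurableSet.nullMeasurableSet measure_ball_lt_top.ne,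
          ball_vol (R + d) (by linarith), ball_vol (R - d) (by linarith), ← ENNReal.ofReal_sub]
        · apply ENNReal.ofReal_le_ofReal
          rw [← hκ]
          linarith
        · have : 0 ≤ R - d := by linarith
          positivity
      have h1 := hpack hfb.toFinset _ (((R + d) ^ 3 - (R - d) ^ 3) * κ) (by
        have e : (R + d) ^ 3 - (R - d) ^ 3 = 6 * R ^ 2 * d + 2 * d ^ 3 := by ring
        rw [e]
        have : 0 < d := by linarith
        positivity) hvolQ hsub
      refine h1.trans ?_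
      have e : (R + d) ^ 3 - (R - d) ^ 3 = 6 * R ^ 2 * d + 2 * d ^ 3 := by ring
      rw [e]
      have h2 : d ^ 3 ≤ R ^ 2 * d := by
        have : d ^ 2 ≤ R ^ 2 := by nlinarith
        nlinarith
      have h3 : 6 * R ^ 2 * d + 2 * d ^ 3 ≤ (8 * d + 8 * d ^ 3) * R ^ 2 := by
        have : 0 ≤ d ^ 3 * R ^ 2 := by positivity
        nlinarith
      nlinarith
    · have hvolQ : volume (Metric.ball (0 : E3) (R + d) \ Metric.ball 0 (R - d)) ≤
          ENNReal.ofReal ((R + d) ^ 3 * κ) := by
        refine (measure_mono sdiff_subset).trans ?_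
        rw [ball_vol _ (by linarith)]
      have h1 := hpack hfb.toFinset _ ((R + d) ^ 3 * κ) (by positivity) hvolQ hsub
      refine h1.trans ?_
      have h2 : (R + d) ^ 3 ≤ (2 * d) ^ 3 := pow_le_pow_left₀ (by linarith) (by linarith) 3
      have h3 : (2 * d) ^ 3 ≤ (8 * d + 8 * d ^ 3) * R ^ 2 := by
        have h4 : 1 ≤ R ^ 2 := by nlinarith
        have h5 : 0 ≤ 8 * d + 8 * d ^ 3 := by positivity
        nlinarith
      nlinarith
  · -- inner tiles
    refine ⟨κ / (8 * V), by positivity, 2 * d, fun R hR => ?_⟩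
    have hRpos : 0 < R := by linarith
    have hfi : {i | T i ⊆ Metric.ball 0 R}.Finite :=
      (hfin R).subset fun i hi => by
        obtain ⟨y, hy⟩ := hTne i
        exact ⟨y, hy, hi hy⟩
    rw [Set.ncard_eq_toFinset_card _ hfi]
    have hcover : Metric.ball (0 : E3) (R - d) ⊆ ⋃ i ∈ hfi.toFinset, T i := by
      intro y hy
      have h1 : y ∈ ⋃ i, T i := by rw [hcov]; exact mem_univ y
      obtain ⟨i, hi⟩ := mem_iUnion.1 h1
      refine mem_iUnion₂.2 ⟨i, ?_, hi⟩
      rw [Set.Finite.mem_toFinset]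
      have h2 := hnear (R - d) i ⟨y, hi, hy⟩
      rw [sub_add_cancel] at h2
      exact h2
    have h1 := measure_mono (μ := (volume : Measure E3)) hcover
    rw [hunion, ball_vol _ (by linarith)] at h1
    have h2 : (R - d) ^ 3 * κ ≤ (hfi.toFinset.card : ℝ) * V :=
      (ENNReal.ofReal_le_ofReal_iff (by positivity)).1 h1
    have h3 : (R / 2) ^ 3 ≤ (R - d) ^ 3 := pow_le_pow_left₀ (by linarith) (by linarith) 3
    rw [div_mul_eq_mul_div, div_le_iff₀ (by positivity)]
    have h4 := mul_le_mul_of_nonneg_right h3 hκpos.le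
    have h5 : (R / 2) ^ 3 = R ^ 3 / 8 := by ring
    rw [h5] at h4
    nlinarith

end Pool.Agent.Helper1.Tet
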