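import Mathlib

/-!
# Tetrahedra: basic definitions (edge lengths, dihedral angles as functions of edge lengths)

The four vertices are `0 1 2 3 : Fin 4`, the six edges are `0 … 5 : Fin 6`
(edge `j` joins `ea j` and `eb j`; the two other vertices are `ec j` and `ed j`).
-/

open Real MeasureTheory Set InnerProductGeometry
open scoped RealInnerProductSpace

namespace Pool.Agent.Helper1.Tet

/-- Euclidean 3-space. -/
abbrev E3 := EuclideanSpace ℝ (Fin 3)

/-- first end of the edge `j` -/
def ea : Fin 6 → Fin 4 := ![0, 0, 0, 1, 1, 2]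
/-- second end of the edge `j` -/
def eb : Fin 6 → Fin 4 := ![1, 2, 3, 2, 3, 3]
/-- first vertex not on the edge `j` -/
def ec : Fin 6 → Fin 4 := ![2, 1, 1, 0, 0, 0]
/-- second vertex not on the edge `j` -/
def ed : Fin 6 → Fin 4 := ![3, 3, 2, 3, 2, 1]
/-- the index of the edge joining two (different) vertices -/
def ix : Fin 4 → Fin 4 → Fin 6 := ![![0, 0, 1, 2], ![0, 0, 3, 4], ![1, 3, 0, 5], ![2, 4, 5, 0]]
/-- the class of the edge `j`: opposite edges are in the same class -/
def cl : Fin 6 → Fin 3 := ![0, 1, 2, 2, 1, 0]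

/-- the edge lengths of a tetrahedron -/
noncomputable def len (p : Fin 4 → E3) (j : Fin 6) : ℝ := dist (p (ea j)) (p (eb j))

/-- `16 area²` of a triangle with sides `x y z` -/
def heron (x y z : ℝ) : ℝ := (x + y + z) * (x + y - z) * (x - y + z) * (-x + y + z)

/-- `D ℓ v` is `16 area²` of the face opposite to the vertex `v`. -/
def D (l : Fin 6 → ℝ) : Fin 4 → ℝ :=
  ![heron (l 3) (l 4) (l 5), heron (l 1) (l 2) (l 5), heron (l 0) (l 2) (l 4),
    heron (l 0) (l 1) (l 3)]

/-- numerator of the cosine of the dihedral angle at the edge `ab` of `abcd`. -/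
def wform (ab ac ad bc bd cd : ℝ) : ℝ :=
  2 * (ac ^ 2 + ad ^ 2 - cd ^ 2) * ab ^ 2
    - (ac ^ 2 + ab ^ 2 - bc ^ 2) * (ad ^ 2 + ab ^ 2 - bd ^ 2)

/-- numerator of the cosine of the dihedral angle at the edge `j` -/
def W (l : Fin 6 → ℝ) (j : Fin 6) : ℝ :=
  wform (l j) (l (ix (ea j) (ec j))) (l (ix (ea j) (ed j))) (l (ix (eb j) (ec j)))
    (l (ix (eb j) (ed j))) (l (ix (ec j) (ed j)))

/-- the Gram determinant of the three edge vectors from the vertex `0` (`= 36 volume²`) -/
noncomputable def Gr (l : Fin 6 → ℝ) : ℝ :=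
  let a := l 0 ^ 2
  let b := l 1 ^ 2
  let c := l 2 ^ 2
  let x := (l 0 ^ 2 + l 1 ^ 2 - l 3 ^ 2) / 2
  let y := (l 0 ^ 2 + l 2 ^ 2 - l 4 ^ 2) / 2
  let z := (l 1 ^ 2 + l 2 ^ 2 - l 5 ^ 2) / 2
  a * b * c + 2 * x * y * z - a * z ^ 2 - b * y ^ 2 - c * x ^ 2

/-- the dihedral angles as functions of the edge lengths -/
noncomputable def al (l : Fin 6 → ℝ) (j : Fin 6) : ℝ :=
  arccos (W l j / (√(D l (ec j)) * √(D l (ed j))))

/-- all strict triangle inequalities in the four faces -/
def Tri (l : Fin 6 → ℝ) : Prop :=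
  ∀ a b c : Fin 4, a ≠ b → b ≠ c → a ≠ c → l (ix a c) < l (ix a b) + l (ix b c)

/-- the set of edge length vectors of (labelled, nondegenerate) tetrahedra -/
def TT : Set (Fin 6 → ℝ) := {l | Tri l ∧ 0 < Gr l}

/-- `∑ ℓ_j (π - α_j)`, i.e. `4π` times the mean width -/
noncomputable def HH (l : Fin 6 → ℝ) : ℝ := ∑ j, l j * (π - al l j)

/-- perimeter of the face opposite to `v` -/
def tt (l : Fin 6 → ℝ) (v : Fin 4) : ℝ := ∑ j, if ea j = v ∨ eb j = v then 0 else l j

/-- length of the closed quadrilateral formed by the edges which are not in the class `c` -/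
def qq (l : Fin 6 → ℝ) (c : Fin 3) : ℝ := ∑ j, if cl j = c then 0 else l j

/-- dual vectors (inward normals of the faces) of a tetrahedron -/
def IsDual (p g : Fin 4 → E3) : Prop :=
  ∀ i j k : Fin 4, ⟪g i, p j - p k⟫ = (if i = j then 1 else 0) - (if i = k then 1 else 0)

/-- angle sum at the vertex `v` minus `π` -/
noncomputable def sv (α : Fin 6 → ℝ) (v : Fin 4) : ℝ :=
  (∑ j, if ea j = v ∨ eb j = v then α j else 0) - π

/-- `2π` minus the sum of the angles along the quadrilateral of the class `c` -/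
noncomputable def gc (α : Fin 6 → ℝ) (c : Fin 3) : ℝ := 2 * π - ∑ j, if cl j = c then 0 else α j

/-- Gram matrix of the unit normals: `-cos α` off the diagonal.  The entry at `(ec j, ed j)`
is `- cos α_j`, since the faces opposite to `ec j` and `ed j` meet in the edge `j`. -/
noncomputable def GG (α : Fin 6 → ℝ) : Matrix (Fin 4) (Fin 4) ℝ :=
  !![1, -cos (α 5), -cos (α 4), -cos (α 3);
     -cos (α 5), 1, -cos (α 2), -cos (α 1);
     -cos (α 4), -cos (α 2), 1, -cos (α 0);
     -cos (α 3), -cos (α 1), -cos (α 0), 1]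

/-- `Φ_j(α) = adj(G(α))_{ec j, ed j} · sin α_j`; for the angles of a tetrahedron this is
proportional to the vector of edge lengths. -/
noncomputable def Phi (α : Fin 6 → ℝ) (j : Fin 6) : ℝ := (GG α).adjugate (ec j) (ed j) * sin (α j)

/-- A set `T` of points of space tiles space: there is a family of sets, each the image of `T`
under an isometry of space, which cover space and have pairwise disjoint interiors. -/
def TilesSpace (T : Set E3) : Prop :=
  ∃ 𝒯 : Set (Set E3), (∀ S ∈ 𝒯, ∃ φ : E3 ≃ᵢ E3, S = φ '' T) ∧ ⋃₀ 𝒯 = univ ∧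
    𝒯.Pairwise fun S S' => Disjoint (interior S) (interior S')

end Pool.Agent.Helper1.Tet
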