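import Mathlib
import Pool.Agent.Helper1.Tet.Defs

/-! # T21b: the shapes of volume one and the normalized shapes -/

open Real MeasureTheory Set InnerProductGeometry Filter Topology
open scoped RealInnerProductSpace ENNReal ContDiff NNReal

namespace Pool.Agent.Helper1.Tet

/-- a map which is `C¹` at each point of a set does not raise the dimension of the set -/
theorem dimH_image_le_of_contDiffAt {E F : Type*} [NormedAddCommGroup E] [NormedSpace ℝ E]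
    [SecondCountableTopology E] [NormedAddCommGroup F] [NormedSpace ℝ F]
    {f : E → F} {s : Set E} (hf : ∀ x ∈ s, ContDiffAt ℝ 1 f x) : dimH (f '' s) ≤ dimH s := by
  refine dimH_image_le_of_locally_lipschitzOn fun x hx => ?_
  obtain ⟨K, t, ht, hK⟩ := (hf x hx).exists_lipschitzOnWith
  exact ⟨K, t, mem_nhdsWithin_of_mem_nhds ht, hK⟩

theorem Gr_smul' (t : ℝ) (l : Fin 6 → ℝ) : Gr (t • l) = t ^ 6 * Gr l := by
  unfold Gr; simp only [Pi.smul_apply, smul_eq_mul]; ring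

theorem contDiff_Gr' : ContDiff ℝ 1 (fun l : Fin 6 → ℝ => Gr l) := by
  unfold Gr; fun_prop

theorem pos_of_Tri {l : Fin 6 → ℝ} (hl : Tri l) : 0 < l 0 := by
  have h1 := hl 0 1 2 (by decide) (by decide) (by decide)
  have h2 := hl 1 0 2 (by decide) (by decide) (by decide)
  simp [ix] at h1 h2
  linarith

theorem dimH_volume_one (S : Set (Fin 6 → ℝ)) (hS : S ⊆ TT) (c : ℝ) (hc : 0 < c)
    (hv : ∀ l ∈ S, c * √(Gr l) = 1)
    (hd : dimH {ρ : Fin 6 → ℝ | ρ 0 = 1 ∧ ∃ t : ℝ, 0 < t ∧ t • ρ ∈ S} ≤ 1) : dimH S ≤ 1 := by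
  set R : Set (Fin 6 → ℝ) := {ρ : Fin 6 → ℝ | ρ 0 = 1 ∧ ∃ t : ℝ, 0 < t ∧ t • ρ ∈ S} with hR
  let Ψ : (Fin 6 → ℝ) → (Fin 6 → ℝ) := fun ρ => (c * √(Gr ρ)) ^ (-(1 / 3) : ℝ) • ρ
  have hGr : ∀ ρ ∈ R, 0 < Gr ρ := by
    rintro ρ ⟨-, t, ht, hts⟩
    have h := (hS hts).2
    rw [Gr_smul'] at h
    exact (mul_pos_iff_of_pos_left (by positivity)).1 h
  have hΨ : ∀ ρ ∈ R, ∀ t : ℝ, 0 < t → t • ρ ∈ S → Ψ ρ = t • ρ := by
    intro ρ hρ t ht hts
    have h := hv _ hts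
    have h6 : √(t ^ 6) = t ^ 3 := by
      rw [show t ^ 6 = (t ^ 3) ^ 2 by ring]
      exact sqrt_sq (by positivity)
    rw [Gr_smul', sqrt_mul (by positivity), h6] at h
    have h1 : c * √(Gr ρ) = (t ^ 3)⁻¹ := by
      refine eq_inv_of_mul_eq_one_left ?_
      linarith
    show (c * √(Gr ρ)) ^ (-(1 / 3) : ℝ) • ρ = t • ρ
    rw [h1]
    congr 1
    rw [rpow_neg (by positivity), ← inv_rpow (by positivity), inv_inv, ← rpow_natCast,
      ← rpow_mul ht.le]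
    norm_num
  have hsub : S ⊆ Ψ '' R := by
    intro l hl
    have hl0 : 0 < l 0 := pos_of_Tri (hS hl).1
    have hmem : (l 0)⁻¹ • l ∈ R := by
      refine ⟨?_, l 0, hl0, ?_⟩
      · simp [hl0.ne']
      · rw [smul_smul, mul_inv_cancel₀ hl0.ne', one_smul]
        exact hl
    refine ⟨_, hmem, ?_⟩
    rw [hΨ _ hmem (l 0) hl0 (by rw [smul_smul, mul_inv_cancel₀ hl0.ne', one_smul]; exact hl),
      smul_smul, mul_inv_cancel₀ hl0.ne', one_smul]
  refine (dimH_mono hsub).trans (le_trans (dimH_image_le_of_contDiffAt fun ρ hρ => ?_) hd)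
  have h1 : ContDiffAt ℝ 1 (fun ρ : Fin 6 → ℝ => c * √(Gr ρ)) ρ :=
    contDiffAt_const.mul ((contDiff_Gr'.contDiffAt).sqrt (hGr ρ hρ).ne')
  have h2 : c * √(Gr ρ) ≠ 0 := (mul_pos hc (sqrt_pos.2 (hGr ρ hρ))).ne'
  exact (h1.rpow_const_of_ne h2).smul contDiffAt_id

end Pool.Agent.Helper1.Tet
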