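import Pool.Agent.Helper1.Tet.Defs

/-!
# T4b: algebraic facts for the edge length vectors in `TT`
-/

open Real MeasureTheory Set InnerProductGeometry
open scoped RealInnerProductSpace

namespace Pool.Agent.Helper1.Tet

namespace T4b

/-- the Gram entries -/
noncomputable def gx (l : Fin 6 → ℝ) : ℝ := (l 0 ^ 2 + l 1 ^ 2 - l 3 ^ 2) / 2
/-- the Gram entries -/
noncomputable def gy (l : Fin 6 → ℝ) : ℝ := (l 0 ^ 2 + l 2 ^ 2 - l 4 ^ 2) / 2
/-- the Gram entries -/
noncomputable def gz (l : Fin 6 → ℝ) : ℝ := (l 1 ^ 2 + l 2 ^ 2 - l 5 ^ 2) / 2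

/-- the matrix with diagonal `D` and off-diagonal entries `-W` -/
def MM (l : Fin 6 → ℝ) : Matrix (Fin 4) (Fin 4) ℝ :=
  !![D l 0, -W l 5, -W l 4, -W l 3;
     -W l 5, D l 1, -W l 2, -W l 1;
     -W l 4, -W l 2, D l 2, -W l 0;
     -W l 3, -W l 1, -W l 0, D l 3]

lemma W0 (l : Fin 6 → ℝ) : W l 0 = 4 * (l 0 ^ 2 * gz l - gx l * gy l) := by
  simp only [W, wform, ea, eb, ec, ed, ix, gx, gy, gz]
  simp
  ring

lemma W1 (l : Fin 6 → ℝ) : W l 1 = 4 * (l 1 ^ 2 * gy l - gx l * gz l) := by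
  simp only [W, wform, ea, eb, ec, ed, ix, gx, gy, gz]
  simp
  ring

lemma W2 (l : Fin 6 → ℝ) : W l 2 = 4 * (l 2 ^ 2 * gx l - gy l * gz l) := by
  simp only [W, wform, ea, eb, ec, ed, ix, gx, gy, gz]
  simp
  ring

lemma D1 (l : Fin 6 → ℝ) : D l 1 = 4 * (l 1 ^ 2 * l 2 ^ 2 - gz l ^ 2) := by
  simp only [D, heron, gz]
  simp
  ring

lemma D2 (l : Fin 6 → ℝ) : D l 2 = 4 * (l 0 ^ 2 * l 2 ^ 2 - gy l ^ 2) := by
  simp only [D, heron, gy]
  simp
  ring

lemma D3 (l : Fin 6 → ℝ) : D l 3 = 4 * (l 0 ^ 2 * l 1 ^ 2 - gx l ^ 2) := by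
  simp only [D, heron, gx]
  simp
  ring

lemma D0' (l : Fin 6 → ℝ) : D l 0 = W l 3 + W l 4 + W l 5 := by
  simp only [D, heron, W, wform, ea, eb, ec, ed, ix]
  simp
  ring

lemma D1' (l : Fin 6 → ℝ) : D l 1 = W l 1 + W l 2 + W l 5 := by
  simp only [D, heron, W, wform, ea, eb, ec, ed, ix]
  simp
  ring

lemma D2' (l : Fin 6 → ℝ) : D l 2 = W l 0 + W l 2 + W l 4 := by
  simp only [D, heron, W, wform, ea, eb, ec, ed, ix]
  simp
  ring

lemma D3' (l : Fin 6 → ℝ) : D l 3 = W l 0 + W l 1 + W l 3 := by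
  simp only [D, heron, W, wform, ea, eb, ec, ed, ix]
  simp
  ring

lemma Gr' (l : Fin 6 → ℝ) : Gr l = l 0 ^ 2 * l 1 ^ 2 * l 2 ^ 2 + 2 * gx l * gy l * gz l
    - l 0 ^ 2 * gz l ^ 2 - l 1 ^ 2 * gy l ^ 2 - l 2 ^ 2 * gx l ^ 2 := rfl

/-- the fundamental identity -/
lemma W_sq (l : Fin 6 → ℝ) (j : Fin 6) :
    W l j ^ 2 + 16 * l j ^ 2 * Gr l = D l (ec j) * D l (ed j) := by
  fin_cases j <;>
  · simp only [D, heron, W, wform, ea, eb, ec, ed, ix, Gr]
    simp
    ring

lemma adj_MM (l : Fin 6 → ℝ) (i j : Fin 4) : (MM l).adjugate i j = 64 * Gr l ^ 2 := by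
  have h : 64 * Gr l ^ 2 = D l 1 * D l 2 * D l 3 - W l 0 ^ 2 * D l 1 - W l 1 ^ 2 * D l 2
      - W l 2 ^ 2 * D l 3 - 2 * W l 0 * W l 1 * W l 2 := by
    rw [W0, W1, W2, D1, D2, D3, Gr']
    ring
  rw [h, Matrix.adjugate_fin_succ_eq_det_submatrix, Matrix.det_fin_three]
  fin_cases i <;> fin_cases j <;>
    simp [MM, Fin.succAbove, D0', D1', D2', D3'] <;> ring

lemma det_MM (l : Fin 6 → ℝ) : (MM l).det = 0 := by
  rw [← Matrix.exists_mulVec_eq_zero_iff]
  refine ⟨fun _ => 1, fun h => by simpa using congrFun h 0, ?_⟩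
  ext i
  fin_cases i <;>
    simp [MM, Matrix.mulVec, dotProduct, Fin.sum_univ_four, D0', D1', D2', D3'] <;> ring

end T4b

open T4b in
theorem TT_facts {l : Fin 6 → ℝ} (hl : l ∈ TT) :
    (∀ j, 0 < l j) ∧ (∀ v, 0 < D l v) ∧
    (∀ j, cos (al l j) = W l j / (√(D l (ec j)) * √(D l (ed j)))) ∧
    (∀ j, sin (al l j) = 4 * l j * √(Gr l) / (√(D l (ec j)) * √(D l (ed j)))) ∧
    (∀ j, al l j ∈ Ioo 0 π) ∧
    (GG (al l)).det = 0 ∧ (∀ v, 0 < (GG (al l)).adjugate v v) ∧
    (∀ j, 0 < (GG (al l)).adjugate (ec j) (ed j)) ∧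
    ∃ κ : ℝ, 0 < κ ∧ ∀ j, Phi (al l) j = κ * l j := by
  obtain ⟨hT, hG⟩ := hl
  -- triangle inequalities
  have t1 : l 1 < l 0 + l 3 := by simpa [ix] using hT 0 1 2 (by decide) (by decide) (by decide)
  have t2 : l 0 < l 1 + l 3 := by simpa [ix] using hT 0 2 1 (by decide) (by decide) (by decide)
  have t3 : l 3 < l 0 + l 1 := by simpa [ix] using hT 1 0 2 (by decide) (by decide) (by decide)
  have t4 : l 2 < l 0 + l 4 := by simpa [ix] using hT 0 1 3 (by decide) (by decide) (by decide)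
  have t5 : l 0 < l 2 + l 4 := by simpa [ix] using hT 0 3 1 (by decide) (by decide) (by decide)
  have t6 : l 4 < l 0 + l 2 := by simpa [ix] using hT 1 0 3 (by decide) (by decide) (by decide)
  have t7 : l 2 < l 1 + l 5 := by simpa [ix] using hT 0 2 3 (by decide) (by decide) (by decide)
  have t8 : l 1 < l 2 + l 5 := by simpa [ix] using hT 0 3 2 (by decide) (by decide) (by decide)
  have t9 : l 5 < l 1 + l 2 := by simpa [ix] using hT 2 0 3 (by decide) (by decide) (by decide)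
  have t10 : l 4 < l 3 + l 5 := by simpa [ix] using hT 1 2 3 (by decide) (by decide) (by decide)
  have t11 : l 3 < l 4 + l 5 := by simpa [ix] using hT 1 3 2 (by decide) (by decide) (by decide)
  have t12 : l 5 < l 3 + l 4 := by simpa [ix] using hT 2 1 3 (by decide) (by decide) (by decide)
  have hpos : ∀ j, 0 < l j := by
    intro j
    fin_cases j <;> simp <;> linarith
  have h0 := hpos 0
  have h1 := hpos 1
  have h2 := hpos 2
  have h3 := hpos 3
  have h4 := hpos 4
  have h5 := hpos 5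
  have hheron : ∀ x y z : ℝ, 0 < x → 0 < y → 0 < z → z < x + y → y < x + z → x < y + z →
      0 < heron x y z := by
    intro x y z hx hy hz h6 h7 h8
    unfold heron
    have e1 : 0 < x + y + z := by linarith
    have e2 : 0 < x + y - z := by linarith
    have e3 : 0 < x - y + z := by linarith
    have e4 : 0 < -x + y + z := by linarith
    positivity
  have hD : ∀ v, 0 < D l v := by
    intro v
    fin_cases v
    · exact hheron _ _ _ h3 h4 h5 (by linarith) (by linarith) (by linarith)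
    · exact hheron _ _ _ h1 h2 h5 (by linarith) (by linarith) (by linarith)
    · exact hheron _ _ _ h0 h2 h4 (by linarith) (by linarith) (by linarith)
    · exact hheron _ _ _ h0 h1 h3 (by linarith) (by linarith) (by linarith)
  have hs : ∀ v, 0 < √(D l v) := fun v => Real.sqrt_pos.2 (hD v)
  have hss : ∀ v, √(D l v) ^ 2 = D l v := fun v => Real.sq_sqrt (hD v).le
  have hGs : 0 < √(Gr l) := Real.sqrt_pos.2 hG
  have hprod : ∀ j, (√(D l (ec j)) * √(D l (ed j))) ^ 2 = D l (ec j) * D l (ed j) := by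
    intro j
    rw [mul_pow, hss, hss]
  have hP : ∀ j, 0 < √(D l (ec j)) * √(D l (ed j)) := fun j => mul_pos (hs _) (hs _)
  -- the quotient lies in `(-1, 1)`
  have hq : ∀ j, (W l j / (√(D l (ec j)) * √(D l (ed j)))) ^ 2 =
      1 - (4 * l j * √(Gr l) / (√(D l (ec j)) * √(D l (ed j)))) ^ 2 := by
    intro j
    rw [div_pow, div_pow, hprod]
    have h6 : D l (ec j) * D l (ed j) ≠ 0 := (mul_pos (hD _) (hD _)).ne'
    rw [eq_sub_iff_add_eq, ← add_div, div_eq_one_iff_eq h6, ← W_sq, mul_pow, mul_pow,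
      Real.sq_sqrt hG.le]
    ring
  have hq2 : ∀ j, |W l j / (√(D l (ec j)) * √(D l (ed j)))| ≤ 1 := by
    intro j
    rw [← sq_le_one_iff_abs_le_one, hq]
    nlinarith [sq_nonneg (4 * l j * √(Gr l) / (√(D l (ec j)) * √(D l (ed j))))]
  have hcos : ∀ j, cos (al l j) = W l j / (√(D l (ec j)) * √(D l (ed j))) := by
    intro j
    have h6 := abs_le.1 (hq2 j)
    exact Real.cos_arccos h6.1 h6.2
  have hsin : ∀ j, sin (al l j) = 4 * l j * √(Gr l) / (√(D l (ec j)) * √(D l (ed j))) := by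
    intro j
    unfold al
    rw [Real.sin_arccos, hq, sub_sub_cancel, Real.sqrt_sq]
    have := hpos j
    have := hP j
    positivity
  have hsinpos : ∀ j, 0 < sin (al l j) := by
    intro j
    rw [hsin]
    have := hpos j
    have := hP j
    positivity
  have hal : ∀ j, al l j ∈ Ioo 0 π := by
    intro j
    refine ⟨lt_of_le_of_ne (Real.arccos_nonneg _) ?_, lt_of_le_of_ne (Real.arccos_le_pi _) ?_⟩
    · intro h
      have h6 := hsinpos j
      rw [← show (0 : ℝ) = al l j from h, sin_zero] at h6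
      exact lt_irrefl _ h6
    · intro h
      have h6 := hsinpos j
      rw [show al l j = π from h, sin_pi] at h6
      exact lt_irrefl _ h6
  -- the matrix identity
  set S : Matrix (Fin 4) (Fin 4) ℝ := Matrix.diagonal fun v => √(D l v) with hS
  have hM : MM l = S * GG (al l) * S := by
    have e : ∀ a b w : ℝ, 0 < a → 0 < b → a * (w / (a * b)) * b = w := by
      intro a b w ha hb
      field_simp
    have e' : ∀ a b w : ℝ, 0 < a → 0 < b → b * (w / (a * b)) * a = w := by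
      intro a b w ha hb
      field_simp
    ext i j
    rw [hS, Matrix.mul_diagonal, Matrix.diagonal_mul]
    have c0 := hcos 0
    have c1 := hcos 1
    have c2 := hcos 2
    have c3 := hcos 3
    have c4 := hcos 4
    have c5 := hcos 5
    simp only [ec, ed] at c0 c1 c2 c3 c4 c5
    simp at c0 c1 c2 c3 c4 c5
    fin_cases i <;> fin_cases j <;>
      simp [MM, GG, c0, c1, c2, c3, c4, c5, e _ _ _ (hs _) (hs _), e' _ _ _ (hs _) (hs _)] <;>
      first
        | done
        | (rw [← pow_two, hss])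
  set P : Fin 4 → ℝ := fun v => ∏ w ∈ Finset.univ.erase v, √(D l w) with hPdef
  have hPpos : ∀ v, 0 < P v := fun v => Finset.prod_pos fun w _ => hs w
  have hadj : ∀ i j, (GG (al l)).adjugate i j = 64 * Gr l ^ 2 / (P i * P j) := by
    intro i j
    have h6 := adj_MM l i j
    rw [hM, Matrix.adjugate_mul_distrib, Matrix.adjugate_mul_distrib] at h6
    have h7 : S.adjugate = Matrix.diagonal P := by
      rw [hS, Matrix.adjugate_diagonal]
    rw [h7, Matrix.diagonal_mul, Matrix.mul_diagonal] at h6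
    have h8 := (hPpos i).ne'
    have h9 := (hPpos j).ne'
    rw [← h6]
    field_simp
  have hadjpos : ∀ i j, 0 < (GG (al l)).adjugate i j := by
    intro i j
    rw [hadj]
    have := hPpos i
    have := hPpos j
    positivity
  have hdet : (GG (al l)).det = 0 := by
    have h6 := det_MM l
    rw [hM, Matrix.det_mul, Matrix.det_mul] at h6
    have h7 : S.det ≠ 0 := by
      rw [hS, Matrix.det_diagonal]
      exact (Finset.prod_pos fun w _ => hs w).ne'
    have h8 := (mul_eq_zero.1 h6).resolve_right h7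
    exact (mul_eq_zero.1 h8).resolve_left h7
  refine ⟨hpos, hD, hcos, hsin, hal, hdet, fun v => hadjpos v v, fun j => hadjpos _ _, ?_⟩
  set Q : ℝ := ∏ w, √(D l w) with hQ
  have hQpos : 0 < Q := Finset.prod_pos fun w _ => hs w
  have hPQ : ∀ v, √(D l v) * P v = Q := fun v =>
    Finset.mul_prod_erase Finset.univ (fun w => √(D l w)) (Finset.mem_univ v)
  refine ⟨256 * Gr l ^ 2 * √(Gr l) / Q ^ 2, by positivity, fun j => ?_⟩
  unfold Phi
  rw [hadj, hsin]
  have h6 := hs (ec j)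
  have h7 := hs (ed j)
  have h8 := hPpos (ec j)
  have h9 := hPpos (ed j)
  have h10 : Q ^ 2 = (√(D l (ec j)) * P (ec j)) * (√(D l (ed j)) * P (ed j)) := by
    rw [hPQ, hPQ, pow_two]
  rw [h10]
  field_simp
  ring

end Pool.Agent.Helper1.Tet
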