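import Mathlib
import Pool.Agent.Helper1.Tet.Defs
import Pool.Agent.Helper1.Tet.DimVolume
import Pool.Agent.Helper1.Tet.TTFacts

/-! # T20a: edge lengths as a locally Lipschitz function of the angles -/

open Real MeasureTheory Set InnerProductGeometry Filter Topology
open scoped RealInnerProductSpace ENNReal ContDiff NNReal

namespace Pool.Agent.Helper1.Tet

theorem contDiff_GG_apply (i j : Fin 4) : ContDiff ℝ 1 (fun α : Fin 6 → ℝ => GG α i j) := by
  unfold GG
  fin_cases i <;> fin_cases j <;> simp <;> fun_prop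

theorem contDiff_det_of_apply {n : ℕ} {E : Type*} [NormedAddCommGroup E] [NormedSpace ℝ E]
    {M : E → Matrix (Fin n) (Fin n) ℝ} (hM : ∀ i j, ContDiff ℝ 1 fun x => M x i j) :
    ContDiff ℝ 1 fun x => (M x).det := by
  simp only [Matrix.det_apply']
  refine ContDiff.sum fun σ _ => ?_
  exact contDiff_const.mul (contDiff_prod fun i _ => hM _ _)

theorem contDiff_Phi (j : Fin 6) : ContDiff ℝ 1 (fun α : Fin 6 → ℝ => Phi α j) := by
  unfold Phi
  refine ContDiff.mul ?_ (by fun_prop)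
  simp only [Matrix.adjugate_apply]
  refine contDiff_det_of_apply fun i k => ?_
  simp only [Matrix.updateRow_apply]
  split_ifs
  · exact contDiff_const
  · exact contDiff_GG_apply i k

theorem dimH_of_angles_core (A : Set (Fin 6 → ℝ))
    (hfacts : ∀ l ∈ TT, ∃ κ : ℝ, 0 < κ ∧ ∀ j, Phi (al l) j = κ * l j) :
    dimH {l | l ∈ TT ∧ l 0 = 1 ∧ al l ∈ A} ≤ dimH A := by
  let Ψ : (Fin 6 → ℝ) → (Fin 6 → ℝ) := fun α j => Phi α j / Phi α 0
  have hsub : {l | l ∈ TT ∧ l 0 = 1 ∧ al l ∈ A} ⊆ Ψ '' (A ∩ {α | Phi α 0 ≠ 0}) := by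
    rintro l ⟨hl, hl0, hA⟩
    obtain ⟨κ, hκ, h⟩ := hfacts l hl
    refine ⟨al l, ⟨hA, ?_⟩, ?_⟩
    · show Phi (al l) 0 ≠ 0
      rw [h, hl0, mul_one]
      exact hκ.ne'
    · funext j
      show Phi (al l) j / Phi (al l) 0 = l j
      rw [h, h, hl0, mul_one, mul_div_cancel_left₀ _ hκ.ne']
  refine (dimH_mono hsub).trans ((dimH_image_le_of_contDiffAt fun α hα => ?_).trans
    (dimH_mono inter_subset_left))
  refine contDiffAt_pi.2 fun j => ?_
  exact (contDiff_Phi j).contDiffAt.div (contDiff_Phi 0).contDiffAt hα.2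

theorem dimH_of_angles (A : Set (Fin 6 → ℝ)) :
    dimH {l | l ∈ TT ∧ l 0 = 1 ∧ al l ∈ A} ≤ dimH A :=
  dimH_of_angles_core A fun l hl => by
    obtain ⟨-, -, -, -, -, -, -, -, h⟩ := TT_facts hl
    exact h

end Pool.Agent.Helper1.Tet
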