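import Pool.Agent.Helper1.Tet.ZeroSet
import Pool.Agent.Helper1.Tet.DimAngles

/-! # Sets covered by countably many Lipschitz curves -/

open Real MeasureTheory Set InnerProductGeometry Filter Topology
open scoped RealInnerProductSpace ENNReal ContDiff NNReal

namespace Pool.Agent.Helper1.Tet

/-- `S` is covered by countably many Lipschitz images of subsets of the line. -/
def Cov {X : Type*} [PseudoEMetricSpace X] (S : Set X) : Prop :=
  ∃ C : Set (Set ℝ × (ℝ → X)), C.Countable ∧ (∀ c ∈ C, ∃ K, LipschitzOnWith K c.2 c.1) ∧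
    S ⊆ ⋃ c ∈ C, c.2 '' c.1

variable {X Y : Type*} [PseudoEMetricSpace X] [PseudoEMetricSpace Y]

theorem Cov.mono {S S' : Set X} (h : Cov S') (hS : S ⊆ S') : Cov S := by
  obtain ⟨C, h0, h1, h2⟩ := h
  exact ⟨C, h0, h1, hS.trans h2⟩

theorem Cov.empty : Cov (∅ : Set X) := ⟨∅, countable_empty, by simp, by simp⟩

theorem Cov.biUnion {ι : Type*} {I : Set ι} (hI : I.Countable) {S : ι → Set X}
    (h : ∀ i ∈ I, Cov (S i)) : Cov (⋃ i ∈ I, S i) := by
  choose! C h0 h1 h2 using h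
  refine ⟨⋃ i ∈ I, C i, hI.biUnion h0, ?_, ?_⟩
  · intro c hc
    simp only [mem_iUnion] at hc
    obtain ⟨i, hi, hc⟩ := hc
    exact h1 i hi c hc
  · intro x hx
    simp only [mem_iUnion] at hx
    obtain ⟨i, hi, hx⟩ := hx
    have := h2 i hi hx
    simp only [mem_iUnion] at this ⊢
    obtain ⟨c, hc, hx'⟩ := this
    exact ⟨c, ⟨i, hi, hc⟩, hx'⟩

theorem Cov.iUnion {ι : Type*} [Countable ι] {S : ι → Set X} (h : ∀ i, Cov (S i)) :
    Cov (⋃ i, S i) := by
  have := Cov.biUnion (I := (univ : Set ι)) countable_univ (S := S) fun i _ => h i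
  simpa using this

theorem Cov.of_local [SecondCountableTopology X] {S : Set X}
    (h : ∀ z ∈ S, ∃ t ∈ 𝓝[S] z, Cov t) : Cov S := by
  choose! t ht hC using h
  obtain ⟨I, hIS, hI, hU⟩ := TopologicalSpace.countable_cover_nhdsWithin ht
  exact (Cov.biUnion hI fun i hi => hC i (hIS hi)).mono hU

theorem Cov.image_lipschitzOn {S : Set X} (h : Cov S) {f : X → Y} {K : ℝ≥0}
    (hf : LipschitzOnWith K f S) : Cov (f '' S) := by
  obtain ⟨C, h0, h1, h2⟩ := h
  refine ⟨(fun c : Set ℝ × (ℝ → X) => (c.1 ∩ c.2 ⁻¹' S, f ∘ c.2)) '' C, h0.image _, ?_, ?_⟩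
  · rintro _ ⟨c, hc, rfl⟩
    obtain ⟨K', hK'⟩ := h1 c hc
    exact ⟨K * K', hf.comp (hK'.mono inter_subset_left) fun x hx => hx.2⟩
  · rintro _ ⟨x, hx, rfl⟩
    have := h2 hx
    simp only [mem_iUnion] at this ⊢
    obtain ⟨c, hc, s, hs, rfl⟩ := this
    exact ⟨_, ⟨c, hc, rfl⟩, s, ⟨hs, hx⟩, rfl⟩

theorem Cov.image_locally_lipschitzOn [SecondCountableTopology X] {S : Set X} (h : Cov S)
    {f : X → Y} (hf : ∀ x ∈ S, ∃ K : ℝ≥0, ∃ t ∈ 𝓝[S] x, LipschitzOnWith K f t) :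
    Cov (f '' S) := by
  choose! K t ht hK using hf
  obtain ⟨I, hIS, hI, hU⟩ := TopologicalSpace.countable_cover_nhdsWithin ht
  have h1 : Cov (⋃ i ∈ I, f '' (S ∩ t i)) := Cov.biUnion hI fun i hi =>
    (h.mono inter_subset_left).image_lipschitzOn ((hK i (hIS hi)).mono inter_subset_right)
  refine h1.mono ?_
  rintro _ ⟨x, hx, rfl⟩
  have := hU hx
  simp only [mem_iUnion] at this ⊢
  obtain ⟨i, hi, hxi⟩ := this
  exact ⟨i, hi, x, ⟨hx, hxi⟩, rfl⟩

theorem Cov.image_of_contDiffAt {E F : Type*} [NormedAddCommGroup E] [NormedSpace ℝ E]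
    [SecondCountableTopology E] [NormedAddCommGroup F] [NormedSpace ℝ F] {S : Set E} (h : Cov S)
    {f : E → F} (hf : ∀ x ∈ S, ContDiffAt ℝ 1 f x) : Cov (f '' S) := by
  refine h.image_locally_lipschitzOn fun x hx => ?_
  obtain ⟨K, t, ht, hK⟩ := (hf x hx).exists_lipschitzOnWith
  exact ⟨K, t, mem_nhdsWithin_of_mem_nhds ht, hK⟩

theorem Cov.of_real (S : Set ℝ) : Cov S :=
  ⟨{(univ, id)}, countable_singleton _, by
    rintro _ rfl
    exact ⟨1, LipschitzWith.id.lipschitzOnWith⟩, by simp⟩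

/-- a finite-dimensional space of dimension at most one -/
theorem Cov.of_finrank_le_one {E : Type*} [NormedAddCommGroup E] [NormedSpace ℝ E]
    [FiniteDimensional ℝ E] (hE : Module.finrank ℝ E ≤ 1) (S : Set E) : Cov S := by
  obtain ⟨v, hv⟩ := finrank_le_one_iff.1 hE
  have h1 : S ⊆ (fun t : ℝ => t • v) '' univ := by
    intro x _
    obtain ⟨c, hc⟩ := hv x
    exact ⟨c, mem_univ _, hc⟩
  refine ((Cov.of_real univ).image_of_contDiffAt fun x _ => ?_).mono h1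
  fun_prop

theorem Cov.dimH_le {X : Type*} [EMetricSpace X] {S : Set X} (h : Cov S) : dimH S ≤ 1 := by
  obtain ⟨C, h0, h1, h2⟩ := h
  refine (dimH_mono h2).trans ?_
  rw [dimH_bUnion h0]
  refine iSup₂_le fun c hc => ?_
  obtain ⟨K, hK⟩ := h1 c hc
  refine hK.dimH_image_le.trans ((dimH_mono (subset_univ _)).trans ?_)
  rw [Real.dimH_univ]

/-- in `ℝⁿ` the curves can be taken to be defined on the whole line -/
theorem Cov.exists_curves {ι : Type*} [Fintype ι] {S : Set (ι → ℝ)} (h : Cov S) :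
    ∃ γ : ℕ → ℝ → (ι → ℝ), (∀ n, ∃ K, LipschitzWith K (γ n)) ∧ S ⊆ ⋃ n, range (γ n) := by
  obtain ⟨C, h0, h1, h2⟩ := h
  rcases C.eq_empty_or_nonempty with rfl | hne
  · refine ⟨fun _ _ => 0, fun _ => ⟨0, LipschitzWith.const _⟩, ?_⟩
    intro x hx
    simpa using h2 hx
  · obtain ⟨e, he⟩ := h0.exists_eq_range hne
    have h3 : ∀ n, ∃ K, ∃ g : ℝ → ι → ℝ, LipschitzWith K g ∧ EqOn (e n).2 g (e n).1 := by
      intro n
      obtain ⟨K, hK⟩ := h1 (e n) (by rw [he]; exact mem_range_self n)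
      obtain ⟨g, hg, hg'⟩ := hK.extend_pi
      exact ⟨K, g, hg, hg'⟩
    choose K g hg hg' using h3
    refine ⟨g, fun n => ⟨K n, hg n⟩, fun x hx => ?_⟩
    have h4 := h2 hx
    simp only [mem_iUnion] at h4 ⊢
    obtain ⟨c, hc, s, hs, rfl⟩ := h4
    rw [he] at hc
    obtain ⟨n, rfl⟩ := hc
    exact ⟨n, s, (hg' n hs).symm⟩

/-! ## zero sets of analytic functions -/

theorem cov_zeroSet_local {E : Type*} [NormedAddCommGroup E] [NormedSpace ℝ E]
    [FiniteDimensional ℝ E] (hE : Module.finrank ℝ E = 2) {G : E → ℝ} {z : E}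
    (hG : ContDiffAt ℝ 1 G z) (hz : G z = 0) (hd : fderiv ℝ G z ≠ 0) :
    ∃ t ∈ 𝓝[{x | G x = 0}] z, Cov t := by
  have : ProperSpace E := FiniteDimensional.proper ℝ E
  have : CompleteSpace E := FiniteDimensional.complete ℝ E
  have hstr : HasStrictFDerivAt G (fderiv ℝ G z) z :=
    (hG.hasStrictFDerivAt one_ne_zero)
  have hsurj : Function.Surjective (fderiv ℝ G z) := by
    have := LinearMap.surjective (f := (fderiv ℝ G z).toLinearMap) (by
      intro h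
      apply hd
      ext x
      exact LinearMap.congr_fun h x)
    exact this
  have hr : (fderiv ℝ G z).range = ⊤ := LinearMap.range_eq_top.2 hsurj
  obtain ⟨K, s, hs, hL⟩ := (hstr.to_implicitFunction hr).exists_lipschitzOnWith
  set g := hstr.implicitFunction G (fderiv ℝ G z) hr (G z) with hg
  have h1 := hstr.eq_implicitFunction hr
  have h2 : ∀ᶠ x in 𝓝 z, (hstr.implicitToOpenPartialHomeomorph G (fderiv ℝ G z) hr x).snd ∈ s := by
    have hc : ContinuousAt (hstr.implicitToOpenPartialHomeomorph G (fderiv ℝ G z) hr) z :=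
      (hstr.implicitToOpenPartialHomeomorph G (fderiv ℝ G z) hr).continuousAt
        (hstr.mem_implicitToOpenPartialHomeomorph_source hr)
    have hc2 := hc.snd
    have : (hstr.implicitToOpenPartialHomeomorph G (fderiv ℝ G z) hr z).snd = 0 := by simp
    apply hc2
    have h0 : s ∈ 𝓝 (hstr.implicitToOpenPartialHomeomorph G (fderiv ℝ G z) hr z).snd := by
      rw [this]
      exact hs
    exact h0
  refine ⟨g '' s, ?_, ?_⟩
  · filter_upwards [self_mem_nhdsWithin, nhdsWithin_le_nhds h1, nhdsWithin_le_nhds h2] with x hx hx1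
      hx2
    refine ⟨_, hx2, ?_⟩
    have hx' : G x = 0 := hx
    rw [hx'] at hx1
    rw [hg, hz]
    exact hx1
  · refine (Cov.of_finrank_le_one ?_ s).image_lipschitzOn hL
    have h6 := LinearMap.finrank_range_add_finrank_ker (fderiv ℝ G z).toLinearMap
    have h7 : Module.finrank ℝ (LinearMap.range (fderiv ℝ G z).toLinearMap) =
        Module.finrank ℝ ℝ := by
      have : LinearMap.range (fderiv ℝ G z).toLinearMap = ⊤ := hr
      rw [this, finrank_top]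
    have h8 : Module.finrank ℝ (fderiv ℝ G z).ker =
        Module.finrank ℝ (LinearMap.ker (fderiv ℝ G z).toLinearMap) := rfl
    rw [Module.finrank_self] at h7
    rw [h8]
    omega

theorem cov_zeroSet_level {E : Type*} [NormedAddCommGroup E] [NormedSpace ℝ E]
    [FiniteDimensional ℝ E] (hE : Module.finrank ℝ E = 2) {f : E → ℝ} {O : Set E}
    (hf : AnalyticOnNhd ℝ f O) (n : ℕ) :
    Cov {z | z ∈ O ∧ iteratedFDeriv ℝ n f z = 0 ∧ iteratedFDeriv ℝ (n + 1) f z ≠ 0} := by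
  have : ProperSpace E := FiniteDimensional.proper ℝ E
  refine Cov.of_local fun z hz => ?_
  obtain ⟨hzO, hz0, hz1⟩ := hz
  have hGa : AnalyticAt ℝ (iteratedFDeriv ℝ n f) z := hf.iteratedFDeriv n z hzO
  have hne : fderiv ℝ (iteratedFDeriv ℝ n f) z ≠ 0 := by
    intro h0
    apply hz1
    ext m
    rw [iteratedFDeriv_succ_apply_left, h0]
    simp
  obtain ⟨v, hv⟩ : ∃ v, fderiv ℝ (iteratedFDeriv ℝ n f) z v ≠ 0 := by
    by_contra hcon
    push Not at hcon
    apply hne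
    ext1 v
    exact hcon v
  obtain ⟨m, hm⟩ : ∃ m, fderiv ℝ (iteratedFDeriv ℝ n f) z v m ≠ 0 := by
    by_contra hcon
    push Not at hcon
    apply hv
    ext1 m
    exact hcon m
  set φ : ContinuousMultilinearMap ℝ (fun _ : Fin n => E) ℝ →L[ℝ] ℝ :=
    ContinuousMultilinearMap.apply ℝ (fun _ : Fin n => E) ℝ m with hφ
  have hG : ContDiffAt ℝ 1 (fun x => φ (iteratedFDeriv ℝ n f x)) z :=
    φ.contDiff.contDiffAt.comp z (hGa.contDiffAt.of_le le_top)
  have hd : fderiv ℝ (fun x => φ (iteratedFDeriv ℝ n f x)) z ≠ 0 := by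
    intro h0
    have h1 : fderiv ℝ (fun x => φ (iteratedFDeriv ℝ n f x)) z =
        φ.comp (fderiv ℝ (iteratedFDeriv ℝ n f) z) :=
      (φ.hasFDerivAt.comp z hGa.differentiableAt.hasFDerivAt).fderiv
    rw [h1] at h0
    have h2 := DFunLike.congr_fun h0 v
    apply hm
    exact h2
  have hz00 : φ (iteratedFDeriv ℝ n f z) = 0 := by rw [hz0]; simp
  obtain ⟨t, ht, htd⟩ := cov_zeroSet_local hE hG hz00 hd
  have hsub : {z | z ∈ O ∧ iteratedFDeriv ℝ n f z = 0 ∧ iteratedFDeriv ℝ (n + 1) f z ≠ 0} ⊆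
      {x | φ (iteratedFDeriv ℝ n f x) = 0} := by
    intro x hx
    show φ (iteratedFDeriv ℝ n f x) = 0
    rw [hx.2.1]; simp
  exact ⟨t, nhdsWithin_mono z hsub ht, htd⟩

theorem cov_zero_set {f : ℝ × ℝ → ℝ} {O : Set (ℝ × ℝ)} (hf : AnalyticOnNhd ℝ f O) :
    Cov {z | z ∈ O ∧ f z = 0 ∧ ¬ ∀ᶠ w in 𝓝 z, f w = 0} := by
  have hsub : {z | z ∈ O ∧ f z = 0 ∧ ¬ ∀ᶠ w in 𝓝 z, f w = 0} ⊆
      ⋃ n, {z | z ∈ O ∧ iteratedFDeriv ℝ n f z = 0 ∧ iteratedFDeriv ℝ (n + 1) f z ≠ 0} := by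
    rintro z ⟨hzO, hz0, hz1⟩
    rw [mem_iUnion]
    have hex : ∃ n, iteratedFDeriv ℝ n f z ≠ 0 := by
      by_contra hcon
      push Not at hcon
      exact hz1 (zeroSet_flat (hf z hzO) hcon)
    classical
    have hmin : ∀ m < Nat.find hex, iteratedFDeriv ℝ m f z = 0 := fun m hm => by
      have := Nat.find_min hex hm
      push Not at this
      exact this
    have hspec := Nat.find_spec hex
    obtain h0 | ⟨m, hm⟩ : Nat.find hex = 0 ∨ ∃ m, Nat.find hex = m + 1 := by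
      rcases Nat.find hex with _ | m
      · exact Or.inl rfl
      · exact Or.inr ⟨m, rfl⟩
    · exfalso
      rw [h0] at hspec
      apply hspec
      ext m
      rw [iteratedFDeriv_zero_apply, hz0]
      simp
    · refine ⟨m, hzO, hmin m (by omega), ?_⟩
      rw [← hm]
      exact hspec
  exact (Cov.iUnion fun n => cov_zeroSet_level (by simp) hf n).mono hsub

/-! ## shapes -/

/-- the shape is a locally Lipschitz function of the dihedral angles -/
theorem cov_of_angles (A : Set (Fin 6 → ℝ)) (hA : Cov A) :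
    Cov {l | l ∈ TT ∧ l 0 = 1 ∧ al l ∈ A} := by
  let Ψ : (Fin 6 → ℝ) → (Fin 6 → ℝ) := fun α j => Phi α j / Phi α 0
  have hsub : {l | l ∈ TT ∧ l 0 = 1 ∧ al l ∈ A} ⊆ Ψ '' (A ∩ {α | Phi α 0 ≠ 0}) := by
    rintro l ⟨hl, hl0, hA⟩
    obtain ⟨-, -, -, -, -, -, -, -, κ, hκ, h⟩ := TT_facts hl
    refine ⟨al l, ⟨hA, ?_⟩, ?_⟩
    · show Phi (al l) 0 ≠ 0
      rw [h, hl0, mul_one]
      exact hκ.ne'
    · funext j
      show Phi (al l) j / Phi (al l) 0 = l j
      rw [h, h, hl0, mul_one, mul_div_cancel_left₀ _ hκ.ne']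
  refine ((hA.mono inter_subset_left).image_of_contDiffAt fun α hα => ?_).mono hsub
  refine contDiffAt_pi.2 fun j => ?_
  exact (contDiff_Phi j).contDiffAt.div (contDiff_Phi 0).contDiffAt hα.2

/-- from normalized edge vectors to volume one -/
theorem cov_volume_one (S : Set (Fin 6 → ℝ)) (hS : S ⊆ TT) (c : ℝ) (hc : 0 < c)
    (hv : ∀ l ∈ S, c * √(Gr l) = 1)
    (hd : Cov {ρ : Fin 6 → ℝ | ρ 0 = 1 ∧ ∃ t : ℝ, 0 < t ∧ t • ρ ∈ S}) : Cov S := by
  set R : Set (Fin 6 → ℝ) := {ρ : Fin 6 → ℝ | ρ 0 = 1 ∧ ∃ t : ℝ, 0 < t ∧ t • ρ ∈ S} with hR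
  let Ψ : (Fin 6 → ℝ) → (Fin 6 → ℝ) := fun ρ => (c * √(Gr ρ)) ^ (-(1 / 3) : ℝ) • ρ
  have hGr : ∀ ρ ∈ R, 0 < Gr ρ := by
    rintro ρ ⟨-, t, ht, hts⟩
    have h := (hS hts).2
    rw [Gr_smul'] at h
    exact (mul_pos_iff_of_pos_left (by positivity)).1 h
  have hΨ : ∀ ρ ∈ R, ∀ t : ℝ, 0 < t → t • ρ ∈ S → Ψ ρ = t • ρ := by
    intro ρ hρ t ht hts
    have h := hv _ hts
    have h6 : √(t ^ 6) = t ^ 3 := by
      rw [show t ^ 6 = (t ^ 3) ^ 2 by ring]
      exact sqrt_sq (by positivity)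
    rw [Gr_smul', sqrt_mul (by positivity), h6] at h
    have h1 : c * √(Gr ρ) = (t ^ 3)⁻¹ := by
      refine eq_inv_of_mul_eq_one_left ?_
      linarith
    show (c * √(Gr ρ)) ^ (-(1 / 3) : ℝ) • ρ = t • ρ
    rw [h1]
    congr 1
    rw [rpow_neg (by positivity), ← inv_rpow (by positivity), inv_inv, ← rpow_natCast,
      ← rpow_mul ht.le]
    norm_num
  have hsub : S ⊆ Ψ '' R := by
    intro l hl
    have hl0 : 0 < l 0 := pos_of_Tri (hS hl).1
    have hmem : (l 0)⁻¹ • l ∈ R := by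
      refine ⟨?_, l 0, hl0, ?_⟩
      · simp [hl0.ne']
      · rw [smul_smul, mul_inv_cancel₀ hl0.ne', one_smul]
        exact hl
    refine ⟨_, hmem, ?_⟩
    rw [hΨ _ hmem (l 0) hl0 (by rw [smul_smul, mul_inv_cancel₀ hl0.ne', one_smul]; exact hl),
      smul_smul, mul_inv_cancel₀ hl0.ne', one_smul]
  refine (hd.image_of_contDiffAt fun ρ hρ => ?_).mono hsub
  have h1 : ContDiffAt ℝ 1 (fun ρ : Fin 6 → ℝ => c * √(Gr ρ)) ρ :=
    contDiffAt_const.mul ((contDiff_Gr'.contDiffAt).sqrt (hGr ρ hρ).ne')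
  have h2 : c * √(Gr ρ) ≠ 0 := (mul_pos hc (sqrt_pos.2 (hGr ρ hρ))).ne'
  exact (h1.rpow_const_of_ne h2).smul contDiffAt_id

end Pool.Agent.Helper1.Tet
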