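import Pool.Agent.Helper1.Tet.Cov

/-! The sets `FF N q` for at most two and for at least five relations. -/

open Real MeasureTheory Set InnerProductGeometry Filter Topology
open scoped ContDiff ENNReal NNReal

namespace Pool.Agent.Helper1.Tet

/-- normalized edge length vectors in the span of the rows `N k`, whose angles satisfy the
relations `N k · α = q k π` -/
def FF {r : ℕ} (N : Fin r → Fin 6 → ℝ) (q : Fin r → ℝ) : Set (Fin 6 → ℝ) :=
  {l | l ∈ TT ∧ l 0 = 1 ∧ l ∈ Submodule.span ℝ (range N) ∧ ∀ k, ∑ j, N k j * al l j = q k * π}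

/-- the vectors orthogonal to `r` independent rows -/
noncomputable def perpRows {r : ℕ} (N : Fin r → Fin 6 → ℝ) : Submodule ℝ (Fin 6 → ℝ) :=
  LinearMap.ker (Matrix.mulVecLin (Matrix.of N))

theorem mem_perpRows {r : ℕ} (N : Fin r → Fin 6 → ℝ) (x : Fin 6 → ℝ) :
    x ∈ perpRows N ↔ ∀ k, ∑ j, N k j * x j = 0 := by
  unfold perpRows
  rw [LinearMap.mem_ker, Matrix.mulVecLin_apply]
  constructor
  · intro h k
    exact congrFun h k
  · intro h
    funext k
    exact h k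

theorem finrank_perpRows {r : ℕ} (N : Fin r → Fin 6 → ℝ) (hN : LinearIndependent ℝ N) :
    Module.finrank ℝ (perpRows N) + r = 6 := by
  have h1 := LinearMap.finrank_range_add_finrank_ker (Matrix.mulVecLin (Matrix.of N))
  have h2 : Module.finrank ℝ (LinearMap.range (Matrix.mulVecLin (Matrix.of N))) = r := by
    have h3 : (Matrix.of N).rank = r := by
      have := LinearIndependent.rank_matrix (M := Matrix.of N) hN
      simpa using this
    exact h3
  rw [h2] at h1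
  simp at h1
  unfold perpRows
  omega

/-- the slice `l 0 = 0` of a subspace on which `l 0` does not vanish -/
theorem finrank_slice (P : Submodule ℝ (Fin 6 → ℝ)) (l₀ : Fin 6 → ℝ) (h : l₀ ∈ P)
    (h0 : l₀ 0 = 1) :
    Module.finrank ℝ (P ⊓ LinearMap.ker (LinearMap.proj 0 : (Fin 6 → ℝ) →ₗ[ℝ] ℝ) :
      Submodule ℝ (Fin 6 → ℝ)) + 1 = Module.finrank ℝ P := by
  let F : P →ₗ[ℝ] ℝ := (LinearMap.proj 0 : (Fin 6 → ℝ) →ₗ[ℝ] ℝ) ∘ₗ P.subtype
  have h1 := LinearMap.finrank_range_add_finrank_ker F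
  have h2 : LinearMap.range F = ⊤ := by
    rw [LinearMap.range_eq_top]
    intro y
    refine ⟨y • ⟨l₀, h⟩, ?_⟩
    simp [F, h0]
  rw [h2, finrank_top, Module.finrank_self] at h1
  have h3 : P ⊓ LinearMap.ker (LinearMap.proj 0 : (Fin 6 → ℝ) →ₗ[ℝ] ℝ) =
      (LinearMap.ker F).map P.subtype := by
    ext x
    simp only [Submodule.mem_inf, LinearMap.mem_ker, LinearMap.proj_apply,
      Submodule.mem_map, Submodule.subtype_apply, F, LinearMap.comp_apply]
    constructor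
    · intro hx
      exact ⟨⟨x, hx.1⟩, hx.2, rfl⟩
    · rintro ⟨y, hy, rfl⟩
      exact ⟨y.2, hy⟩
  have h4 := (Submodule.equivMapOfInjective P.subtype P.injective_subtype
    (LinearMap.ker F)).finrank_eq
  rw [h3, ← h4]
  omega

/-- translates of subspaces of dimension at most one -/
theorem cov_translate (A : Submodule ℝ (Fin 6 → ℝ)) (hA : Module.finrank ℝ A ≤ 1)
    (x₀ : Fin 6 → ℝ) (S : Set (Fin 6 → ℝ)) (hS : ∀ x ∈ S, x - x₀ ∈ A) : Cov S := by
  have h1 : S ⊆ (fun x : A => x₀ + (x : Fin 6 → ℝ)) '' univ := by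
    intro x hx
    exact ⟨⟨x - x₀, hS x hx⟩, mem_univ _, by simp⟩
  have h2 : ContDiff ℝ 1 (fun x : A => x₀ + (x : Fin 6 → ℝ)) :=
    contDiff_const.add A.subtypeL.contDiff
  exact ((Cov.of_finrank_le_one hA univ).image_of_contDiffAt fun x _ => h2.contDiffAt).mono h1

theorem cov_FF_le_two {r : ℕ} (hr : r ≤ 2) (N : Fin r → Fin 6 → ℝ) (q : Fin r → ℝ)
    (hN : LinearIndependent ℝ N) : Cov (FF N q) := by
  rcases (FF N q).eq_empty_or_nonempty with he | ⟨l₀, hl₀⟩
  · rw [he]; exact Cov.empty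
  have h1 : Module.finrank ℝ (Submodule.span ℝ (range N)) = r := by
    rw [finrank_span_eq_card hN]; simp
  have h2 := finrank_slice _ l₀ hl₀.2.2.1 hl₀.2.1
  refine cov_translate (Submodule.span ℝ (range N) ⊓
    LinearMap.ker (LinearMap.proj 0 : (Fin 6 → ℝ) →ₗ[ℝ] ℝ)) (by omega) l₀ _ fun l hl => ?_
  refine ⟨Submodule.sub_mem _ hl.2.2.1 hl₀.2.2.1, ?_⟩
  simp [hl.2.1, hl₀.2.1]

theorem cov_FF_ge_five {r : ℕ} (hr : 5 ≤ r) (N : Fin r → Fin 6 → ℝ) (q : Fin r → ℝ)
    (hN : LinearIndependent ℝ N) : Cov (FF N q) := by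
  rcases (FF N q).eq_empty_or_nonempty with he | ⟨l₀, hl₀⟩
  · rw [he]; exact Cov.empty
  have h1 := finrank_perpRows N hN
  have h2 : FF N q ⊆ {l | l ∈ TT ∧ l 0 = 1 ∧ al l ∈ {α | α - al l₀ ∈ perpRows N}} := by
    intro l hl
    refine ⟨hl.1, hl.2.1, ?_⟩
    change al l - al l₀ ∈ perpRows N
    rw [mem_perpRows]
    intro k
    have h2 := hl.2.2.2 k
    have h3 := hl₀.2.2.2 k
    simp only [Pi.sub_apply, mul_sub, Finset.sum_sub_distrib]
    rw [h2, h3, sub_self]
  refine (cov_of_angles _ ?_).mono h2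
  exact cov_translate (perpRows N) (by omega) (al l₀) _ fun x hx => hx

end Pool.Agent.Helper1.Tet
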