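import Pool.Agent.Helper1.Tet.Defs

/-!
# Four affine functions on a plane
-/

open Real MeasureTheory Set InnerProductGeometry
open scoped RealInnerProductSpace

namespace Pool.Agent.Helper1.Tet

lemma planar_ray {E : Type*} [NormedAddCommGroup E] [NormedSpace ℝ E]
    (L : Fin 4 → E →ₗ[ℝ] ℝ) (s : Fin 4 → ℝ) (hs : ∀ v, 0 < s v)
    (hb : Bornology.IsBounded {x : E | ∀ v, 0 < s v + L v x}) (u : E) (hu : u ≠ 0)
    (h : ∀ v, 0 ≤ L v u) : False := by
  obtain ⟨R, hR⟩ := hb.exists_norm_le
  have hn : 0 < ‖u‖ := norm_pos_iff.2 hu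
  have h1 := hR (((|R| + 1) / ‖u‖) • u) (by
    intro v
    rw [map_smul, smul_eq_mul]
    have h2 : 0 ≤ (|R| + 1) / ‖u‖ := by positivity
    have h3 := mul_nonneg h2 (h v)
    have := hs v
    linarith)
  rw [norm_smul, Real.norm_eq_abs, abs_of_nonneg (by positivity), div_mul_cancel₀ _ hn.ne'] at h1
  have := le_abs_self R
  linarith

theorem planar_lemma {E : Type*} [NormedAddCommGroup E] [NormedSpace ℝ E]
    (hE : Module.finrank ℝ E = 2) (L : Fin 4 → E →ₗ[ℝ] ℝ) (s : Fin 4 → ℝ) (hs : ∀ v, 0 < s v)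
    (hb : Bornology.IsBounded {x : E | ∀ v, 0 < s v + L v x})
    (hZ : ∀ x : E, (∀ v, 0 ≤ s v + L v x) → ∀ v, s v + L v x = 0 → ∃ w, w ≠ v ∧ s w + L w x = 0) :
    False := by
  have hfin : FiniteDimensional ℝ E := FiniteDimensional.of_finrank_pos (by omega)
  set M : Fin 4 → E →ₗ[ℝ] ℝ := fun v => (s v)⁻¹ • L v with hM
  have hML : ∀ v x, L v x = s v * M v x := by
    intro v x
    simp only [hM, LinearMap.smul_apply, smul_eq_mul]
    rw [mul_inv_cancel_left₀ (hs v).ne']
  -- a generic direction
  obtain ⟨u, hu0, hu⟩ : ∃ u : E, u ≠ 0 ∧ ∀ v w, M v u = M w u → M v = M w := by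
    by_contra hcon
    push Not at hcon
    classical
    let P : Fin 4 × Fin 4 → Subspace ℝ E := fun q =>
      if M q.1 = M q.2 then ⊥ else LinearMap.ker (M q.1 - M q.2)
    have hcov : ⋃ q, (P q : Set E) = Set.univ := by
      rw [Set.eq_univ_iff_forall]
      intro u
      rw [Set.mem_iUnion]
      by_cases hu : u = 0
      · refine ⟨(0, 0), ?_⟩
        simp [P, hu]
      · obtain ⟨v, w, h1, h2⟩ := hcon u hu
        refine ⟨(v, w), ?_⟩
        simp only [P, if_neg h2]
        simp [LinearMap.mem_ker, h1]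
    obtain ⟨q, hq⟩ := Subspace.exists_eq_top_of_iUnion_eq_univ hcov
    by_cases h : M q.1 = M q.2
    · simp only [P, if_pos h] at hq
      have h1 : Module.finrank ℝ (⊥ : Submodule ℝ E) = Module.finrank ℝ (⊤ : Submodule ℝ E) := by
        rw [hq]
      rw [finrank_bot, finrank_top, hE] at h1
      omega
    · simp only [P, if_neg h] at hq
      rw [LinearMap.ker_eq_top, sub_eq_zero] at hq
      exact h hq
  -- the minimizer along a generic direction is double
  have key : ∀ u : E, u ≠ 0 → (∀ v w, M v u = M w u → M v = M w) →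
      ∃ v w, w ≠ v ∧ M v = M w ∧ M v u < 0 := by
    intro u hu0 hu
    obtain ⟨v, hv⟩ := Finite.exists_min (fun v => M v u)
    have hneg : M v u < 0 := by
      by_contra hc
      push Not at hc
      refine planar_ray L s hs hb u hu0 (fun w => ?_)
      rw [hML]
      exact mul_nonneg (hs w).le (hc.trans (hv w))
    have hx : ∀ w, s w + L w ((-(M v u))⁻¹ • u) = s w * (1 - M w u / M v u) := by
      intro w
      rw [hML, map_smul, smul_eq_mul]
      have : M v u ≠ 0 := hneg.ne
      field_simp
      ring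
    obtain ⟨w, hwv, hw⟩ := hZ ((-(M v u))⁻¹ • u) (by
      intro w
      rw [hx]
      refine mul_nonneg (hs w).le ?_
      rw [sub_nonneg, div_le_one_of_neg hneg]
      exact hv w) v (by
      rw [hx, div_self hneg.ne, sub_self, mul_zero])
    refine ⟨v, w, hwv, ?_, hneg⟩
    rw [hx] at hw
    have h1 : 1 - M w u / M v u = 0 := by
      rcases mul_eq_zero.1 hw with h | h
      · exact absurd h (hs w).ne'
      · exact h
    have h2 : M w u = M v u := by
      have h3 : M w u / M v u = 1 := by linarith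
      rwa [div_eq_one_iff_eq hneg.ne] at h3
    exact hu v w h2.symm
  obtain ⟨a, b, hba, hab, hneg⟩ := key u hu0 hu
  obtain ⟨c, d, hdc, hcd, hneg'⟩ := key (-u) (neg_ne_zero.2 hu0) (by
    intro v w h
    rw [map_neg, map_neg, neg_inj] at h
    exact hu v w h)
  rw [map_neg] at hneg'
  have hca : c ≠ a := by rintro rfl; linarith
  have hcb : c ≠ b := by rintro rfl; rw [← hab] at hneg'; linarith
  have hda : d ≠ a := by rintro rfl; rw [hcd] at hneg'; linarith
  have hdb : d ≠ b := by rintro rfl; rw [hcd, ← hab] at hneg'; linarith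
  have hall : ∀ v : Fin 4, v = a ∨ v = b ∨ v = c ∨ v = d := by
    clear hneg hneg' hab hcd key hu hM hML hb hZ hs
    revert a b c d
    decide
  -- a nonzero vector in the kernel of M a
  obtain ⟨x, hx0, hx⟩ : ∃ x : E, x ≠ 0 ∧ M a x = 0 := by
    by_contra hcon
    push Not at hcon
    have hinj : Function.Injective (M a) := by
      rw [← LinearMap.ker_eq_bot, LinearMap.ker_eq_bot']
      intro m hm
      by_contra hm0
      exact hcon m hm0 hm
    have := LinearMap.finrank_le_finrank_of_injective hinj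
    rw [hE] at this
    simp at this
  have hray : ∀ x : E, x ≠ 0 → M a x = 0 → 0 ≤ M c x → False := by
    intro x hx0 hx hc
    refine planar_ray L s hs hb x hx0 (fun v => ?_)
    rw [hML]
    refine mul_nonneg (hs v).le ?_
    rcases hall v with rfl | rfl | rfl | rfl
    · rw [hx]
    · rw [← hab, hx]
    · exact hc
    · rw [← hcd]; exact hc
  rcases le_total 0 (M c x) with h | h
  · exact hray x hx0 hx h
  · refine hray (-x) (neg_ne_zero.2 hx0) (by rw [map_neg, hx, neg_zero]) (by rw [map_neg]; linarith)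

end Pool.Agent.Helper1.Tet
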