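import Pool.Agent.Helper1.Tet.Defs

/-!
# Tetrahedra: cofactors of the matrix of cosines
-/

open Real MeasureTheory Set InnerProductGeometry
open scoped RealInnerProductSpace

namespace Pool.Agent.Helper1.Tet

lemma t4_trig (x y z : ℝ) :
    4 * sin ((x + y + z - π) / 2) * (sin ((π + x - y - z) / 2) * (sin ((π + y - x - z) / 2) *
      sin ((π + z - x - y) / 2))) =
    1 - cos x ^ 2 - cos y ^ 2 - cos z ^ 2 - 2 * cos x * cos y * cos z := by
  have e0 : sin ((x + y + z - π) / 2) = -cos ((x + y + z) / 2) := by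
    rw [show (x + y + z - π) / 2 = (x + y + z) / 2 - π / 2 by ring, sin_sub_pi_div_two]
  have e1 : sin ((π + x - y - z) / 2) = cos ((y + z - x) / 2) := by
    rw [show (π + x - y - z) / 2 = π / 2 - (y + z - x) / 2 by ring, sin_pi_div_two_sub]
  have e2 : sin ((π + y - x - z) / 2) = cos ((x + z - y) / 2) := by
    rw [show (π + y - x - z) / 2 = π / 2 - (x + z - y) / 2 by ring, sin_pi_div_two_sub]
  have e3 : sin ((π + z - x - y) / 2) = cos ((x + y - z) / 2) := by
    rw [show (π + z - x - y) / 2 = π / 2 - (x + y - z) / 2 by ring, sin_pi_div_two_sub]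
  have h1 : 2 * (cos ((x + y + z) / 2) * cos ((y + z - x) / 2)) = cos (y + z) + cos x := by
    have a1 : cos (y + z) = cos ((x + y + z) / 2 + (y + z - x) / 2) := by congr 1; ring
    have a2 : cos x = cos ((x + y + z) / 2 - (y + z - x) / 2) := by congr 1; ring
    rw [a1, a2, cos_add, cos_sub]
    ring
  have h2 : 2 * (cos ((x + z - y) / 2) * cos ((x + y - z) / 2)) = cos x + cos (y - z) := by
    have a1 : cos x = cos ((x + z - y) / 2 + (x + y - z) / 2) := by congr 1; ring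
    have a2 : cos (y - z) = cos ((x + y - z) / 2 - (x + z - y) / 2) := by congr 1; ring
    rw [a1, a2, cos_add, cos_sub]
    ring
  rw [e0, e1, e2, e3]
  have h3 : 4 * -cos ((x + y + z) / 2) * (cos ((y + z - x) / 2) * (cos ((x + z - y) / 2) *
      cos ((x + y - z) / 2))) =
      -((2 * (cos ((x + y + z) / 2) * cos ((y + z - x) / 2))) *
        (2 * (cos ((x + z - y) / 2) * cos ((x + y - z) / 2)))) := by ring
  rw [h3, h1, h2, cos_add, cos_sub]
  have s1 := sin_sq_add_cos_sq y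
  have s2 := sin_sq_add_cos_sq z
  have s1' : sin y ^ 2 = 1 - cos y ^ 2 := by linarith
  have s2' : sin z ^ 2 = 1 - cos z ^ 2 := by linarith
  have : -((cos y * cos z - sin y * sin z + cos x) * (cos x + (cos y * cos z + sin y * sin z))) =
      -(cos x ^ 2 + 2 * cos x * cos y * cos z + cos y ^ 2 * cos z ^ 2 - sin y ^ 2 * sin z ^ 2) := by
    ring
  rw [this, s1', s2']
  ring

/-- the principal cofactor as a polynomial in cosines -/
lemma t4_adj (α : Fin 6 → ℝ) :
    (GG α).adjugate 0 0 = 1 - cos (α 0) ^ 2 - cos (α 1) ^ 2 - cos (α 2) ^ 2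
      - 2 * cos (α 0) * cos (α 1) * cos (α 2) ∧
    (GG α).adjugate 1 1 = 1 - cos (α 0) ^ 2 - cos (α 3) ^ 2 - cos (α 4) ^ 2
      - 2 * cos (α 0) * cos (α 3) * cos (α 4) ∧
    (GG α).adjugate 2 2 = 1 - cos (α 1) ^ 2 - cos (α 3) ^ 2 - cos (α 5) ^ 2
      - 2 * cos (α 1) * cos (α 3) * cos (α 5) ∧
    (GG α).adjugate 3 3 = 1 - cos (α 2) ^ 2 - cos (α 4) ^ 2 - cos (α 5) ^ 2
      - 2 * cos (α 2) * cos (α 4) * cos (α 5) := by
  refine ⟨?_, ?_, ?_, ?_⟩
  · rw [Matrix.adjugate_fin_succ_eq_det_submatrix, Matrix.det_fin_three]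
    simp [GG, Fin.succAbove]
    ring
  · rw [Matrix.adjugate_fin_succ_eq_det_submatrix, Matrix.det_fin_three]
    simp [GG, Fin.succAbove]
    ring
  · rw [Matrix.adjugate_fin_succ_eq_det_submatrix, Matrix.det_fin_three]
    simp [GG, Fin.succAbove]
    ring
  · rw [Matrix.adjugate_fin_succ_eq_det_submatrix, Matrix.det_fin_three]
    simp [GG, Fin.succAbove]
    ring

lemma t4_erase (v : Fin 4) (F : Fin 4 → ℝ) :
    ∏ w ∈ Finset.univ.erase v, F w =
      F (![1, 0, 0, 0] v) * (F (![2, 2, 1, 1] v) * F (![3, 3, 3, 2] v)) := by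
  fin_cases v
  · have : (Finset.univ.erase (0 : Fin 4)) = {1, 2, 3} := by decide
    change ∏ w ∈ Finset.univ.erase (0 : Fin 4), F w = F 1 * (F 2 * F 3)
    rw [this, Finset.prod_insert (by decide), Finset.prod_insert (by decide),
      Finset.prod_singleton]
  · have : (Finset.univ.erase (1 : Fin 4)) = {0, 2, 3} := by decide
    change ∏ w ∈ Finset.univ.erase (1 : Fin 4), F w = F 0 * (F 2 * F 3)
    rw [this, Finset.prod_insert (by decide), Finset.prod_insert (by decide),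
      Finset.prod_singleton]
  · have : (Finset.univ.erase (2 : Fin 4)) = {0, 1, 3} := by decide
    change ∏ w ∈ Finset.univ.erase (2 : Fin 4), F w = F 0 * (F 1 * F 3)
    rw [this, Finset.prod_insert (by decide), Finset.prod_insert (by decide),
      Finset.prod_singleton]
  · have : (Finset.univ.erase (3 : Fin 4)) = {0, 1, 2} := by decide
    change ∏ w ∈ Finset.univ.erase (3 : Fin 4), F w = F 0 * (F 1 * F 2)
    rw [this, Finset.prod_insert (by decide), Finset.prod_insert (by decide),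
      Finset.prod_singleton]

theorem adjugate_diag (α : Fin 6 → ℝ) (v : Fin 4) :
    (GG α).adjugate v v = 4 * sin (sv α v / 2) *
      ∏ w ∈ Finset.univ.erase v, sin ((sv α w + gc α (cl (ix v w))) / 2) := by
  obtain ⟨h0, h1, h2, h3⟩ := t4_adj α
  have s0 : sv α 0 = α 0 + α 1 + α 2 - π := by
    simp [sv, Fin.sum_univ_succ, ea, eb]; ring
  have s1 : sv α 1 = α 0 + α 3 + α 4 - π := by
    simp [sv, Fin.sum_univ_succ, ea, eb]; ring
  have s2 : sv α 2 = α 1 + α 3 + α 5 - π := by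
    simp [sv, Fin.sum_univ_succ, ea, eb]; ring
  have s3 : sv α 3 = α 2 + α 4 + α 5 - π := by
    simp [sv, Fin.sum_univ_succ, ea, eb]; ring
  have g0 : gc α 0 = 2 * π - (α 1 + α 2 + α 3 + α 4) := by
    simp [gc, Fin.sum_univ_succ, cl]; ring
  have g1 : gc α 1 = 2 * π - (α 0 + α 2 + α 3 + α 5) := by
    simp [gc, Fin.sum_univ_succ, cl]; ring
  have g2 : gc α 2 = 2 * π - (α 0 + α 1 + α 4 + α 5) := by
    simp [gc, Fin.sum_univ_succ, cl]; ring
  rw [t4_erase]
  fin_cases v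
  · change (GG α).adjugate 0 0 = 4 * sin (sv α 0 / 2) * (sin ((sv α 1 + gc α 0) / 2) *
      (sin ((sv α 2 + gc α 1) / 2) * sin ((sv α 3 + gc α 2) / 2)))
    rw [h0, ← t4_trig (α 0) (α 1) (α 2), s0, s1, s2, s3, g0, g1, g2]
    congr 2
    · congr 1; ring
    · congr 1
      · congr 1; ring
      · congr 1; ring
  · change (GG α).adjugate 1 1 = 4 * sin (sv α 1 / 2) * (sin ((sv α 0 + gc α 0) / 2) *
      (sin ((sv α 2 + gc α 2) / 2) * sin ((sv α 3 + gc α 1) / 2)))
    rw [h1, ← t4_trig (α 0) (α 3) (α 4), s0, s1, s2, s3, g0, g1, g2]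
    congr 2
    · congr 1; ring
    · congr 1
      · congr 1; ring
      · congr 1; ring
  · change (GG α).adjugate 2 2 = 4 * sin (sv α 2 / 2) * (sin ((sv α 0 + gc α 1) / 2) *
      (sin ((sv α 1 + gc α 2) / 2) * sin ((sv α 3 + gc α 0) / 2)))
    rw [h2, ← t4_trig (α 1) (α 3) (α 5), s0, s1, s2, s3, g0, g1, g2]
    congr 2
    · congr 1; ring
    · congr 1
      · congr 1; ring
      · congr 1; ring
  · change (GG α).adjugate 3 3 = 4 * sin (sv α 3 / 2) * (sin ((sv α 0 + gc α 2) / 2) *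
      (sin ((sv α 1 + gc α 1) / 2) * sin ((sv α 2 + gc α 0) / 2)))
    rw [h3, ← t4_trig (α 2) (α 4) (α 5), s0, s1, s2, s3, g0, g1, g2]
    congr 2
    · congr 1; ring
    · congr 1
      · congr 1; ring
      · congr 1; ring

/-- the determinant as a polynomial in cosines -/
lemma t4_det (α : Fin 6 → ℝ) :
    (GG α).det = 1 - (cos (α 0) ^ 2 + cos (α 1) ^ 2 + cos (α 2) ^ 2 + cos (α 3) ^ 2
        + cos (α 4) ^ 2 + cos (α 5) ^ 2)
      + (cos (α 0) ^ 2 * cos (α 5) ^ 2 + cos (α 1) ^ 2 * cos (α 4) ^ 2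
        + cos (α 2) ^ 2 * cos (α 3) ^ 2)
      - 2 * (cos (α 2) * cos (α 4) * cos (α 5) + cos (α 1) * cos (α 3) * cos (α 5)
        + cos (α 0) * cos (α 3) * cos (α 4) + cos (α 0) * cos (α 1) * cos (α 2))
      - 2 * (cos (α 0) * cos (α 2) * cos (α 3) * cos (α 5)
        + cos (α 0) * cos (α 1) * cos (α 4) * cos (α 5)
        + cos (α 1) * cos (α 2) * cos (α 3) * cos (α 4)) := by
  rw [Matrix.det_succ_row_zero, Fin.sum_univ_four]
  simp only [Matrix.det_fin_three]
  simp [GG, Fin.succAbove]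
  ring

/-- the off-diagonal cofactors -/
lemma t4_off (α : Fin 6 → ℝ) :
    (GG α).adjugate 2 3 = cos (α 0) * (1 - cos (α 5) ^ 2) + cos (α 1) * cos (α 2)
      + cos (α 3) * cos (α 4) + cos (α 5) * (cos (α 2) * cos (α 3) + cos (α 1) * cos (α 4)) ∧
    (GG α).adjugate 1 3 = cos (α 1) * (1 - cos (α 4) ^ 2) + cos (α 0) * cos (α 2)
      + cos (α 3) * cos (α 5) + cos (α 4) * (cos (α 2) * cos (α 3) + cos (α 0) * cos (α 5)) ∧
    (GG α).adjugate 1 2 = cos (α 2) * (1 - cos (α 3) ^ 2) + cos (α 0) * cos (α 1)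
      + cos (α 4) * cos (α 5) + cos (α 3) * (cos (α 1) * cos (α 4) + cos (α 0) * cos (α 5)) ∧
    (GG α).adjugate 0 3 = cos (α 3) * (1 - cos (α 2) ^ 2) + cos (α 0) * cos (α 4)
      + cos (α 1) * cos (α 5) + cos (α 2) * (cos (α 1) * cos (α 4) + cos (α 0) * cos (α 5)) ∧
    (GG α).adjugate 0 2 = cos (α 4) * (1 - cos (α 1) ^ 2) + cos (α 0) * cos (α 3)
      + cos (α 2) * cos (α 5) + cos (α 1) * (cos (α 2) * cos (α 3) + cos (α 0) * cos (α 5)) ∧
    (GG α).adjugate 0 1 = cos (α 5) * (1 - cos (α 0) ^ 2) + cos (α 1) * cos (α 3)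
      + cos (α 2) * cos (α 4) + cos (α 0) * (cos (α 2) * cos (α 3) + cos (α 1) * cos (α 4)) := by
  refine ⟨?_, ?_, ?_, ?_, ?_, ?_⟩ <;>
  · rw [Matrix.adjugate_fin_succ_eq_det_submatrix, Matrix.det_fin_three]
    simp [GG, Fin.succAbove]
    ring

theorem hasDerivAt_det (α δ : Fin 6 → ℝ) (t : ℝ) :
    HasDerivAt (fun t : ℝ => (GG (α + t • δ)).det) (2 * ∑ j, Phi (α + t • δ) j * δ j) t := by
  have hc : ∀ j, HasDerivAt (fun t : ℝ => cos ((α + t • δ) j))
      (-sin ((α + t • δ) j) * δ j) t := by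
    intro j
    have h1 : HasDerivAt (fun t : ℝ => (α + t • δ) j) (δ j) t := by
      simpa using ((hasDerivAt_id t).mul_const (δ j)).const_add (α j)
    exact h1.cos
  have h0 := hc 0
  have h1 := hc 1
  have h2 := hc 2
  have h3 := hc 3
  have h4 := hc 4
  have h5 := hc 5
  have hsq := (((((h0.pow 2).add (h1.pow 2)).add (h2.pow 2)).add (h3.pow 2)).add
    (h4.pow 2)).add (h5.pow 2)
  have hqu := (((h0.pow 2).mul (h5.pow 2)).add ((h1.pow 2).mul (h4.pow 2))).add
    ((h2.pow 2).mul (h3.pow 2))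
  have htr := (((((h2.mul h4).mul h5).add ((h1.mul h3).mul h5)).add ((h0.mul h3).mul h4)).add
    ((h0.mul h1).mul h2)).const_mul 2
  have hqd := (((((h0.mul h2).mul h3).mul h5).add (((h0.mul h1).mul h4).mul h5)).add
    (((h1.mul h2).mul h3).mul h4)).const_mul 2
  have hall := (((hsq.const_sub 1).add hqu).sub htr).sub hqd
  have hfun : (fun t : ℝ => (GG (α + t • δ)).det) = _ := funext fun s => t4_det (α + s • δ)
  rw [hfun]
  refine (hall.congr_deriv ?_)
  obtain ⟨o0, o1, o2, o3, o4, o5⟩ := t4_off (α + t • δ)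
  have p0 : Phi (α + t • δ) 0 = (GG (α + t • δ)).adjugate 2 3 * sin ((α + t • δ) 0) := rfl
  have p1 : Phi (α + t • δ) 1 = (GG (α + t • δ)).adjugate 1 3 * sin ((α + t • δ) 1) := rfl
  have p2 : Phi (α + t • δ) 2 = (GG (α + t • δ)).adjugate 1 2 * sin ((α + t • δ) 2) := rfl
  have p3 : Phi (α + t • δ) 3 = (GG (α + t • δ)).adjugate 0 3 * sin ((α + t • δ) 3) := rfl
  have p4 : Phi (α + t • δ) 4 = (GG (α + t • δ)).adjugate 0 2 * sin ((α + t • δ) 4) := rfl
  have p5 : Phi (α + t • δ) 5 = (GG (α + t • δ)).adjugate 0 1 * sin ((α + t • δ) 5) := rfl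
  simp only [Fin.sum_univ_six, p0, p1, p2, p3, p4, p5, o0, o1, o2, o3, o4, o5, Pi.mul_apply,
    Pi.pow_apply]
  generalize (α + t • δ) = β
  ring

end Pool.Agent.Helper1.Tet
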