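import Pool.Agent.Helper1.Tet.AngleIneq
import Pool.Agent.Helper1.Tet.Trig

/-! # T15a RegionAux (helper45) -/

open Real MeasureTheory Set InnerProductGeometry Filter Topology
open scoped RealInnerProductSpace ENNReal

namespace Pool.Agent.Helper1.Tet


theorem ra_sv (α : Fin 6 → ℝ) :
    sv α 0 = α 0 + α 1 + α 2 - π ∧ sv α 1 = α 0 + α 3 + α 4 - π ∧
    sv α 2 = α 1 + α 3 + α 5 - π ∧ sv α 3 = α 2 + α 4 + α 5 - π := by
  refine ⟨?_, ?_, ?_, ?_⟩ <;>
  · simp only [sv, ea, eb, Fin.sum_univ_six]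
    simp

theorem ra_gc (α : Fin 6 → ℝ) :
    gc α 0 = 2 * π - (α 1 + α 2 + α 3 + α 4) ∧ gc α 1 = 2 * π - (α 0 + α 2 + α 3 + α 5) ∧
    gc α 2 = 2 * π - (α 0 + α 1 + α 4 + α 5) := by
  refine ⟨?_, ?_, ?_⟩ <;>
  · simp only [gc, cl, Fin.sum_univ_six]
    simp

theorem angles_of_slacks (α : Fin 6 → ℝ) (hs : ∀ v, 0 < sv α v)
    (hg : ∀ v c, 0 < sv α v + gc α c) :
    (∀ j, α j ∈ Ioo 0 π) ∧ (∀ v, 0 < (GG α).adjugate v v) := by
  obtain ⟨s0, s1, s2, s3⟩ := ra_sv α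
  obtain ⟨g0, g1, g2⟩ := ra_gc α
  have S0 := hs 0
  have S1 := hs 1
  have S2 := hs 2
  have S3 := hs 3
  have h00 := hg 0 0
  have h01 := hg 0 1
  have h02 := hg 0 2
  have h10 := hg 1 0
  have h11 := hg 1 1
  have h12 := hg 1 2
  have h20 := hg 2 0
  have h21 := hg 2 1
  have h22 := hg 2 2
  have h30 := hg 3 0
  have h31 := hg 3 1
  have h32 := hg 3 2
  rw [s0] at h00 h01 h02
  rw [s1] at h10 h11 h12
  rw [s2] at h20 h21 h22
  rw [s3] at h30 h31 h32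
  rw [s0] at S0
  rw [s1] at S1
  rw [s2] at S2
  rw [s3] at S3
  rw [g0] at h00 h10 h20 h30
  rw [g1] at h01 h11 h21 h31
  rw [g2] at h02 h12 h22 h32
  have A0 : α 0 ∈ Ioo 0 π := ⟨by linarith, by linarith⟩
  have A1 : α 1 ∈ Ioo 0 π := ⟨by linarith, by linarith⟩
  have A2 : α 2 ∈ Ioo 0 π := ⟨by linarith, by linarith⟩
  have A3 : α 3 ∈ Ioo 0 π := ⟨by linarith, by linarith⟩
  have A4 : α 4 ∈ Ioo 0 π := ⟨by linarith, by linarith⟩
  have A5 : α 5 ∈ Ioo 0 π := ⟨by linarith, by linarith⟩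
  have hα : ∀ j, α j ∈ Ioo 0 π := by
    intro j
    fin_cases j <;> assumption
  refine ⟨hα, ?_⟩
  have hub : ∀ v c, sv α v + gc α c < 2 * π := by
    intro v c
    fin_cases v <;> fin_cases c <;>
      simp only [Fin.zero_eta, Fin.mk_one, Fin.reduceFinMk, s0, s1, s2, s3, g0, g1, g2] <;>
      linarith [A0.1, A0.2, A1.1, A1.2, A2.1, A2.2, A3.1, A3.2, A4.1, A4.2, A5.1, A5.2]
  have hub' : ∀ v, sv α v < 2 * π := by
    intro v
    fin_cases v <;>
      simp only [Fin.zero_eta, Fin.mk_one, Fin.reduceFinMk, s0, s1, s2, s3] <;>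
      linarith [A0.1, A0.2, A1.1, A1.2, A2.1, A2.2, A3.1, A3.2, A4.1, A4.2, A5.1, A5.2]
  intro v
  rw [adjugate_diag]
  apply mul_pos
  · apply mul_pos (by norm_num)
    apply sin_pos_of_pos_of_lt_pi
    · linarith [hs v]
    · linarith [hub' v]
  · apply Finset.prod_pos
    intro w _
    apply sin_pos_of_pos_of_lt_pi
    · linarith [hg w (cl (ix v w))]
    · linarith [hub w (cl (ix v w))]

theorem ra_psd (g01 g02 g03 g12 g13 g23 : ℝ) (h1 : 0 < 1 - g01 ^ 2)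
    (G : Matrix (Fin 4) (Fin 4) ℝ)
    (hG : G = !![1, g01, g02, g03; g01, 1, g12, g13; g02, g12, 1, g23; g03, g13, g23, 1])
    (hm : 0 < G.adjugate 3 3) (hdet : G.det = 0) :
    G.PosSemidef := by
  have hm3 : G.adjugate 3 3 = 1 + 2 * g01 * g02 * g12 - g01 ^ 2 - g02 ^ 2 - g12 ^ 2 := by
    rw [Matrix.adjugate_fin_succ_eq_det_submatrix]
    rw [hG, Matrix.det_fin_three]
    simp [Fin.succAbove]
    ring
  have hdet' : G.det = 1 - g01 ^ 2 - g02 ^ 2 - g03 ^ 2 - g12 ^ 2 - g13 ^ 2 - g23 ^ 2 +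
      2 * g01 * g02 * g12 + 2 * g01 * g03 * g13 + 2 * g02 * g03 * g23 + 2 * g12 * g13 * g23 +
      g01 ^ 2 * g23 ^ 2 + g02 ^ 2 * g13 ^ 2 + g03 ^ 2 * g12 ^ 2 - 2 * g01 * g02 * g13 * g23 -
      2 * g01 * g03 * g12 * g23 - 2 * g02 * g03 * g12 * g13 := by
    rw [hG, Matrix.det_succ_row_zero]
    simp [Fin.sum_univ_succ, Matrix.det_fin_three, Fin.succAbove]
    ring
  rw [hm3] at hm
  rw [hdet'] at hdet
  apply Matrix.PosSemidef.of_dotProduct_mulVec_nonneg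
  · rw [hG]
    ext i j
    fin_cases i <;> fin_cases j <;> simp
  · intro x
    have key : (1 - g01 ^ 2) * (1 + 2 * g01 * g02 * g12 - g01 ^ 2 - g02 ^ 2 - g12 ^ 2) *
        (star x ⬝ᵥ G.mulVec x) =
        (1 - g01 ^ 2) * (1 + 2 * g01 * g02 * g12 - g01 ^ 2 - g02 ^ 2 - g12 ^ 2) *
          (x 0 + g01 * x 1 + g02 * x 2 + g03 * x 3) ^ 2 +
        (1 + 2 * g01 * g02 * g12 - g01 ^ 2 - g02 ^ 2 - g12 ^ 2) *
          ((1 - g01 ^ 2) * x 1 + (g12 - g01 * g02) * x 2 + (g13 - g01 * g03) * x 3) ^ 2 +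
        ((1 + 2 * g01 * g02 * g12 - g01 ^ 2 - g02 ^ 2 - g12 ^ 2) * x 2 +
          ((1 - g01 ^ 2) * (g23 - g02 * g03) - (g12 - g01 * g02) * (g13 - g01 * g03)) * x 3) ^ 2 +
        (1 - g01 ^ 2) * 0 * x 3 ^ 2 := by
      rw [← hdet, hG]
      simp [dotProduct, Matrix.mulVec, Fin.sum_univ_succ]
      ring
    have hpos : 0 ≤ (1 - g01 ^ 2) * (1 + 2 * g01 * g02 * g12 - g01 ^ 2 - g02 ^ 2 - g12 ^ 2) *
        (star x ⬝ᵥ G.mulVec x) := by
      rw [key]
      have := mul_pos h1 hm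
      positivity
    exact nonneg_of_mul_nonneg_right hpos (mul_pos h1 hm)

open scoped MatrixOrder in
theorem ra_gram {A : Matrix (Fin 4) (Fin 4) ℝ} (hA : A.PosSemidef) :
    ∃ B : Matrix (Fin 4) (Fin 4) ℝ, A = B.transpose * B := by
  obtain ⟨B, hB⟩ := CStarAlgebra.nonneg_iff_eq_star_mul_self.mp hA.nonneg
  refine ⟨B, ?_⟩
  rw [hB, Matrix.star_eq_conjTranspose, Matrix.conjTranspose_eq_transpose_of_trivial]

theorem gc_nonneg_of_cofactors (α : Fin 6 → ℝ) (h0 : ∀ j, α j ∈ Ioo 0 π)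
    (hdet : (GG α).det = 0) (hm : ∀ v, 0 < (GG α).adjugate v v)
    (ha : ∀ j, 0 < (GG α).adjugate (ec j) (ed j)) : ∀ c, 0 ≤ gc α c := by
  have hpsd : (GG α).PosSemidef := by
    apply ra_psd (-cos (α 5)) (-cos (α 4)) (-cos (α 3)) (-cos (α 2)) (-cos (α 1)) (-cos (α 0))
      ?_ (GG α) rfl (hm 3) hdet
    have h5 := h0 5
    have : 0 < sin (α 5) := sin_pos_of_pos_of_lt_pi h5.1 h5.2
    have h6 := sin_sq_add_cos_sq (α 5)
    nlinarith
  obtain ⟨B, hB⟩ := ra_gram hpsd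
  set u : Fin 4 → EuclideanSpace ℝ (Fin 4) := fun i => WithLp.toLp 2 (fun k => B k i) with hu
  have hin : ∀ i j, ⟪u i, u j⟫ = GG α i j := by
    intro i j
    rw [hB, Matrix.mul_apply]
    simp only [hu, PiLp.inner_apply, Matrix.transpose_apply]
    apply Finset.sum_congr rfl
    intro k _
    simp [mul_comm]
  have hnorm : ∀ i, ‖u i‖ = 1 := by
    intro i
    have h1 : ‖u i‖ ^ 2 = 1 := by
      rw [← real_inner_self_eq_norm_sq, hin]
      fin_cases i <;> simp [GG]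
    nlinarith [norm_nonneg (u i)]
  have hw : ∀ i, 0 < (GG α).adjugate i 3 := by
    intro i
    fin_cases i
    · exact ha 3
    · exact ha 1
    · exact ha 0
    · exact hm 3
  have hker : ∀ i, ∑ j, GG α i j * (GG α).adjugate j 3 = 0 := by
    intro i
    have h1 := congrFun (congrFun (Matrix.mul_adjugate (GG α)) i) 3
    rw [Matrix.mul_apply, hdet] at h1
    rw [h1]
    simp
  have hsum : ∑ i, (GG α).adjugate i 3 • u i = 0 := by
    rw [← inner_self_eq_zero (𝕜 := ℝ)]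
    rw [sum_inner]
    simp only [inner_sum, inner_smul_left, inner_smul_right, hin]
    apply Finset.sum_eq_zero
    intro i _
    have h1 : ∑ j, (GG α).adjugate j 3 * ((starRingEnd ℝ) ((GG α).adjugate i 3) * GG α i j) =
        (starRingEnd ℝ) ((GG α).adjugate i 3) * ∑ j, GG α i j * (GG α).adjugate j 3 := by
      rw [Finset.mul_sum]
      apply Finset.sum_congr rfl
      intro j _
      ring
    rw [h1, hker, mul_zero]
  have hne : ∀ i, (GG α).adjugate i 3 • u i ≠ 0 := by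
    intro i
    rw [smul_ne_zero_iff]
    refine ⟨(hw i).ne', ?_⟩
    rw [← norm_ne_zero_iff, hnorm]
    norm_num
  have hang : ∀ j, α j = π - angle ((GG α).adjugate (ec j) 3 • u (ec j))
      ((GG α).adjugate (ed j) 3 • u (ed j)) := by
    intro j
    rw [angle_smul_left_of_pos _ _ (hw _), angle_smul_right_of_pos _ _ (hw _)]
    rw [angle, hnorm, hnorm, hin]
    have h1 : GG α (ec j) (ed j) = - cos (α j) := by
      fin_cases j <;> simp [GG, ec, ed]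
    rw [h1, mul_one, div_one, arccos_neg, arccos_cos (h0 j).1.le (h0 j).2.le]
    ring
  exact (angle_ineqs (fun i => (GG α).adjugate i 3 • u i) hne hsum α hang).2

end Pool.Agent.Helper1.Tet
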