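import Pool.Agent.Helper1.Tet.Defs

/-! # T1 Dual -/

open Real MeasureTheory Set InnerProductGeometry Filter Topology
open scoped RealInnerProductSpace ENNReal

namespace Pool.Agent.Helper1.Tet

/-- the affine basis of a tetrahedron -/
noncomputable def t1Basis (p : Fin 4 → E3) (hp : AffineIndependent ℝ p) :
    AffineBasis (Fin 4) ℝ E3 :=
  ⟨p, hp, (hp.affineSpan_eq_top_iff_card_eq_finrank_add_one).2 (by simp)⟩

theorem t1Basis_apply (p : Fin 4 → E3) (hp : AffineIndependent ℝ p) (i : Fin 4) :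
    t1Basis p hp i = p i := rfl

theorem t1_coord_sub (p : Fin 4 → E3) (hp : AffineIndependent ℝ p) (i j k : Fin 4) :
    ((t1Basis p hp).coord i).linear (p j - p k) =
      (if i = j then 1 else 0) - (if i = k then 1 else 0) := by
  have h := ((t1Basis p hp).coord i).linearMap_vsub (p j) (p k)
  rw [vsub_eq_sub, vsub_eq_sub, ← t1Basis_apply p hp j, ← t1Basis_apply p hp k,
    AffineBasis.coord_apply, AffineBasis.coord_apply] at h
  exact h

theorem exists_dual (p : Fin 4 → E3) (hp : AffineIndependent ℝ p) :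
    ∃ g : Fin 4 → E3, IsDual p g := by
  refine ⟨fun i => (InnerProductSpace.toDual ℝ E3).symm
    (LinearMap.toContinuousLinearMap ((t1Basis p hp).coord i).linear), fun i j k => ?_⟩
  rw [InnerProductSpace.toDual_symm_apply]
  exact t1_coord_sub p hp i j k

/-- the edge vectors from a vertex span the space -/
theorem t1_span (p : Fin 4 → E3) (hp : AffineIndependent ℝ p) :
    Submodule.span ℝ (range fun j => p j - p 0) = ⊤ := by
  have h := (t1Basis p hp).tot
  have h2 : vectorSpan ℝ (range p) = ⊤ := by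
    have h3 : affineSpan ℝ (range p) = ⊤ := h
    rw [← direction_affineSpan, h3, AffineSubspace.direction_top]
  rw [vectorSpan_range_eq_span_range_vsub_right ℝ p 0] at h2
  exact h2

/-- a vector is determined by its inner products with the edge vectors -/
theorem t1_ext (p : Fin 4 → E3) (hp : AffineIndependent ℝ p) (x y : E3)
    (h : ∀ j, ⟪x, p j - p 0⟫ = ⟪y, p j - p 0⟫) : x = y := by
  have h1 : (innerₗ E3 x : E3 →ₗ[ℝ] ℝ) = innerₗ E3 y := by
    apply LinearMap.ext_on_range (t1_span p hp)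
    intro j
    simpa using h j
  have h2 : ⟪x - y, x - y⟫ = 0 := by
    have h3 := congrArg (fun f : E3 →ₗ[ℝ] ℝ => f (x - y)) h1
    simp only [innerₗ_apply_apply] at h3
    rw [inner_sub_left, h3, sub_self]
  exact sub_eq_zero.mp (inner_self_eq_zero.mp h2)

theorem dual_sum (p g : Fin 4 → E3) (hp : AffineIndependent ℝ p) (hg : IsDual p g) :
    ∑ i, g i = 0 := by
  apply t1_ext p hp
  intro j
  rw [sum_inner, inner_zero_left]
  simp only [hg _ _ _]
  rw [Finset.sum_sub_distrib]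
  simp

theorem dual_expand (p g : Fin 4 → E3) (hp : AffineIndependent ℝ p) (hg : IsDual p g) (u : E3) :
    ∑ i, ⟪g i, u⟫ • (p i - p 0) = u := by
  have h1 : (∑ i, (innerₗ E3 (g i)).smulRight (p i - p 0) : E3 →ₗ[ℝ] E3) = LinearMap.id := by
    apply LinearMap.ext_on_range (t1_span p hp)
    intro j
    rw [LinearMap.sum_apply]
    simp only [LinearMap.smulRight_apply, innerₗ_apply_apply, hg _ _ _, LinearMap.id_apply,
      sub_smul, Finset.sum_sub_distrib, ite_smul, one_smul, zero_smul, Finset.sum_ite_eq',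
      Finset.mem_univ, if_true, sub_self, sub_zero]
  have h2 := congrArg (fun f : E3 →ₗ[ℝ] E3 => f u) h1
  simpa using h2

theorem dual_ne_zero (p g : Fin 4 → E3) (hg : IsDual p g) (i : Fin 4) : g i ≠ 0 := by
  intro h
  have hex : ∀ i : Fin 4, ∃ k : Fin 4, i ≠ k := by decide
  obtain ⟨k, hk⟩ := hex i
  have h1 := hg i i k
  rw [h, inner_zero_left, if_pos rfl, if_neg hk] at h1
  norm_num at h1

/-- two different dual vectors are linearly independent -/
theorem dual_pair (p g : Fin 4 → E3) (hg : IsDual p g) (i j : Fin 4) (hij : i ≠ j) :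
    LinearIndependent ℝ ![g i, g j] := by
  rw [LinearIndependent.pair_iff]
  intro s t hst
  have hex : ∀ i j : Fin 4, ∃ k : Fin 4, i ≠ k ∧ j ≠ k := by decide
  obtain ⟨k, hik, hjk⟩ := hex i j
  have h1 := congrArg (fun v => ⟪v, p i - p k⟫) hst
  have h2 := congrArg (fun v => ⟪v, p j - p k⟫) hst
  simp only [inner_add_left, inner_smul_left, hg _ _ _, inner_zero_left, if_pos, hij, hij.symm,
    if_neg hik, if_neg hjk, if_false, sub_zero, mul_zero, mul_one, add_zero, zero_add,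
    RCLike.conj_to_real] at h1 h2
  exact ⟨h1, h2⟩

/-- the tetrahedron is the intersection of four half spaces -/
theorem mem_hull_iff (p g : Fin 4 → E3) (hp : AffineIndependent ℝ p) (hg : IsDual p g) (x : E3) :
    x ∈ convexHull ℝ (range p) ↔
      ∀ i, 0 ≤ ⟪g i, x - p 0⟫ + (if i = 0 then 1 else 0) := by
  have h1 : convexHull ℝ (range p) = {x | ∀ i, 0 ≤ (t1Basis p hp).coord i x} :=
    (t1Basis p hp).convexHull_eq_nonneg_coord
  rw [h1]
  have h2 : ∀ i, (t1Basis p hp).coord i x = ⟪g i, x - p 0⟫ + (if i = 0 then 1 else 0) := by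
    intro i
    have h3 : (innerₗ E3 (g i) : E3 →ₗ[ℝ] ℝ) = ((t1Basis p hp).coord i).linear := by
      apply LinearMap.ext_on_range (t1_span p hp)
      intro j
      rw [t1_coord_sub]
      simpa using hg i j 0
    have h4 := ((t1Basis p hp).coord i).linearMap_vsub x (p 0)
    rw [← h3, vsub_eq_sub, vsub_eq_sub] at h4
    have h5 : (t1Basis p hp).coord i (p 0) = if i = 0 then 1 else 0 := by
      rw [← t1Basis_apply p hp 0, AffineBasis.coord_apply]
    rw [h5] at h4
    simp only [innerₗ_apply_apply] at h4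
    rw [h4]
    ring
  simp only [Set.mem_ofPred_eq, h2]

/-! ### edge lengths -/

theorem t1_len_ix (p : Fin 4 → E3) (a b : Fin 4) (hab : a ≠ b) :
    len p (ix a b) = dist (p a) (p b) := by
  fin_cases a <;> fin_cases b <;> first | (exact absurd rfl hab) | rfl | exact dist_comm _ _

theorem t1_tri (p g : Fin 4 → E3) (hg : IsDual p g) : Tri (len p) := by
  intro a b c hab hbc hac
  rw [t1_len_ix p a c hac, t1_len_ix p a b hab, t1_len_ix p b c hbc]
  refine lt_of_le_of_ne (dist_triangle _ _ _) fun h => ?_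
  have h1 : Wbtw ℝ (p a) (p b) (p c) := dist_add_dist_eq_iff.mp h.symm
  obtain ⟨t, -, ht⟩ := h1
  have h2 : p b - p a = t • (p c - p a) := by
    rw [← ht, AffineMap.lineMap_apply]
    simp
  have h3 := congrArg (fun v => ⟪g b, v⟫) h2
  simp only [inner_smul_right, hg _ _ _, if_neg hbc, if_neg hab.symm, if_true, sub_zero,
    mul_zero] at h3
  exact one_ne_zero h3

theorem t1_heron_eq (x y z : ℝ) : heron x y z = 4 * x ^ 2 * y ^ 2 - (x ^ 2 + y ^ 2 - z ^ 2) ^ 2 := by
  unfold heron; ring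

theorem t1_heron_pos {x y z : ℝ} (h1 : z < x + y) (h2 : y < x + z) (h3 : x < y + z) :
    0 < heron x y z := by
  unfold heron
  have e1 : 0 < x + y - z := by linarith
  have e2 : 0 < x - y + z := by linarith
  have e3 : 0 < -x + y + z := by linarith
  have e4 : 0 < x + y + z := by linarith
  positivity

theorem t1_inner (P Q R : E3) :
    dist P Q ^ 2 + dist P R ^ 2 - dist Q R ^ 2 = 2 * ⟪Q - P, R - P⟫ := by
  rw [dist_comm P Q, dist_comm P R, dist_eq_norm, dist_eq_norm, dist_eq_norm]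
  have h : Q - R = (Q - P) - (R - P) := by abel
  rw [h, norm_sub_sq_real (Q - P) (R - P)]
  ring

theorem t1_sq (P Q : E3) : dist P Q ^ 2 = ⟪Q - P, Q - P⟫ := by
  rw [dist_comm, dist_eq_norm, real_inner_self_eq_norm_sq]

theorem t1_heron_dist (P Q R : E3) : heron (dist P Q) (dist P R) (dist Q R) =
    4 * (⟪Q - P, Q - P⟫ * ⟪R - P, R - P⟫ - ⟪Q - P, R - P⟫ ^ 2) := by
  rw [t1_heron_eq, t1_inner, ← t1_sq, ← t1_sq]
  ring

theorem t1_univ : ∀ a b c d : Fin 4, a ≠ b → a ≠ c → a ≠ d → b ≠ c → b ≠ d → c ≠ d →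
    (Finset.univ : Finset (Fin 4)) = {a, b, c, d} := by decide

/-- Gram determinant of three vectors -/
noncomputable def t1G (e u w : E3) : ℝ :=
  ⟪e, e⟫ * ⟪u, u⟫ * ⟪w, w⟫ + 2 * ⟪e, u⟫ * ⟪e, w⟫ * ⟪u, w⟫ - ⟪e, e⟫ * ⟪u, w⟫ ^ 2 -
    ⟪u, u⟫ * ⟪e, w⟫ ^ 2 - ⟪w, w⟫ * ⟪e, u⟫ ^ 2

theorem t1_dual_gram (p g : Fin 4 → E3) (hp : AffineIndependent ℝ p) (hg : IsDual p g)
    (a b c d : Fin 4) (hab : a ≠ b) (hac : a ≠ c) (had : a ≠ d) (hbc : b ≠ c) (hbd : b ≠ d)
    (hcd : c ≠ d) :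
    t1G (p b - p a) (p c - p a) (p d - p a) * ⟪g c, g d⟫ =
      -(⟪p b - p a, p b - p a⟫ * ⟪p c - p a, p d - p a⟫ -
        ⟪p b - p a, p c - p a⟫ * ⟪p b - p a, p d - p a⟫) ∧
    t1G (p b - p a) (p c - p a) (p d - p a) * ⟪g c, g c⟫ =
      ⟪p b - p a, p b - p a⟫ * ⟪p d - p a, p d - p a⟫ - ⟪p b - p a, p d - p a⟫ ^ 2 := by
  -- expansion with base point `p a`
  have hexp : ∀ x : E3, x = ⟪g b, x⟫ • (p b - p a) + ⟪g c, x⟫ • (p c - p a) +
      ⟪g d, x⟫ • (p d - p a) := by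
    intro x
    have h1 := dual_expand p g hp hg x
    have h2 : ∑ i, ⟪g i, x⟫ • (p i - p a) = x := by
      have h3 : ∑ i, ⟪g i, x⟫ • (p i - p a) =
          ∑ i, ⟪g i, x⟫ • (p i - p 0) + (∑ i, ⟪g i, x⟫) • (p 0 - p a) := by
        rw [Finset.sum_smul, ← Finset.sum_add_distrib]
        refine Finset.sum_congr rfl fun i _ => ?_
        rw [← smul_add]
        congr 1
        abel
      rw [h3, h1, ← sum_inner, dual_sum p g hp hg, inner_zero_left, zero_smul, add_zero]
    have huniv : (Finset.univ : Finset (Fin 4)) = {a, b, c, d} :=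
      t1_univ a b c d hab hac had hbc hbd hcd
    rw [huniv, Finset.sum_insert (by simp [hab, hac, had]), Finset.sum_insert (by simp [hbc, hbd]),
      Finset.sum_insert (by simp [hcd]), Finset.sum_singleton, sub_self, smul_zero, zero_add] at h2
    rw [← add_assoc] at h2
    exact h2.symm
  set e := p b - p a with he
  set u := p c - p a with hu
  set w := p d - p a with hw
  have key : ∀ x : E3,
      ⟪g b, x⟫ * ⟪e, e⟫ + ⟪g c, x⟫ * ⟪e, u⟫ + ⟪g d, x⟫ * ⟪e, w⟫ = ⟪x, e⟫ ∧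
      ⟪g b, x⟫ * ⟪e, u⟫ + ⟪g c, x⟫ * ⟪u, u⟫ + ⟪g d, x⟫ * ⟪u, w⟫ = ⟪x, u⟫ ∧
      ⟪g b, x⟫ * ⟪e, w⟫ + ⟪g c, x⟫ * ⟪u, w⟫ + ⟪g d, x⟫ * ⟪w, w⟫ = ⟪x, w⟫ := by
    intro x
    have h0 := hexp x
    refine ⟨?_, ?_, ?_⟩
    · conv_rhs => rw [h0]
      simp only [inner_add_left, inner_smul_left, RCLike.conj_to_real]
      rw [real_inner_comm e u, real_inner_comm e w]
    · conv_rhs => rw [h0]
      simp only [inner_add_left, inner_smul_left, RCLike.conj_to_real]
      rw [real_inner_comm u w]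
    · conv_rhs => rw [h0]
      simp only [inner_add_left, inner_smul_left, RCLike.conj_to_real]
  have hce : ⟪g c, e⟫ = 0 := by rw [he, hg]; simp [hbc.symm, hac.symm]
  have hcu : ⟪g c, u⟫ = 1 := by rw [hu, hg]; simp [hac.symm]
  have hcw : ⟪g c, w⟫ = 0 := by rw [hw, hg]; simp [hcd, hac.symm]
  obtain ⟨k1, k2, k3⟩ := key (g c)
  rw [hce] at k1
  rw [hcu] at k2
  rw [hcw] at k3
  rw [real_inner_comm (g c) (g d)] at k1 k2 k3
  unfold t1G
  constructor
  · linear_combination (⟪e, u⟫ * ⟪u, w⟫ - ⟪e, w⟫ * ⟪u, u⟫) * k1 -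
      (⟪e, e⟫ * ⟪u, w⟫ - ⟪e, u⟫ * ⟪e, w⟫) * k2 + (⟪e, e⟫ * ⟪u, u⟫ - ⟪e, u⟫ ^ 2) * k3
  · linear_combination (-(⟪e, u⟫ * ⟪w, w⟫ - ⟪e, w⟫ * ⟪u, w⟫)) * k1 +
      (⟪e, e⟫ * ⟪w, w⟫ - ⟪e, w⟫ ^ 2) * k2 - (⟪e, e⟫ * ⟪u, w⟫ - ⟪e, u⟫ * ⟪e, w⟫) * k3

/-- squared edge lengths and inner products -/
theorem t1_W (ab ac ad bc bd cd : ℝ) (P A B C : E3) (h1 : ab = dist P A) (h2 : ac = dist P B)
    (h3 : ad = dist P C) (h4 : bc = dist A B) (h5 : bd = dist A C) (h6 : cd = dist B C) :
    wform ab ac ad bc bd cd = 4 * (⟪A - P, A - P⟫ * ⟪B - P, C - P⟫ -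
      ⟪A - P, B - P⟫ * ⟪A - P, C - P⟫) := by
  unfold wform
  subst h1 h2 h3 h4 h5 h6
  have e1 := t1_inner P B C
  have e2 := t1_inner P A B
  have e3 := t1_inner P A C
  have e4 := t1_sq P A
  have e5 : dist P B ^ 2 + dist P A ^ 2 - dist A B ^ 2 = 2 * ⟪A - P, B - P⟫ := by
    rw [← e2]; ring
  have e6 : dist P C ^ 2 + dist P A ^ 2 - dist A C ^ 2 = 2 * ⟪A - P, C - P⟫ := by
    rw [← e3]; ring
  rw [e1, e5, e6, e4]
  ring

theorem t1_D (p : Fin 4 → E3) : ∀ a b c d : Fin 4, a ≠ b → a ≠ c → a ≠ d → b ≠ c → b ≠ d →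
    c ≠ d → D (len p) d = heron (dist (p a) (p b)) (dist (p a) (p c)) (dist (p b) (p c)) := by
  intro a b c d hab hac had hbc hbd hcd
  have hD : ∀ l : Fin 6 → ℝ, D l d = heron (l (ix a b)) (l (ix a c)) (l (ix b c)) := by
    intro l
    fin_cases a <;> fin_cases b <;> first
      | (exact absurd rfl hab)
      | (fin_cases c <;> first
          | (exact absurd rfl hac)
          | (exact absurd rfl hbc)
          | (fin_cases d <;> first
              | (exact absurd rfl had)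
              | (exact absurd rfl hbd)
              | (exact absurd rfl hcd)
              | (simp [D, ix, heron]; try ring)))
  rw [hD, t1_len_ix p a b hab, t1_len_ix p a c hac, t1_len_ix p b c hbc]

theorem t1_D_pos (p g : Fin 4 → E3) (hg : IsDual p g) (a b c d : Fin 4) (hab : a ≠ b)
    (hac : a ≠ c) (had : a ≠ d) (hbc : b ≠ c) (hbd : b ≠ d) (hcd : c ≠ d) :
    0 < D (len p) d := by
  rw [t1_D p a b c d hab hac had hbc hbd hcd]
  have h := t1_tri p g hg
  have h1 := h a b c hab hbc hac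
  have h2 := h b a c hab.symm hac hbc
  have h3 := h a c b hac hbc.symm hab
  rw [t1_len_ix p a c hac, t1_len_ix p a b hab, t1_len_ix p b c hbc] at h1
  rw [t1_len_ix p b c hbc, t1_len_ix p b a hab.symm, t1_len_ix p a c hac,
    dist_comm (p b) (p a)] at h2
  rw [t1_len_ix p a b hab, t1_len_ix p a c hac, t1_len_ix p c b hbc.symm,
    dist_comm (p c) (p b)] at h3
  exact t1_heron_pos (by linarith) (by linarith) (by linarith)

theorem t1_G_pos (p g : Fin 4 → E3) (hp : AffineIndependent ℝ p) (hg : IsDual p g)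
    (a b c d : Fin 4) (hab : a ≠ b) (hac : a ≠ c) (had : a ≠ d) (hbc : b ≠ c) (hbd : b ≠ d)
    (hcd : c ≠ d) : 0 < t1G (p b - p a) (p c - p a) (p d - p a) := by
  obtain ⟨-, h1⟩ := t1_dual_gram p g hp hg a b c d hab hac had hbc hbd hcd
  have h2 := t1_D_pos p g hg a b d c hab had hac hbd hbc hcd.symm
  rw [t1_D p a b d c hab had hac hbd hbc hcd.symm, t1_heron_dist] at h2
  have h3 : 0 < ⟪g c, g c⟫ := by
    rw [real_inner_self_eq_norm_sq]
    have := norm_pos_iff.mpr (dual_ne_zero p g hg c)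
    positivity
  by_contra hcon
  push Not at hcon
  have h4 : t1G (p b - p a) (p c - p a) (p d - p a) * ⟪g c, g c⟫ ≤ 0 :=
    mul_nonpos_of_nonpos_of_nonneg hcon h3.le
  linarith

theorem len_mem_TT (p : Fin 4 → E3) (hp : AffineIndependent ℝ p) : len p ∈ TT := by
  obtain ⟨g, hg⟩ := exists_dual p hp
  refine ⟨t1_tri p g hg, ?_⟩
  have h := t1_G_pos p g hp hg 0 1 2 3 (by decide) (by decide) (by decide) (by decide) (by decide)
    (by decide)
  have e : Gr (len p) = t1G (p 1 - p 0) (p 2 - p 0) (p 3 - p 0) := by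
    have l0 : len p 0 = dist (p 0) (p 1) := rfl
    have l1 : len p 1 = dist (p 0) (p 2) := rfl
    have l2 : len p 2 = dist (p 0) (p 3) := rfl
    have l3 : len p 3 = dist (p 1) (p 2) := rfl
    have l4 : len p 4 = dist (p 1) (p 3) := rfl
    have l5 : len p 5 = dist (p 2) (p 3) := rfl
    unfold Gr
    simp only
    rw [l0, l1, l2, l3, l4, l5, t1_inner (p 0) (p 1) (p 2), t1_inner (p 0) (p 1) (p 3),
      t1_inner (p 0) (p 2) (p 3), t1_sq, t1_sq, t1_sq]
    unfold t1G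
    ring
  rw [e]
  exact h

theorem t1_angle (p g : Fin 4 → E3) (hp : AffineIndependent ℝ p) (hg : IsDual p g)
    (a b c d : Fin 4) (hab : a ≠ b) (hac : a ≠ c) (had : a ≠ d) (hbc : b ≠ c) (hbd : b ≠ d)
    (hcd : c ≠ d) :
    arccos (wform (len p (ix a b)) (len p (ix a c)) (len p (ix a d)) (len p (ix b c))
      (len p (ix b d)) (len p (ix c d)) / (√(D (len p) c) * √(D (len p) d))) =
      π - angle (g c) (g d) := by
  obtain ⟨h1, h2⟩ := t1_dual_gram p g hp hg a b c d hab hac had hbc hbd hcd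
  obtain ⟨-, h3⟩ := t1_dual_gram p g hp hg a b d c hab had hac hbd hbc hcd.symm
  have hG := t1_G_pos p g hp hg a b c d hab hac had hbc hbd hcd
  have hGsymm : t1G (p b - p a) (p d - p a) (p c - p a) =
      t1G (p b - p a) (p c - p a) (p d - p a) := by
    unfold t1G
    rw [real_inner_comm (p c - p a) (p d - p a)]
    ring
  rw [hGsymm] at h3
  have hDc := t1_D_pos p g hg a b d c hab had hac hbd hbc hcd.symm
  have hDd := t1_D_pos p g hg a b c d hab hac had hbc hbd hcd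
  have eDc := t1_D p a b d c hab had hac hbd hbc hcd.symm
  have eDd := t1_D p a b c d hab hac had hbc hbd hcd
  rw [t1_heron_dist] at eDc eDd
  set γ := t1G (p b - p a) (p c - p a) (p d - p a) with hγ
  have hW := t1_W (len p (ix a b)) (len p (ix a c)) (len p (ix a d)) (len p (ix b c))
      (len p (ix b d)) (len p (ix c d)) (p a) (p b) (p c) (p d) (t1_len_ix p a b hab)
      (t1_len_ix p a c hac) (t1_len_ix p a d had) (t1_len_ix p b c hbc) (t1_len_ix p b d hbd)
      (t1_len_ix p c d hcd)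
  have hW' : wform (len p (ix a b)) (len p (ix a c)) (len p (ix a d)) (len p (ix b c))
      (len p (ix b d)) (len p (ix c d)) = -(4 * γ * ⟪g c, g d⟫) := by
    rw [hW]; linarith
  have hc2 : D (len p) c = 4 * γ * ‖g c‖ ^ 2 := by
    rw [eDc, ← real_inner_self_eq_norm_sq, ← h2]; ring
  have hd2 : D (len p) d = 4 * γ * ‖g d‖ ^ 2 := by
    rw [eDd, ← real_inner_self_eq_norm_sq, ← h3]; ring
  have hsc : √(D (len p) c) = √(4 * γ) * ‖g c‖ := by
    rw [hc2, Real.sqrt_mul (by positivity), Real.sqrt_sq (norm_nonneg _)]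
  have hsd : √(D (len p) d) = √(4 * γ) * ‖g d‖ := by
    rw [hd2, Real.sqrt_mul (by positivity), Real.sqrt_sq (norm_nonneg _)]
  have hprod : √(D (len p) c) * √(D (len p) d) = 4 * γ * (‖g c‖ * ‖g d‖) := by
    rw [hsc, hsd]
    have := Real.mul_self_sqrt (show (0 : ℝ) ≤ 4 * γ by positivity)
    linear_combination (‖g c‖ * ‖g d‖) * this
  rw [hprod, hW', angle, ← Real.arccos_neg]
  congr 1
  have hgc : ‖g c‖ ≠ 0 := norm_ne_zero_iff.mpr (dual_ne_zero p g hg c)
  have hgd : ‖g d‖ ≠ 0 := norm_ne_zero_iff.mpr (dual_ne_zero p g hg d)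
  field_simp

theorem al_len (p g : Fin 4 → E3) (hp : AffineIndependent ℝ p) (hg : IsDual p g) (j : Fin 6) :
    al (len p) j = π - angle (g (ec j)) (g (ed j)) := by
  have hd : ∀ j : Fin 6, ea j ≠ eb j ∧ ea j ≠ ec j ∧ ea j ≠ ed j ∧ eb j ≠ ec j ∧ eb j ≠ ed j ∧
      ec j ≠ ed j ∧ ix (ea j) (eb j) = j := by decide
  obtain ⟨h1, h2, h3, h4, h5, h6, h7⟩ := hd j
  have h := t1_angle p g hp hg (ea j) (eb j) (ec j) (ed j) h1 h2 h3 h4 h5 h6
  rw [h7] at h
  exact h

end Pool.Agent.Helper1.Tet
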