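import Pool.Agent.Helper1.Tet.Defs

/-!
# T2 Realize (helper76): tetrahedra with given edge lengths
-/

open Real MeasureTheory Set InnerProductGeometry Filter Topology
open scoped RealInnerProductSpace ENNReal

namespace Pool.Agent.Helper1.Tet

namespace T2

lemma TT_pos0 {l : Fin 6 → ℝ} (hT : Tri l) : 0 < l 0 := by
  have h1 := hT 1 0 2 (by decide) (by decide) (by decide)
  have h2 := hT 0 1 2 (by decide) (by decide) (by decide)
  simp [ix] at h1 h2
  linarith

lemma TT_pos {l : Fin 6 → ℝ} (hT : Tri l) (j : Fin 6) : 0 < l j := by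
  have a01 := hT 0 1 2 (by decide) (by decide) (by decide)
  have a02 := hT 0 2 1 (by decide) (by decide) (by decide)
  have a12 := hT 1 0 2 (by decide) (by decide) (by decide)
  have b02 := hT 0 1 3 (by decide) (by decide) (by decide)
  have b03 := hT 0 3 1 (by decide) (by decide) (by decide)
  have b13 := hT 1 0 3 (by decide) (by decide) (by decide)
  have c02 := hT 0 2 3 (by decide) (by decide) (by decide)
  have c03 := hT 0 3 2 (by decide) (by decide) (by decide)
  have c13 := hT 2 0 3 (by decide) (by decide) (by decide)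
  simp [ix] at a01 a02 a12 b02 b03 b13 c02 c03 c13
  fin_cases j <;> simp <;> linarith

lemma dist_e3 (u v : E3) : dist u v = √((u 0 - v 0) ^ 2 + (u 1 - v 1) ^ 2 + (u 2 - v 2) ^ 2) := by
  rw [EuclideanSpace.dist_eq, Fin.sum_univ_three]
  simp only [Real.dist_eq, sq_abs]

end T2

open T2

theorem exists_tet {l : Fin 6 → ℝ} (hl : l ∈ TT) :
    ∃ p : Fin 4 → E3, AffineIndependent ℝ p ∧ len p = l := by
  obtain ⟨hT, hG⟩ := hl
  have h0 := TT_pos hT 0
  have h1 := TT_pos hT 1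
  have h2 := TT_pos hT 2
  have h3 := TT_pos hT 3
  have h4 := TT_pos hT 4
  have h5 := TT_pos hT 5
  set x := (l 0 ^ 2 + l 1 ^ 2 - l 3 ^ 2) / 2 with hx
  set y := (l 0 ^ 2 + l 2 ^ 2 - l 4 ^ 2) / 2 with hy
  set z := (l 1 ^ 2 + l 2 ^ 2 - l 5 ^ 2) / 2 with hz
  have hGr : Gr l = l 0 ^ 2 * l 1 ^ 2 * l 2 ^ 2 + 2 * x * y * z - l 0 ^ 2 * z ^ 2 -
      l 1 ^ 2 * y ^ 2 - l 2 ^ 2 * x ^ 2 := rfl
  rw [hGr] at hG
  have hh : 0 < l 0 ^ 2 * l 1 ^ 2 - x ^ 2 := by
    have a1 := hT 0 1 2 (by decide) (by decide) (by decide)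
    have a2 := hT 0 2 1 (by decide) (by decide) (by decide)
    have a3 := hT 1 0 2 (by decide) (by decide) (by decide)
    simp [ix] at a1 a2 a3
    have e : l 0 ^ 2 * l 1 ^ 2 - x ^ 2 = (1 / 4) * ((l 0 + l 1 + l 3) * (l 0 + l 1 - l 3) *
        ((l 0 - l 1 + l 3) * (-l 0 + l 1 + l 3))) := by
      rw [hx]; ring
    rw [e]
    have b1 : 0 < l 0 + l 1 + l 3 := by positivity
    have b2 : 0 < l 0 + l 1 - l 3 := by linarith
    have b3 : 0 < l 0 - l 1 + l 3 := by linarith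
    have b4 : 0 < -l 0 + l 1 + l 3 := by linarith
    positivity
  set m2 := (l 0 ^ 2 * l 1 ^ 2 - x ^ 2) / l 0 ^ 2 with hm2
  have hm2p : 0 < m2 := by positivity
  set m := √m2 with hm
  have hmp : 0 < m := Real.sqrt_pos.2 hm2p
  have hmm : m ^ 2 = m2 := Real.sq_sqrt hm2p.le
  set n := (z - x * y / l 0 ^ 2) / m with hn
  have hmn : m * n = z - x * y / l 0 ^ 2 := by
    rw [hn]; field_simp
  set k2 := (l 0 ^ 2 * l 1 ^ 2 * l 2 ^ 2 + 2 * x * y * z - l 0 ^ 2 * z ^ 2 -
      l 1 ^ 2 * y ^ 2 - l 2 ^ 2 * x ^ 2) / (l 0 ^ 2 * m2) with hk2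
  have hk2p : 0 < k2 := by positivity
  set k := √k2 with hk
  have hkp : 0 < k := Real.sqrt_pos.2 hk2p
  have hkk : k ^ 2 = k2 := Real.sq_sqrt hk2p.le
  have hn2 : n ^ 2 * m2 = (z - x * y / l 0 ^ 2) ^ 2 := by
    rw [← hmm, ← hmn]; ring
  have hm2' : l 0 ^ 2 * m2 = l 0 ^ 2 * l 1 ^ 2 - x ^ 2 := by
    rw [hm2]; field_simp
  have hk2' : k2 * (l 0 ^ 2 * m2) = l 0 ^ 2 * l 1 ^ 2 * l 2 ^ 2 + 2 * x * y * z -
      l 0 ^ 2 * z ^ 2 - l 1 ^ 2 * y ^ 2 - l 2 ^ 2 * x ^ 2 := by
    rw [hk2]; field_simp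
  -- `y²/a + n² + k² = c`
  have hsum : (y / l 0) ^ 2 + n ^ 2 + k ^ 2 = l 2 ^ 2 := by
    rw [hkk]
    have hne : l 0 ^ 2 * m2 * l 0 ^ 2 ≠ 0 := by positivity
    apply mul_left_cancel₀ hne
    have e1 : l 0 ^ 2 * m2 * l 0 ^ 2 * ((y / l 0) ^ 2 + n ^ 2 + k2) =
        y ^ 2 * (l 0 ^ 2 * m2) + l 0 ^ 4 * (n ^ 2 * m2) + l 0 ^ 2 * (k2 * (l 0 ^ 2 * m2)) := by
      field_simp
    have e2 : l 0 ^ 4 * (z - x * y / l 0 ^ 2) ^ 2 = (l 0 ^ 2 * z - x * y) ^ 2 := by
      field_simp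
    rw [e1, hn2, hk2', hm2', e2]
    ring
  let p : Fin 4 → E3 := ![0, !₂[l 0, 0, 0], !₂[x / l 0, m, 0], !₂[y / l 0, n, k]]
  refine ⟨p, ?_, ?_⟩
  · rw [affineIndependent_iff_of_fintype]
    intro w hw hs
    rw [Finset.weightedVSub_eq_linear_combination Finset.univ hw, Fin.sum_univ_four] at hs
    have c2 := congrArg (fun v : E3 => v 2) hs
    have c1 := congrArg (fun v : E3 => v 1) hs
    have c0 := congrArg (fun v : E3 => v 0) hs
    simp [p] at c0 c1 c2
    have w3 : w 3 = 0 := by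
      rcases c2 with h | h
      · exact h
      · exact absurd h hkp.ne'
    rw [w3, zero_mul, add_zero] at c1
    have w2 : w 2 = 0 := by
      rcases mul_eq_zero.1 c1 with h | h
      · exact h
      · exact absurd h hmp.ne'
    rw [w3, w2, zero_mul, zero_mul, add_zero, add_zero] at c0
    have w1 : w 1 = 0 := by
      rcases mul_eq_zero.1 c0 with h | h
      · exact h
      · exact absurd h h0.ne'
    rw [Fin.sum_univ_four, w1, w2, w3] at hw
    have w0 : w 0 = 0 := by linarith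
    intro i
    fin_cases i
    · exact w0
    · exact w1
    · exact w2
    · exact w3
  · funext j
    have key : ∀ (u v : E3) (t : ℝ), 0 < t →
        (u 0 - v 0) ^ 2 + (u 1 - v 1) ^ 2 + (u 2 - v 2) ^ 2 = t ^ 2 → dist u v = t := by
      intro u v t ht h
      rw [dist_e3, h, Real.sqrt_sq ht.le]
    have hxx : (x / l 0) ^ 2 + m ^ 2 = l 1 ^ 2 := by
      rw [hmm, hm2]; field_simp; ring
    have hc1 : l 0 * (x / l 0) = x := by field_simp
    have hc2 : l 0 * (y / l 0) = y := by field_simp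
    have hc3 : (x / l 0) * (y / l 0) = x * y / l 0 ^ 2 := by field_simp
    fin_cases j
    · show dist (p 0) (p 1) = l 0
      apply key _ _ _ h0
      simp [p]
    · show dist (p 0) (p 2) = l 1
      apply key _ _ _ h1
      simp [p]
      exact hxx
    · show dist (p 0) (p 3) = l 2
      apply key _ _ _ h2
      simp [p]
      exact hsum
    · show dist (p 1) (p 2) = l 3
      apply key _ _ _ h3
      simp [p]
      linear_combination hxx - 2 * hc1 - 2 * hx
    · show dist (p 1) (p 3) = l 4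
      apply key _ _ _ h4
      simp [p]
      linear_combination hsum - 2 * hc2 - 2 * hy
    · show dist (p 2) (p 3) = l 5
      apply key _ _ _ h5
      simp [p]
      linear_combination hxx + hsum - 2 * hc3 - 2 * hmn - 2 * hz

theorem exists_points {l : Fin 6 → ℝ} (hl : l ∈ closure TT) :
    ∃ p : Fin 4 → E3, len p = l := by
  obtain ⟨s, hs, hlim⟩ := mem_closure_iff_seq_limit.1 hl
  choose q hq using fun n => exists_tet (hs n)
  let r : ℕ → Fin 4 → E3 := fun n i => q n i - q n 0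
  have hr : ∀ n, len (r n) = s n := by
    intro n
    rw [← (hq n).2]
    funext j
    simp [len, r]
  obtain ⟨C, hC⟩ : ∃ C, ∀ n, ‖s n‖ ≤ C := by
    obtain ⟨C, hC⟩ := (Metric.isBounded_range_of_tendsto s hlim).exists_norm_le
    exact ⟨C, fun n => hC _ ⟨n, rfl⟩⟩
  have hb : ∀ n, r n ∈ Metric.closedBall (0 : Fin 4 → E3) C := by
    intro n
    have hC0 : 0 ≤ C := (norm_nonneg _).trans (hC 0)
    rw [mem_closedBall_zero_iff, pi_norm_le_iff_of_nonneg hC0]
    intro i
    have h1 : ∀ j, |len (r n) j| ≤ C := by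
      intro j
      rw [hr n]
      exact (norm_le_pi_norm (s n) j).trans (hC n)
    have h2 : ∀ j, len (r n) j ≤ C := fun j => (le_abs_self _).trans (h1 j)
    fin_cases i
    · simp [r, hC0]
    · have := h2 0
      show ‖q n 1 - q n 0‖ ≤ C
      rw [norm_sub_rev]
      simpa [len, ea, eb, r, dist_eq_norm] using this
    · have := h2 1
      show ‖q n 2 - q n 0‖ ≤ C
      rw [norm_sub_rev]
      simpa [len, ea, eb, r, dist_eq_norm] using this
    · have := h2 2
      show ‖q n 3 - q n 0‖ ≤ C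
      rw [norm_sub_rev]
      simpa [len, ea, eb, r, dist_eq_norm] using this
  obtain ⟨p, -, φ, hφ, hp⟩ := (isCompact_closedBall (0 : Fin 4 → E3) C).tendsto_subseq hb
  refine ⟨p, ?_⟩
  have hcont : Continuous (len : (Fin 4 → E3) → Fin 6 → ℝ) := by
    unfold len
    fun_prop
  have h1 : Tendsto (fun n => len (r (φ n))) atTop (𝓝 (len p)) :=
    (hcont.tendsto p).comp hp
  have h2 : Tendsto (fun n => len (r (φ n))) atTop (𝓝 l) := by
    simp_rw [hr]
    exact hlim.comp hφ.tendsto_atTop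
  exact tendsto_nhds_unique h1 h2

end Pool.Agent.Helper1.Tet
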