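import Pool.Agent.Helper1.Tet.TTFacts
import Pool.Agent.Helper1.Tet.Dual
import Pool.Agent.Helper1.Tet.Realize
import Pool.Agent.Helper1.Tet.AngleIneq
import Pool.Agent.Helper1.Tet.Trig

/-!
# T5: strict inequalities on `TT`
-/

open Real MeasureTheory Set InnerProductGeometry
open scoped RealInnerProductSpace

namespace Pool.Agent.Helper1.Tet

theorem TT_strict {l : Fin 6 → ℝ} (hl : l ∈ TT) :
    (∀ v, 0 < sv (al l) v) ∧ (∀ c, 0 ≤ gc (al l) c) := by
  obtain ⟨p, hp, hpl⟩ := exists_tet hl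
  obtain ⟨g, hg⟩ := exists_dual p hp
  obtain ⟨h1, h2⟩ := angle_ineqs g (dual_ne_zero p g hg) (dual_sum p g hp hg) (al l)
    (fun j => by rw [← hpl]; exact al_len p g hp hg j)
  refine ⟨fun v => lt_of_le_of_ne (h1 v) fun h => ?_, h2⟩
  obtain ⟨-, -, -, -, -, -, h3, -⟩ := TT_facts hl
  have h4 := h3 v
  rw [adjugate_diag, ← h, zero_div, sin_zero, mul_zero, zero_mul] at h4
  exact lt_irrefl _ h4

end Pool.Agent.Helper1.Tet
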