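import Pool.Agent.Helper1.Tet.RegionCore
import Pool.Agent.Helper1.Tet.RegionAux
import Pool.Agent.Helper1.Tet.Strict
import Pool.Agent.Helper1.Tet.TTFacts

/-! # T15b: extension along the region of positive vertex slacks -/

open Real MeasureTheory Set InnerProductGeometry Filter Topology

namespace Pool.Agent.Helper1.Tet

theorem region_extend (A : Submodule ℝ (Fin 6 → ℝ)) (l₀ : Fin 6 → ℝ) (hT : l₀ ∈ TT)
    (hdet : ∀ δ ∈ A, (GG (al l₀ + δ)).det = 0) :
    ∀ δ ∈ A, (∀ v, 0 < sv (al l₀ + δ) v) → ∀ c, 0 ≤ gc (al l₀ + δ) c :=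
  region_core A l₀ (TT_strict hT).1 (TT_strict hT).2 (TT_facts hT).2.2.2.2.2.2.2.1
    angles_of_slacks gc_nonneg_of_cofactors hdet

end Pool.Agent.Helper1.Tet
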