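import Pool.Agent.Helper1.Tet.Strict
import Pool.Agent.Helper1.Tet.Region
import Pool.Agent.Helper1.Tet.Planar
import Pool.Agent.Helper1.Tet.Boundary
import Pool.Agent.Helper1.Tet.Trig

/-! There is no two-parameter family of shapes of tetrahedra which is linear in the dihedral
angles. -/

open Real MeasureTheory Set InnerProductGeometry Filter Topology

namespace Pool.Agent.Helper1.Tet

/-- linear part of `sv · v` -/
noncomputable def svLin (v : Fin 4) : (Fin 6 → ℝ) →ₗ[ℝ] ℝ :=
  ∑ j, (if ea j = v ∨ eb j = v then (1 : ℝ) else 0) • (LinearMap.proj j : (Fin 6 → ℝ) →ₗ[ℝ] ℝ)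

theorem svLin_apply (v : Fin 4) (δ : Fin 6 → ℝ) :
    svLin v δ = ∑ j, if ea j = v ∨ eb j = v then δ j else 0 := by
  simp only [svLin, LinearMap.sum_apply, LinearMap.smul_apply, LinearMap.proj_apply, smul_eq_mul]
  refine Finset.sum_congr rfl fun j _ => ?_
  split_ifs <;> simp

theorem sv_add (α δ : Fin 6 → ℝ) (v : Fin 4) : sv (α + δ) v = sv α v + svLin v δ := by
  rw [svLin_apply]
  simp only [sv, Pi.add_apply]
  have : (∑ j, if ea j = v ∨ eb j = v then α j + δ j else 0) =
      (∑ j, if ea j = v ∨ eb j = v then α j else 0) +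
        ∑ j, if ea j = v ∨ eb j = v then δ j else 0 := by
    rw [← Finset.sum_add_distrib]
    refine Finset.sum_congr rfl fun j _ => ?_
    split_ifs <;> simp
  rw [this]; ring

theorem gc_affine (α δ : Fin 6 → ℝ) (c : Fin 3) (t : ℝ) :
    gc (α + t • δ) c = (1 - t) * gc α c + t * gc (α + δ) c := by
  simp only [gc, Pi.add_apply, Pi.smul_apply, smul_eq_mul]
  have h1 : (∑ j, if cl j = c then 0 else α j + t * δ j) =
      (∑ j, if cl j = c then 0 else α j) + t * ∑ j, if cl j = c then 0 else δ j := by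
    rw [Finset.mul_sum, ← Finset.sum_add_distrib]
    refine Finset.sum_congr rfl fun j _ => ?_
    split_ifs <;> simp
  have h2 : (∑ j, if cl j = c then 0 else α j + δ j) =
      (∑ j, if cl j = c then 0 else α j) + ∑ j, if cl j = c then 0 else δ j := by
    rw [← Finset.sum_add_distrib]
    refine Finset.sum_congr rfl fun j _ => ?_
    split_ifs <;> simp
  rw [h1, h2]; ring

/-- the angles in terms of the vertex and cycle defects -/
theorem two_mul_angle (α : Fin 6 → ℝ) (j : Fin 6) :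
    2 * α j = sv α (ea j) + sv α (eb j) + gc α (cl j) := by
  fin_cases j <;> simp [sv, gc, ea, eb, cl, Fin.sum_univ_succ] <;> ring

theorem no_angular_family (A : Submodule ℝ (Fin 6 → ℝ)) (hA : Module.finrank ℝ A = 2)
    (l₀ : Fin 6 → ℝ) (hT : l₀ ∈ TT) (hdet : ∀ δ ∈ A, (GG (al l₀ + δ)).det = 0) : False := by
  obtain ⟨hs, hg⟩ := TT_strict hT
  have hreg := region_extend A l₀ hT hdet
  let L : Fin 4 → A →ₗ[ℝ] ℝ := fun v => (svLin v) ∘ₗ A.subtype
  have hL : ∀ v (δ : A), sv (al l₀ + (δ : Fin 6 → ℝ)) v = sv (al l₀) v + L v δ := by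
    intro v δ
    exact sv_add _ _ _
  refine planar_lemma hA L (fun v => sv (al l₀) v) hs ?_ ?_
  · -- boundedness
    refine (Metric.isBounded_iff_subset_closedBall (0 : A)).2 ⟨2 * π, fun δ hδ => ?_⟩
    rw [mem_closedBall_zero_iff]
    change ‖(δ : Fin 6 → ℝ)‖ ≤ 2 * π
    rw [pi_norm_le_iff_of_nonneg (by positivity)]
    intro j
    have hpos : ∀ v, 0 < sv (al l₀ + (δ : Fin 6 → ℝ)) v := by
      intro v; rw [hL]; exact hδ v
    have hgc := hreg δ δ.2 hpos
    have h0 : ∀ j, 0 ≤ (al l₀ + (δ : Fin 6 → ℝ)) j := by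
      intro j
      have := two_mul_angle (al l₀ + (δ : Fin 6 → ℝ)) j
      have h1 := hpos (ea j)
      have h2 := hpos (eb j)
      have h3 := hgc (cl j)
      linarith
    have hup : (al l₀ + (δ : Fin 6 → ℝ)) j ≤ 2 * π := by
      obtain ⟨c, hc⟩ : ∃ c : Fin 3, cl j ≠ c := by
        obtain ⟨c, hc⟩ := exists_ne (cl j)
        exact ⟨c, hc.symm⟩
      have h1 := hgc c
      have h2 : (al l₀ + (δ : Fin 6 → ℝ)) j ≤
          ∑ j, if cl j = c then 0 else (al l₀ + (δ : Fin 6 → ℝ)) j := by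
        have h3 := Finset.single_le_sum (f := fun j => if cl j = c then 0 else
          (al l₀ + (δ : Fin 6 → ℝ)) j) (s := Finset.univ) (fun i _ => by
            split_ifs
            · exact le_rfl
            · exact h0 i) (Finset.mem_univ j)
        simp only [if_neg hc] at h3
        exact h3
      unfold gc at h1
      linarith
    have h1 := h0 j
    have h2 : al l₀ j ∈ Icc 0 π := ⟨arccos_nonneg _, arccos_le_pi _⟩
    simp only [Pi.add_apply] at h1 hup
    rw [Real.norm_eq_abs, abs_le]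
    constructor <;> linarith [h2.1, h2.2, pi_pos]
  · intro δ hδ v hv
    by_contra hcon
    push Not at hcon
    have hnn : ∀ w, 0 ≤ sv (al l₀ + (δ : Fin 6 → ℝ)) w := by
      intro w; rw [hL]; exact hδ w
    have hz : sv (al l₀ + (δ : Fin 6 → ℝ)) v = 0 := by rw [hL]; exact hv
    have hw : ∀ w, w ≠ v → 0 < sv (al l₀ + (δ : Fin 6 → ℝ)) w := by
      intro w hw
      refine lt_of_le_of_ne (hnn w) ?_
      rw [hL]
      exact (hcon w hw).symm
    have hgc : ∀ c, 0 ≤ gc (al l₀ + (δ : Fin 6 → ℝ)) c := by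
      intro c
      have h1 : ∀ t : ℝ, 0 < t → t < 1 →
          0 ≤ (1 - t) * gc (al l₀) c + t * gc (al l₀ + (δ : Fin 6 → ℝ)) c := by
        intro t ht0 ht1
        rw [← gc_affine]
        refine hreg _ (A.smul_mem t δ.2) (fun w => ?_) c
        have h2 : sv (al l₀ + t • (δ : Fin 6 → ℝ)) w =
            (1 - t) * sv (al l₀) w + t * sv (al l₀ + (δ : Fin 6 → ℝ)) w := by
          rw [sv_add, sv_add, map_smul, smul_eq_mul]; ring
        rw [h2]
        have h3 := hs w
        have h4 := hnn w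
        have h5 : 0 < 1 - t := by linarith
        positivity
      have h2 : Tendsto (fun t : ℝ => (1 - t) * gc (al l₀) c + t * gc (al l₀ + (δ : Fin 6 → ℝ)) c)
          (𝓝[<] 1) (𝓝 (gc (al l₀ + (δ : Fin 6 → ℝ)) c)) := by
        have h3 : Continuous fun t : ℝ =>
            (1 - t) * gc (al l₀) c + t * gc (al l₀ + (δ : Fin 6 → ℝ)) c := by fun_prop
        have h4 := (h3.tendsto 1).mono_left (nhdsWithin_le_nhds (s := Iio (1 : ℝ)))
        simpa using h4
      refine ge_of_tendsto h2 ?_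
      have h5 : ∀ᶠ t : ℝ in 𝓝[<] 1, t ∈ Ioo (0 : ℝ) 1 := Ioo_mem_nhdsLT one_pos
      filter_upwards [h5] with t ht
      exact h1 t ht.1 ht.2
    obtain ⟨κ, hκ, hPhi⟩ := boundary_point (al l₀ + (δ : Fin 6 → ℝ)) v hw hz hgc (hdet δ δ.2)
    have hzero : ∀ δ' ∈ A, ∑ j, Phi (al l₀ + (δ : Fin 6 → ℝ)) j * δ' j = 0 := by
      intro δ' hδ'
      have h1 := hasDerivAt_det (al l₀ + (δ : Fin 6 → ℝ)) δ' 0
      have h2 : (fun t : ℝ => (GG (al l₀ + (δ : Fin 6 → ℝ) + t • δ')).det) = fun _ => (0 : ℝ) := by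
        funext t
        rw [add_assoc]
        exact hdet _ (A.add_mem δ.2 (A.smul_mem t hδ'))
      rw [h2] at h1
      have h3 := h1.unique (hasDerivAt_const 0 (0 : ℝ))
      simp only [zero_smul, add_zero] at h3
      linarith
    have h1 := hzero δ δ.2
    have h2 : ∑ j, Phi (al l₀ + (δ : Fin 6 → ℝ)) j * (δ : Fin 6 → ℝ) j = κ * svLin v δ := by
      rw [svLin_apply, Finset.mul_sum]
      refine Finset.sum_congr rfl fun j _ => ?_
      rw [hPhi j]
      split_ifs <;> simp
    rw [h2] at h1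
    have h3 : svLin v δ = 0 := by
      rcases mul_eq_zero.1 h1 with h | h
      · exact absurd h hκ
      · exact h
    have h4 := sv_add (al l₀) (δ : Fin 6 → ℝ) v
    rw [hz, h3, add_zero] at h4
    exact absurd h4 (hs v).ne

end Pool.Agent.Helper1.Tet
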