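import Pool.Agent.Helper1.Tet.Realize

/-!
# T12 FacetPoint (helper76)
-/

open Real MeasureTheory Set InnerProductGeometry Filter Topology
open scoped RealInnerProductSpace ENNReal

namespace Pool.Agent.Helper1.Tet

namespace T12

lemma len_ix (p : Fin 4 → E3) (i j : Fin 4) (h : i ≠ j) : len p (ix i j) = dist (p i) (p j) := by
  fin_cases i <;> fin_cases j <;> first
    | exact absurd rfl h
    | rfl
    | exact dist_comm _ _

lemma D_eq (l : Fin 6 → ℝ) (v i j k : Fin 4) (hvi : v ≠ i) (hvj : v ≠ j) (hvk : v ≠ k)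
    (hij : i ≠ j) (hik : i ≠ k) (hjk : j ≠ k) :
    D l v = heron (l (ix i j)) (l (ix i k)) (l (ix j k)) := by
  fin_cases v <;> fin_cases i <;> (first | exact absurd rfl hvi | skip) <;> fin_cases j <;>
    (first | exact absurd rfl hvj | exact absurd rfl hij | skip) <;> fin_cases k <;>
    (first | exact absurd rfl hvk | exact absurd rfl hik | exact absurd rfl hjk |
      (simp [D, ix, heron]; try ring))

lemma cover : ∀ a b c d : Fin 4, a ≠ b → a ≠ c → a ≠ d → b ≠ c → b ≠ d → c ≠ d → ∀ v : Fin 4,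
    v = a ∨ v = b ∨ v = c ∨ v = d := by decide

lemma heron_gram (u w : E3) :
    heron ‖u‖ ‖w‖ ‖w - u‖ = 4 * (‖u‖ ^ 2 * ‖w‖ ^ 2 - ⟪u, w⟫ ^ 2) := by
  have h := norm_sub_sq_real w u
  rw [real_inner_comm] at h
  have h2 : ⟪u, w⟫ = (‖u‖ ^ 2 + ‖w‖ ^ 2 - ‖w - u‖ ^ 2) / 2 := by
    rw [h]; ring
  rw [h2]
  unfold heron
  ring

end T12

open T12

theorem facet_point (x : Fin 6 → ℝ) (hx : x ∈ closure TT) (hpos : ∀ j, 0 < x j)
    (a b c d : Fin 4) (hab : a ≠ b) (hac : a ≠ c) (had : a ≠ d)
    (hbc : b ≠ c) (hbd : b ≠ d) (hcd : c ≠ d)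
    (hdeg : x (ix a b) + x (ix b c) = x (ix a c)) :
    x (ix a c) * x (ix d b) ^ 2 = x (ix b c) * x (ix d a) ^ 2 + x (ix a b) * x (ix d c) ^ 2
      - x (ix a c) * x (ix a b) * x (ix b c) ∧
    ((0 < D x a ∧ 0 < D x b ∧ 0 < D x c) ∨ (∀ v, D x v = 0)) := by
  obtain ⟨p, rfl⟩ := exists_points hx
  have Pab := hpos (ix a b)
  have Pbc := hpos (ix b c)
  have Pac := hpos (ix a c)
  rw [len_ix p a b hab, len_ix p b c hbc, len_ix p a c hac] at hdeg
  rw [len_ix p a b hab] at Pab
  rw [len_ix p b c hbc] at Pbc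
  rw [len_ix p a c hac] at Pac
  obtain ⟨s, ⟨hs0, hs1⟩, hs⟩ := (dist_add_dist_eq_iff.1 hdeg)
  rw [AffineMap.lineMap_apply] at hs
  set e : E3 := p c - p a with he
  set f : E3 := p d - p a with hf
  have hb : p b = p a + s • e := by
    rw [← hs]
    simp [he, vadd_eq_add, vsub_eq_sub, add_comm]
  have n1 : dist (p a) (p b) = s * ‖e‖ := by
    rw [hb, dist_eq_norm, sub_add_cancel_left, norm_neg, norm_smul, Real.norm_of_nonneg hs0]
  have n2 : dist (p b) (p c) = (1 - s) * ‖e‖ := by
    have : p b - p c = -((1 - s) • e) := by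
      rw [hb, he, sub_smul, one_smul]; abel
    rw [dist_eq_norm, this, norm_neg, norm_smul, Real.norm_of_nonneg (by linarith)]
  have n3 : dist (p a) (p c) = ‖e‖ := by
    rw [dist_eq_norm, norm_sub_rev]
  have n4 : dist (p d) (p a) = ‖f‖ := by rw [dist_eq_norm]
  have n5 : dist (p d) (p c) ^ 2 = ‖f‖ ^ 2 - 2 * ⟪e, f⟫ + ‖e‖ ^ 2 := by
    have : p d - p c = f - e := by rw [he, hf]; abel
    rw [dist_eq_norm, this, norm_sub_sq_real, real_inner_comm]
  have n6 : dist (p d) (p b) ^ 2 = ‖f‖ ^ 2 - 2 * (s * ⟪e, f⟫) + s ^ 2 * ‖e‖ ^ 2 := by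
    have : p d - p b = f - s • e := by rw [hb, hf]; abel
    rw [dist_eq_norm, this, norm_sub_sq_real, real_inner_smul_right, norm_smul,
      Real.norm_of_nonneg hs0, real_inner_comm]
    ring
  have he0 : 0 < ‖e‖ := by rwa [n3] at Pac
  have hs0' : 0 < s := by
    rw [n1] at Pab
    exact pos_of_mul_pos_left Pab he0.le
  have hs1' : 0 < 1 - s := by
    rw [n2] at Pbc
    exact pos_of_mul_pos_left Pbc he0.le
  refine ⟨?_, ?_⟩
  · rw [len_ix p a c hac, len_ix p d b hbd.symm, len_ix p b c hbc, len_ix p d a had.symm,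
      len_ix p a b hab, len_ix p d c hcd.symm, n6, n5, n4, n3, n2, n1]
    ring
  · set G := ‖e‖ ^ 2 * ‖f‖ ^ 2 - ⟪e, f⟫ ^ 2 with hG
    have hG0 : 0 ≤ G := by
      have := real_inner_mul_inner_self_le e f
      rw [real_inner_self_eq_norm_sq, real_inner_self_eq_norm_sq] at this
      rw [hG]
      nlinarith
    -- the four faces
    have Db : D (len p) b = 4 * G := by
      rw [D_eq (len p) b a c d hab.symm hbc hbd hac had hcd, len_ix p a c hac, len_ix p a d had,
        len_ix p c d hcd, dist_comm (p a) (p c), dist_comm (p a) (p d), dist_comm (p c) (p d),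
        dist_eq_norm, dist_eq_norm, dist_eq_norm,
        show p d - p c = f - e by rw [he, hf]; abel]
      exact heron_gram e f
    have Dc : D (len p) c = 4 * (s ^ 2 * G) := by
      rw [D_eq (len p) c a b d hac.symm hbc.symm hcd hab had hbd, len_ix p a b hab,
        len_ix p a d had, len_ix p b d hbd, dist_comm (p a) (p b), dist_comm (p a) (p d),
        dist_comm (p b) (p d), dist_eq_norm, dist_eq_norm, dist_eq_norm,
        show p b - p a = s • e by rw [hb]; abel, show p d - p b = f - s • e by rw [hb, hf]; abel]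
      rw [heron_gram (s • e) f, norm_smul, Real.norm_of_nonneg hs0, real_inner_smul_left, hG]
      ring
    have Da : D (len p) a = 4 * ((1 - s) ^ 2 * G) := by
      rw [D_eq (len p) a c b d hac hab had hbc.symm hcd hbd, len_ix p c b hbc.symm,
        len_ix p c d hcd, len_ix p b d hbd, dist_comm (p c) (p b), dist_comm (p c) (p d),
        dist_comm (p b) (p d), dist_eq_norm, dist_eq_norm, dist_eq_norm,
        show p d - p b = (p d - p c) - (p b - p c) by abel]
      rw [heron_gram (p b - p c) (p d - p c), show p b - p c = -((1 - s) • e) by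
        rw [hb, he, sub_smul, one_smul]; abel, show p d - p c = f - e by rw [he, hf]; abel,
        norm_neg, norm_smul, Real.norm_of_nonneg hs1'.le, inner_neg_left, real_inner_smul_left,
        inner_sub_right, real_inner_self_eq_norm_sq, norm_sub_sq_real, real_inner_comm, hG]
      ring
    have Dd : D (len p) d = 0 := by
      rw [D_eq (len p) d a b c had.symm hbd.symm hcd.symm hab hac hbc, len_ix p a b hab,
        len_ix p a c hac, len_ix p b c hbc, n1, n3, n2]
      unfold heron
      ring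
    rcases eq_or_lt_of_le hG0 with h | h
    · right
      intro v
      have hv := cover a b c d hab hac had hbc hbd hcd v
      rcases hv with rfl | rfl | rfl | rfl
      · rw [Da, ← h]; ring
      · rw [Db, ← h]; ring
      · rw [Dc, ← h]; ring
      · exact Dd
    · left
      rw [Da, Db, Dc]
      exact ⟨by positivity, by positivity, by positivity⟩

end Pool.Agent.Helper1.Tet
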