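import Pool.Agent.Helper1.Tet.Defs

/-!
# The three facets of a three-dimensional cone of edge length vectors
-/

open Real MeasureTheory Set InnerProductGeometry
open scoped RealInnerProductSpace

namespace Pool.Agent.Helper1.Tet

/-- the perimeter as a linear map -/
noncomputable def fc_tt (v : Fin 4) : (Fin 6 → ℝ) →ₗ[ℝ] ℝ :=
  ∑ j, if ea j = v ∨ eb j = v then 0 else LinearMap.proj j

/-- the length of a quadrilateral as a linear map -/
noncomputable def fc_qq (c : Fin 3) : (Fin 6 → ℝ) →ₗ[ℝ] ℝ :=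
  ∑ j, if cl j = c then 0 else LinearMap.proj j

lemma fc_tt_apply (v : Fin 4) (l : Fin 6 → ℝ) : fc_tt v l = tt l v := by
  unfold fc_tt tt
  rw [LinearMap.sum_apply]
  refine Finset.sum_congr rfl fun j _ => ?_
  split_ifs <;> simp

lemma fc_qq_apply (c : Fin 3) (l : Fin 6 → ℝ) : fc_qq c l = qq l c := by
  unfold fc_qq qq
  rw [LinearMap.sum_apply]
  refine Finset.sum_congr rfl fun j _ => ?_
  split_ifs <;> simp

lemma fc_tri_pos {l : Fin 6 → ℝ} (h : Tri l) : ∀ j, 0 < l j := by
  have h1 := h 0 1 2 (by decide) (by decide) (by decide)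
  have h2 := h 0 2 1 (by decide) (by decide) (by decide)
  have h3 := h 1 0 2 (by decide) (by decide) (by decide)
  have h4 := h 0 1 3 (by decide) (by decide) (by decide)
  have h5 := h 0 3 1 (by decide) (by decide) (by decide)
  have h6 := h 1 0 3 (by decide) (by decide) (by decide)
  have h7 := h 0 2 3 (by decide) (by decide) (by decide)
  have h8 := h 0 3 2 (by decide) (by decide) (by decide)
  have h9 := h 2 0 3 (by decide) (by decide) (by decide)
  simp only [ix, Matrix.cons_val_zero, Matrix.cons_val_one, Matrix.cons_val] at h1 h2 h3 h4 h5 h6 h7 h8 h9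
  intro j
  fin_cases j
  · show 0 < l 0; linarith
  · show 0 < l 1; linarith
  · show 0 < l 2; linarith
  · show 0 < l 3; linarith
  · show 0 < l 4; linarith
  · show 0 < l 5; linarith

lemma fc_tri_iff (l : Fin 6 → ℝ) : Tri l ↔ ∀ v c, 0 < qq l c - tt l v := by
  constructor
  · intro h
    have h1 := h 0 1 2 (by decide) (by decide) (by decide)
    have h2 := h 0 2 1 (by decide) (by decide) (by decide)
    have h3 := h 1 0 2 (by decide) (by decide) (by decide)
    have h4 := h 0 1 3 (by decide) (by decide) (by decide)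
    have h5 := h 0 3 1 (by decide) (by decide) (by decide)
    have h6 := h 1 0 3 (by decide) (by decide) (by decide)
    have h7 := h 0 2 3 (by decide) (by decide) (by decide)
    have h8 := h 0 3 2 (by decide) (by decide) (by decide)
    have h9 := h 2 0 3 (by decide) (by decide) (by decide)
    have h10 := h 1 2 3 (by decide) (by decide) (by decide)
    have h11 := h 1 3 2 (by decide) (by decide) (by decide)
    have h12 := h 2 1 3 (by decide) (by decide) (by decide)
    simp only [ix, Matrix.cons_val_zero, Matrix.cons_val_one, Matrix.cons_val]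
      at h1 h2 h3 h4 h5 h6 h7 h8 h9 h10 h11 h12
    intro v c
    fin_cases v <;> fin_cases c <;> simp [qq, tt, Fin.sum_univ_six, ea, eb, cl] <;> linarith
  · intro h
    have k : ∀ v c, qq l c - tt l v = qq l c - tt l v := fun _ _ => rfl
    have h1 := h 0 0
    have h2 := h 0 1
    have h3 := h 0 2
    have h4 := h 1 0
    have h5 := h 1 1
    have h6 := h 1 2
    have h7 := h 2 0
    have h8 := h 2 1
    have h9 := h 2 2
    have h10 := h 3 0
    have h11 := h 3 1
    have h12 := h 3 2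
    simp [qq, tt, Fin.sum_univ_six, ea, eb, cl] at h1 h2 h3 h4 h5 h6 h7 h8 h9 h10 h11 h12
    intro a b c hab hbc hac
    fin_cases a <;> fin_cases b <;> fin_cases c <;>
      first
      | exact absurd rfl hab
      | exact absurd rfl hbc
      | exact absurd rfl hac
      | (simp [ix]; linarith)

theorem facet_structure (P : Submodule ℝ (Fin 6 → ℝ)) (hP : Module.finrank ℝ P = 3)
    (l₀ : Fin 6 → ℝ) (h₀ : l₀ ∈ P) (hT : Tri l₀) (h : (Fin 6 → ℝ) →ₗ[ℝ] ℝ)
    (hlo : ∀ l ∈ P, Tri l → ∀ v, tt l v < h l) (hhi : ∀ l ∈ P, Tri l → ∀ c, h l < qq l c) :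
    ∃ (B : Fin 3 → Fin 4) (x : Fin 3 → Fin 6 → ℝ), Function.Injective B ∧ (∀ c, x c ∈ P) ∧
      (∀ c c', qq (x c) c' - h (x c) = if c' = c then 0 else 1) ∧
      (∀ c v, 0 ≤ h (x c) - tt (x c) v) ∧
      (∀ c, ∀ t : ℝ, 0 < t → t ≤ 1 → Tri (x c + t • (l₀ - x c))) ∧
      (∀ c, ∃ κ : ℝ, 0 < κ ∧ ∀ l ∈ P, h l - tt l (B c) = κ * (qq l c - h l)) := by
  set τ : Fin 4 → (Fin 6 → ℝ) →ₗ[ℝ] ℝ := fun v => h - fc_tt v with hτ
  set χ : Fin 3 → (Fin 6 → ℝ) →ₗ[ℝ] ℝ := fun c => fc_qq c - h with hχ
  have hτa : ∀ v l, τ v l = h l - tt l v := by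
    intro v l; simp only [hτ, LinearMap.sub_apply, fc_tt_apply]
  have hχa : ∀ c l, χ c l = qq l c - h l := by
    intro v l; simp only [hχ, LinearMap.sub_apply, fc_qq_apply]
  have hlo' : ∀ l ∈ P, Tri l → ∀ v, 0 < τ v l := fun l hl ht v => by
    rw [hτa]; linarith [hlo l hl ht v]
  have hhi' : ∀ l ∈ P, Tri l → ∀ c, 0 < χ c l := fun l hl ht c => by
    rw [hχa]; linarith [hhi l hl ht c]
  have htri : ∀ l, Tri l ↔ ∀ v c, 0 < τ v l + χ c l := by
    intro l
    rw [fc_tri_iff]
    refine forall_congr' fun v => forall_congr' fun c => ?_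
    rw [hτa, hχa]
    have : h l - tt l v + (qq l c - h l) = qq l c - tt l v := by ring
    rw [this]
  -- (1)
  have h1 : ∀ l ∈ P, (∀ c, 0 < χ c l) → Tri l := by
    intro l hl hc
    have hseg : ∀ t : ℝ, 0 ≤ t → t ≤ 1 → (∀ v, 0 ≤ τ v (l₀ + t • (l - l₀))) →
        Tri (l₀ + t • (l - l₀)) := by
      intro t ht0 ht1 hv
      rw [htri]
      intro v c
      have h2 : 0 < χ c (l₀ + t • (l - l₀)) := by
        have e : χ c (l₀ + t • (l - l₀)) = (1 - t) * χ c l₀ + t * χ c l := by
          rw [map_add, map_smul, map_sub, smul_eq_mul]; ring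
        rw [e]
        have h3 := hhi' l₀ h₀ hT c
        have h4 := hc c
        rcases eq_or_lt_of_le ht0 with h5 | h5
        · rw [← h5]; linarith
        · have h6 : 0 ≤ (1 - t) * χ c l₀ := mul_nonneg (by linarith) h3.le
          have h7 : 0 < t * χ c l := mul_pos h5 h4
          linarith
      linarith [hv v]
    by_contra hnot
    -- the minimum of the τ along the segment
    set f : ℝ → ℝ := fun t => Finset.univ.inf' ⟨0, Finset.mem_univ _⟩
      (fun v : Fin 4 => τ v (l₀ + t • (l - l₀))) with hf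
    have hfc : Continuous f := by
      refine Continuous.finset_inf'_apply _ fun v _ => ?_
      have : (fun t : ℝ => τ v (l₀ + t • (l - l₀))) = fun t => τ v l₀ + t * τ v (l - l₀) := by
        funext t; rw [map_add, map_smul, smul_eq_mul]
      rw [this]; fun_prop
    have hf0 : 0 ≤ f 0 := by
      refine Finset.le_inf' _ _ fun v _ => ?_
      rw [zero_smul, add_zero]
      exact (hlo' l₀ h₀ hT v).le
    have hf1 : f 1 ≤ 0 := by
      by_contra hc1
      push Not at hc1
      apply hnot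
      have h2 := hseg 1 zero_le_one le_rfl (fun v => by
        have := Finset.inf'_le (fun v : Fin 4 => τ v (l₀ + (1 : ℝ) • (l - l₀))) (Finset.mem_univ v)
        exact hc1.le.trans this)
      rwa [one_smul, add_sub_cancel] at h2
    obtain ⟨t, ht, hft⟩ := intermediate_value_Icc' (zero_le_one (α := ℝ)) hfc.continuousOn
      (show (0 : ℝ) ∈ Icc (f 1) (f 0) from ⟨hf1, hf0⟩)
    have h2 : ∀ v, 0 ≤ τ v (l₀ + t • (l - l₀)) := by
      intro v
      have := Finset.inf'_le (fun v : Fin 4 => τ v (l₀ + t • (l - l₀))) (Finset.mem_univ v)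
      rw [← hft]; exact this
    have h3 := hseg t ht.1 ht.2 h2
    obtain ⟨v, _, hv⟩ := Finset.exists_mem_eq_inf' (⟨0, Finset.mem_univ _⟩ : Finset.univ.Nonempty)
      (fun v : Fin 4 => τ v (l₀ + t • (l - l₀)))
    have h4 := hlo' _ (P.add_mem h₀ (P.smul_mem t (P.sub_mem hl h₀))) h3 v
    have h5 : τ v (l₀ + t • (l - l₀)) = 0 := by rw [← hv]; exact hft
    linarith
  -- the closed octant
  have h2 : ∀ l ∈ P, (∀ c, 0 ≤ χ c l) → ∀ t : ℝ, 0 < t → t ≤ 1 → Tri (l + t • (l₀ - l)) := by
    intro l hl hc t ht0 ht1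
    refine h1 _ (P.add_mem hl (P.smul_mem t (P.sub_mem h₀ hl))) fun c => ?_
    have e : χ c (l + t • (l₀ - l)) = (1 - t) * χ c l + t * χ c l₀ := by
      rw [map_add, map_smul, map_sub, smul_eq_mul]; ring
    rw [e]
    have h3 : 0 ≤ (1 - t) * χ c l := mul_nonneg (by linarith) (hc c)
    have h4 : 0 < t * χ c l₀ := mul_pos ht0 (hhi' l₀ h₀ hT c)
    linarith
  have h3 : ∀ l ∈ P, (∀ c, 0 ≤ χ c l) → ∀ v, 0 ≤ τ v l := by
    intro l hl hc v
    by_contra hneg
    push Not at hneg
    set a := τ v l with ha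
    set b := τ v l₀ with hb
    have hbpos : 0 < b := hlo' l₀ h₀ hT v
    have hba : 0 < b - a := by linarith
    have ht0 : 0 < -a / (2 * (b - a)) := by
      apply div_pos <;> linarith
    have ht1 : -a / (2 * (b - a)) ≤ 1 := by
      rw [div_le_one (by linarith)]; linarith
    have h4 := hlo' _ (P.add_mem hl (P.smul_mem _ (P.sub_mem h₀ hl))) (h2 l hl hc _ ht0 ht1) v
    rw [map_add, map_smul, map_sub, smul_eq_mul, ← ha, ← hb] at h4
    have h5 : a + -a / (2 * (b - a)) * (b - a) = a / 2 := by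
      field_simp; ring
    rw [h5] at h4
    linarith
  -- (2)
  set X : P →ₗ[ℝ] (Fin 3 → ℝ) := (LinearMap.pi χ).comp P.subtype with hX
  have hXa : ∀ (m : P) c, X m c = χ c (m : Fin 6 → ℝ) := fun m c => rfl
  have hXinj : Function.Injective X := by
    rw [← LinearMap.ker_eq_bot, LinearMap.ker_eq_bot']
    intro m hm
    have hm' : ∀ c, χ c (m : Fin 6 → ℝ) = 0 := fun c => by
      rw [← hXa, hm]; rfl
    have h4 : ∀ s : ℝ, Tri (l₀ + s • (m : Fin 6 → ℝ)) := by
      intro s
      refine h1 _ (P.add_mem h₀ (P.smul_mem s m.2)) fun c => ?_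
      rw [map_add, map_smul, hm', smul_zero, add_zero]
      exact hhi' l₀ h₀ hT c
    apply Subtype.ext
    funext j
    show (m : Fin 6 → ℝ) j = 0
    by_contra hne
    have h5 := fc_tri_pos (h4 (-(l₀ j) / (m : Fin 6 → ℝ) j)) j
    simp only [Pi.add_apply, Pi.smul_apply, smul_eq_mul] at h5
    rw [div_mul_cancel₀ _ hne] at h5
    linarith
  set Y : P ≃ₗ[ℝ] (Fin 3 → ℝ) := LinearEquiv.ofInjectiveOfFinrankEq X hXinj (by
    rw [hP]; simp) with hY
  have hYa : ∀ (m : P) c, Y m c = χ c (m : Fin 6 → ℝ) := fun m c => rfl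
  -- basis vectors
  set e : Fin 3 → Fin 6 → ℝ := fun k => (Y.symm (fun c => if c = k then 1 else 0) : P) with he
  set x : Fin 3 → Fin 6 → ℝ := fun k => (Y.symm (fun c => if c = k then 0 else 1) : P) with hx
  have heP : ∀ k, e k ∈ P := fun k => (Y.symm _).2
  have hxP : ∀ k, x k ∈ P := fun k => (Y.symm _).2
  have heχ : ∀ k c, χ c (e k) = if c = k then 1 else 0 := by
    intro k c
    have := hYa (Y.symm (fun c => if c = k then 1 else 0)) c
    rw [LinearEquiv.apply_symm_apply] at this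
    exact this.symm
  have hxχ : ∀ k c, χ c (x k) = if c = k then 0 else 1 := by
    intro k c
    have := hYa (Y.symm (fun c => if c = k then 0 else 1)) c
    rw [LinearEquiv.apply_symm_apply] at this
    exact this.symm
  have hexp : ∀ l ∈ P, l = ∑ k, χ k l • e k := by
    intro l hl
    have h4 : (⟨l, hl⟩ : P) = ∑ k, χ k l • (⟨e k, heP k⟩ : P) := by
      apply hXinj
      funext c
      rw [hXa, map_sum, Finset.sum_apply]
      simp only [hXa, Submodule.coe_smul, map_smul, heχ, smul_eq_mul, mul_ite, mul_one, mul_zero]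
      rw [Finset.sum_ite_eq]
      simp
    have h5 := congrArg (fun m : P => (m : Fin 6 → ℝ)) h4
    simpa using h5
  have heτ : ∀ k v, 0 ≤ τ v (e k) := by
    intro k v
    refine h3 _ (heP k) (fun c => ?_) v
    rw [heχ]; split_ifs <;> norm_num
  have hxc0 : ∀ k c, 0 ≤ χ c (x k) := by
    intro k c
    rw [hxχ]; split_ifs <;> norm_num
  have hxτ : ∀ k v, 0 ≤ τ v (x k) := fun k v => h3 _ (hxP k) (hxc0 k) v
  have hB : ∀ k, ∃ v, τ v (x k) = 0 := by
    intro k
    have h4 : ¬ Tri (x k) := by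
      intro ht
      have := hhi' _ (hxP k) ht k
      rw [hxχ, if_pos rfl] at this
      exact lt_irrefl _ this
    rw [htri] at h4
    push Not at h4
    obtain ⟨v, c, hvc⟩ := h4
    exact ⟨v, le_antisymm (by linarith [hxc0 k c]) (hxτ k v)⟩
  choose B hBx using hB
  have hκ : ∀ c, 0 < τ (B c) (e c) ∧ ∀ l ∈ P, τ (B c) l = τ (B c) (e c) * χ c l := by
    intro c
    have h4 : ∀ k, k ≠ c → τ (B c) (e k) = 0 := by
      have h5 := hBx c
      rw [hexp _ (hxP c), map_sum] at h5
      have h6 : ∀ k ∈ Finset.univ, 0 ≤ τ (B c) (χ k (x c) • e k) := by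
        intro k _
        rw [map_smul, smul_eq_mul]
        exact mul_nonneg (hxc0 c k) (heτ k _)
      rw [Finset.sum_eq_zero_iff_of_nonneg h6] at h5
      intro k hk
      have h7 := h5 k (Finset.mem_univ _)
      rw [map_smul, smul_eq_mul, hxχ, if_neg hk, one_mul] at h7
      exact h7
    have h5 : ∀ l ∈ P, τ (B c) l = τ (B c) (e c) * χ c l := by
      intro l hl
      conv_lhs => rw [hexp l hl, map_sum]
      rw [Finset.sum_eq_single c]
      · rw [map_smul, smul_eq_mul, mul_comm]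
      · intro k _ hk
        rw [map_smul, h4 k hk, smul_zero]
      · intro hc; exact absurd (Finset.mem_univ c) hc
    refine ⟨?_, h5⟩
    rcases eq_or_lt_of_le (heτ c (B c)) with h6 | h6
    · exfalso
      have h7 := hlo' l₀ h₀ hT (B c)
      rw [h5 l₀ h₀, ← h6, zero_mul] at h7
      exact lt_irrefl _ h7
    · exact h6
  refine ⟨B, x, ?_, hxP, ?_, ?_, ?_, ?_⟩
  · intro c c' hcc
    by_contra hne
    have h4 := (hκ c).2 (e c) (heP c)
    have h5 := (hκ c').2 (e c) (heP c)
    rw [heχ, if_neg (Ne.symm hne), mul_zero, ← hcc] at h5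
    have h6 := (hκ c).1
    linarith
  · intro c c'
    rw [← hχa, hxχ]
  · intro c v
    rw [← hτa]; exact hxτ c v
  · intro c t ht0 ht1
    exact h2 _ (hxP c) (hxc0 c) t ht0 ht1
  · intro c
    refine ⟨τ (B c) (e c), (hκ c).1, fun l hl => ?_⟩
    rw [← hτa, ← hχa]
    exact (hκ c).2 l hl

end Pool.Agent.Helper1.Tet
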