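import Pool.Agent.Helper1.Tet.Defs

/-!
# T11: limit of the dihedral angles at a degenerate facet
-/

open Real MeasureTheory Set InnerProductGeometry Filter Topology
open scoped RealInnerProductSpace ENNReal

namespace Pool.Agent.Helper1.Tet

namespace LimitAux

lemma ix_symm : ∀ a b : Fin 4, ix a b = ix b a := by decide

lemma idx : ∀ a b c d : Fin 4, a ≠ b → a ≠ c → a ≠ d → b ≠ c → b ≠ d → c ≠ d →
    ((ea (ix a b) = a ∧ eb (ix a b) = b) ∨ (ea (ix a b) = b ∧ eb (ix a b) = a)) ∧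
    ((ec (ix a b) = c ∧ ed (ix a b) = d) ∨ (ec (ix a b) = d ∧ ed (ix a b) = c)) := by decide

lemma W_ix (l : Fin 6 → ℝ) {a b c d : Fin 4} (hab : a ≠ b) (hac : a ≠ c) (had : a ≠ d)
    (hbc : b ≠ c) (hbd : b ≠ d) (hcd : c ≠ d) :
    W l (ix a b) = wform (l (ix a b)) (l (ix a c)) (l (ix a d)) (l (ix b c)) (l (ix b d))
      (l (ix c d)) := by
  obtain ⟨h1, h2⟩ := idx a b c d hab hac had hbc hbd hcd
  unfold W
  rcases h1 with ⟨e1, e2⟩ | ⟨e1, e2⟩ <;> rcases h2 with ⟨e3, e4⟩ | ⟨e3, e4⟩ <;>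
    rw [e1, e2, e3, e4]
  · rw [ix_symm d c]; unfold wform; ring
  · unfold wform; ring
  · rw [ix_symm d c]; unfold wform; ring

lemma al_ix (l : Fin 6 → ℝ) {a b c d : Fin 4} (hab : a ≠ b) (hac : a ≠ c) (had : a ≠ d)
    (hbc : b ≠ c) (hbd : b ≠ d) (hcd : c ≠ d) :
    al l (ix a b) = arccos (W l (ix a b) / (√(D l c) * √(D l d))) := by
  obtain ⟨_, h2⟩ := idx a b c d hab hac had hbc hbd hcd
  unfold al
  rcases h2 with ⟨e3, e4⟩ | ⟨e3, e4⟩ <;> rw [e3, e4]
  rw [mul_comm (√(D l d))]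

def i1 : Fin 4 → Fin 6 := ![3, 1, 0, 0]
def i2 : Fin 4 → Fin 6 := ![4, 2, 2, 1]
def i3 : Fin 4 → Fin 6 := ![5, 5, 4, 3]

lemma D_eq (l : Fin 6 → ℝ) (v : Fin 4) : D l v = heron (l (i1 v)) (l (i2 v)) (l (i3 v)) := by
  fin_cases v <;> rfl

lemma idx3 : ∀ a b c d : Fin 4, a ≠ b → a ≠ c → a ≠ d → b ≠ c → b ≠ d → c ≠ d →
    (i1 d = ix a b ∧ i2 d = ix b c ∧ i3 d = ix a c) ∨ (i1 d = ix a b ∧ i2 d = ix a c ∧ i3 d = ix b c) ∨
    (i1 d = ix b c ∧ i2 d = ix a b ∧ i3 d = ix a c) ∨ (i1 d = ix b c ∧ i2 d = ix a c ∧ i3 d = ix a b) ∨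
    (i1 d = ix a c ∧ i2 d = ix a b ∧ i3 d = ix b c) ∨ (i1 d = ix a c ∧ i2 d = ix b c ∧ i3 d = ix a b) := by
  decide

lemma D_ix (l : Fin 6 → ℝ) {a b c d : Fin 4} (hab : a ≠ b) (hac : a ≠ c) (had : a ≠ d)
    (hbc : b ≠ c) (hbd : b ≠ d) (hcd : c ≠ d) :
    D l d = heron (l (ix a b)) (l (ix b c)) (l (ix a c)) := by
  rw [D_eq]
  rcases idx3 a b c d hab hac had hbc hbd hcd with ⟨e1, e2, e3⟩ | ⟨e1, e2, e3⟩ | ⟨e1, e2, e3⟩ |
    ⟨e1, e2, e3⟩ | ⟨e1, e2, e3⟩ | ⟨e1, e2, e3⟩ <;> rw [e1, e2, e3] <;> unfold heron <;> ring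

lemma W_sq (l : Fin 6 → ℝ) (j : Fin 6) :
    W l j ^ 2 + 16 * l j ^ 2 * Gr l = D l (ec j) * D l (ed j) := by
  fin_cases j <;> simp [W, D, Gr, wform, heron, ec, ed, ea, eb, ix] <;> ring

lemma W_sq_ix (l : Fin 6 → ℝ) {a b c d : Fin 4} (hab : a ≠ b) (hac : a ≠ c) (had : a ≠ d)
    (hbc : b ≠ c) (hbd : b ≠ d) (hcd : c ≠ d) :
    W l (ix a b) ^ 2 + 16 * l (ix a b) ^ 2 * Gr l = D l c * D l d := by
  rw [W_sq]
  obtain ⟨_, h2⟩ := idx a b c d hab hac had hbc hbd hcd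
  rcases h2 with ⟨e3, e4⟩ | ⟨e3, e4⟩ <;> rw [e3, e4]
  rw [mul_comm]

lemma surj6 : ∀ a b c d : Fin 4, a ≠ b → a ≠ c → a ≠ d → b ≠ c → b ≠ d → c ≠ d →
    Function.Bijective ![ix a b, ix b c, ix a c, ix a d, ix b d, ix c d] := by
  decide

lemma sum6 (f : Fin 6 → ℝ) {a b c d : Fin 4} (hab : a ≠ b) (hac : a ≠ c) (had : a ≠ d)
    (hbc : b ≠ c) (hbd : b ≠ d) (hcd : c ≠ d) :
    ∑ j, f j = f (ix a b) + f (ix b c) + f (ix a c) + f (ix a d) + f (ix b d) + f (ix c d) := by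
  have h := (Equiv.ofBijective _ (surj6 a b c d hab hac had hbc hbd hcd)).sum_comp f
  rw [← h, Fin.sum_univ_six]
  simp

lemma continuous_W (j : Fin 6) : Continuous fun l : Fin 6 → ℝ => W l j := by
  unfold W wform; fun_prop

lemma continuous_D (v : Fin 4) : Continuous fun l : Fin 6 → ℝ => D l v := by
  simp only [D_eq]; unfold heron; fun_prop

lemma continuous_Gr : Continuous Gr := by
  unfold Gr; fun_prop

/-- the segment towards `x` -/
def yy (x l₀ : Fin 6 → ℝ) (t : ℝ) : Fin 6 → ℝ := x + t • (l₀ - x)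

lemma yy_apply (x l₀ : Fin 6 → ℝ) (t : ℝ) (j : Fin 6) : yy x l₀ t j = x j + t * (l₀ j - x j) := by
  simp [yy]

lemma yy_zero (x l₀ : Fin 6 → ℝ) : yy x l₀ 0 = x := by simp [yy]

lemma continuous_yy (x l₀ : Fin 6 → ℝ) : Continuous (yy x l₀) := by
  unfold yy; fun_prop

lemma tendsto_yy (x l₀ : Fin 6 → ℝ) : Tendsto (yy x l₀) (𝓝[>] 0) (𝓝 x) := by
  have h := (continuous_yy x l₀).tendsto 0
  rw [yy_zero] at h
  exact h.mono_left nhdsWithin_le_nhds

/-- edges through `d`: the angle tends to `arccos (±1)` -/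
lemma tendsto_al_of_pos (x l₀ : Fin 6 → ℝ) {a b c d : Fin 4} (hab : a ≠ b) (hac : a ≠ c)
    (had : a ≠ d) (hbc : b ≠ c) (hbd : b ≠ d) (hcd : c ≠ d) (hc : 0 < D x c) (hd : 0 < D x d) :
    Tendsto (fun t => al (yy x l₀ t) (ix a b)) (𝓝[>] 0)
      (𝓝 (arccos (W x (ix a b) / (√(D x c) * √(D x d))))) := by
  simp only [al_ix _ hab hac had hbc hbd hcd]
  apply (continuous_arccos.tendsto _).comp
  have hW := ((continuous_W (ix a b)).tendsto x).comp (tendsto_yy x l₀)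
  have hDc := ((continuous_D c).sqrt.tendsto x).comp (tendsto_yy x l₀)
  have hDd := ((continuous_D d).sqrt.tendsto x).comp (tendsto_yy x l₀)
  exact hW.div (hDc.mul hDd) (by positivity)

/-- edges of the degenerate face: the angle tends to `π / 2`. Here `d` is opposite to the
degenerate face. -/
lemma tendsto_al_of_deg (x l₀ : Fin 6 → ℝ) {a b c d : Fin 4} (hab : a ≠ b) (hac : a ≠ c)
    (had : a ≠ d) (hbc : b ≠ c) (hbd : b ≠ d) (hcd : c ≠ d) (hc : 0 < D x c)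
    (hW0 : W x (ix a b) = 0) {h : ℝ → ℝ} (hh : ContinuousAt h 0) (hh0 : 0 < h 0)
    (hD : ∀ t, D (yy x l₀ t) d = t * h t) :
    Tendsto (fun t => al (yy x l₀ t) (ix a b)) (𝓝[>] 0) (𝓝 (π / 2)) := by
  simp only [al_ix _ hab hac had hbc hbd hcd]
  rw [← arccos_zero]
  apply (continuous_arccos.tendsto _).comp
  have hdiff : DifferentiableAt ℝ (fun t => W (yy x l₀ t) (ix a b)) 0 := by
    simp only [W, wform, yy_apply]
    fun_prop
  have hslope := hasDerivAt_iff_tendsto_slope_zero.1 hdiff.hasDerivAt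
  simp only [zero_add, yy_zero, hW0, sub_zero, smul_eq_mul] at hslope
  have hslope' := hslope.mono_left (nhdsWithin_mono 0
    (fun t (ht : (0 : ℝ) < t) => (ne_of_gt ht : t ≠ 0)))
  have hsq : Tendsto (fun t : ℝ => √t) (𝓝[>] 0) (𝓝 0) := by
    have := (continuous_sqrt.tendsto (0 : ℝ)).mono_left (nhdsWithin_le_nhds (s := Ioi 0))
    rwa [Real.sqrt_zero] at this
  have hDc := ((continuous_D c).sqrt.tendsto x).comp (tendsto_yy x l₀)
  have hh' : Tendsto (fun t => √(h t)) (𝓝[>] 0) (𝓝 (√(h 0))) :=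
    (hh.sqrt.tendsto).mono_left nhdsWithin_le_nhds
  have hne : √(D x c) * √(h 0) ≠ 0 := by positivity
  have hlim := (hslope'.mul hsq).div (hDc.mul hh') hne
  rw [mul_zero, zero_div] at hlim
  refine hlim.congr' ?_
  have hev : ∀ᶠ t in 𝓝[>] (0 : ℝ), 0 < h t :=
    (hh.tendsto.mono_left nhdsWithin_le_nhds).eventually (lt_mem_nhds hh0)
  filter_upwards [self_mem_nhdsWithin, hev] with t ht hht
  have ht' : (0 : ℝ) < t := ht
  simp only [Pi.div_apply, Function.comp]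
  rw [hD t, Real.sqrt_mul ht'.le]
  have h1 : √t ≠ 0 := (Real.sqrt_pos.2 ht').ne'
  have h2 : √t * √t = t := Real.mul_self_sqrt ht'.le
  have h3 : √(h t) ≠ 0 := (Real.sqrt_pos.2 hht).ne'
  by_cases h4 : √(D (yy x l₀ t) c) = 0
  · simp [h4]
  · have h5 : t⁻¹ * W (yy x l₀ t) (ix a b) * √t = W (yy x l₀ t) (ix a b) / √t := by
      rw [eq_div_iff h1]
      calc t⁻¹ * W (yy x l₀ t) (ix a b) * √t * √t
          = t⁻¹ * W (yy x l₀ t) (ix a b) * (√t * √t) := by ring
        _ = W (yy x l₀ t) (ix a b) := by rw [h2]; field_simp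
    rw [h5]
    field_simp

end LimitAux

open LimitAux

theorem limit_at_facet (P : Submodule ℝ (Fin 6 → ℝ)) (l₀ : Fin 6 → ℝ) (h₀ : l₀ ∈ P)
    (hgood : ∀ l ∈ P, Tri l → l ∈ TT ∧ ∀ n ∈ P, ∑ j, n j * al l j = ∑ j, n j * al l₀ j)
    (x : Fin 6 → ℝ) (hx : x ∈ P) (hseg : ∀ t : ℝ, 0 < t → t ≤ 1 → Tri (x + t • (l₀ - x)))
    (hpos : ∀ j, 0 < x j) (a b c d : Fin 4) (hab : a ≠ b) (hac : a ≠ c) (had : a ≠ d)
    (hbc : b ≠ c) (hbd : b ≠ d) (hcd : c ≠ d)
    (hdeg : x (ix a b) + x (ix b c) = x (ix a c))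
    (hDa : 0 < D x a) (hDb : 0 < D x b) (hDc : 0 < D x c) :
    ∀ n ∈ P, ∑ j, n j * al l₀ j =
      π / 2 * (n (ix a b) + n (ix b c) + n (ix a c)) + π * n (ix b d) := by
  intro n hn
  have hmem : ∀ t, yy x l₀ t ∈ P := fun t =>
    P.add_mem hx (P.smul_mem _ (P.sub_mem h₀ hx))
  have hTri : ∀ t : ℝ, 0 < t → t ≤ 1 → Tri (yy x l₀ t) := hseg
  have hev : ∀ᶠ t in 𝓝[>] (0 : ℝ), 0 < t ∧ t ≤ 1 := by
    have h1 : Ioc (0 : ℝ) 1 ∈ 𝓝[>] (0 : ℝ) := Ioc_mem_nhdsGT one_pos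
    exact h1
  -- Gr x = 0
  have hDd : D x d = 0 := by
    rw [D_ix x hab hac had hbc hbd hcd]
    unfold heron
    have : x (ix a b) + x (ix b c) - x (ix a c) = 0 := by linarith
    rw [this]; ring
  have hGr0 : 0 ≤ Gr x := by
    have h1 : Tendsto (fun t => Gr (yy x l₀ t)) (𝓝[>] 0) (𝓝 (Gr x)) :=
      (continuous_Gr.tendsto x).comp (tendsto_yy x l₀)
    refine ge_of_tendsto h1 ?_
    filter_upwards [hev] with t ht
    exact (hgood _ (hmem t) (hTri t ht.1 ht.2)).1.2.le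
  have hWab := W_sq_ix x hab hac had hbc hbd hcd
  rw [hDd, mul_zero] at hWab
  have hGr : Gr x = 0 := by
    have h1 := hpos (ix a b)
    have h2 : 0 < 16 * x (ix a b) ^ 2 := by positivity
    have h3 : 16 * x (ix a b) ^ 2 * Gr x ≤ 0 := by nlinarith [sq_nonneg (W x (ix a b))]
    have h4 : Gr x ≤ 0 := by
      by_contra hc
      push Not at hc
      have := mul_pos h2 hc
      linarith
    linarith
  rw [hGr, mul_zero, add_zero] at hWab
  have hWab0 : W x (ix a b) = 0 := by simpa using hWab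
  have hWbc0 : W x (ix b c) = 0 := by
    have h1 := W_sq_ix x hbc hab.symm hbd hac.symm hcd had
    rw [hDd, hGr, mul_zero, mul_zero, add_zero] at h1
    simpa using h1
  have hWac0 : W x (ix a c) = 0 := by
    have h1 := W_sq_ix x hac hab had hbc.symm hcd hbd
    rw [hDd, hGr, mul_zero, mul_zero, add_zero] at h1
    simpa using h1
  -- the relation of Stewart
  have hp := hpos (ix a b)
  have hq := hpos (ix b c)
  have hS : x (ix a c) * x (ix b d) ^ 2 - x (ix b c) * x (ix a d) ^ 2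
      - x (ix a b) * x (ix c d) ^ 2 + x (ix a b) * x (ix b c) * x (ix a c) = 0 := by
    have h1 := W_ix x hab hac had hbc hbd hcd
    rw [hWab0] at h1
    unfold wform at h1
    have h2 : 2 * x (ix a b) * (x (ix a c) * x (ix b d) ^ 2 - x (ix b c) * x (ix a d) ^ 2
      - x (ix a b) * x (ix c d) ^ 2 + x (ix a b) * x (ix b c) * x (ix a c)) = 0 := by
      rw [← hdeg] at h1 ⊢
      linear_combination -h1
    rcases mul_eq_zero.1 h2 with h3 | h3
    · linarith
    · exact h3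
  -- signs
  have hr : 0 < x (ix a c) := hpos _
  have hWad : x (ix a b) * W x (ix a d) = x (ix a c) * D x c := by
    rw [W_ix x had hab hac hbd.symm hcd.symm hbc, D_ix x hab had hac hbd hbc hcd.symm,
      ix_symm d b, ix_symm d c]
    unfold wform heron
    rw [← hdeg] at hS ⊢
    linear_combination (-(x (ix a b) ^ 2 + x (ix a d) ^ 2 - x (ix b d) ^ 2)) * hS
  have hWbd : x (ix a b) * W x (ix b d) = - x (ix b c) * D x c := by
    rw [W_ix x hbd hab.symm hbc had.symm hcd.symm hac, D_ix x hab had hac hbd hbc hcd.symm,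
      ix_symm d a, ix_symm d c, ix_symm b a]
    unfold wform heron
    rw [← hdeg] at hS ⊢
    linear_combination (-(x (ix a b) ^ 2 + x (ix b d) ^ 2 - x (ix a d) ^ 2)) * hS
  have hWcd : x (ix b c) * W x (ix c d) = x (ix a c) * D x a := by
    rw [W_ix x hcd hbc.symm hac.symm hbd.symm had.symm hab.symm,
      D_ix x hbc hbd hab.symm hcd hac.symm had.symm,
      ix_symm d b, ix_symm d a, ix_symm c b, ix_symm c a, ix_symm b a]
    unfold wform heron
    rw [← hdeg] at hS ⊢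
    linear_combination (-(x (ix b c) ^ 2 + x (ix c d) ^ 2 - x (ix b d) ^ 2)) * hS
  have hWad' : 0 < W x (ix a d) := by
    have : 0 < x (ix a b) * W x (ix a d) := by rw [hWad]; positivity
    exact (mul_pos_iff_of_pos_left hp).1 this
  have hWcd' : 0 < W x (ix c d) := by
    have : 0 < x (ix b c) * W x (ix c d) := by rw [hWcd]; positivity
    exact (mul_pos_iff_of_pos_left hq).1 this
  have hWbd' : W x (ix b d) < 0 := by
    have h1 : 0 < x (ix a b) * (-W x (ix b d)) := by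
      have : 0 < x (ix b c) * D x c := by positivity
      linarith
    have := (mul_pos_iff_of_pos_left hp).1 h1
    linarith
  -- the limits at the edges through d
  have hquot : ∀ {e f g : Fin 4}, 0 < D x f → 0 < D x g →
      W x (ix e d) ^ 2 + 16 * x (ix e d) ^ 2 * Gr x = D x f * D x g → 
      (0 < W x (ix e d) → W x (ix e d) / (√(D x f) * √(D x g)) = 1) ∧
      (W x (ix e d) < 0 → W x (ix e d) / (√(D x f) * √(D x g)) = -1) := by
    intro e f g hf hg h1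
    rw [hGr, mul_zero, add_zero] at h1
    have h2 : (√(D x f) * √(D x g)) = |W x (ix e d)| := by
      rw [← Real.sqrt_mul hf.le, ← h1, Real.sqrt_sq_eq_abs]
    constructor
    · intro h3
      rw [h2, abs_of_pos h3, div_self h3.ne']
    · intro h3
      rw [h2, abs_of_neg h3, div_neg, div_self h3.ne]
  have Lad : Tendsto (fun t => al (yy x l₀ t) (ix a d)) (𝓝[>] 0) (𝓝 0) := by
    have h1 := tendsto_al_of_pos x l₀ had hab hac hbd.symm hcd.symm hbc hDb hDc
    rwa [((hquot hDb hDc (W_sq_ix x had hab hac hbd.symm hcd.symm hbc)).1 hWad'),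
      arccos_one] at h1
  have Lcd : Tendsto (fun t => al (yy x l₀ t) (ix c d)) (𝓝[>] 0) (𝓝 0) := by
    have h1 := tendsto_al_of_pos x l₀ hcd hac.symm hbc.symm had.symm hbd.symm hab hDa hDb
    rwa [((hquot hDa hDb (W_sq_ix x hcd hac.symm hbc.symm had.symm hbd.symm hab)).1 hWcd'),
      arccos_one] at h1
  have Lbd : Tendsto (fun t => al (yy x l₀ t) (ix b d)) (𝓝[>] 0) (𝓝 π) := by
    have h1 := tendsto_al_of_pos x l₀ hbd hab.symm hbc had.symm hcd.symm hac hDa hDc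
    rwa [((hquot hDa hDc (W_sq_ix x hbd hab.symm hbc had.symm hcd.symm hac)).2 hWbd'),
      arccos_neg_one] at h1
  -- the degenerate face
  set σ : ℝ := l₀ (ix a b) + l₀ (ix b c) - l₀ (ix a c) with hσ
  have hσ0 : 0 < σ := by
    have h1 := hTri 1 one_pos le_rfl
    have h2 : yy x l₀ 1 = l₀ := by simp [yy]
    rw [h2] at h1
    have := h1 a b c hab hbc hac
    linarith
  let h : ℝ → ℝ := fun t => σ * ((yy x l₀ t (ix a b) + yy x l₀ t (ix b c) + yy x l₀ t (ix a c)) *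
    (yy x l₀ t (ix a b) - yy x l₀ t (ix b c) + yy x l₀ t (ix a c)) *
    (-yy x l₀ t (ix a b) + yy x l₀ t (ix b c) + yy x l₀ t (ix a c)))
  have hhc : ContinuousAt h 0 := by
    have hc : ∀ j, Continuous fun t => yy x l₀ t j := fun j => by
      simp only [yy_apply]; fun_prop
    apply Continuous.continuousAt
    exact continuous_const.mul (((((hc _).add (hc _)).add (hc _)).mul
      (((hc _).sub (hc _)).add (hc _))).mul (((hc _).neg.add (hc _)).add (hc _)))
  have hh0 : 0 < h 0 := by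
    simp only [h, yy_zero]
    rw [← hdeg]
    have e1 : x (ix a b) - x (ix b c) + (x (ix a b) + x (ix b c)) = 2 * x (ix a b) := by ring
    have e2 : -x (ix a b) + x (ix b c) + (x (ix a b) + x (ix b c)) = 2 * x (ix b c) := by ring
    rw [e1, e2]
    positivity
  have hD : ∀ t, D (yy x l₀ t) d = t * h t := by
    intro t
    rw [D_ix _ hab hac had hbc hbd hcd]
    simp only [h, heron]
    have e1 : yy x l₀ t (ix a b) + yy x l₀ t (ix b c) - yy x l₀ t (ix a c) = t * σ := by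
      simp only [yy_apply, hσ]
      rw [← hdeg]
      ring
    rw [e1]
    ring
  have Lab := tendsto_al_of_deg x l₀ hab hac had hbc hbd hcd hDc hWab0 hhc hh0 hD
  have Lbc := tendsto_al_of_deg x l₀ hbc hab.symm hbd hac.symm hcd had hDa hWbc0 hhc hh0 hD
  have Lac := tendsto_al_of_deg x l₀ hac hab had hbc.symm hcd hbd hDb hWac0 hhc hh0 hD
  -- conclusion
  have hlim : Tendsto (fun t => ∑ j, n j * al (yy x l₀ t) j) (𝓝[>] 0)
      (𝓝 (n (ix a b) * (π / 2) + n (ix b c) * (π / 2) + n (ix a c) * (π / 2) + n (ix a d) * 0 +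
        n (ix b d) * π + n (ix c d) * 0)) := by
    have e1 : (fun t => ∑ j, n j * al (yy x l₀ t) j) = fun t =>
        n (ix a b) * al (yy x l₀ t) (ix a b) + n (ix b c) * al (yy x l₀ t) (ix b c) +
        n (ix a c) * al (yy x l₀ t) (ix a c) + n (ix a d) * al (yy x l₀ t) (ix a d) +
        n (ix b d) * al (yy x l₀ t) (ix b d) + n (ix c d) * al (yy x l₀ t) (ix c d) := by
      funext t
      exact sum6 (fun j => n j * al (yy x l₀ t) j) hab hac had hbc hbd hcd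
    rw [e1]
    exact (((((Lab.const_mul _).add (Lbc.const_mul _)).add (Lac.const_mul _)).add
      (Lad.const_mul _)).add (Lbd.const_mul _)).add (Lcd.const_mul _)
  have hconst : Tendsto (fun t => ∑ j, n j * al (yy x l₀ t) j) (𝓝[>] 0)
      (𝓝 (∑ j, n j * al l₀ j)) := by
    refine tendsto_const_nhds.congr' ?_
    filter_upwards [hev] with t ht
    exact ((hgood _ (hmem t) (hTri t ht.1 ht.2)).2 n hn).symm
  rw [tendsto_nhds_unique hconst hlim]
  ring

end Pool.Agent.Helper1.Tet
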