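import Pool.Agent.Helper1.Tet.Defs

/-!
# The planar inequality for the four projected vertices of a tetrahedron
-/

open Real MeasureTheory Set InnerProductGeometry
open scoped RealInnerProductSpace

namespace Pool.Agent.Helper1.Tet

section Hull

variable {V : Type*} [AddCommGroup V] [Module ℝ V]

lemma hull_L1 (ν : Seminorm ℝ V) (pa pb pc pd : V) (la lb lc ld : ℝ)
    (hs : la + lb + lc + ld = 0) (hk : ν (la • pa + lb • pb + lc • pc + ld • pd) = 0) :
    |ld| * ν (pa - pd) ≤ |lb| * ν (pa - pb) + |lc| * ν (pa - pc) := by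
  have e : ld • (pa - pd) = -(la • pa + lb • pb + lc • pc + ld • pd)
      + (-(lb • (pa - pb)) + -(lc • (pa - pc))) := by
    have h : la = -(lb + lc + ld) := by linarith
    rw [h]; module
  have h1 : ν (ld • (pa - pd)) = |ld| * ν (pa - pd) := by
    rw [map_smul_eq_mul, Real.norm_eq_abs]
  have h2 : ν (lb • (pa - pb)) = |lb| * ν (pa - pb) := by
    rw [map_smul_eq_mul, Real.norm_eq_abs]
  have h3 : ν (lc • (pa - pc)) = |lc| * ν (pa - pc) := by
    rw [map_smul_eq_mul, Real.norm_eq_abs]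
  rw [← h1, ← h2, ← h3, e]
  refine (map_add_le_add ν _ _).trans ?_
  rw [map_neg_eq_map, hk, zero_add]
  refine (map_add_le_add ν _ _).trans ?_
  rw [map_neg_eq_map, map_neg_eq_map]

lemma hull_L2 (ν : Seminorm ℝ V) (pa pb pc pd : V) (la lb lc ld : ℝ)
    (hs : la + lb + lc + ld = 0) (hk : ν (la • pa + lb • pb + lc • pc + ld • pd) = 0) :
    |la + lc| * ν (pb - pc) ≤ |ld| * ν (pb - pd) + |la| * ν (pa - pc) := by
  have e : (la + lc) • (pb - pc) = -(la • pa + lb • pb + lc • pc + ld • pd)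
      + (-(ld • (pb - pd)) + la • (pa - pc)) := by
    have h : lb = -(la + lc + ld) := by linarith
    rw [h]; module
  have h1 : ν ((la + lc) • (pb - pc)) = |la + lc| * ν (pb - pc) := by
    rw [map_smul_eq_mul, Real.norm_eq_abs]
  have h2 : ν (ld • (pb - pd)) = |ld| * ν (pb - pd) := by
    rw [map_smul_eq_mul, Real.norm_eq_abs]
  have h3 : ν (la • (pa - pc)) = |la| * ν (pa - pc) := by
    rw [map_smul_eq_mul, Real.norm_eq_abs]
  rw [← h1, ← h2, ← h3, e]
  refine (map_add_le_add ν _ _).trans ?_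
  rw [map_neg_eq_map, hk, zero_add]
  refine (map_add_le_add ν _ _).trans ?_
  rw [map_neg_eq_map]

/-- one sign different: `d` lies in the triangle `abc` -/
lemma hull_one (ν : Seminorm ℝ V) (pa pb pc pd : V) (la lb lc ld : ℝ)
    (hs : la + lb + lc + ld = 0) (hk : ν (la • pa + lb • pb + lc • pc + ld • pd) = 0)
    (hsg : (0 < la ∧ 0 < lb ∧ 0 < lc ∧ ld < 0) ∨ (la < 0 ∧ lb < 0 ∧ lc < 0 ∧ 0 < ld)) :
    ν (pa - pd) + ν (pb - pd) ≤ ν (pa - pc) + ν (pb - pc) := by
  have h1 := hull_L1 ν pa pb pc pd la lb lc ld hs hk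
  have h2 := hull_L1 ν pb pa pc pd lb la lc ld (by linarith) (by
    rw [← hk]; congr 1; abel)
  have hab : ν (pb - pa) = ν (pa - pb) := by rw [← map_neg_eq_map ν, neg_sub]
  rw [hab] at h2
  have htri : ν (pa - pb) ≤ ν (pa - pc) + ν (pb - pc) := by
    have : pa - pb = (pa - pc) + -(pb - pc) := by abel
    rw [this]
    refine (map_add_le_add ν _ _).trans ?_
    rw [map_neg_eq_map]
  have hd : |ld| = |la| + |lb| + |lc| := by
    rcases hsg with ⟨a, b, c, d⟩ | ⟨a, b, c, d⟩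
    · rw [abs_of_pos a, abs_of_pos b, abs_of_pos c, abs_of_neg d]; linarith
    · rw [abs_of_neg a, abs_of_neg b, abs_of_neg c, abs_of_pos d]; linarith
  have hdpos : 0 < |ld| := by
    rcases hsg with ⟨a, b, c, d⟩ | ⟨a, b, c, d⟩
    · exact abs_pos.2 d.ne
    · exact abs_pos.2 d.ne'
  have ha := abs_nonneg la
  have hb := abs_nonneg lb
  refine le_of_mul_le_mul_left ?_ hdpos
  calc |ld| * (ν (pa - pd) + ν (pb - pd))
      ≤ (|la| + |lb|) * ν (pa - pb) + |lc| * (ν (pa - pc) + ν (pb - pc)) := by linarith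
    _ ≤ (|la| + |lb|) * (ν (pa - pc) + ν (pb - pc)) + |lc| * (ν (pa - pc) + ν (pb - pc)) := by
        have := mul_le_mul_of_nonneg_left htri (add_nonneg ha hb)
        linarith
    _ = |ld| * (ν (pa - pc) + ν (pb - pc)) := by rw [hd]; ring

/-- two signs: the segments `ac` and `bd` meet -/
lemma hull_two (ν : Seminorm ℝ V) (pa pb pc pd : V) (la lb lc ld : ℝ)
    (hs : la + lb + lc + ld = 0) (hk : ν (la • pa + lb • pb + lc • pc + ld • pd) = 0)
    (hsg : (0 < la ∧ lb < 0 ∧ 0 < lc ∧ ld < 0) ∨ (la < 0 ∧ 0 < lb ∧ lc < 0 ∧ 0 < ld)) :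
    ν (pb - pc) + ν (pa - pd) ≤ ν (pb - pd) + ν (pa - pc) := by
  have h1 := hull_L2 ν pa pb pc pd la lb lc ld hs hk
  have h2 := hull_L2 ν pc pd pa pb lc ld la lb (by linarith) (by
    rw [← hk]; congr 1; abel)
  have had : ν (pd - pa) = ν (pa - pd) := by rw [← map_neg_eq_map ν, neg_sub]
  have hdb : ν (pd - pb) = ν (pb - pd) := by rw [← map_neg_eq_map ν, neg_sub]
  have hca : ν (pc - pa) = ν (pa - pc) := by rw [← map_neg_eq_map ν, neg_sub]
  rw [had, hdb, hca, add_comm lc la] at h2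
  have hm : |la + lc| = |la| + |lc| := by
    rcases hsg with ⟨a, b, c, d⟩ | ⟨a, b, c, d⟩
    · rw [abs_of_pos a, abs_of_pos c, abs_of_pos (by linarith)]
    · rw [abs_of_neg a, abs_of_neg c, abs_of_neg (by linarith)]; ring
  have hm' : |la + lc| = |lb| + |ld| := by
    rcases hsg with ⟨a, b, c, d⟩ | ⟨a, b, c, d⟩
    · rw [abs_of_neg b, abs_of_neg d, abs_of_pos (by linarith)]; linarith
    · rw [abs_of_pos b, abs_of_pos d, abs_of_neg (by linarith)]; linarith
  have hpos : 0 < |la + lc| := by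
    rcases hsg with ⟨a, b, c, d⟩ | ⟨a, b, c, d⟩
    · rw [abs_of_pos (by linarith)]; linarith
    · rw [abs_of_neg (by linarith)]; linarith
  refine le_of_mul_le_mul_left ?_ hpos
  calc |la + lc| * (ν (pb - pc) + ν (pa - pd))
      ≤ (|lb| + |ld|) * ν (pb - pd) + (|la| + |lc|) * ν (pa - pc) := by linarith
    _ = |la + lc| * (ν (pb - pd) + ν (pa - pc)) := by rw [← hm, ← hm']; ring

theorem hull_ineq {V : Type*} [AddCommGroup V] [Module ℝ V] (ν : Seminorm ℝ V) (p : Fin 4 → V)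
    (lam : Fin 4 → ℝ) (h0 : ∀ i, lam i ≠ 0) (hs : ∑ i, lam i = 0)
    (hk : ν (∑ i, lam i • (p i - p 0)) = 0) :
    (∀ v : Fin 4, ∑ j : Fin 6, (if ea j = v ∨ eb j = v then 0 else ν (p (ea j) - p (eb j)))
        ≤ ∑ j : Fin 6, (if lam (ec j) * lam (ed j) < 0 then ν (p (ea j) - p (eb j)) else 0)) ∧
    (∀ c : Fin 3, ∑ j : Fin 6, (if lam (ec j) * lam (ed j) < 0 then ν (p (ea j) - p (eb j)) else 0)
        ≤ ∑ j : Fin 6, (if cl j = c then 0 else ν (p (ea j) - p (eb j)))) := by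
  have hs' : lam 0 + lam 1 + lam 2 + lam 3 = 0 := by
    rw [← hs, Fin.sum_univ_four]
  have hk' : ν (lam 0 • p 0 + lam 1 • p 1 + lam 2 • p 2 + lam 3 • p 3) = 0 := by
    rw [← hk, Fin.sum_univ_four]
    congr 1
    have h : lam 0 = -(lam 1 + lam 2 + lam 3) := by linarith
    rw [h]; module
  -- symmetry and triangle inequality
  have hsy : ∀ i j, ν (p i - p j) = ν (p j - p i) := by
    intro i j; rw [← map_neg_eq_map ν, neg_sub]
  have htr : ∀ i j k, ν (p i - p k) ≤ ν (p i - p j) + ν (p j - p k) := by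
    intro i j k
    have : p i - p k = (p i - p j) + (p j - p k) := by abel
    rw [this]
    exact map_add_le_add ν _ _
  have s10 := hsy 1 0
  have s20 := hsy 2 0
  have s30 := hsy 3 0
  have s21 := hsy 2 1
  have s31 := hsy 3 1
  have s32 := hsy 3 2
  have t1 := htr 0 1 2
  have t2 := htr 0 2 1
  have t3 := htr 1 0 2
  have t4 := htr 0 1 3
  have t5 := htr 0 3 1
  have t6 := htr 1 0 3
  have t7 := htr 0 2 3
  have t8 := htr 0 3 2
  have t9 := htr 2 0 3
  have t10 := htr 1 2 3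
  have t11 := htr 1 3 2
  have t12 := htr 2 1 3
  rw [s21] at t2
  rw [s10] at t3
  rw [s31] at t5
  rw [s10] at t6
  rw [s32] at t8
  rw [s20] at t9
  rw [s32] at t11
  rw [s21] at t12
  -- the inequalities for each sign pattern
  have one : ∀ a b c d : Fin 4, (lam a + lam b + lam c + lam d = 0) →
      (lam a • p a + lam b • p b + lam c • p c + lam d • p d =
        lam 0 • p 0 + lam 1 • p 1 + lam 2 • p 2 + lam 3 • p 3) →
      ((0 < lam a ∧ 0 < lam b ∧ 0 < lam c ∧ lam d < 0) ∨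
        (lam a < 0 ∧ lam b < 0 ∧ lam c < 0 ∧ 0 < lam d)) →
      ν (p a - p d) + ν (p b - p d) ≤ ν (p a - p c) + ν (p b - p c) := by
    intro a b c d h1 h2 h3
    exact hull_one ν _ _ _ _ (lam a) (lam b) (lam c) (lam d) h1 (by rw [h2, hk']) h3
  have two : ∀ a b c d : Fin 4, (lam a + lam b + lam c + lam d = 0) →
      (lam a • p a + lam b • p b + lam c • p c + lam d • p d =
        lam 0 • p 0 + lam 1 • p 1 + lam 2 • p 2 + lam 3 • p 3) →
      ((0 < lam a ∧ lam b < 0 ∧ 0 < lam c ∧ lam d < 0) ∨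
        (lam a < 0 ∧ 0 < lam b ∧ lam c < 0 ∧ 0 < lam d)) →
      ν (p b - p c) + ν (p a - p d) ≤ ν (p b - p d) + ν (p a - p c) := by
    intro a b c d h1 h2 h3
    exact hull_two ν _ _ _ _ (lam a) (lam b) (lam c) (lam d) h1 (by rw [h2, hk']) h3
  -- instances
  have o1 := one 0 1 2 3 (by linarith) (by abel)
  have o2 := one 0 2 1 3 (by linarith) (by abel)
  have o3 := one 1 2 0 3 (by linarith) (by abel)
  have o4 := one 0 1 3 2 (by linarith) (by abel)
  have o5 := one 0 3 1 2 (by linarith) (by abel)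
  have o6 := one 1 3 0 2 (by linarith) (by abel)
  have o7 := one 0 2 3 1 (by linarith) (by abel)
  have o8 := one 0 3 2 1 (by linarith) (by abel)
  have o9 := one 2 3 0 1 (by linarith) (by abel)
  have o10 := one 1 2 3 0 (by linarith) (by abel)
  have o11 := one 1 3 2 0 (by linarith) (by abel)
  have o12 := one 2 3 1 0 (by linarith) (by abel)
  -- {0,1} vs {2,3}: segments 01 and 23 meet
  have w1 := two 0 2 1 3 (by linarith) (by abel)
  have w2 := two 0 3 1 2 (by linarith) (by abel)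
  have w3 := two 0 1 2 3 (by linarith) (by abel)
  have w4 := two 0 3 2 1 (by linarith) (by abel)
  have w5 := two 0 1 3 2 (by linarith) (by abel)
  have w6 := two 0 2 3 1 (by linarith) (by abel)
  simp only [s10, s20, s30, s21, s31, s32] at o1 o2 o3 o4 o5 o6 o7 o8 o9 o10 o11 o12 w1 w2 w3 w4 w5 w6
  have n01 : 0 ≤ ν (p 0 - p 1) := apply_nonneg ν _
  have n02 : 0 ≤ ν (p 0 - p 2) := apply_nonneg ν _
  have n03 : 0 ≤ ν (p 0 - p 3) := apply_nonneg ν _
  have n12 : 0 ≤ ν (p 1 - p 2) := apply_nonneg ν _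
  have n13 : 0 ≤ ν (p 1 - p 3) := apply_nonneg ν _
  have n23 : 0 ≤ ν (p 2 - p 3) := apply_nonneg ν _
  have hlam : ∀ i, (0 < lam i ∧ ¬ lam i < 0) ∨ (lam i < 0 ∧ ¬ 0 < lam i) := by
    intro i
    rcases lt_or_gt_of_ne (h0 i) with h | h
    · exact Or.inr ⟨h, not_lt_of_gt h⟩
    · exact Or.inl ⟨h, not_lt_of_gt h⟩
  clear hk hk' hsy htr one two
  rcases hlam 0 with ⟨p0, q0⟩ | ⟨p0, q0⟩ <;> rcases hlam 1 with ⟨p1, q1⟩ | ⟨p1, q1⟩ <;>
    rcases hlam 2 with ⟨p2, q2⟩ | ⟨p2, q2⟩ <;> rcases hlam 3 with ⟨p3, q3⟩ | ⟨p3, q3⟩ <;>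
    simp only [p0, q0, p1, q1, p2, q2, p3, q3, true_and, and_true, and_false, false_and, or_false,
      false_or, or_true, true_or, or_self, forall_true_left, IsEmpty.forall_iff, true_implies,
      false_implies] at o1 o2 o3 o4 o5 o6 o7 o8 o9 o10 o11 o12 w1 w2 w3 w4 w5 w6 <;>
    first
    | (exfalso; linarith)
    | (refine ⟨fun v => ?_, fun c => ?_⟩
       · fin_cases v <;> simp [Fin.sum_univ_six, ea, eb, ec, ed, mul_neg_iff, p0, q0, p1, q1, p2, q2,
           p3, q3] <;> linarith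
       · fin_cases c <;> simp [Fin.sum_univ_six, ea, eb, ec, ed, cl, mul_neg_iff, p0, q0, p1, q1, p2,
           q2, p3, q3] <;> linarith)

end Hull

end Pool.Agent.Helper1.Tet
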