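import Pool.Agent.Helper1.Tet.Wedge

/-!
# T8a: the integral of the length of a projected segment over directions
-/

open Real MeasureTheory Set InnerProductGeometry
open scoped RealInnerProductSpace ENNReal

namespace Pool.Agent.Helper1.Tet

/-- length of the projection of `e` along `v` -/
noncomputable def nu (v e : E3) : ℝ := ‖e - (⟪v, e⟫ / ⟪v, v⟫) • v‖

lemma nu_eq (v e : E3) : nu v e = √(‖e‖ ^ 2 - ⟪e, v⟫ ^ 2 / ‖v‖ ^ 2) := by
  unfold nu
  rw [← Real.sqrt_sq (norm_nonneg (e - (⟪v, e⟫ / ⟪v, v⟫) • v))]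
  congr 1
  rcases eq_or_ne v 0 with rfl | hv
  · simp
  · have hv' : ‖v‖ ≠ 0 := norm_ne_zero_iff.2 hv
    rw [norm_sub_sq_real, norm_smul, mul_pow, Real.norm_eq_abs, sq_abs, real_inner_smul_right,
      real_inner_comm e v, real_inner_self_eq_norm_sq]
    field_simp
    ring

lemma nu_nonneg (v e : E3) : 0 ≤ nu v e := norm_nonneg _

lemma nu_le (v e : E3) : nu v e ≤ ‖e‖ := by
  rw [nu_eq]
  apply Real.sqrt_le_iff.2
  refine ⟨norm_nonneg _, ?_⟩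
  have : 0 ≤ ⟪e, v⟫ ^ 2 / ‖v‖ ^ 2 := by positivity
  linarith

lemma nu_zero (v : E3) : nu v 0 = 0 := by
  simp [nu]

lemma measurable_nu (e : E3) : Measurable fun v : E3 => nu v e := by
  have : (fun v : E3 => nu v e) = fun v => √(‖e‖ ^ 2 - ⟪e, v⟫ ^ 2 / ‖v‖ ^ 2) := by
    ext v
    exact nu_eq v e
  rw [this]
  fun_prop

/-- the radial-axial form of the integrand -/
noncomputable def Fnu (e : E3) (s r : ℝ) : ℝ≥0∞ :=
  if r < 1 then ENNReal.ofReal √(‖e‖ ^ 2 - s ^ 2 / r ^ 2) else 0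

lemma measurable_Fnu (e : E3) : Measurable (Function.uncurry (Fnu e)) := by
  unfold Fnu Function.uncurry
  refine Measurable.ite ?_ ?_ measurable_const
  · exact measurableSet_lt measurable_snd measurable_const
  · fun_prop

lemma Fnu_apply (e v : E3) :
    Fnu e ⟪e, v⟫ ‖v‖ = (Metric.ball (0 : E3) 1).indicator (fun v => ENNReal.ofReal (nu v e)) v := by
  unfold Fnu
  by_cases hv : ‖v‖ < 1
  · rw [if_pos hv, indicator_of_mem (mem_ball_zero_iff.2 hv), nu_eq]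
  · rw [if_neg hv, indicator_of_notMem (fun h => hv (mem_ball_zero_iff.1 h))]

/-- the constant -/
noncomputable def Jnu : ℝ≥0∞ :=
  ∫⁻ z : ℝ, ∫⁻ w : ℝ × ℝ, if √(w.1 ^ 2 + w.2 ^ 2 + z ^ 2) < 1 then
    ENNReal.ofReal √(1 - z ^ 2 / (w.1 ^ 2 + w.2 ^ 2 + z ^ 2)) else 0

lemma lintegral_Fnu (e : E3) (he : e ≠ 0) :
    ∫⁻ v : E3, Fnu e ⟪e, v⟫ ‖v‖ = ENNReal.ofReal ‖e‖ * Jnu := by
  have hen : ‖e‖ ≠ 0 := norm_ne_zero_iff.2 he
  have hcard : Module.finrank ℝ E3 = Fintype.card (Fin 3) := by simp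
  have hon : Orthonormal ℝ (({2} : Set (Fin 3)).domRestrict
      (fun _ => ‖e‖⁻¹ • e : Fin 3 → E3)) := by
    constructor
    · rintro ⟨i, hi⟩
      simp [norm_smul, hen]
    · rintro ⟨i, hi⟩ ⟨j, hj⟩ hij
      rcases hi with rfl
      rcases hj with rfl
      exact absurd rfl hij
  obtain ⟨b, hb⟩ := hon.exists_orthonormalBasis_extension_of_card_eq hcard
  have hb2' : b 2 = ‖e‖⁻¹ • e := hb 2 (by simp)
  have hb2 : e = ‖e‖ • b 2 := by rw [hb2', smul_smul, mul_inv_cancel₀ hen, one_smul]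
  have o00 : ⟪b 0, b 0⟫ = 1 := by rw [real_inner_self_eq_norm_sq, b.norm_eq_one]; norm_num
  have o11 : ⟪b 1, b 1⟫ = 1 := by rw [real_inner_self_eq_norm_sq, b.norm_eq_one]; norm_num
  have o22 : ⟪b 2, b 2⟫ = 1 := by rw [real_inner_self_eq_norm_sq, b.norm_eq_one]; norm_num
  have o01 : ⟪b 0, b 1⟫ = 0 := b.orthonormal.2 (by decide)
  have o02 : ⟪b 0, b 2⟫ = 0 := b.orthonormal.2 (by decide)
  have o10 : ⟪b 1, b 0⟫ = 0 := b.orthonormal.2 (by decide)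
  have o12 : ⟪b 1, b 2⟫ = 0 := b.orthonormal.2 (by decide)
  have o20 : ⟪b 2, b 0⟫ = 0 := b.orthonormal.2 (by decide)
  have o21 : ⟪b 2, b 1⟫ = 0 := b.orthonormal.2 (by decide)
  have ce : ∀ x y z : ℝ, ⟪e, x • b 0 + y • b 1 + z • b 2⟫ = ‖e‖ * z := by
    intro x y z
    have : ⟪‖e‖ • b 2, x • b 0 + y • b 1 + z • b 2⟫ = ‖e‖ * z := by
      simp only [real_inner_smul_left, real_inner_smul_right, inner_add_right, o20, o21, o22]
      ring
    rw [← this, ← hb2]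
  have cn : ∀ x y z : ℝ, ‖x • b 0 + y • b 1 + z • b 2‖ = √(x ^ 2 + y ^ 2 + z ^ 2) := by
    intro x y z
    rw [norm_eq_sqrt_real_inner]
    congr 1
    simp only [real_inner_smul_left, real_inner_smul_right, inner_add_right, inner_add_left,
        o00, o01, o02, o10, o11, o12, o20, o21, o22]
    ring
  have hGm : Measurable fun v : E3 => Fnu e ⟪e, v⟫ ‖v‖ :=
    (measurable_Fnu e).comp ((by fun_prop : Measurable fun v : E3 => ⟪e, v⟫).prodMk measurable_norm)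
  rw [lintegral_coords b _ hGm, Jnu]
  rw [← lintegral_const_mul' _ _ ENNReal.ofReal_ne_top]
  refine lintegral_congr fun z => ?_
  rw [← lintegral_const_mul' _ _ ENNReal.ofReal_ne_top]
  refine lintegral_congr fun w => ?_
  rw [ce, cn]
  unfold Fnu
  split_ifs with h
  · rw [← ENNReal.ofReal_mul (norm_nonneg _)]
    congr 1
    rw [Real.sq_sqrt (by positivity)]
    rw [show ‖e‖ ^ 2 - (‖e‖ * z) ^ 2 / (w.1 ^ 2 + w.2 ^ 2 + z ^ 2) =
      ‖e‖ ^ 2 * (1 - z ^ 2 / (w.1 ^ 2 + w.2 ^ 2 + z ^ 2)) by ring]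
    rw [Real.sqrt_mul (by positivity), Real.sqrt_sq (norm_nonneg _)]
  · rw [mul_zero]

lemma lintegral_nu (e : E3) :
    ∫⁻ v in Metric.ball (0 : E3) 1, ENNReal.ofReal (nu v e) = ENNReal.ofReal ‖e‖ * Jnu := by
  rcases eq_or_ne e 0 with rfl | he
  · simp [nu_zero]
  · rw [← lintegral_Fnu e he, ← lintegral_indicator Metric.isOpen_ball.measurableSet]
    refine lintegral_congr fun v => ?_
    exact (Fnu_apply e v).symm

lemma lintegral_nu_wedge (e m₁ m₂ : E3) (h1 : m₁ ≠ 0) (h2 : m₂ ≠ 0) (hm1 : ⟪e, m₁⟫ = 0)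
    (hm2 : ⟪e, m₂⟫ = 0) :
    ∫⁻ v in Metric.ball (0 : E3) 1 ∩ {v | 0 < ⟪m₁, v⟫ ∧ 0 < ⟪m₂, v⟫}, ENNReal.ofReal (nu v e) =
      ENNReal.ofReal ((π - angle m₁ m₂) / (2 * π)) * (ENNReal.ofReal ‖e‖ * Jnu) := by
  rcases eq_or_ne e 0 with rfl | he
  · simp [nu_zero]
  · have hWm : MeasurableSet {v : E3 | 0 < ⟪m₁, v⟫ ∧ 0 < ⟪m₂, v⟫} := by
      have q1 : Measurable fun v : E3 => ⟪m₁, v⟫ := by fun_prop
      have q2 : Measurable fun v : E3 => ⟪m₂, v⟫ := by fun_prop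
      exact (measurableSet_lt measurable_const q1).inter (measurableSet_lt measurable_const q2)
    rw [← lintegral_Fnu e he, ← lintegral_wedge e m₁ m₂ he h1 h2 hm1 hm2 _ (measurable_Fnu e)]
    have h3 : ∀ v : E3, Fnu e ⟪e, v⟫ ‖v‖ =
        (Metric.ball (0 : E3) 1).indicator (fun v => ENNReal.ofReal (nu v e)) v := Fnu_apply e
    simp_rw [h3]
    rw [lintegral_indicator Metric.isOpen_ball.measurableSet,
      Measure.restrict_restrict Metric.isOpen_ball.measurableSet]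

lemma measurableSet_wedge (m₁ m₂ : E3) : MeasurableSet {v : E3 | 0 < ⟪m₁, v⟫ ∧ 0 < ⟪m₂, v⟫} := by
  have q1 : Measurable fun v : E3 => ⟪m₁, v⟫ := by fun_prop
  have q2 : Measurable fun v : E3 => ⟪m₂, v⟫ := by fun_prop
  exact (measurableSet_lt measurable_const q1).inter (measurableSet_lt measurable_const q2)

lemma lintegral_nu_neg (e m₁ m₂ : E3) (h1 : m₁ ≠ 0) (h2 : m₂ ≠ 0) (hm1 : ⟪e, m₁⟫ = 0)
    (hm2 : ⟪e, m₂⟫ = 0) :
    ∫⁻ v in Metric.ball (0 : E3) 1 ∩ {v | ⟪m₁, v⟫ * ⟪m₂, v⟫ < 0}, ENNReal.ofReal (nu v e) =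
      ENNReal.ofReal (angle m₁ m₂ / π) * (ENNReal.ofReal ‖e‖ * Jnu) := by
  have hset : Metric.ball (0 : E3) 1 ∩ {v | ⟪m₁, v⟫ * ⟪m₂, v⟫ < 0} =
      (Metric.ball (0 : E3) 1 ∩ {v | 0 < ⟪m₁, v⟫ ∧ 0 < ⟪-m₂, v⟫}) ∪
      (Metric.ball (0 : E3) 1 ∩ {v | 0 < ⟪-m₁, v⟫ ∧ 0 < ⟪m₂, v⟫}) := by
    rw [← inter_union_distrib_left]
    congr 1
    ext v
    simp only [mem_ofPred_eq, mem_union, inner_neg_left, mul_neg_iff, Left.neg_pos_iff]
  have hdisj : Disjoint (Metric.ball (0 : E3) 1 ∩ {v | 0 < ⟪m₁, v⟫ ∧ 0 < ⟪-m₂, v⟫})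
      (Metric.ball (0 : E3) 1 ∩ {v | 0 < ⟪-m₁, v⟫ ∧ 0 < ⟪m₂, v⟫}) := by
    rw [Set.disjoint_left]
    rintro v ⟨-, hv1, -⟩ ⟨-, hv2, -⟩
    rw [inner_neg_left] at hv2
    linarith
  rw [hset, lintegral_union
    (Metric.isOpen_ball.measurableSet.inter (measurableSet_wedge (-m₁) m₂)) hdisj,
    lintegral_nu_wedge e m₁ (-m₂) h1 (neg_ne_zero.2 h2) hm1 (by rw [inner_neg_right, hm2, neg_zero]),
    lintegral_nu_wedge e (-m₁) m₂ (neg_ne_zero.2 h1) h2 (by rw [inner_neg_right, hm1, neg_zero]) hm2,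
    angle_neg_right, angle_neg_left, ← add_mul]
  congr 1
  have hpi := Real.pi_pos
  have hn : 0 ≤ (π - (π - angle m₁ m₂)) / (2 * π) := by
    have := angle_nonneg m₁ m₂
    apply div_nonneg <;> linarith
  rw [← ENNReal.ofReal_add hn hn]
  congr 1
  field_simp
  ring

lemma Jnu_ne_top : Jnu ≠ ⊤ := by
  have h1 := lintegral_nu (EuclideanSpace.single 0 1)
  have h2 : ‖(EuclideanSpace.single 0 1 : E3)‖ = 1 := by simp
  rw [h2, ENNReal.ofReal_one, one_mul] at h1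
  rw [← h1]
  have h3 : ∫⁻ v in Metric.ball (0 : E3) 1, ENNReal.ofReal (nu v (EuclideanSpace.single 0 1)) ≤
      ∫⁻ v in Metric.ball (0 : E3) 1, 1 := by
    refine lintegral_mono fun v => ?_
    rw [← ENNReal.ofReal_one]
    exact ENNReal.ofReal_le_ofReal ((nu_le _ _).trans h2.le)
  refine ne_top_of_le_ne_top ?_ h3
  rw [lintegral_one, Measure.restrict_apply_univ]
  exact measure_ball_lt_top.ne

lemma Jnu_ne_zero : Jnu ≠ 0 := by
  have h1 := lintegral_nu (EuclideanSpace.single 0 1)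
  have h2 : ‖(EuclideanSpace.single 0 1 : E3)‖ = 1 := by simp
  rw [h2, ENNReal.ofReal_one, one_mul] at h1
  rw [← h1]
  intro h
  have hm : Measurable fun v : E3 => ENNReal.ofReal (nu v (EuclideanSpace.single 0 1)) :=
    (measurable_nu _).ennreal_ofReal
  rw [lintegral_eq_zero_iff hm] at h
  -- an open set where the integrand is positive
  set e : E3 := EuclideanSpace.single 0 1 with he
  have hopen : IsOpen (Metric.ball (0 : E3) 1 ∩ {v : E3 | ⟪e, v⟫ ^ 2 < ‖v‖ ^ 2}) := by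
    refine Metric.isOpen_ball.inter (isOpen_lt ?_ ?_) <;> fun_prop
  have hne : (Metric.ball (0 : E3) 1 ∩ {v : E3 | ⟪e, v⟫ ^ 2 < ‖v‖ ^ 2}).Nonempty := by
    refine ⟨EuclideanSpace.single 1 (1 / 2), ?_, ?_⟩
    · rw [mem_ball_zero_iff]
      simp
      norm_num
    · have : ⟪e, (EuclideanSpace.single 1 (1 / 2) : E3)⟫ = 0 := by
        rw [he]
        simp [EuclideanSpace.inner_single_left]
      rw [mem_ofPred_eq, this]
      simp
  have hpos := hopen.measure_pos volume hne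
  have hzero : volume (Metric.ball (0 : E3) 1 ∩ {v : E3 | ⟪e, v⟫ ^ 2 < ‖v‖ ^ 2}) = 0 := by
    have h5 := (ae_restrict_iff' Metric.isOpen_ball.measurableSet).1 h
    refine measure_mono_null ?_ (ae_iff.1 h5)
    rintro v ⟨hv1, hv2⟩
    rw [mem_ofPred_eq]
    intro hcon
    have h6 := hcon hv1
    simp only [Pi.zero_apply, ENNReal.ofReal_eq_zero] at h6
    have h7 : nu v e = 0 := le_antisymm h6 (nu_nonneg _ _)
    rw [nu_eq, Real.sqrt_eq_zero', h2] at h7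
    have hv3 : ⟪e, v⟫ ^ 2 < ‖v‖ ^ 2 := hv2
    have hv4 : 0 < ‖v‖ ^ 2 := lt_of_le_of_lt (sq_nonneg _) hv3
    have h8 : ⟪e, v⟫ ^ 2 / ‖v‖ ^ 2 < 1 := (div_lt_one hv4).2 hv3
    linarith
  exact hpos.ne' hzero

theorem nu_integral : ∃ C : ℝ, 0 < C ∧ ∀ e m₁ m₂ : E3, m₁ ≠ 0 → m₂ ≠ 0 → ⟪e, m₁⟫ = 0 →
    ⟪e, m₂⟫ = 0 → IntegrableOn (fun v => nu v e) (Metric.ball 0 1) ∧
      ∫ v in Metric.ball (0 : E3) 1, nu v e = C * ‖e‖ ∧
      ∫ v in Metric.ball (0 : E3) 1 ∩ {v | ⟪m₁, v⟫ * ⟪m₂, v⟫ < 0}, nu v e =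
        angle m₁ m₂ / π * (C * ‖e‖) := by
  refine ⟨Jnu.toReal, ENNReal.toReal_pos Jnu_ne_zero Jnu_ne_top, ?_⟩
  intro e m₁ m₂ h1 h2 hm1 hm2
  have hint : IntegrableOn (fun v => nu v e) (Metric.ball 0 1) := by
    refine Measure.integrableOn_of_bounded (M := ‖e‖) measure_ball_lt_top.ne
      (measurable_nu e).aestronglyMeasurable ?_
    refine Filter.Eventually.of_forall fun v => ?_
    rw [Real.norm_of_nonneg (nu_nonneg v e)]
    exact nu_le v e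
  refine ⟨hint, ?_, ?_⟩
  · rw [integral_eq_lintegral_of_nonneg_ae (Filter.Eventually.of_forall fun v => nu_nonneg v e)
      (measurable_nu e).aestronglyMeasurable, lintegral_nu, ENNReal.toReal_mul,
      ENNReal.toReal_ofReal (norm_nonneg _)]
    ring
  · rw [integral_eq_lintegral_of_nonneg_ae (Filter.Eventually.of_forall fun v => nu_nonneg v e)
      (measurable_nu e).aestronglyMeasurable, lintegral_nu_neg e m₁ m₂ h1 h2 hm1 hm2,
      ENNReal.toReal_mul, ENNReal.toReal_mul, ENNReal.toReal_ofReal (norm_nonneg _),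
      ENNReal.toReal_ofReal (div_nonneg (angle_nonneg _ _) Real.pi_pos.le)]
    ring

end Pool.Agent.Helper1.Tet
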