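import Pool.Agent.Helper1.Tet.Defs
import Pool.Agent.Helper1.Tet.HullIneq
import Pool.Agent.Helper1.Tet.Dual
import Pool.Agent.Helper1.Tet.Realize
import Pool.Agent.Helper1.Tet.PerimInt

/-!
# The perimeter inequalities: `π · (perimeter of a face) < ∑ ℓ (π - α) < π · (length of a 4-cycle)`
-/

open Real MeasureTheory Set InnerProductGeometry Filter Topology
open scoped RealInnerProductSpace ENNReal

namespace Pool.Agent.Helper1.Tet

section Peri

/-- the linear map `e ↦ e - (⟪v, e⟫ / ⟪v, v⟫) • v` -/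
noncomputable def nuLin (v : E3) : E3 →ₗ[ℝ] E3 where
  toFun e := e - (⟪v, e⟫ / ⟪v, v⟫) • v
  map_add' a b := by rw [inner_add_right, add_div, add_smul]; abel
  map_smul' c a := by
    simp only [inner_smul_right, RingHom.id_apply, smul_sub, smul_smul, mul_div_assoc]

/-- `nu v` as a seminorm -/
noncomputable def nuS (v : E3) : Seminorm ℝ E3 := (normSeminorm ℝ E3).comp (nuLin v)

theorem nuS_apply (v e : E3) : nuS v e = nu v e := rfl

theorem nuLin_self (v : E3) : nuLin v v = 0 := by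
  show v - (⟪v, v⟫ / ⟪v, v⟫) • v = 0
  rcases eq_or_ne v 0 with rfl | hv
  · simp
  · rw [div_self (by rwa [ne_eq, inner_self_eq_zero]), one_smul, sub_self]

theorem nu_self (v : E3) : nu v v = 0 := by
  show ‖nuLin v v‖ = 0
  rw [nuLin_self, norm_zero]

theorem nuLin_eq_zero {v e : E3} (h : nuLin v e = 0) : ∃ t : ℝ, e = t • v :=
  ⟨⟪v, e⟫ / ⟪v, v⟫, sub_eq_zero.mp h⟩

theorem nu_neg (v e : E3) : nu v (-e) = nu v e := by
  show ‖nuLin v (-e)‖ = ‖nuLin v e‖
  rw [map_neg, norm_neg]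

/-- strict triangle inequality for `nu v` -/
theorem nu_strict (p g : Fin 4 → E3) (hg : IsDual p g) (v : E3)
    (hv : ∀ i, ⟪g i, v⟫ ≠ 0) (x y z w : Fin 4) (hxy : x ≠ y) (hyz : y ≠ z) (hxz : x ≠ z)
    (hwx : w ≠ x) (hwy : w ≠ y) (hwz : w ≠ z) :
    nu v (p x - p z) < nu v (p x - p y) + nu v (p y - p z) := by
  show ‖nuLin v (p x - p z)‖ < ‖nuLin v (p x - p y)‖ + ‖nuLin v (p y - p z)‖
  have e1 : nuLin v (p x - p z) = nuLin v (p x - p y) + nuLin v (p y - p z) := by
    rw [← map_add]; congr 1; abel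
  rw [e1]
  rw [← not_sameRay_iff_norm_add_lt]
  intro hray
  -- a nontrivial linear relation
  have key : ∀ s t : ℝ, s • nuLin v (p x - p y) = t • nuLin v (p y - p z) → s = 0 ∧ t = 0 := by
    intro s t h
    have h1 : nuLin v (s • (p x - p y) - t • (p y - p z)) = 0 := by
      rw [map_sub, map_smul, map_smul, h, sub_self]
    obtain ⟨r, hr⟩ := nuLin_eq_zero h1
    have hw : ⟪g w, s • (p x - p y) - t • (p y - p z)⟫ = 0 := by
      rw [inner_sub_right, inner_smul_right, inner_smul_right, hg, hg]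
      simp [hwx, hwy, hwz]
    rw [hr, inner_smul_right] at hw
    have hr0 : r = 0 := by
      rcases mul_eq_zero.mp hw with h2 | h2
      · exact h2
      · exact absurd h2 (hv w)
    rw [hr0, zero_smul] at hr
    have hx : ⟪g x, s • (p x - p y) - t • (p y - p z)⟫ = s := by
      rw [inner_sub_right, inner_smul_right, inner_smul_right, hg, hg]
      simp [hxy, hxz]
    have hz : ⟪g z, s • (p x - p y) - t • (p y - p z)⟫ = t := by
      rw [inner_sub_right, inner_smul_right, inner_smul_right, hg, hg]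
      simp [hxz.symm, hyz.symm]
    rw [hr, inner_zero_right] at hx hz
    exact ⟨hx.symm, hz.symm⟩
  rcases hray with h | h | ⟨r₁, r₂, h1, h2, h⟩
  · exact one_ne_zero (key 1 0 (by rw [h]; simp)).1
  · exact one_ne_zero (key 0 1 (by rw [h]; simp)).2
  · exact h1.ne' (key r₁ r₂ h).1


/-- the edge vector of the edge `j` -/
noncomputable def ev (p : Fin 4 → E3) (j : Fin 6) : E3 := p (ea j) - p (eb j)

/-- sum over the edges whose two opposite faces separate `v` -/
noncomputable def MM (p g : Fin 4 → E3) (v : E3) : ℝ :=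
  ∑ j : Fin 6, if ⟪g (ec j), v⟫ * ⟪g (ed j), v⟫ < 0 then nu v (ev p j) else 0

/-- sum over the edges of the face opposite `w` -/
noncomputable def TF (p : Fin 4 → E3) (w : Fin 4) (v : E3) : ℝ :=
  ∑ j : Fin 6, if ea j = w ∨ eb j = w then 0 else nu v (ev p j)

/-- sum over the edges which are not in the class `c` -/
noncomputable def QF (p : Fin 4 → E3) (c : Fin 3) (v : E3) : ℝ :=
  ∑ j : Fin 6, if cl j = c then 0 else nu v (ev p j)

theorem hull_v (p g : Fin 4 → E3) (hp : AffineIndependent ℝ p) (hg : IsDual p g) (v : E3)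
    (hv : ∀ i, ⟪g i, v⟫ ≠ 0) :
    (∀ w, TF p w v ≤ MM p g v) ∧ (∀ c, MM p g v ≤ QF p c v) := by
  have h := hull_ineq (nuS v) p (fun i => ⟪g i, v⟫) hv
    (by rw [← sum_inner, dual_sum p g hp hg, inner_zero_left])
    (by
      show nuS v (∑ i, ⟪g i, v⟫ • (p i - p 0)) = 0
      rw [dual_expand p g hp hg v, nuS_apply, nu_self])
  exact h

theorem strict_T (p g : Fin 4 → E3) (hg : IsDual p g) (w : Fin 4) :
    ∃ σ : Fin 4 → ℝ, (∀ i, σ i ≠ 0) ∧ ∑ i, σ i = 0 ∧
      ∀ v : E3, (∀ i, 0 < σ i * ⟪g i, v⟫) → TF p w v < MM p g v := by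
  fin_cases w
  · refine ⟨![-1, 1, -1, 1], by intro i; fin_cases i <;> norm_num,
      by simp [Fin.sum_univ_four], ?_⟩
    intro v hv
    have h0 := hv 0
    have h1 := hv 1
    have h2 := hv 2
    have h3 := hv 3
    simp at h0 h1 h2 h3
    have hne : ∀ i, ⟪g i, v⟫ ≠ 0 := by
      intro i; fin_cases i
      · exact h0.ne
      · exact h1.ne'
      · exact h2.ne
      · exact h3.ne'
    have m01 : ⟪g 0, v⟫ * ⟪g 1, v⟫ < 0 := mul_neg_of_neg_of_pos h0 h1
    have m02 : ¬ ⟪g 0, v⟫ * ⟪g 2, v⟫ < 0 := not_lt.mpr (mul_pos_of_neg_of_neg h0 h2).le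
    have m03 : ⟪g 0, v⟫ * ⟪g 3, v⟫ < 0 := mul_neg_of_neg_of_pos h0 h3
    have m12 : ⟪g 1, v⟫ * ⟪g 2, v⟫ < 0 := mul_neg_of_pos_of_neg h1 h2
    have m13 : ¬ ⟪g 1, v⟫ * ⟪g 3, v⟫ < 0 := not_lt.mpr (mul_pos h1 h3).le
    have m23 : ⟪g 2, v⟫ * ⟪g 3, v⟫ < 0 := mul_neg_of_neg_of_pos h2 h3
    have hs := nu_strict p g hg v hne 1 0 3 2 (by decide) (by decide) (by decide) (by decide)
      (by decide) (by decide)
    have e10 : nu v (p 1 - p 0) = nu v (p 0 - p 1) := by rw [← nu_neg, neg_sub]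
    simp [TF, MM, Fin.sum_univ_six, ea, eb, ec, ed, ev, m01, m02, m03, m12, m13, m23]
    linarith
  · refine ⟨![1, -1, -1, 1], by intro i; fin_cases i <;> norm_num,
      by simp [Fin.sum_univ_four], ?_⟩
    intro v hv
    have h0 := hv 0
    have h1 := hv 1
    have h2 := hv 2
    have h3 := hv 3
    simp at h0 h1 h2 h3
    have hne : ∀ i, ⟪g i, v⟫ ≠ 0 := by
      intro i; fin_cases i
      · exact h0.ne'
      · exact h1.ne
      · exact h2.ne
      · exact h3.ne'
    have m01 : ⟪g 0, v⟫ * ⟪g 1, v⟫ < 0 := mul_neg_of_pos_of_neg h0 h1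
    have m02 : ⟪g 0, v⟫ * ⟪g 2, v⟫ < 0 := mul_neg_of_pos_of_neg h0 h2
    have m03 : ¬ ⟪g 0, v⟫ * ⟪g 3, v⟫ < 0 := not_lt.mpr (mul_pos h0 h3).le
    have m12 : ¬ ⟪g 1, v⟫ * ⟪g 2, v⟫ < 0 := not_lt.mpr (mul_pos_of_neg_of_neg h1 h2).le
    have m13 : ⟪g 1, v⟫ * ⟪g 3, v⟫ < 0 := mul_neg_of_neg_of_pos h1 h3
    have m23 : ⟪g 2, v⟫ * ⟪g 3, v⟫ < 0 := mul_neg_of_neg_of_pos h2 h3
    have hs := nu_strict p g hg v hne 0 1 3 2 (by decide) (by decide) (by decide) (by decide)
      (by decide) (by decide)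
    simp [TF, MM, Fin.sum_univ_six, ea, eb, ec, ed, ev, m01, m02, m03, m12, m13, m23]
    linarith
  · refine ⟨![1, -1, -1, 1], by intro i; fin_cases i <;> norm_num,
      by simp [Fin.sum_univ_four], ?_⟩
    intro v hv
    have h0 := hv 0
    have h1 := hv 1
    have h2 := hv 2
    have h3 := hv 3
    simp at h0 h1 h2 h3
    have hne : ∀ i, ⟪g i, v⟫ ≠ 0 := by
      intro i; fin_cases i
      · exact h0.ne'
      · exact h1.ne
      · exact h2.ne
      · exact h3.ne'
    have m01 : ⟪g 0, v⟫ * ⟪g 1, v⟫ < 0 := mul_neg_of_pos_of_neg h0 h1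
    have m02 : ⟪g 0, v⟫ * ⟪g 2, v⟫ < 0 := mul_neg_of_pos_of_neg h0 h2
    have m03 : ¬ ⟪g 0, v⟫ * ⟪g 3, v⟫ < 0 := not_lt.mpr (mul_pos h0 h3).le
    have m12 : ¬ ⟪g 1, v⟫ * ⟪g 2, v⟫ < 0 := not_lt.mpr (mul_pos_of_neg_of_neg h1 h2).le
    have m13 : ⟪g 1, v⟫ * ⟪g 3, v⟫ < 0 := mul_neg_of_neg_of_pos h1 h3
    have m23 : ⟪g 2, v⟫ * ⟪g 3, v⟫ < 0 := mul_neg_of_neg_of_pos h2 h3
    have hs := nu_strict p g hg v hne 0 2 3 1 (by decide) (by decide) (by decide) (by decide)
      (by decide) (by decide)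
    simp [TF, MM, Fin.sum_univ_six, ea, eb, ec, ed, ev, m01, m02, m03, m12, m13, m23]
    linarith
  · refine ⟨![1, -1, 1, -1], by intro i; fin_cases i <;> norm_num,
      by simp [Fin.sum_univ_four], ?_⟩
    intro v hv
    have h0 := hv 0
    have h1 := hv 1
    have h2 := hv 2
    have h3 := hv 3
    simp at h0 h1 h2 h3
    have hne : ∀ i, ⟪g i, v⟫ ≠ 0 := by
      intro i; fin_cases i
      · exact h0.ne'
      · exact h1.ne
      · exact h2.ne'
      · exact h3.ne
    have m01 : ⟪g 0, v⟫ * ⟪g 1, v⟫ < 0 := mul_neg_of_pos_of_neg h0 h1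
    have m02 : ¬ ⟪g 0, v⟫ * ⟪g 2, v⟫ < 0 := not_lt.mpr (mul_pos h0 h2).le
    have m03 : ⟪g 0, v⟫ * ⟪g 3, v⟫ < 0 := mul_neg_of_pos_of_neg h0 h3
    have m12 : ⟪g 1, v⟫ * ⟪g 2, v⟫ < 0 := mul_neg_of_neg_of_pos h1 h2
    have m13 : ¬ ⟪g 1, v⟫ * ⟪g 3, v⟫ < 0 := not_lt.mpr (mul_pos_of_neg_of_neg h1 h3).le
    have m23 : ⟪g 2, v⟫ * ⟪g 3, v⟫ < 0 := mul_neg_of_pos_of_neg h2 h3
    have hs := nu_strict p g hg v hne 0 3 2 1 (by decide) (by decide) (by decide) (by decide)
      (by decide) (by decide)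
    have e32 : nu v (p 3 - p 2) = nu v (p 2 - p 3) := by rw [← nu_neg, neg_sub]
    simp [TF, MM, Fin.sum_univ_six, ea, eb, ec, ed, ev, m01, m02, m03, m12, m13, m23]
    linarith

theorem strict_Q (p g : Fin 4 → E3) (hg : IsDual p g) (c : Fin 3) :
    ∃ σ : Fin 4 → ℝ, (∀ i, σ i ≠ 0) ∧ ∑ i, σ i = 0 ∧
      ∀ v : E3, (∀ i, 0 < σ i * ⟪g i, v⟫) → MM p g v < QF p c v := by
  refine ⟨![1, 1, 1, -3], by intro i; fin_cases i <;> norm_num,
      by simp [Fin.sum_univ_four]; norm_num, ?_⟩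
  intro v hv
  have h0 := hv 0
  have h1 := hv 1
  have h2 := hv 2
  have h3 := hv 3
  simp at h0 h1 h2 h3
  replace h3 : ⟪g 3, v⟫ < 0 := by linarith
  have hne : ∀ i, ⟪g i, v⟫ ≠ 0 := by
    intro i; fin_cases i
    · exact h0.ne'
    · exact h1.ne'
    · exact h2.ne'
    · exact h3.ne
  have m01 : ¬ ⟪g 0, v⟫ * ⟪g 1, v⟫ < 0 := not_lt.mpr (mul_pos h0 h1).le
  have m02 : ¬ ⟪g 0, v⟫ * ⟪g 2, v⟫ < 0 := not_lt.mpr (mul_pos h0 h2).le
  have m03 : ⟪g 0, v⟫ * ⟪g 3, v⟫ < 0 := mul_neg_of_pos_of_neg h0 h3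
  have m12 : ¬ ⟪g 1, v⟫ * ⟪g 2, v⟫ < 0 := not_lt.mpr (mul_pos h1 h2).le
  have m13 : ⟪g 1, v⟫ * ⟪g 3, v⟫ < 0 := mul_neg_of_pos_of_neg h1 h3
  have m23 : ⟪g 2, v⟫ * ⟪g 3, v⟫ < 0 := mul_neg_of_pos_of_neg h2 h3
  fin_cases c
  · have hs := nu_strict p g hg v hne 0 3 1 2 (by decide) (by decide) (by decide) (by decide)
      (by decide) (by decide)
    have e : nu v (p 3 - p 1) = nu v (p 1 - p 3) := by rw [← nu_neg, neg_sub]
    simp [QF, MM, Fin.sum_univ_six, ea, eb, ec, ed, cl, ev, m01, m02, m03, m12, m13, m23]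
    linarith
  · have hs := nu_strict p g hg v hne 0 3 2 1 (by decide) (by decide) (by decide) (by decide)
      (by decide) (by decide)
    have e : nu v (p 3 - p 2) = nu v (p 2 - p 3) := by rw [← nu_neg, neg_sub]
    simp [QF, MM, Fin.sum_univ_six, ea, eb, ec, ed, cl, ev, m01, m02, m03, m12, m13, m23]
    linarith
  · have hs := nu_strict p g hg v hne 1 3 2 0 (by decide) (by decide) (by decide) (by decide)
      (by decide) (by decide)
    have e : nu v (p 3 - p 2) = nu v (p 2 - p 3) := by rw [← nu_neg, neg_sub]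
    simp [QF, MM, Fin.sum_univ_six, ea, eb, ec, ed, cl, ev, m01, m02, m03, m12, m13, m23]
    linarith


/-- the open set of vectors with a given sign pattern, inside the unit ball, is nonempty -/
theorem pattern_nonempty (p g : Fin 4 → E3) (hg : IsDual p g) (σ : Fin 4 → ℝ)
    (h0 : ∀ i, σ i ≠ 0) (hs : ∑ i, σ i = 0) :
    ∃ v ∈ Metric.ball (0 : E3) 1, ∀ i, 0 < σ i * ⟪g i, v⟫ := by
  set v1 : E3 := ∑ k, σ k • (p k - p 0) with hv1
  have h1 : ∀ i, ⟪g i, v1⟫ = σ i := by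
    intro i
    have hk : ∀ k, σ k * ⟪g i, p k - p 0⟫ =
        (if i = k then σ k else 0) - σ k * (if i = 0 then 1 else 0) := by
      intro k
      rw [hg i k 0]
      split_ifs <;> ring
    rw [hv1, inner_sum]
    simp only [inner_smul_right]
    rw [Finset.sum_congr rfl (fun k _ => hk k)]
    rw [Finset.sum_sub_distrib, ← Finset.sum_mul, hs]
    simp
  have hpos : 0 < ‖v1‖ + 1 := by positivity
  refine ⟨(‖v1‖ + 1)⁻¹ • v1, ?_, ?_⟩
  · rw [mem_ball_zero_iff, norm_smul, norm_inv, Real.norm_eq_abs, abs_of_pos hpos,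
      inv_mul_lt_iff₀ hpos]
    linarith
  · intro i
    rw [inner_smul_right, h1]
    have : σ i * ((‖v1‖ + 1)⁻¹ * σ i) = (‖v1‖ + 1)⁻¹ * (σ i) ^ 2 := by ring
    rw [this]
    have := h0 i
    positivity

theorem ae_generic (g : Fin 4 → E3) (hg0 : ∀ i, g i ≠ 0) :
    ∀ᵐ v : E3, ∀ i, ⟪g i, v⟫ ≠ 0 := by
  rw [ae_all_iff]
  intro i
  have hne : (LinearMap.ker (innerₛₗ ℝ (g i)) : Submodule ℝ E3) ≠ ⊤ := by
    intro h
    have : g i ∈ (LinearMap.ker (innerₛₗ ℝ (g i)) : Submodule ℝ E3) := by rw [h]; trivial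
    rw [LinearMap.mem_ker] at this
    have h2 : ⟪g i, g i⟫ = 0 := this
    exact hg0 i (inner_self_eq_zero.mp h2)
  have := Measure.addHaar_submodule volume _ hne
  rw [ae_iff]
  convert this using 2
  ext v
  simp [LinearMap.mem_ker]

/-- strict comparison of integrals over the unit ball -/
theorem int_strict (p g : Fin 4 → E3) (hg : IsDual p g)
    (F G : E3 → ℝ) (hF : IntegrableOn F (Metric.ball 0 1)) (hG : IntegrableOn G (Metric.ball 0 1))
    (hle : ∀ v, (∀ i, ⟪g i, v⟫ ≠ 0) → F v ≤ G v)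
    (hlt : ∃ σ : Fin 4 → ℝ, (∀ i, σ i ≠ 0) ∧ ∑ i, σ i = 0 ∧
      ∀ v : E3, (∀ i, 0 < σ i * ⟪g i, v⟫) → F v < G v) :
    ∫ v in Metric.ball (0 : E3) 1, F v < ∫ v in Metric.ball (0 : E3) 1, G v := by
  obtain ⟨σ, h0, hs, hlt⟩ := hlt
  have hint : IntegrableOn (fun v => G v - F v) (Metric.ball 0 1) := hG.sub hF
  have hnn : 0 ≤ᵐ[volume.restrict (Metric.ball (0 : E3) 1)] fun v => G v - F v := by
    apply ae_restrict_of_ae
    filter_upwards [ae_generic g (fun i => dual_ne_zero p g hg i)] with v hv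
    exact sub_nonneg.mpr (hle v hv)
  have hpos : 0 < ∫ v in Metric.ball (0 : E3) 1, (G v - F v) := by
    rw [setIntegral_pos_iff_support_of_nonneg_ae hnn hint]
    set U : Set E3 := {v | ∀ i, 0 < σ i * ⟪g i, v⟫} ∩ Metric.ball 0 1 with hU
    have hUo : IsOpen U := by
      apply IsOpen.inter _ Metric.isOpen_ball
      simp only [ofPred_forall]
      apply isOpen_iInter_of_finite
      intro i
      exact isOpen_lt continuous_const (continuous_const.mul (continuous_const.inner continuous_id))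
    have hUne : U.Nonempty := by
      obtain ⟨v, hv1, hv2⟩ := pattern_nonempty p g hg σ h0 hs
      exact ⟨v, hv2, hv1⟩
    have hsub : U ⊆ Function.support (fun v => G v - F v) ∩ Metric.ball 0 1 := by
      rintro v ⟨hv1, hv2⟩
      exact ⟨(sub_pos.mpr (hlt v hv1)).ne', hv2⟩
    exact lt_of_lt_of_le (hUo.measure_pos volume hUne) (measure_mono hsub)
  rw [integral_sub hG hF] at hpos
  linarith

theorem perimeter {l : Fin 6 → ℝ} (hl : l ∈ TT) :
    (∀ v, π * tt l v < HH l) ∧ (∀ c, HH l < π * qq l c) := by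
  obtain ⟨p, hp, rfl⟩ := exists_tet hl
  obtain ⟨g, hg⟩ := exists_dual p hp
  obtain ⟨C, hC, hnu⟩ := nu_integral
  have horth : ∀ j, ⟪ev p j, g (ec j)⟫ = 0 ∧ ⟪ev p j, g (ed j)⟫ = 0 := by
    intro j
    rw [real_inner_comm, real_inner_comm (g (ed j)), ev, hg, hg]
    fin_cases j <;> simp [ea, eb, ec, ed]
  have hnorm : ∀ j, ‖ev p j‖ = len p j := fun j => by rw [ev, len, dist_eq_norm]
  have h := fun j => hnu (ev p j) (g (ec j)) (g (ed j)) (dual_ne_zero p g hg _)
    (dual_ne_zero p g hg _) (horth j).1 (horth j).2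
  have hmeas : ∀ j, MeasurableSet {v : E3 | ⟪g (ec j), v⟫ * ⟪g (ed j), v⟫ < 0} := fun j =>
    (isOpen_lt ((continuous_const.inner continuous_id).mul (continuous_const.inner continuous_id))
      continuous_const).measurableSet
  have hMind : MM p g = fun v => ∑ j : Fin 6,
      ({v : E3 | ⟪g (ec j), v⟫ * ⟪g (ed j), v⟫ < 0}.indicator (fun v => nu v (ev p j))) v := by
    funext v
    rw [MM]
    apply Finset.sum_congr rfl
    intro j _
    simp [indicator]
  have hindI : ∀ j : Fin 6, IntegrableOn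
      ({v : E3 | ⟪g (ec j), v⟫ * ⟪g (ed j), v⟫ < 0}.indicator (fun v => nu v (ev p j)))
      (Metric.ball 0 1) := fun j => (h j).1.indicator (hmeas j)
  have hMI : IntegrableOn (MM p g) (Metric.ball 0 1) := by
    rw [hMind]
    exact integrable_finsetSum _ (fun j _ => hindI j)
  have hMint : ∫ v in Metric.ball (0 : E3) 1, MM p g v = C / π * HH (len p) := by
    rw [hMind, integral_finsetSum _ (fun j _ => hindI j), HH, Finset.mul_sum]
    apply Finset.sum_congr rfl
    intro j _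
    rw [setIntegral_indicator (hmeas j), (h j).2.2, hnorm, al_len p g hp hg j]
    field_simp
    ring
  have hTI : ∀ w, IntegrableOn (TF p w) (Metric.ball 0 1) := by
    intro w
    apply integrable_finsetSum
    intro j _
    split_ifs
    · exact integrable_zero _ _ _
    · exact (h j).1
  have hTint : ∀ w, ∫ v in Metric.ball (0 : E3) 1, TF p w v = C * tt (len p) w := by
    intro w
    simp only [TF]
    rw [integral_finsetSum, tt, Finset.mul_sum]
    · apply Finset.sum_congr rfl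
      intro j _
      split_ifs
      · simp
      · rw [(h j).2.1, hnorm]
    · intro j _
      split_ifs
      · exact integrable_zero _ _ _
      · exact (h j).1
  have hQI : ∀ c, IntegrableOn (QF p c) (Metric.ball 0 1) := by
    intro c
    apply integrable_finsetSum
    intro j _
    split_ifs
    · exact integrable_zero _ _ _
    · exact (h j).1
  have hQint : ∀ c, ∫ v in Metric.ball (0 : E3) 1, QF p c v = C * qq (len p) c := by
    intro c
    simp only [QF]
    rw [integral_finsetSum, qq, Finset.mul_sum]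
    · apply Finset.sum_congr rfl
      intro j _
      split_ifs
      · simp
      · rw [(h j).2.1, hnorm]
    · intro j _
      split_ifs
      · exact integrable_zero _ _ _
      · exact (h j).1
  constructor
  · intro w
    have := int_strict p g hg (TF p w) (MM p g) (hTI w) hMI
      (fun v hv => (hull_v p g hp hg v hv).1 w) (strict_T p g hg w)
    rw [hTint, hMint, div_mul_eq_mul_div, lt_div_iff₀ pi_pos] at this
    have h2 : C * (π * tt (len p) w) < C * HH (len p) := by linarith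
    exact lt_of_mul_lt_mul_left h2 hC.le
  · intro c
    have := int_strict p g hg (MM p g) (QF p c) hMI (hQI c)
      (fun v hv => (hull_v p g hp hg v hv).2 c) (strict_Q p g hg c)
    rw [hQint, hMint, div_mul_eq_mul_div, div_lt_iff₀ pi_pos] at this
    have h2 : C * HH (len p) < C * (π * qq (len p) c) := by linarith
    exact lt_of_mul_lt_mul_left h2 hC.le

end Peri

end Pool.Agent.Helper1.Tet
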