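import Pool.Agent.Helper1.Tet.Extend
import Pool.Agent.Helper1.Tet.Perimeter
import Pool.Agent.Helper1.Tet.Facets
import Pool.Agent.Helper1.Tet.FacetPoint
import Pool.Agent.Helper1.Tet.Limit
import Pool.Agent.Helper1.Tet.Comb

/-! There is no two-parameter family of shapes of tetrahedra which is linear in the edge lengths
and along which the Dehn-type relations are constant. -/

open Real MeasureTheory Set InnerProductGeometry Filter Topology

namespace Pool.Agent.Helper1.Tet

theorem heron_pos {x y z : ℝ} (h1 : 0 < x + y - z) (h2 : 0 < x - y + z) (h3 : 0 < -x + y + z) :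
    0 < heron x y z := by
  unfold heron
  have h4 : 0 < x + y + z := by linarith
  positivity

/-- a face all of whose slacks are positive is not degenerate -/
theorem D_pos_of_slack (l : Fin 6 → ℝ) (v : Fin 4)
    (h : ∀ w, w ≠ v → 0 < qq l (cl (ix w v)) - tt l w) : 0 < D l v := by
  fin_cases v
  · have h1 := h 1 (by decide)
    have h2 := h 2 (by decide)
    have h3 := h 3 (by decide)
    simp [qq, tt, ix, cl, ea, eb, Fin.sum_univ_succ] at h1 h2 h3
    show 0 < heron _ _ _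
    apply heron_pos <;> linarith
  · have h1 := h 0 (by decide)
    have h2 := h 2 (by decide)
    have h3 := h 3 (by decide)
    simp [qq, tt, ix, cl, ea, eb, Fin.sum_univ_succ] at h1 h2 h3
    show 0 < heron _ _ _
    apply heron_pos <;> linarith
  · have h1 := h 0 (by decide)
    have h2 := h 1 (by decide)
    have h3 := h 3 (by decide)
    simp [qq, tt, ix, cl, ea, eb, Fin.sum_univ_succ] at h1 h2 h3
    show 0 < heron _ _ _
    apply heron_pos <;> linarith
  · have h1 := h 0 (by decide)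
    have h2 := h 1 (by decide)
    have h3 := h 2 (by decide)
    simp [qq, tt, ix, cl, ea, eb, Fin.sum_univ_succ] at h1 h2 h3
    show 0 < heron _ _ _
    apply heron_pos <;> linarith

/-- the sum identity used at a facet -/
theorem facet_sum (l : Fin 6 → ℝ) (a b e d : Fin 4) (hab : a ≠ b) (hae : a ≠ e) (had : a ≠ d)
    (hbe : b ≠ e) (hbd : b ≠ d) (hed : e ≠ d) :
    2 * (∑ j, l j) - (l (ix a b) + l (ix b e) + l (ix a e)) - 2 * l (ix b d) =
      tt l b + qq l (cl (ix b d)) := by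
  fin_cases a <;> fin_cases b <;> first | exact absurd rfl hab | skip
  all_goals fin_cases e <;> first | exact absurd rfl hae | exact absurd rfl hbe | skip
  all_goals fin_cases d <;>
    first | exact absurd rfl had | exact absurd rfl hbd | exact absurd rfl hed | skip
  all_goals
    simp [qq, tt, ix, cl, ea, eb, Fin.sum_univ_succ]
    try ring

/-- numerical contradiction from Stewart's theorem -/
theorem stewart_false (a c d ab be ae db da de : ℝ) (h1 : 2 * ab = a + 1) (h2 : 2 * be = c + 1)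
    (h3 : 2 * ae = a + c + 2) (h4 : 2 * db = d + 2) (h5 : 2 * da = d + a + 1)
    (h6 : 2 * de = d + c + 1) (hS : ae * db ^ 2 = be * da ^ 2 + ab * de ^ 2 - ae * ab * be)
    (hcase : (a = 1 ∧ c = 1) ∨ (a = 1 ∧ d = 1) ∨ (c = 1 ∧ d = 1)) : False := by
  have e1 : ab = (a + 1) / 2 := by linarith
  have e2 : be = (c + 1) / 2 := by linarith
  have e3 : ae = (a + c + 2) / 2 := by linarith
  have e4 : db = (d + 2) / 2 := by linarith
  have e5 : da = (d + a + 1) / 2 := by linarith
  have e6 : de = (d + c + 1) / 2 := by linarith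
  rw [e1, e2, e3, e4, e5, e6] at hS
  rcases hcase with ⟨h, h'⟩ | ⟨h, h'⟩ | ⟨h, h'⟩
  · subst h h'; nlinarith
  · subst h h'; nlinarith
  · subst h h'; nlinarith

theorem no_linear_family (P : Submodule ℝ (Fin 6 → ℝ)) (hP : Module.finrank ℝ P = 3)
    (l₀ : Fin 6 → ℝ) (h₀ : l₀ ∈ P) (hT : l₀ ∈ TT)
    (hloc : ∀ n ∈ P, ∀ᶠ l in 𝓝[(P : Set (Fin 6 → ℝ))] l₀,
      ∑ j, n j * al l j = ∑ j, n j * al l₀ j) : False := by
  have hgood := extend_good P l₀ h₀ hT hloc
  let h : (Fin 6 → ℝ) →ₗ[ℝ] ℝ := ∑ j, (1 - al l₀ j / π) • (LinearMap.proj j : (Fin 6 → ℝ) →ₗ[ℝ] ℝ)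
  have hval : ∀ l, π * h l = π * (∑ j, l j) - ∑ j, l j * al l₀ j := by
    intro l
    simp only [h, LinearMap.sum_apply, LinearMap.smul_apply, LinearMap.proj_apply, smul_eq_mul,
      Finset.mul_sum, ← Finset.sum_sub_distrib]
    refine Finset.sum_congr rfl fun j _ => ?_
    field_simp
  have hH : ∀ l ∈ P, Tri l → HH l = π * h l := by
    intro l hl hl'
    have := (hgood l hl hl').2 l hl
    rw [hval, ← this]
    simp only [HH, Finset.mul_sum, ← Finset.sum_sub_distrib]
    refine Finset.sum_congr rfl fun j _ => ?_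
    ring
  have hlo : ∀ l ∈ P, Tri l → ∀ v, tt l v < h l := by
    intro l hl hl' v
    have h1 := (perimeter (hgood l hl hl').1).1 v
    rw [hH l hl hl'] at h1
    exact lt_of_mul_lt_mul_left h1 pi_pos.le
  have hhi : ∀ l ∈ P, Tri l → ∀ c, h l < qq l c := by
    intro l hl hl' c
    have h1 := (perimeter (hgood l hl hl').1).2 c
    rw [hH l hl hl'] at h1
    exact lt_of_mul_lt_mul_left h1 pi_pos.le
  obtain ⟨B, x, hB, hxP, hchi, htau, hseg, hkap⟩ := facet_structure P hP l₀ h₀ hT.1 h hlo hhi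
  -- positivity of the edges at the facet points
  have hedge : ∀ c a b, a ≠ b → 2 * x c (ix a b) =
      (h (x c) - tt (x c) a) + (h (x c) - tt (x c) b) +
        ∑ c', if c' = cl (ix a b) then 0 else (qq (x c) c' - h (x c)) := by
    intro c a b hab
    rw [edge_eq (x c) a b hab]
    generalize cl (ix a b) = k
    fin_cases k <;> simp [Fin.sum_univ_succ] <;> ring
  have hix : ∀ j : Fin 6, ∃ a b : Fin 4, a ≠ b ∧ ix a b = j := by decide
  have hpos : ∀ c j, 0 < x c j := by
    intro c j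
    obtain ⟨a, b, hab, rfl⟩ := hix j
    have h1 := hedge c a b hab
    have h2 := htau c a
    have h3 := htau c b
    have h4 : (1 : ℝ) ≤ ∑ c', if c' = cl (ix a b) then 0 else (qq (x c) c' - h (x c)) := by
      simp only [hchi]
      generalize cl (ix a b) = k
      fin_cases k <;> fin_cases c <;> simp [Fin.sum_univ_succ] <;> norm_num
    linarith
  have hcl : ∀ c, x c ∈ closure TT := by
    intro c
    have : Tendsto (fun t : ℝ => x c + t • (l₀ - x c)) (𝓝[>] 0) (𝓝 (x c)) := by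
      have h1 : Continuous fun t : ℝ => x c + t • (l₀ - x c) := by fun_prop
      have h2 := (h1.tendsto 0).mono_left (nhdsWithin_le_nhds (s := Ioi (0 : ℝ)))
      simpa using h2
    refine mem_closure_of_tendsto this ?_
    have h3 : ∀ᶠ t : ℝ in 𝓝[>] 0, t ∈ Ioc (0 : ℝ) 1 := Ioc_mem_nhdsGT one_pos
    filter_upwards [h3] with t ht
    exact (hgood _ (P.add_mem (hxP c) (P.smul_mem _ (P.sub_mem h₀ (hxP c)))) (hseg c t ht.1 ht.2)).1
  have htauB : ∀ c, h (x c) - tt (x c) (B c) = 0 := by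
    intro c
    obtain ⟨κ, _, h1⟩ := hkap c
    rw [h1 _ (hxP c), hchi c c, if_pos rfl, mul_zero]
  -- some other vertex with positive `τ`
  have htau' : ∀ c c', c' ≠ c → 0 < h (x c) - tt (x c) (B c') := by
    intro c c' hc
    obtain ⟨κ, hκ, h1⟩ := hkap c'
    rw [h1 _ (hxP c), hchi c c', if_neg hc, mul_one]
    exact hκ
  have hDne : ∀ c, ∃ v, 0 < D (x c) v := by
    intro c
    obtain ⟨c', hc'⟩ : ∃ c' : Fin 3, c' ≠ c := exists_ne c
    -- the partner of `B c'` in the class `c`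
    obtain ⟨a, e, d, -, -, -, -, hbd, -, hcl'⟩ := exists_labels c (B c')
    refine ⟨d, D_pos_of_slack _ _ fun w hw => ?_⟩
    have h1 : qq (x c) (cl (ix w d)) - tt (x c) w =
        (h (x c) - tt (x c) w) + (qq (x c) (cl (ix w d)) - h (x c)) := by ring
    rw [h1]
    by_cases hk : cl (ix w d) = c
    · have hwB : w = B c' := by
        have : ∀ (w b d : Fin 4), w ≠ d → b ≠ d → cl (ix w d) = cl (ix b d) → w = b := by decide
        exact this w (B c') d hw hbd (by rw [hk, hcl'])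
      rw [hwB, hcl', hchi c c, if_pos rfl, add_zero]
      exact htau' c c' hc'
    · rw [hchi c, if_neg hk]
      have := htau c w
      linarith
  -- the constants `κ` are `1`
  have hone : ∀ c, ∀ l ∈ P, h l - tt l (B c) = qq l c - h l := by
    intro c
    obtain ⟨a, e, d, hab, hae, had, hbe, hbd, hed, hcl'⟩ := exists_labels c (B c)
    have hdeg : x c (ix a (B c)) + x c (ix (B c) e) = x c (ix a e) := by
      have h1 := slack_eq (x c) a (B c) e d hab hae had hbe hbd hed
      rw [hcl'] at h1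
      have h2 := htauB c
      have h3 := hchi c c
      rw [if_pos rfl] at h3
      linarith
    obtain ⟨-, hD⟩ := facet_point (x c) (hcl c) (hpos c) a (B c) e d hab hae had hbe hbd hed hdeg
    have hD' : 0 < D (x c) a ∧ 0 < D (x c) (B c) ∧ 0 < D (x c) e := by
      rcases hD with hD | hD
      · exact hD
      · obtain ⟨v, hv⟩ := hDne c
        exact absurd (hD v) hv.ne'
    have hlim := limit_at_facet P l₀ h₀ hgood (x c) (hxP c) (hseg c) (hpos c) a (B c) e d hab hae
      had hbe hbd hed hdeg hD'.1 hD'.2.1 hD'.2.2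
    intro l hl
    have h1 := hval l
    rw [hlim l hl] at h1
    have h2 : h l = (∑ j, l j) - (l (ix a (B c)) + l (ix (B c) e) + l (ix a e)) / 2
        - l (ix (B c) d) := by
      have h3 : π * h l = π * ((∑ j, l j) - (l (ix a (B c)) + l (ix (B c) e) + l (ix a e)) / 2
        - l (ix (B c) d)) := by rw [h1]; ring
      exact mul_left_cancel₀ pi_ne_zero h3
    have h4 := facet_sum l a (B c) e d hab hae had hbe hbd hed
    rw [hcl'] at h4
    linarith
  -- final contradiction at the facet of the class `0`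
  obtain ⟨a, e, d, hab, hae, had, hbe, hbd, hed, hcl'⟩ := exists_labels 0 (B 0)
  have hdeg : x 0 (ix a (B 0)) + x 0 (ix (B 0) e) = x 0 (ix a e) := by
    have h1 := slack_eq (x 0) a (B 0) e d hab hae had hbe hbd hed
    rw [hcl'] at h1
    have h2 := htauB 0
    have h3 := hchi 0 0
    rw [if_pos rfl] at h3
    linarith
  obtain ⟨hS, -⟩ := facet_point (x 0) (hcl 0) (hpos 0) a (B 0) e d hab hae had hbe hbd hed hdeg
  have c0 := hchi 0 0
  have c1 := hchi 0 1
  have c2 := hchi 0 2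
  simp at c0 c1 c2
  have t1 := hone 1 _ (hxP 0)
  have t2 := hone 2 _ (hxP 0)
  have t0 := htauB 0
  have hB1 : B 1 ≠ B 0 := fun h => by simpa using hB h
  have hB2 : B 2 ≠ B 0 := fun h => by simpa using hB h
  have hB12 : B 1 ≠ B 2 := fun h => by simpa using hB h
  have k1 := class1 a (B 0) e d ⟨hab, hae, had, hbe, hbd, hed⟩
  have k2 := class2 (B 0) d
  rw [hcl'] at k1 k2
  have k3 := class3 a (B 0) e d ⟨hab, hae, had, hbe, hbd, hed⟩
  have k4 := class4 a (B 0) e d ⟨hab, hae, had, hbe, hbd, hed⟩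
  have k5 := class5 a (B 0) e d ⟨hab, hae, had, hbe, hbd, hed, hcl'⟩
  have f1 := hedge 0 a (B 0) hab
  have f2 := hedge 0 (B 0) e hbe
  have f3 := hedge 0 a e hae
  have f4 := hedge 0 d (B 0) hbd.symm
  have f5 := hedge 0 d a had.symm
  have f6 := hedge 0 d e hed.symm
  rw [k1] at f3
  rw [k2] at f4
  rw [k4] at f5
  rw [k3] at f6
  have hcase : ((h (x 0) - tt (x 0) a = 1 ∧ h (x 0) - tt (x 0) e = 1) ∨
      (h (x 0) - tt (x 0) a = 1 ∧ h (x 0) - tt (x 0) d = 1) ∨
      (h (x 0) - tt (x 0) e = 1 ∧ h (x 0) - tt (x 0) d = 1)) := by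
    rw [c1] at t1
    rw [c2] at t2
    have hmem : ∀ (a b e d u v : Fin 4), a ≠ b → a ≠ e → a ≠ d → b ≠ e → b ≠ d → e ≠ d →
        u ≠ b → v ≠ b → u ≠ v →
        (u = a ∧ v = e) ∨ (u = e ∧ v = a) ∨ (u = a ∧ v = d) ∨ (u = d ∧ v = a) ∨
          (u = e ∧ v = d) ∨ (u = d ∧ v = e) := by decide
    rcases hmem a (B 0) e d (B 1) (B 2) hab hae had hbe hbd hed hB1 hB2 hB12 with
      ⟨h1, h2⟩ | ⟨h1, h2⟩ | ⟨h1, h2⟩ | ⟨h1, h2⟩ | ⟨h1, h2⟩ | ⟨h1, h2⟩ <;>
      rw [h1] at t1 <;> rw [h2] at t2 <;> simp [t1, t2]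
  refine stewart_false (h (x 0) - tt (x 0) a) (h (x 0) - tt (x 0) e) (h (x 0) - tt (x 0) d)
    (x 0 (ix a (B 0))) (x 0 (ix (B 0) e)) (x 0 (ix a e)) (x 0 (ix d (B 0))) (x 0 (ix d a))
    (x 0 (ix d e)) ?_ ?_ ?_ ?_ ?_ ?_ hS hcase
  · rw [f1, t0]
    rcases k5 with ⟨k5, k6⟩ | ⟨k5, k6⟩ <;> rw [k5] <;> simp [Fin.sum_univ_succ, c0, c1, c2]
  · rw [f2, t0]
    rcases k5 with ⟨k5, k6⟩ | ⟨k5, k6⟩ <;> rw [k6] <;> simp [Fin.sum_univ_succ, c0, c1, c2]
  · rw [f3]
    simp [Fin.sum_univ_succ]; linarith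
  · rw [f4, t0]
    simp [Fin.sum_univ_succ]; linarith
  · rw [f5]
    rcases k5 with ⟨k5, k6⟩ | ⟨k5, k6⟩ <;> rw [k6] <;> simp [Fin.sum_univ_succ, c0, c1, c2]
  · rw [f6]
    rcases k5 with ⟨k5, k6⟩ | ⟨k5, k6⟩ <;> rw [k5] <;> simp [Fin.sum_univ_succ, c0, c1, c2]

end Pool.Agent.Helper1.Tet
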