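import Pool.Agent.Helper1.Tet.Analytic
import Pool.Agent.Helper1.Tet.NoLinear
import Pool.Agent.Helper1.Tet.NoAngular
import Pool.Agent.Helper1.Tet.CovEasy

/-! The sets `FF N q` for three and four relations are covered by countably many curves. -/

open Real MeasureTheory Set InnerProductGeometry Filter Topology
open scoped ContDiff

namespace Pool.Agent.Helper1.Tet

/-- an analytic function on the plane which does not vanish identically has a zero set of
dimension at most one -/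
theorem cov_zero_univ {f : ℝ × ℝ → ℝ} (hf : AnalyticOnNhd ℝ f univ) {z₀ : ℝ × ℝ}
    (h₀ : f z₀ ≠ 0) : Cov {z | f z = 0} := by
  refine (cov_zero_set hf).mono fun z hz => ?_
  refine ⟨mem_univ _, hz, fun hev => h₀ ?_⟩
  exact hf.eqOn_zero_of_preconnected_of_eventuallyEq_zero isPreconnected_univ (mem_univ z) hev
    (mem_univ z₀)

/-- a parametrization of a two-dimensional subspace -/
theorem exists_param (A : Submodule ℝ (Fin 6 → ℝ)) (hA : Module.finrank ℝ A = 2) :
    ∃ (φ : (ℝ × ℝ) →L[ℝ] (Fin 6 → ℝ)) (ψ : (Fin 6 → ℝ) →L[ℝ] (ℝ × ℝ)),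
      (∀ z, φ z ∈ A) ∧ (∀ z, ψ (φ z) = z) ∧ ∀ x ∈ A, φ (ψ x) = x := by
  have h1 : Module.finrank ℝ A = Module.finrank ℝ (ℝ × ℝ) := by
    rw [hA]; simp
  let e : A ≃L[ℝ] (ℝ × ℝ) := ContinuousLinearEquiv.ofFinrankEq h1
  obtain ⟨g, hg⟩ := A.subtype.exists_leftInverse_of_injective (by simp)
  let φ : (ℝ × ℝ) →L[ℝ] (Fin 6 → ℝ) := A.subtypeL ∘L (e.symm : (ℝ × ℝ) →L[ℝ] A)
  let g' : (Fin 6 → ℝ) →L[ℝ] A := LinearMap.toContinuousLinearMap g
  let ψ : (Fin 6 → ℝ) →L[ℝ] (ℝ × ℝ) := (e : A →L[ℝ] (ℝ × ℝ)) ∘L g'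
  have hg' : ∀ x : A, g' (x : Fin 6 → ℝ) = x := by
    intro x
    have := congrArg (fun f => f x) hg
    simpa [g'] using this
  refine ⟨φ, ψ, fun z => ?_, fun z => ?_, fun x hx => ?_⟩
  · simp [φ]
  · simp only [φ, ψ, ContinuousLinearMap.comp_apply, Submodule.subtypeL_apply]
    erw [hg']
    simp
  · have := hg' ⟨x, hx⟩
    simp only [φ, ψ, ContinuousLinearMap.comp_apply, Submodule.subtypeL_apply]
    erw [this]
    simp

theorem cov_FF_four (N : Fin 4 → Fin 6 → ℝ) (q : Fin 4 → ℝ)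
    (hN : LinearIndependent ℝ N) : Cov (FF N q) := by
  rcases (FF N q).eq_empty_or_nonempty with he | ⟨l₀, hl₀⟩
  · rw [he]; exact Cov.empty
  have hA : Module.finrank ℝ (perpRows N) = 2 := by
    have := finrank_perpRows N hN; omega
  have hex : ∃ δ ∈ perpRows N, (GG (al l₀ + δ)).det ≠ 0 := by
    by_contra hcon
    push Not at hcon
    exact no_angular_family _ hA l₀ hl₀.1 hcon
  obtain ⟨δ, hδ, hne⟩ := hex
  obtain ⟨φ, ψ, hφ, hψ, hφψ⟩ := exists_param _ hA
  set f : ℝ × ℝ → ℝ := fun z => (GG (al l₀ + φ z)).det with hf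
  have hfan : AnalyticOnNhd ℝ f univ := by
    have : ContDiff ℝ ω f := by
      simp only [hf, GG, Matrix.det_succ_row_zero, Fin.sum_univ_succ]
      simp [Matrix.submatrix, Fin.succAbove]
      fun_prop
    exact contDiff_omega_iff_analyticOnNhd.1 this
  have hdim := cov_zero_univ hfan (z₀ := ψ δ) (by simp only [hf]; rw [hφψ δ hδ]; exact hne)
  have hsub : FF N q ⊆ {l | l ∈ TT ∧ l 0 = 1 ∧ al l ∈ (fun z => al l₀ + φ z) '' {z | f z = 0}} := by
    intro l hl
    refine ⟨hl.1, hl.2.1, ψ (al l - al l₀), ?_, ?_⟩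
    · have h1 : al l - al l₀ ∈ perpRows N := by
        rw [mem_perpRows]
        intro k
        have h2 := hl.2.2.2 k
        have h3 := hl₀.2.2.2 k
        simp only [Pi.sub_apply, mul_sub, Finset.sum_sub_distrib]
        rw [h2, h3, sub_self]
      simp only [mem_ofPred_eq, hf]
      rw [hφψ _ h1, add_sub_cancel]
      exact (TT_facts hl.1).2.2.2.2.2.1
    · have h1 : al l - al l₀ ∈ perpRows N := by
        rw [mem_perpRows]
        intro k
        have h2 := hl.2.2.2 k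
        have h3 := hl₀.2.2.2 k
        simp only [Pi.sub_apply, mul_sub, Finset.sum_sub_distrib]
        rw [h2, h3, sub_self]
      simp only
      rw [hφψ _ h1, add_sub_cancel]
  refine (cov_of_angles _ ?_).mono hsub
  have : LipschitzWith ‖φ‖₊ (fun z => al l₀ + φ z) := by
    refine LipschitzWith.of_dist_le_mul fun x y => ?_
    rw [dist_add_left]
    exact φ.lipschitz.dist_le_mul x y
  exact hdim.image_lipschitzOn this.lipschitzOnWith

theorem cov_FF_three (N : Fin 3 → Fin 6 → ℝ) (q : Fin 3 → ℝ)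
    (hN : LinearIndependent ℝ N) : Cov (FF N q) := by
  rcases (FF N q).eq_empty_or_nonempty with he | ⟨l₀, hl₀⟩
  · rw [he]; exact Cov.empty
  set P : Submodule ℝ (Fin 6 → ℝ) := Submodule.span ℝ (range N) with hPdef
  have hP : Module.finrank ℝ P = 3 := by
    rw [hPdef, finrank_span_eq_card hN]; simp
  -- the linear form `l ↦ l 0`
  set P₀ : Submodule ℝ (Fin 6 → ℝ) := P ⊓ LinearMap.ker (LinearMap.proj 0 : (Fin 6 → ℝ) →ₗ[ℝ] ℝ)
    with hP₀
  have hP₀r : Module.finrank ℝ P₀ = 2 := by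
    have h1 := finrank_slice P l₀ hl₀.2.2.1 hl₀.2.1
    have h2 : Module.finrank ℝ P₀ + 1 = Module.finrank ℝ P := h1
    rw [hP] at h2
    omega
  obtain ⟨φ, ψ, hφ, hψ, hφψ⟩ := exists_param _ hP₀r
  set Φ : ℝ × ℝ → Fin 6 → ℝ := fun z => l₀ + φ z with hΦ
  have hΦcd : ContDiff ℝ ω Φ := by simp only [hΦ]; fun_prop
  have hΦ0 : ∀ z, Φ z 0 = 1 := by
    intro z
    have := (hφ z).2
    simp only [SetLike.mem_coe, LinearMap.mem_ker, LinearMap.proj_apply] at this
    simp only [hΦ, Pi.add_apply, this, hl₀.2.1, add_zero]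
  have hΦP : ∀ z, Φ z ∈ P := fun z => P.add_mem hl₀.2.2.1 (hφ z).1
  set O : Set (ℝ × ℝ) := {z | Φ z ∈ TT} with hO
  have hOopen : IsOpen O := isOpen_TT.preimage hΦcd.continuous
  set f : Fin 3 → ℝ × ℝ → ℝ := fun k z => (∑ j, N k j * al (Φ z) j) - q k * π with hf
  have hfan : ∀ k, AnalyticOnNhd ℝ (f k) O := by
    intro k z hz
    have h1 : ∀ j, ContDiffAt ℝ ω (fun z => al (Φ z) j) z := fun j =>
      (contDiffAt_al hz j).comp z hΦcd.contDiffAt
    have h2 : ContDiffAt ℝ ω (f k) z := by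
      simp only [hf]
      refine ContDiffAt.sub (ContDiffAt.sum fun j _ => contDiffAt_const.mul (h1 j)) contDiffAt_const
    exact h2.analyticAt
  have hsub : FF N q ⊆ Φ '' (⋃ k, {z | z ∈ O ∧ f k z = 0 ∧ ¬ ∀ᶠ w in 𝓝 z, f k w = 0}) := by
    intro l hl
    have h1 : l - l₀ ∈ P₀ := by
      refine ⟨P.sub_mem hl.2.2.1 hl₀.2.2.1, ?_⟩
      simp [hl.2.1, hl₀.2.1]
    have hz : Φ (ψ (l - l₀)) = l := by
      simp only [hΦ]
      rw [hφψ _ h1, add_sub_cancel]
    refine ⟨ψ (l - l₀), ?_, hz⟩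
    have hzO : ψ (l - l₀) ∈ O := by
      change Φ (ψ (l - l₀)) ∈ TT
      rw [hz]; exact hl.1
    have hzero : ∀ k, f k (ψ (l - l₀)) = 0 := by
      intro k
      simp only [hf]
      rw [hz, hl.2.2.2 k, sub_self]
    rw [mem_iUnion]
    by_contra hcon
    have hev : ∀ k, ∀ᶠ w in 𝓝 (ψ (l - l₀)), f k w = 0 := by
      intro k
      by_contra hk
      exact hcon ⟨k, hzO, hzero k, hk⟩
    refine no_linear_family P hP l hl.2.2.1 hl.1 fun n hn => ?_
    -- the map `l' ↦ ψ (l' / l' 0 - l₀)`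
    have hcont : ContinuousAt (fun l' : Fin 6 → ℝ => ψ ((l' 0)⁻¹ • l' - l₀)) l := by
      refine ψ.continuous.continuousAt.comp ?_
      have h10 : ContinuousAt (fun l' : Fin 6 → ℝ => (l' 0)⁻¹) l := by
        refine ContinuousAt.inv₀ (continuous_apply 0).continuousAt ?_
        rw [hl.2.1]; exact one_ne_zero
      exact (h10.smul (continuousAt_id (x := l))).sub continuousAt_const
    have hval : ψ ((l 0)⁻¹ • l - l₀) = ψ (l - l₀) := by rw [hl.2.1]; simp
    have hev' : ∀ᶠ l' in 𝓝 l, ∀ k, f k (ψ ((l' 0)⁻¹ • l' - l₀)) = 0 := by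
      rw [eventually_all]
      intro k
      have := hcont.tendsto
      rw [hval] at this
      exact this.eventually (hev k)
    have hpos : ∀ᶠ l' : Fin 6 → ℝ in 𝓝 l, 0 < l' 0 := by
      have := (continuous_apply (A := fun _ : Fin 6 => ℝ) 0).continuousAt (x := l)
      exact this.eventually (lt_mem_nhds (show (0 : ℝ) < l 0 by rw [hl.2.1]; exact one_pos))
    have hmem : ∀ᶠ l' in 𝓝[(P : Set (Fin 6 → ℝ))] l, l' ∈ P := eventually_mem_nhdsWithin
    filter_upwards [hmem, nhdsWithin_le_nhds hev', nhdsWithin_le_nhds hpos] with l' h1' h2' h3'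
    have h4 : (l' 0)⁻¹ • l' - l₀ ∈ P₀ := by
      refine ⟨P.sub_mem (P.smul_mem _ h1') hl₀.2.2.1, ?_⟩
      simp [hl₀.2.1, h3'.ne']
    have h5 : Φ (ψ ((l' 0)⁻¹ • l' - l₀)) = (l' 0)⁻¹ • l' := by
      simp only [hΦ]
      rw [hφψ _ h4, add_sub_cancel]
    have h6 : ∀ k, ∑ j, N k j * al l' j = ∑ j, N k j * al l j := by
      intro k
      have h7 := h2' k
      simp only [hf] at h7
      rw [h5, al_smul (inv_pos.2 h3')] at h7
      rw [hl.2.2.2 k]
      linarith
    -- linear in `n`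
    have h8 : P ≤ LinearMap.ker (∑ j, (al l' j - al l j) •
        (LinearMap.proj j : (Fin 6 → ℝ) →ₗ[ℝ] ℝ)) := by
      rw [hPdef, Submodule.span_le]
      rintro _ ⟨k, rfl⟩
      simp only [SetLike.mem_coe, LinearMap.mem_ker, LinearMap.sum_apply, LinearMap.smul_apply,
        LinearMap.proj_apply, smul_eq_mul]
      have := h6 k
      have h9 : ∑ j, (al l' j - al l j) * N k j =
          ∑ j, N k j * al l' j - ∑ j, N k j * al l j := by
        rw [← Finset.sum_sub_distrib]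
        exact Finset.sum_congr rfl fun j _ => by ring
      rw [h9, this, sub_self]
    have h10 := h8 hn
    simp only [LinearMap.mem_ker, LinearMap.sum_apply, LinearMap.smul_apply,
      LinearMap.proj_apply, smul_eq_mul] at h10
    have h11 : ∑ j, (al l' j - al l j) * n j = ∑ j, n j * al l' j - ∑ j, n j * al l j := by
      rw [← Finset.sum_sub_distrib]
      exact Finset.sum_congr rfl fun j _ => by ring
    linarith
  have hLip : LipschitzWith ‖φ‖₊ Φ := by
    refine LipschitzWith.of_dist_le_mul fun x y => ?_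
    simp only [hΦ]
    rw [dist_add_left]
    exact φ.lipschitz.dist_le_mul x y
  refine Cov.mono (Cov.image_lipschitzOn ?_ hLip.lipschitzOnWith) hsub
  exact Cov.iUnion fun k => cov_zero_set (hfan k)

end Pool.Agent.Helper1.Tet
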