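import Pool.Agent.Helper1.Tet.LocalRel
import Pool.Agent.Helper1.Tet.Counts

/-! # T25: tetrahedra which tile have Dehn invariant zero -/

open Real MeasureTheory Set InnerProductGeometry Filter Topology
open scoped RealInnerProductSpace ENNReal

namespace Pool.Agent.Helper1.Tet

/-- one-dimensional measure of a set of finite length -/
lemma seg_measure (a b : E3) : Measure.hausdorffMeasure 1 (segment ℝ a b) = ENNReal.ofReal (dist a b) := by
  rw [hausdorffMeasure_segment, edist_dist]

lemma seg_compact (a b : E3) : IsCompact (segment ℝ a b) := by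
  rw [← convexHull_pair]
  exact (Set.toFinite _).isCompact_convexHull ℝ

theorem dehn_zero_family {ι : Type*} (P : ι → Fin 4 → E3) (l : Fin 6 → ℝ)
    (hP : ∀ i, AffineIndependent ℝ (P i)) (hl : ∀ i, len (P i) = l)
    (hcov : ⋃ i, convexHull ℝ (range (P i)) = univ)
    (hdis : Pairwise fun i i' => Disjoint (interior (convexHull ℝ (range (P i))))
      (interior (convexHull ℝ (range (P i'))))) (f : ℝ →ₗ[ℚ] ℝ) (hf : f π = 0) :
    ∑ j, l j * f (al l j) = 0 := by
  classical
  obtain ⟨hfin, ⟨K, hK⟩, c, hc, R₀, hR₀⟩ := tiling_counts P l hP hl hcov hdis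
  set μ : Measure E3 := Measure.hausdorffMeasure 1 with hμ
  set T : ι → Set E3 := fun i => convexHull ℝ (range (P i)) with hT
  set seg : ι → Fin 6 → Set E3 := fun i j => segment ℝ (P i (ea j)) (P i (eb j)) with hseg
  have hTne : ∀ i, (T i).Nonempty := fun i => ⟨P i 0, subset_convexHull ℝ _ (mem_range_self 0)⟩
  have hlj : ∀ i j, dist (P i (ea j)) (P i (eb j)) = l j := fun i j => by
    rw [← hl i]; rfl
  have hι : Nonempty ι := by
    have h0 : (0 : E3) ∈ ⋃ i, convexHull ℝ (range (P i)) := by rw [hcov]; exact mem_univ _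
    obtain ⟨i, _⟩ := mem_iUnion.1 h0
    exact ⟨i⟩
  have hl0 : ∀ j, 0 ≤ l j := fun j => by
    obtain ⟨i⟩ := hι
    rw [← hlj i j]
    exact dist_nonneg
  have hsegμ : ∀ i j, μ (seg i j) = ENNReal.ofReal (l j) := fun i j => by
    rw [hμ, hseg, ← hlj i j]
    exact seg_measure _ _
  have hsegm : ∀ i j, MeasurableSet (seg i j) := fun i j => (seg_compact _ _).measurableSet
  set S : ℝ := ∑ j, l j * f (al l j) with hS
  set M : ℝ := ∑ j, l j * |f (al l j)| with hM
  have hM0 : 0 ≤ M := Finset.sum_nonneg fun j _ => mul_nonneg (hl0 j) (abs_nonneg _)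
  -- main inequality
  have hmain : ∀ R : ℝ, ({i | T i ⊆ Metric.ball 0 R}.ncard : ℝ) * |S| ≤
      ({i | (T i ∩ Metric.ball 0 R).Nonempty ∧ ¬ T i ⊆ Metric.ball 0 R}.ncard : ℝ) * M := by
    intro R
    set b : Set E3 := Metric.ball 0 R with hb
    set s : Finset ι := (hfin R).toFinset with hs
    have hsmem : ∀ i, i ∈ s ↔ (T i ∩ b).Nonempty := fun i => by
      rw [hs, Set.Finite.mem_toFinset]; rfl
    have hin : ∀ i, T i ⊆ b → i ∈ s := fun i hi => by
      rw [hsmem]
      obtain ⟨y, hy⟩ := hTne i
      exact ⟨y, hy, hi hy⟩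
    set m : ι → Fin 6 → ℝ := fun i j => (μ.restrict b).real (seg i j) with hm
    have hfinm : ∀ i j, (μ.restrict b) (seg i j) < ∞ := fun i j => by
      refine lt_of_le_of_lt (Measure.restrict_apply_le _ _) ?_
      rw [hsegμ]
      exact ENNReal.ofReal_lt_top
    -- the function vanishes almost everywhere
    have hae : ∀ᵐ x ∂(μ.restrict b), ∑ i ∈ s, ∑ j, (seg i j).indicator
        (fun _ => f (al l j)) x = 0 := by
      rw [ae_restrict_iff' Metric.isOpen_ball.measurableSet]
      have hnull : μ (⋃ i ∈ s, range (P i)) = 0 := by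
        have hfin' : (⋃ i ∈ s, range (P i)).Finite :=
          s.finite_toSet.biUnion fun i _ => finite_range _
        have : NullSingletonClass μ := by
          rw [hμ]
          exact Measure.nullSingletonClass_hausdorff E3 one_pos
        exact hfin'.measure_zero μ
      have h1 : ∀ᵐ x ∂μ, x ∉ ⋃ i ∈ s, range (P i) := measure_eq_zero_iff_ae_notMem.1 hnull
      filter_upwards [h1] with x hx hxb
      apply local_relation P l hP hl hcov hdis hfin f hf x
      · intro i hi
        apply hx
        simp only [mem_iUnion]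
        refine ⟨i, ?_, hi⟩
        rw [hsmem]
        exact ⟨x, subset_convexHull ℝ _ hi, hxb⟩
      · intro i hi
        rw [hsmem]
        exact ⟨x, hi, hxb⟩
    have hint : ∫ x, ∑ i ∈ s, ∑ j, (seg i j).indicator (fun _ => f (al l j)) x ∂(μ.restrict b) = 0 :=
      by
        rw [integral_congr_ae hae]
        simp
    have hsum : ∑ i ∈ s, ∑ j, m i j * f (al l j) = 0 := by
      rw [← hint, integral_finsetSum]
      · apply Finset.sum_congr rfl
        intro i _
        rw [integral_finsetSum]
        · apply Finset.sum_congr rfl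
          intro j _
          rw [integral_indicator_const _ (hsegm i j)]
          rfl
        · intro j _
          exact (integrable_indicator_iff (hsegm i j)).2 (integrableOn_const (hfinm i j).ne)
      · intro i _
        apply integrable_finsetSum
        intro j _
        exact (integrable_indicator_iff (hsegm i j)).2 (integrableOn_const (hfinm i j).ne)
    -- split
    have hsegT : ∀ i j, seg i j ⊆ T i := fun i j =>
      segment_subset_convexHull (mem_range_self _) (mem_range_self _)
    have hmin : ∀ i j, T i ⊆ b → m i j = l j := by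
      intro i j hi
      rw [hm]
      simp only
      rw [measureReal_def, Measure.restrict_apply (hsegm i j),
        inter_eq_left.2 ((hsegT i j).trans hi), hsegμ, ENNReal.toReal_ofReal (hl0 j)]
    have hmle : ∀ i j, m i j ≤ l j := by
      intro i j
      rw [hm]
      simp only
      rw [measureReal_def]
      have h1 : (μ.restrict b) (seg i j) ≤ ENNReal.ofReal (l j) := by
        rw [← hsegμ i j]
        exact Measure.restrict_apply_le _ _
      exact ENNReal.toReal_le_of_le_ofReal (hl0 j) h1
    have hm0 : ∀ i j, 0 ≤ m i j := fun i j => measureReal_nonneg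
    have hsplit : ∑ i ∈ s, ∑ j, m i j * f (al l j) =
        ((s.filter fun i => T i ⊆ b).card : ℝ) * S +
          ∑ i ∈ s.filter (fun i => ¬ T i ⊆ b), ∑ j, m i j * f (al l j) := by
      rw [← Finset.sum_filter_add_sum_filter_not s (fun i => T i ⊆ b)]
      congr 1
      rw [Finset.sum_congr rfl (g := fun _ => S)]
      · rw [Finset.sum_const, nsmul_eq_mul]
      · intro i hi
        rw [Finset.mem_filter] at hi
        rw [hS]
        apply Finset.sum_congr rfl
        intro j _
        rw [hmin i j hi.2]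
    rw [hsum] at hsplit
    have hbd : |∑ i ∈ s.filter (fun i => ¬ T i ⊆ b), ∑ j, m i j * f (al l j)| ≤
        ((s.filter fun i => ¬ T i ⊆ b).card : ℝ) * M := by
      refine (Finset.abs_sum_le_sum_abs _ _).trans ?_
      rw [← nsmul_eq_mul]
      apply Finset.sum_le_card_nsmul
      intro i _
      refine (Finset.abs_sum_le_sum_abs _ _).trans ?_
      rw [hM]
      apply Finset.sum_le_sum
      intro j _
      rw [abs_mul, abs_of_nonneg (hm0 i j)]
      exact mul_le_mul_of_nonneg_right (hmle i j) (abs_nonneg _)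
    have hc1 : {i | T i ⊆ b}.ncard = (s.filter fun i => T i ⊆ b).card := by
      rw [← Set.ncard_coe_finset]
      congr 1
      ext i
      simp only [mem_ofPred_eq, Finset.coe_filter]
      exact ⟨fun h => ⟨hin i h, h⟩, fun h => h.2⟩
    have hc2 : {i | (T i ∩ b).Nonempty ∧ ¬ T i ⊆ b}.ncard =
        (s.filter fun i => ¬ T i ⊆ b).card := by
      rw [← Set.ncard_coe_finset]
      congr 1
      ext i
      simp only [mem_ofPred_eq, Finset.coe_filter]
      rw [hsmem]
    rw [hc1, hc2]
    have h1 : ((s.filter fun i => T i ⊆ b).card : ℝ) * S =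
        - ∑ i ∈ s.filter (fun i => ¬ T i ⊆ b), ∑ j, m i j * f (al l j) := by linarith
    calc ((s.filter fun i => T i ⊆ b).card : ℝ) * |S| =
        |((s.filter fun i => T i ⊆ b).card : ℝ) * S| := by
          rw [abs_mul, Nat.abs_cast]
      _ ≤ _ := by rw [h1, abs_neg]; exact hbd
  -- let R tend to infinity
  by_contra hne
  have hSpos : 0 < |S| := abs_pos.2 hne
  have hK0 : 0 ≤ K := by
    have h1 := hK 1 le_rfl
    have h2 : (0 : ℝ) ≤ K * 1 ^ 2 := le_trans (Nat.cast_nonneg _) h1
    simpa using h2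
  set R : ℝ := max (max 1 R₀) (K * M / (c * |S|) + 1) with hR
  have hR1 : 1 ≤ R := le_trans (le_max_left _ _) (le_max_left _ _)
  have hRR₀ : R₀ ≤ R := le_trans (le_max_right _ _) (le_max_left _ _)
  have hRK : K * M / (c * |S|) + 1 ≤ R := le_max_right _ _
  have h1 := hmain R
  have h2 := hK R hR1
  have h3 := hR₀ R hRR₀
  have h4 : c * R ^ 3 * |S| ≤ K * R ^ 2 * M :=
    (mul_le_mul_of_nonneg_right h3 hSpos.le).trans (h1.trans (mul_le_mul_of_nonneg_right h2 hM0))
  have hRpos : 0 < R := by linarith
  have h5 : c * R * |S| ≤ K * M := by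
    have h6 : R ^ 2 * (c * R * |S|) ≤ R ^ 2 * (K * M) := by nlinarith
    exact le_of_mul_le_mul_left h6 (by positivity)
  have h7 : R ≤ K * M / (c * |S|) := by
    rw [le_div_iff₀ (by positivity)]
    nlinarith
  linarith

theorem dehn_zero (p : Fin 4 → E3) (hp : AffineIndependent ℝ p)
    (hT : TilesSpace (convexHull ℝ (range p))) (f : ℝ →ₗ[ℚ] ℝ) (hf : f π = 0) :
    ∑ j, len p j * f (al (len p) j) = 0 := by
  obtain ⟨𝒯, h1, h2, h3⟩ := hT
  have h1' : ∀ S : 𝒯, ∃ φ : E3 ≃ᵢ E3, (S : Set E3) = φ '' (convexHull ℝ (range p)) :=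
    fun S => h1 S S.2
  choose φ hφ using h1'
  set P : 𝒯 → Fin 4 → E3 := fun S => φ S ∘ p with hP
  have haff : ∀ S : 𝒯, ∃ g : E3 ≃ᵃ[ℝ] E3, ∀ x, g x = φ S x := fun S =>
    ⟨(φ S).toRealAffineIsometryEquiv.toAffineEquiv, fun x => rfl⟩
  have hhull : ∀ S : 𝒯, convexHull ℝ (range (P S)) = (S : Set E3) := by
    intro S
    obtain ⟨g, hg⟩ := haff S
    have e1 : range (P S) = g.toAffineMap '' range p := by
      rw [hP]
      simp only
      rw [range_comp]
      ext y
      constructor
      · rintro ⟨x, hx, rfl⟩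
        exact ⟨x, hx, hg x⟩
      · rintro ⟨x, hx, rfl⟩
        exact ⟨x, hx, (hg x).symm⟩
    rw [e1, ← AffineMap.image_convexHull, hφ S]
    ext y
    constructor
    · rintro ⟨x, hx, rfl⟩
      exact ⟨x, hx, (hg x).symm⟩
    · rintro ⟨x, hx, rfl⟩
      exact ⟨x, hx, hg x⟩
  refine dehn_zero_family P (len p) ?_ ?_ ?_ ?_ f hf
  · intro S
    obtain ⟨g, hg⟩ := haff S
    have e2 : P S = g ∘ p := by
      funext i
      exact (hg (p i)).symm
    rw [e2]
    exact (g.affineIndependent_iff).2 hp
  · intro S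
    funext j
    exact (φ S).isometry.dist_eq _ _
  · rw [← h2]
    ext y
    simp only [mem_iUnion, mem_sUnion]
    constructor
    · rintro ⟨S, hS⟩
      rw [hhull S] at hS
      exact ⟨S, S.2, hS⟩
    · rintro ⟨S, hS, hy⟩
      refine ⟨⟨S, hS⟩, ?_⟩
      rw [hhull ⟨S, hS⟩]
      exact hy
  · intro S S' hne
    simp only [hhull]
    exact h3 S.2 S'.2 (fun h => hne (Subtype.ext h))

end Pool.Agent.Helper1.Tet
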