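import Pool.Agent.Helper1.Tet.Defs

/-!
# T6: integrals over wedges of functions of `⟪e, v⟫` and `‖v‖`
-/

open Real MeasureTheory Set InnerProductGeometry
open scoped RealInnerProductSpace ENNReal

namespace Pool.Agent.Helper1.Tet

/-- integration in the coordinates of an orthonormal basis -/
lemma lintegral_coords (b : OrthonormalBasis (Fin 3) ℝ E3) (G : E3 → ℝ≥0∞) (hG : Measurable G) :
    ∫⁻ v, G v = ∫⁻ z : ℝ, ∫⁻ w : ℝ × ℝ, G (w.1 • b 0 + w.2 • b 1 + z • b 2) := by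
  have m0 : MeasurePreserving b.repr.symm volume volume := b.measurePreserving_repr_symm
  rw [← m0.lintegral_comp hG]
  have m1 : MeasurePreserving (WithLp.toLp 2 : (Fin 3 → ℝ) → EuclideanSpace ℝ (Fin 3))
      volume volume := PiLp.volume_preserving_toLp (Fin 3)
  have hG1 : Measurable fun x : EuclideanSpace ℝ (Fin 3) => G (b.repr.symm x) :=
    hG.comp m0.measurable
  rw [← m1.lintegral_comp hG1]
  have m2 := (volume_preserving_piFinSuccAbove (fun _ : Fin 3 => ℝ) 2).symm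
  have hG2 : Measurable fun x : Fin 3 → ℝ => G (b.repr.symm (WithLp.toLp 2 x)) :=
    hG1.comp m1.measurable
  rw [← m2.lintegral_comp hG2]
  have hG3 : Measurable fun x : ℝ × (Fin 2 → ℝ) => G (b.repr.symm (WithLp.toLp 2
      ((MeasurableEquiv.piFinSuccAbove (fun _ : Fin 3 => ℝ) 2).symm x))) :=
    hG2.comp m2.measurable
  rw [show (volume : Measure (ℝ × (Fin 2 → ℝ))) = (volume : Measure ℝ).prod volume from rfl]
  rw [lintegral_prod _ hG3.aemeasurable]
  refine lintegral_congr fun z => ?_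
  have m3 := (volume_preserving_finTwoArrow ℝ).symm
  have hG4 : Measurable fun x : Fin 2 → ℝ => G (b.repr.symm (WithLp.toLp 2
      ((MeasurableEquiv.piFinSuccAbove (fun _ : Fin 3 => ℝ) 2).symm (z, x)))) :=
    hG3.comp (measurable_const.prodMk measurable_id)
  rw [← m3.lintegral_comp hG4]
  refine lintegral_congr fun w => ?_
  congr 1
  rw [← b.sum_repr_symm]
  rw [Fin.sum_univ_three]
  congr 1

/-- an orthonormal basis adapted to `e`, `m₁`, `m₂` -/
lemma exists_frame (e m₁ m₂ : E3) (he : e ≠ 0) (h1 : m₁ ≠ 0)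
    (hm1 : ⟪e, m₁⟫ = 0) (hm2 : ⟪e, m₂⟫ = 0) :
    ∃ b : OrthonormalBasis (Fin 3) ℝ E3, e = ‖e‖ • b 2 ∧ m₁ = ‖m₁‖ • b 0 ∧
      m₂ = ‖m₂‖ • (cos (angle m₁ m₂) • b 0 + sin (angle m₁ m₂) • b 1) := by
  have hen : ‖e‖ ≠ 0 := norm_ne_zero_iff.2 he
  have h1n : ‖m₁‖ ≠ 0 := norm_ne_zero_iff.2 h1
  have hcard : Module.finrank ℝ E3 = Fintype.card (Fin 3) := by simp
  have hon : Orthonormal ℝ (({0, 2} : Set (Fin 3)).domRestrict
      (![‖m₁‖⁻¹ • m₁, 0, ‖e‖⁻¹ • e] : Fin 3 → E3)) := by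
    constructor
    · rintro ⟨i, hi⟩
      rcases hi with rfl | rfl
      · simp [norm_smul, h1n]
      · simp [norm_smul, hen]
    · rintro ⟨i, hi⟩ ⟨j, hj⟩ hij
      rcases hi with rfl | rfl <;> rcases hj with rfl | rfl
      · exact absurd rfl hij
      · simp [real_inner_smul_left, real_inner_smul_right, real_inner_comm e m₁, hm1]
      · simp [real_inner_smul_left, real_inner_smul_right, hm1]
      · exact absurd rfl hij
  obtain ⟨b₀, hb₀⟩ := hon.exists_orthonormalBasis_extension_of_card_eq hcard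
  have e0 : b₀ 0 = ‖m₁‖⁻¹ • m₁ := hb₀ 0 (by simp)
  have e2 : b₀ 2 = ‖e‖⁻¹ • e := hb₀ 2 (by simp)
  obtain ⟨b, hb0, hb2, hb1⟩ : ∃ b : OrthonormalBasis (Fin 3) ℝ E3, b 0 = ‖m₁‖⁻¹ • m₁ ∧
      b 2 = ‖e‖⁻¹ • e ∧ 0 ≤ ⟪b 1, m₂⟫ := by
    rcases le_or_gt 0 ⟪b₀ 1, m₂⟫ with h | h
    · exact ⟨b₀, e0, e2, h⟩
    · have hon' : Orthonormal ℝ ((univ : Set (Fin 3)).domRestrict
          (![b₀ 0, -b₀ 1, b₀ 2] : Fin 3 → E3)) := by
        have ho := b₀.orthonormal
        constructor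
        · rintro ⟨i, -⟩
          fin_cases i <;> simp
        · rintro ⟨i, hi⟩ ⟨j, hj⟩ hij
          have hij' : i ≠ j := fun h => hij (by simp [h])
          have h01 := ho.2 (show (0 : Fin 3) ≠ 1 by decide)
          have h02 := ho.2 (show (0 : Fin 3) ≠ 2 by decide)
          have h12 := ho.2 (show (1 : Fin 3) ≠ 2 by decide)
          have h10 := ho.2 (show (1 : Fin 3) ≠ 0 by decide)
          have h20 := ho.2 (show (2 : Fin 3) ≠ 0 by decide)
          have h21 := ho.2 (show (2 : Fin 3) ≠ 1 by decide)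
          fin_cases i <;> fin_cases j <;> simp_all
      obtain ⟨b₁, hb₁⟩ := hon'.exists_orthonormalBasis_extension_of_card_eq hcard
      have f0 : b₁ 0 = b₀ 0 := hb₁ 0 (mem_univ _)
      have f1 : b₁ 1 = -b₀ 1 := hb₁ 1 (mem_univ _)
      have f2 : b₁ 2 = b₀ 2 := hb₁ 2 (mem_univ _)
      refine ⟨b₁, f0.trans e0, f2.trans e2, ?_⟩
      rw [f1, inner_neg_left]
      linarith
  refine ⟨b, ?_, ?_, ?_⟩
  · rw [hb2, smul_smul, mul_inv_cancel₀ hen, one_smul]
  · rw [hb0, smul_smul, mul_inv_cancel₀ h1n, one_smul]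
  · have c2 : ⟪b 2, m₂⟫ = 0 := by
      rw [hb2, real_inner_smul_left, hm2, mul_zero]
    have c0 : ⟪b 0, m₂⟫ = ‖m₂‖ * cos (angle m₁ m₂) := by
      rw [hb0, real_inner_smul_left, ← cos_angle_mul_norm_mul_norm m₁ m₂]
      field_simp
    have hs : m₂ = ⟪b 0, m₂⟫ • b 0 + ⟪b 1, m₂⟫ • b 1 := by
      have := b.sum_repr' m₂
      rw [Fin.sum_univ_three, c2, zero_smul, add_zero] at this
      exact this.symm
    have hsq : ‖m₂‖ ^ 2 = ⟪b 0, m₂⟫ ^ 2 + ⟪b 1, m₂⟫ ^ 2 := by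
      have := b.sum_sq_norm_inner_right m₂
      rw [Fin.sum_univ_three, c2] at this
      simp only [norm_zero, Real.norm_eq_abs, sq_abs] at this
      rw [← this]
      ring
    have hsin : 0 ≤ sin (angle m₁ m₂) := sin_angle_nonneg m₁ m₂
    have c1 : ⟪b 1, m₂⟫ = ‖m₂‖ * sin (angle m₁ m₂) := by
      rw [← sq_eq_sq₀ hb1 (by positivity)]
      rw [c0] at hsq
      have := sin_sq_add_cos_sq (angle m₁ m₂)
      nlinarith
    calc m₂ = ⟪b 0, m₂⟫ • b 0 + ⟪b 1, m₂⟫ • b 1 := hs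
      _ = ‖m₂‖ • (cos (angle m₁ m₂) • b 0 + sin (angle m₁ m₂) • b 1) := by
        rw [c0, c1, smul_add, smul_smul, smul_smul]

/-- the angular sector -/
lemma sector_eq {φ : ℝ} (h0 : 0 ≤ φ) (hπ : φ ≤ π) :
    {θ : ℝ | 0 < cos θ ∧ 0 < cos θ * cos φ + sin θ * sin φ} ∩ Ioo (-π) π =
      Ioo (φ - π / 2) (π / 2) := by
  ext θ
  have hpi := Real.pi_pos
  simp only [mem_inter_iff, mem_ofPred_eq, mem_Ioo, ← cos_sub]
  constructor
  · rintro ⟨⟨hc, hd⟩, hθ1, hθ2⟩
    have t1 : θ < π / 2 := by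
      by_contra hcon
      push Not at hcon
      have := cos_nonpos_of_pi_div_two_le_of_le hcon (by linarith)
      linarith
    have t2 : φ - π / 2 < θ := by
      by_contra hcon
      push Not at hcon
      have t3 : -(π / 2) < θ := by
        by_contra hcon2
        push Not at hcon2
        have := cos_nonpos_of_pi_div_two_le_of_le (x := -θ) (by linarith) (by linarith)
        rw [cos_neg] at this
        linarith
      have := cos_nonpos_of_pi_div_two_le_of_le (x := -(θ - φ)) (by linarith) (by linarith)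
      rw [cos_neg] at this
      linarith
    exact ⟨t2, t1⟩
  · rintro ⟨t2, t1⟩
    refine ⟨⟨cos_pos_of_mem_Ioo ⟨by linarith, t1⟩, cos_pos_of_mem_Ioo ⟨by linarith, by linarith⟩⟩,
      by linarith, by linarith⟩

/-- plane polar coordinates: integral of a radial function over a sector -/
lemma lintegral_sector (g : ℝ → ℝ≥0∞) (hg : Measurable g) {φ : ℝ} (h0 : 0 ≤ φ) (hπ : φ ≤ π) :
    ∫⁻ w : ℝ × ℝ, {w : ℝ × ℝ | 0 < w.1 ∧ 0 < w.1 * cos φ + w.2 * sin φ}.indicator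
        (fun w => g (w.1 ^ 2 + w.2 ^ 2)) w =
      ENNReal.ofReal (π - φ) * ∫⁻ r in Ioi (0 : ℝ), ENNReal.ofReal r * g (r ^ 2) := by
  rw [← lintegral_comp_polarCoord_symm]
  have htar : polarCoord.target = Ioi (0 : ℝ) ×ˢ Ioo (-π) π := rfl
  rw [htar, show (volume : Measure (ℝ × ℝ)) = (volume : Measure ℝ).prod volume from rfl,
    ← Measure.prod_restrict]
  have hpt : ∀ p : ℝ × ℝ, p ∈ Ioi (0 : ℝ) ×ˢ Ioo (-π) π → ENNReal.ofReal p.1 •
      {w : ℝ × ℝ | 0 < w.1 ∧ 0 < w.1 * cos φ + w.2 * sin φ}.indicator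
        (fun w => g (w.1 ^ 2 + w.2 ^ 2)) (polarCoord.symm p) =
      (ENNReal.ofReal p.1 * g (p.1 ^ 2)) *
        {θ : ℝ | 0 < cos θ ∧ 0 < cos θ * cos φ + sin θ * sin φ}.indicator 1 p.2 := by
    rintro ⟨r, θ⟩ ⟨hr, -⟩
    have hr' : 0 < r := hr
    simp only [polarCoord_symm_apply, indicator_apply, mem_ofPred_eq, smul_eq_mul, Pi.one_apply]
    have i1 : (0 < r * cos θ ∧ 0 < r * cos θ * cos φ + r * sin θ * sin φ) ↔
        (0 < cos θ ∧ 0 < cos θ * cos φ + sin θ * sin φ) := by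
      rw [show r * cos θ * cos φ + r * sin θ * sin φ =
        r * (cos θ * cos φ + sin θ * sin φ) by ring, mul_pos_iff_of_pos_left hr',
        mul_pos_iff_of_pos_left hr']
    have i2 : (r * cos θ) ^ 2 + (r * sin θ) ^ 2 = r ^ 2 := by
      have := sin_sq_add_cos_sq θ
      nlinarith
    rw [i2]
    by_cases hc : 0 < cos θ ∧ 0 < cos θ * cos φ + sin θ * sin φ
    · rw [if_pos (i1.2 hc), if_pos hc, mul_one]
    · rw [if_neg (fun h => hc (i1.1 h)), if_neg hc, mul_zero, mul_zero]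
  have hms : MeasurableSet {θ : ℝ | 0 < cos θ ∧ 0 < cos θ * cos φ + sin θ * sin φ} := by
    have q1 : Measurable fun θ : ℝ => cos θ := by fun_prop
    have q2 : Measurable fun θ : ℝ => cos θ * cos φ + sin θ * sin φ := by fun_prop
    exact (measurableSet_lt measurable_const q1).inter (measurableSet_lt measurable_const q2)
  have hae : ∀ᵐ p : ℝ × ℝ ∂((volume : Measure ℝ).restrict (Ioi 0)).prod
      ((volume : Measure ℝ).restrict (Ioo (-π) π)), ENNReal.ofReal p.1 •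
      {w : ℝ × ℝ | 0 < w.1 ∧ 0 < w.1 * cos φ + w.2 * sin φ}.indicator
        (fun w => g (w.1 ^ 2 + w.2 ^ 2)) (polarCoord.symm p) =
      (ENNReal.ofReal p.1 * g (p.1 ^ 2)) *
        {θ : ℝ | 0 < cos θ ∧ 0 < cos θ * cos φ + sin θ * sin φ}.indicator 1 p.2 := by
    rw [Measure.prod_restrict]
    exact (ae_restrict_iff' (measurableSet_Ioi.prod measurableSet_Ioo)).2
      (Filter.Eventually.of_forall hpt)
  rw [lintegral_congr_ae hae]
  have hmg : AEMeasurable (fun r : ℝ => ENNReal.ofReal r * g (r ^ 2))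
      ((volume : Measure ℝ).restrict (Ioi 0)) := by
    refine Measurable.aemeasurable ?_
    exact (ENNReal.measurable_ofReal).mul (hg.comp (by fun_prop))
  have hmi : AEMeasurable ({θ : ℝ | 0 < cos θ ∧
      0 < cos θ * cos φ + sin θ * sin φ}.indicator (1 : ℝ → ℝ≥0∞))
      ((volume : Measure ℝ).restrict (Ioo (-π) π)) :=
    (measurable_one.indicator hms).aemeasurable
  rw [lintegral_prod_mul hmg hmi, mul_comm]
  congr 1
  rw [lintegral_indicator_one hms, Measure.restrict_apply hms, sector_eq h0 hπ, Real.volume_Ioo]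
  congr 1
  ring

/-- the full plane -/
lemma lintegral_plane (g : ℝ → ℝ≥0∞) (hg : Measurable g) :
    ∫⁻ w : ℝ × ℝ, g (w.1 ^ 2 + w.2 ^ 2) =
      ENNReal.ofReal (2 * π) * ∫⁻ r in Ioi (0 : ℝ), ENNReal.ofReal r * g (r ^ 2) := by
  rw [← lintegral_comp_polarCoord_symm]
  have htar : polarCoord.target = Ioi (0 : ℝ) ×ˢ Ioo (-π) π := rfl
  rw [htar, show (volume : Measure (ℝ × ℝ)) = (volume : Measure ℝ).prod volume from rfl,
    ← Measure.prod_restrict]
  have hpt : ∀ p : ℝ × ℝ, ENNReal.ofReal p.1 • g ((polarCoord.symm p).1 ^ 2 +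
      (polarCoord.symm p).2 ^ 2) =
      (ENNReal.ofReal p.1 * g (p.1 ^ 2)) * (fun _ : ℝ => (1 : ℝ≥0∞)) p.2 := by
    rintro ⟨r, θ⟩
    simp only [polarCoord_symm_apply, smul_eq_mul]
    have i2 : (r * cos θ) ^ 2 + (r * sin θ) ^ 2 = r ^ 2 := by
      have := sin_sq_add_cos_sq θ
      nlinarith
    rw [i2, mul_one]
  rw [lintegral_congr hpt]
  have hmg : AEMeasurable (fun r : ℝ => ENNReal.ofReal r * g (r ^ 2))
      ((volume : Measure ℝ).restrict (Ioi 0)) := by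
    refine Measurable.aemeasurable ?_
    exact (ENNReal.measurable_ofReal).mul (hg.comp (by fun_prop))
  rw [lintegral_prod_mul hmg aemeasurable_const, mul_comm]
  congr 1
  rw [lintegral_one, Measure.restrict_apply_univ, Real.volume_Ioo]
  congr 1
  ring

/-- Integrals of functions of `⟪e, v⟫` and `‖v‖` over wedges. -/
theorem lintegral_wedge (e m₁ m₂ : E3) (he : e ≠ 0) (h1 : m₁ ≠ 0) (h2 : m₂ ≠ 0)
    (hm1 : ⟪e, m₁⟫ = 0) (hm2 : ⟪e, m₂⟫ = 0) (F : ℝ → ℝ → ℝ≥0∞)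
    (hF : Measurable (Function.uncurry F)) :
    ∫⁻ v in {v : E3 | 0 < ⟪m₁, v⟫ ∧ 0 < ⟪m₂, v⟫}, F ⟪e, v⟫ ‖v‖ =
      ENNReal.ofReal ((π - angle m₁ m₂) / (2 * π)) * ∫⁻ v : E3, F ⟪e, v⟫ ‖v‖ := by
  obtain ⟨b, hb2, hb0, hbm⟩ := exists_frame e m₁ m₂ he h1 hm1 hm2
  set φ := angle m₁ m₂ with hφ
  have hφ0 : 0 ≤ φ := angle_nonneg _ _
  have hφπ : φ ≤ π := angle_le_pi _ _
  have n1 : 0 < ‖m₁‖ := norm_pos_iff.2 h1
  have n2 : 0 < ‖m₂‖ := norm_pos_iff.2 h2
  -- inner products in coordinates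
  have o00 : ⟪b 0, b 0⟫ = 1 := by rw [real_inner_self_eq_norm_sq, b.norm_eq_one]; norm_num
  have o11 : ⟪b 1, b 1⟫ = 1 := by rw [real_inner_self_eq_norm_sq, b.norm_eq_one]; norm_num
  have o22 : ⟪b 2, b 2⟫ = 1 := by rw [real_inner_self_eq_norm_sq, b.norm_eq_one]; norm_num
  have o01 : ⟪b 0, b 1⟫ = 0 := b.orthonormal.2 (by decide)
  have o02 : ⟪b 0, b 2⟫ = 0 := b.orthonormal.2 (by decide)
  have o10 : ⟪b 1, b 0⟫ = 0 := b.orthonormal.2 (by decide)
  have o12 : ⟪b 1, b 2⟫ = 0 := b.orthonormal.2 (by decide)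
  have o20 : ⟪b 2, b 0⟫ = 0 := b.orthonormal.2 (by decide)
  have o21 : ⟪b 2, b 1⟫ = 0 := b.orthonormal.2 (by decide)
  have ce : ∀ x y z : ℝ, ⟪e, x • b 0 + y • b 1 + z • b 2⟫ = ‖e‖ * z := by
    intro x y z
    rw [hb2, norm_smul, b.norm_eq_one, mul_one, Real.norm_eq_abs, abs_norm]
    simp only [real_inner_smul_left, real_inner_smul_right, inner_add_right, o20, o21, o22]
    ring
  have c1 : ∀ x y z : ℝ, ⟪m₁, x • b 0 + y • b 1 + z • b 2⟫ = ‖m₁‖ * x := by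
    intro x y z
    rw [hb0, norm_smul, b.norm_eq_one, mul_one, Real.norm_eq_abs, abs_norm]
    simp only [real_inner_smul_left, real_inner_smul_right, inner_add_right, o00, o01, o02]
    ring
  have c2 : ∀ x y z : ℝ, ⟪m₂, x • b 0 + y • b 1 + z • b 2⟫ =
      ‖m₂‖ * (x * cos φ + y * sin φ) := by
    intro x y z
    have hcalc : ⟪‖m₂‖ • (cos φ • b 0 + sin φ • b 1), x • b 0 + y • b 1 + z • b 2⟫ =
        ‖m₂‖ * (x * cos φ + y * sin φ) := by
      simp only [real_inner_smul_left, real_inner_smul_right, inner_add_right, inner_add_left,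
        o00, o01, o02, o10, o11, o12]
      ring
    rw [← hcalc, ← hbm]
  have cn : ∀ x y z : ℝ, ‖x • b 0 + y • b 1 + z • b 2‖ = √(x ^ 2 + y ^ 2 + z ^ 2) := by
    intro x y z
    rw [norm_eq_sqrt_real_inner]
    congr 1
    simp only [real_inner_smul_left, real_inner_smul_right, inner_add_right, inner_add_left,
        o00, o01, o02, o10, o11, o12, o20, o21, o22]
    ring
  -- measurability
  have hGm : Measurable fun v : E3 => F ⟪e, v⟫ ‖v‖ :=
    hF.comp ((by fun_prop : Measurable fun v : E3 => ⟪e, v⟫).prodMk measurable_norm)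
  have hWm : MeasurableSet {v : E3 | 0 < ⟪m₁, v⟫ ∧ 0 < ⟪m₂, v⟫} := by
    have q1 : Measurable fun v : E3 => ⟪m₁, v⟫ := by fun_prop
    have q2 : Measurable fun v : E3 => ⟪m₂, v⟫ := by fun_prop
    exact (measurableSet_lt measurable_const q1).inter (measurableSet_lt measurable_const q2)
  rw [← lintegral_indicator hWm, lintegral_coords b _ (hGm.indicator hWm),
    lintegral_coords b _ hGm]
  -- the inner integrals
  have key1 : ∀ z : ℝ, ∫⁻ w : ℝ × ℝ, {v : E3 | 0 < ⟪m₁, v⟫ ∧ 0 < ⟪m₂, v⟫}.indicator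
      (fun v => F ⟪e, v⟫ ‖v‖) (w.1 • b 0 + w.2 • b 1 + z • b 2) =
      ENNReal.ofReal (π - φ) * ∫⁻ r in Ioi (0 : ℝ), ENNReal.ofReal r *
        (fun t => F (‖e‖ * z) (√(t + z ^ 2))) (r ^ 2) := by
    intro z
    have hg : Measurable fun t : ℝ => F (‖e‖ * z) (√(t + z ^ 2)) :=
      hF.comp (measurable_const.prodMk (by fun_prop))
    rw [← lintegral_sector (fun t => F (‖e‖ * z) (√(t + z ^ 2))) hg hφ0 hφπ]
    refine lintegral_congr fun w => ?_
    simp only [indicator_apply, mem_ofPred_eq, ce, c1, c2, cn, mul_pos_iff_of_pos_left n1,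
      mul_pos_iff_of_pos_left n2]
  have key2 : ∀ z : ℝ, ∫⁻ w : ℝ × ℝ, F ⟪e, w.1 • b 0 + w.2 • b 1 + z • b 2⟫
      ‖w.1 • b 0 + w.2 • b 1 + z • b 2‖ =
      ENNReal.ofReal (2 * π) * ∫⁻ r in Ioi (0 : ℝ), ENNReal.ofReal r *
        (fun t => F (‖e‖ * z) (√(t + z ^ 2))) (r ^ 2) := by
    intro z
    have hg : Measurable fun t : ℝ => F (‖e‖ * z) (√(t + z ^ 2)) :=
      hF.comp (measurable_const.prodMk (by fun_prop))
    rw [← lintegral_plane (fun t => F (‖e‖ * z) (√(t + z ^ 2))) hg]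
    refine lintegral_congr fun w => ?_
    simp only [ce, cn]
  simp_rw [key1, key2]
  rw [lintegral_const_mul' _ _ ENNReal.ofReal_ne_top, lintegral_const_mul' _ _ ENNReal.ofReal_ne_top,
    ← mul_assoc]
  congr 1
  rw [← ENNReal.ofReal_mul (by have := Real.pi_pos; apply div_nonneg <;> linarith)]
  congr 1
  have := Real.pi_pos
  field_simp

end Pool.Agent.Helper1.Tet
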