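import Pool.Agent.Helper1.Tet.Dual
import Pool.Agent.Helper1.Tet.Wedge

/-!
# The density of a tetrahedron at its points
-/

open Real MeasureTheory Set InnerProductGeometry Filter Topology
open scoped RealInnerProductSpace ENNReal

namespace Pool.Agent.Helper1.Tet

lemma dn_plane_null (m : E3) (hm : m ≠ 0) : volume {v : E3 | ⟪m, v⟫ = 0} = 0 := by
  have h := Measure.addHaar_submodule (volume : Measure E3) (LinearMap.ker (innerₛₗ ℝ m)) (by
    intro h
    have h1 : m ∈ LinearMap.ker (innerₛₗ ℝ m) := by rw [h]; trivial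
    rw [LinearMap.mem_ker, innerₛₗ_apply_apply, inner_self_eq_zero] at h1
    exact hm h1)
  have e : ((LinearMap.ker (innerₛₗ ℝ m) : Submodule ℝ E3) : Set E3) = {v : E3 | ⟪m, v⟫ = 0} := by
    ext v
    simp [LinearMap.mem_ker]
  rwa [e] at h

lemma dn_wedge_vol (e m₁ m₂ : E3) (he : e ≠ 0) (h1 : m₁ ≠ 0) (h2 : m₂ ≠ 0)
    (hm1 : ⟪e, m₁⟫ = 0) (hm2 : ⟪e, m₂⟫ = 0) (x : E3) (r : ℝ) :
    volume ({y : E3 | 0 ≤ ⟪m₁, y - x⟫ ∧ 0 ≤ ⟪m₂, y - x⟫} ∩ Metric.ball x r) =
      ENNReal.ofReal ((π - angle m₁ m₂) / (2 * π)) * volume (Metric.ball x r) := by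
  -- the open wedge at the origin
  have hopen : volume ({v : E3 | 0 < ⟪m₁, v⟫ ∧ 0 < ⟪m₂, v⟫} ∩ Metric.ball 0 r) =
      ENNReal.ofReal ((π - angle m₁ m₂) / (2 * π)) * volume (Metric.ball (0 : E3) r) := by
    have hF : Measurable (Function.uncurry fun (_ ρ : ℝ) => if ρ < r then (1 : ℝ≥0∞) else 0) := by
      refine Measurable.ite ?_ measurable_const measurable_const
      exact measurableSet_lt measurable_snd measurable_const
    have h := lintegral_wedge e m₁ m₂ he h1 h2 hm1 hm2 (fun _ ρ => if ρ < r then 1 else 0) hF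
    have e1 : ∀ v : E3, (if ‖v‖ < r then (1 : ℝ≥0∞) else 0)
        = (Metric.ball (0 : E3) r).indicator 1 v := by
      intro v
      by_cases hv : ‖v‖ < r
      · rw [if_pos hv, Set.indicator_of_mem (by simpa using hv)]; rfl
      · rw [if_neg hv, Set.indicator_of_notMem (by simpa using hv)]
    simp_rw [e1] at h
    rw [lintegral_indicator_one Metric.isOpen_ball.measurableSet,
      lintegral_indicator_one Metric.isOpen_ball.measurableSet,
      Measure.restrict_apply Metric.isOpen_ball.measurableSet, Set.inter_comm] at h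
    exact h
  -- the closed wedge
  have hcl : volume ({v : E3 | 0 ≤ ⟪m₁, v⟫ ∧ 0 ≤ ⟪m₂, v⟫} ∩ Metric.ball 0 r) =
      volume ({v : E3 | 0 < ⟪m₁, v⟫ ∧ 0 < ⟪m₂, v⟫} ∩ Metric.ball 0 r) := by
    apply measure_congr
    have n1 : ∀ᵐ v : E3, ⟪m₁, v⟫ ≠ 0 := by
      rw [ae_iff]; simpa using dn_plane_null m₁ h1
    have n2 : ∀ᵐ v : E3, ⟪m₂, v⟫ ≠ 0 := by
      rw [ae_iff]; simpa using dn_plane_null m₂ h2
    filter_upwards [n1, n2] with v hv1 hv2
    apply propext
    constructor
    · rintro ⟨⟨a, b⟩, c⟩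
      exact ⟨⟨lt_of_le_of_ne a (Ne.symm hv1), lt_of_le_of_ne b (Ne.symm hv2)⟩, c⟩
    · rintro ⟨⟨a, b⟩, c⟩
      exact ⟨⟨a.le, b.le⟩, c⟩
  have e1 : {y : E3 | 0 ≤ ⟪m₁, y - x⟫ ∧ 0 ≤ ⟪m₂, y - x⟫} ∩ Metric.ball x r =
      (fun y => y + -x) ⁻¹' ({v : E3 | 0 ≤ ⟪m₁, v⟫ ∧ 0 ≤ ⟪m₂, v⟫} ∩ Metric.ball 0 r) := by
    ext y
    simp [sub_eq_add_neg, dist_eq_norm]
  have e2 : Metric.ball x r = (fun y => y + -x) ⁻¹' (Metric.ball (0 : E3) r) := by
    ext y
    simp [← sub_eq_add_neg, dist_eq_norm]
  rw [e1, e2, measure_preimage_add_right, measure_preimage_add_right, hcl, hopen]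

/-- barycentric coordinates -/
noncomputable def dn_lam (p g : Fin 4 → E3) (x : E3) (i : Fin 4) : ℝ :=
  ⟪g i, x - p 0⟫ + (if i = 0 then 1 else 0)

lemma dn_lam_sum (p g : Fin 4 → E3) (hp : AffineIndependent ℝ p) (hg : IsDual p g) (x : E3) :
    ∑ i, dn_lam p g x i = 1 := by
  unfold dn_lam
  rw [Finset.sum_add_distrib, ← sum_inner, dual_sum p g hp hg, inner_zero_left, zero_add]
  simp

lemma dn_lam_expand (p g : Fin 4 → E3) (hp : AffineIndependent ℝ p) (hg : IsDual p g) (x : E3) :
    ∑ i, dn_lam p g x i • p i = x := by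
  have h1 := dual_expand p g hp hg (x - p 0)
  have h2 : ∑ i, ⟪g i, x - p 0⟫ = 0 := by
    rw [← sum_inner, dual_sum p g hp hg, inner_zero_left]
  unfold dn_lam
  simp_rw [add_smul, Finset.sum_add_distrib]
  simp_rw [smul_sub, Finset.sum_sub_distrib] at h1
  rw [← Finset.sum_smul, h2, zero_smul, sub_zero] at h1
  rw [h1]
  simp

lemma dn_lam_shift (p g : Fin 4 → E3) (x y : E3) (i : Fin 4) :
    dn_lam p g y i = dn_lam p g x i + ⟪g i, y - x⟫ := by
  unfold dn_lam
  have : y - p 0 = (x - p 0) + (y - x) := by abel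
  rw [this, inner_add_right]
  ring

lemma dn_mem_segment (p g : Fin 4 → E3) (hp : AffineIndependent ℝ p) (hg : IsDual p g) (x : E3)
    (hx : ∀ i, 0 ≤ dn_lam p g x i) (j : Fin 6) :
    x ∈ segment ℝ (p (ea j)) (p (eb j)) ↔ dn_lam p g x (ec j) = 0 ∧ dn_lam p g x (ed j) = 0 := by
  constructor
  · rintro ⟨s, t, hs, ht, hst, rfl⟩
    have key : ∀ c, c ≠ ea j → c ≠ eb j → dn_lam p g (s • p (ea j) + t • p (eb j)) c = 0 := by
      intro c hca hcb
      unfold dn_lam
      have e : s • p (ea j) + t • p (eb j) - p 0 = s • (p (ea j) - p 0) + t • (p (eb j) - p 0) := by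
        have : s = 1 - t := by linarith
        rw [this]; module
      rw [e, inner_add_right, inner_smul_right, inner_smul_right, hg, hg, if_neg hca, if_neg hcb]
      split_ifs
      · linarith
      · simp
    exact ⟨key _ (by fin_cases j <;> decide) (by fin_cases j <;> decide),
      key _ (by fin_cases j <;> decide) (by fin_cases j <;> decide)⟩
  · rintro ⟨h1, h2⟩
    have hs := dn_lam_sum p g hp hg x
    have he := dn_lam_expand p g hp hg x
    refine ⟨dn_lam p g x (ea j), dn_lam p g x (eb j), hx _, hx _, ?_, ?_⟩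
    · rw [← hs, Fin.sum_univ_four]
      fin_cases j <;> simp [ea, eb, ec, ed] at h1 h2 ⊢ <;> rw [h1, h2] <;> ring
    · conv_rhs => rw [← he, Fin.sum_univ_four]
      fin_cases j <;> simp [ea, eb, ec, ed] at h1 h2 ⊢ <;> rw [h1, h2] <;> simp

theorem density (p : Fin 4 → E3) (hp : AffineIndependent ℝ p) (x : E3)
    (hx : x ∈ convexHull ℝ (range p)) (hx' : x ∉ range p) :
    ∃ θ : ℝ, 0 ≤ θ ∧ (∃ r₀ > 0, ∀ r, 0 < r → r < r₀ →
      volume (convexHull ℝ (range p) ∩ Metric.ball x r) =
        ENNReal.ofReal (θ / (2 * π)) * volume (Metric.ball x r)) ∧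
      ∀ f : ℝ →ₗ[ℚ] ℝ, f π = 0 →
        f θ = ∑ j, (segment ℝ (p (ea j)) (p (eb j))).indicator (fun _ => f (al (len p) j)) x := by
  classical
  obtain ⟨g, hg⟩ := exists_dual p hp
  have hlam : ∀ y, y ∈ convexHull ℝ (range p) ↔ ∀ i, 0 ≤ dn_lam p g y i := fun y =>
    mem_hull_iff p g hp hg y
  have hx0 := (hlam x).1 hx
  have hinj : Function.Injective p := hp.injective
  have hsum := dn_lam_sum p g hp hg x
  have hexp := dn_lam_expand p g hp hg x
  have hseg := dn_mem_segment p g hp hg x hx0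
  -- the coordinates which are positive at x stay positive near x
  obtain ⟨r₀, hr₀, hnear⟩ : ∃ r₀ > 0, ∀ y ∈ Metric.ball x r₀, ∀ i, 0 < dn_lam p g x i →
      0 < dn_lam p g y i := by
    have h1 : ∀ i, ∀ᶠ y in 𝓝 x, 0 < dn_lam p g x i → 0 < dn_lam p g y i := by
      intro i
      by_cases hi : 0 < dn_lam p g x i
      · have hc : Continuous fun y => dn_lam p g y i := by
          unfold dn_lam; fun_prop
        filter_upwards [hc.continuousAt.eventually (lt_mem_nhds hi)] with y hy _
        exact hy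
      · exact Eventually.of_forall fun y h => absurd h hi
    have h2 := eventually_all.2 h1
    rw [Metric.eventually_nhds_iff_ball] at h2
    exact h2
  -- wedge formula for the intersection with a small ball
  have hwedge : ∀ c d : Fin 4, dn_lam p g x c = 0 → dn_lam p g x d = 0 →
      (∀ i, i ≠ c → i ≠ d → 0 < dn_lam p g x i) → (∃ a b, a ≠ b ∧ a ≠ c ∧ a ≠ d ∧ b ≠ c ∧ b ≠ d) →
      ∀ r, 0 < r → r < r₀ → volume (convexHull ℝ (range p) ∩ Metric.ball x r) =
        ENNReal.ofReal ((π - angle (g c) (g d)) / (2 * π)) * volume (Metric.ball x r) := by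
    rintro c d hc hd hpos ⟨a, b, hab, hac, had, hbc, hbd⟩ r hr hrr
    have he : p b - p a ≠ 0 := sub_ne_zero.2 fun h => hab (hinj h).symm
    have h1 : ⟪p b - p a, g c⟫ = 0 := by
      rw [real_inner_comm, hg, if_neg hbc.symm, if_neg hac.symm, sub_zero]
    have h2 : ⟪p b - p a, g d⟫ = 0 := by
      rw [real_inner_comm, hg, if_neg hbd.symm, if_neg had.symm, sub_zero]
    rw [← dn_wedge_vol (p b - p a) (g c) (g d) he (dual_ne_zero p g hg c) (dual_ne_zero p g hg d)
      h1 h2 x r]
    congr 1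
    ext y
    simp only [Set.mem_inter_iff, Set.mem_ofPred_eq]
    refine and_congr_left fun hy => ?_
    rw [hlam]
    constructor
    · intro h
      have h3 := h c
      have h4 := h d
      rw [dn_lam_shift p g x y, hc, zero_add] at h3
      rw [dn_lam_shift p g x y, hd, zero_add] at h4
      exact ⟨h3, h4⟩
    · rintro ⟨h3, h4⟩ i
      by_cases hic : i = c
      · rw [hic, dn_lam_shift p g x y, hc, zero_add]; exact h3
      · by_cases hid : i = d
        · rw [hid, dn_lam_shift p g x y, hd, zero_add]; exact h4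
        · exact (hnear y (Metric.ball_subset_ball hrr.le hy) i (hpos i hic hid)).le
  have hπ := Real.pi_pos
  by_cases hA : ∃ j, dn_lam p g x (ec j) = 0 ∧ dn_lam p g x (ed j) = 0
  · -- on an edge
    obtain ⟨j, hjc, hjd⟩ := hA
    have hpos : ∀ i, i ≠ ec j → i ≠ ed j → 0 < dn_lam p g x i := by
      intro i hic hid
      refine lt_of_le_of_ne (hx0 i) fun h0 => ?_
      -- the remaining vertex
      obtain ⟨k, hk⟩ : ∃ k : Fin 4, k ≠ i ∧ k ≠ ec j ∧ k ≠ ed j ∧
          ∀ m : Fin 4, m ≠ k → m = i ∨ m = ec j ∨ m = ed j := by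
        clear hjc hjd h0
        revert i j
        decide
      apply hx'
      have hz : ∀ m, m ≠ k → dn_lam p g x m = 0 := by
        intro m hm
        rcases hk.2.2.2 m hm with h | h | h
        · rw [h]; exact h0.symm
        · rw [h]; exact hjc
        · rw [h]; exact hjd
      have h1 : dn_lam p g x k = 1 := by
        rw [← hsum]
        exact (Finset.sum_eq_single k (fun m _ hm => hz m hm)
          (fun h => absurd (Finset.mem_univ k) h)).symm
      refine ⟨k, ?_⟩
      rw [← hexp, Finset.sum_eq_single k (fun m _ hm => by rw [hz m hm, zero_smul])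
        (fun h => absurd (Finset.mem_univ k) h), h1, one_smul]
    refine ⟨al (len p) j, Real.arccos_nonneg _, ⟨r₀, hr₀, fun r hr hrr => ?_⟩, fun f hf => ?_⟩
    · rw [al_len p g hp hg j]
      exact hwedge (ec j) (ed j) hjc hjd hpos
        ⟨ea j, eb j, by fin_cases j <;> decide, by fin_cases j <;> decide,
          by fin_cases j <;> decide, by fin_cases j <;> decide, by fin_cases j <;> decide⟩ r hr hrr
    · rw [Finset.sum_eq_single j]
      · rw [Set.indicator_of_mem ((hseg j).2 ⟨hjc, hjd⟩)]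
      · intro j' _ hne
        rw [Set.indicator_of_notMem]
        rw [hseg]
        rintro ⟨h1, h2⟩
        have h3 : ec j' = ec j ∨ ec j' = ed j := by
          by_contra hcon
          push Not at hcon
          exact absurd h1 (hpos _ hcon.1 hcon.2).ne'
        have h4 : ed j' = ec j ∨ ed j' = ed j := by
          by_contra hcon
          push Not at hcon
          exact absurd h2 (hpos _ hcon.1 hcon.2).ne'
        have h5 : ∀ j j' : Fin 6, (ec j' = ec j ∨ ec j' = ed j) → (ed j' = ec j ∨ ed j' = ed j) →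
            j' = j := by decide
        exact hne (h5 j j' h3 h4)
      · intro h; exact absurd (Finset.mem_univ j) h
  · have hzero : ∀ f : ℝ →ₗ[ℚ] ℝ, ∑ j, (segment ℝ (p (ea j)) (p (eb j))).indicator
        (fun _ => f (al (len p) j)) x = 0 := by
      intro f
      refine Finset.sum_eq_zero fun j _ => ?_
      rw [Set.indicator_of_notMem]
      rw [hseg]
      exact fun h => hA ⟨j, h⟩
    by_cases hB : ∃ i, dn_lam p g x i = 0
    · obtain ⟨i, hi⟩ := hB
      have hpos : ∀ k, k ≠ i → k ≠ i → 0 < dn_lam p g x k := by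
        intro k hk _
        refine lt_of_le_of_ne (hx0 k) fun h0 => ?_
        obtain ⟨j, hj⟩ : ∃ j : Fin 6, (ec j = k ∧ ed j = i) ∨ (ec j = i ∧ ed j = k) := by
          clear hi h0
          revert k i
          decide
        apply hA
        rcases hj with ⟨h1, h2⟩ | ⟨h1, h2⟩
        · exact ⟨j, by rw [h1]; exact h0.symm, by rw [h2]; exact hi⟩
        · exact ⟨j, by rw [h1]; exact hi, by rw [h2]; exact h0.symm⟩
      refine ⟨π, hπ.le, ⟨r₀, hr₀, fun r hr hrr => ?_⟩, fun f hf => ?_⟩
      · have h1 := hwedge i i hi hi hpos (by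
          clear hi hpos
          revert i
          decide) r hr hrr
        rw [angle_self (dual_ne_zero p g hg i), sub_zero] at h1
        exact h1
      · rw [hzero, hf]
    · have hpos : ∀ k, 0 < dn_lam p g x k := fun k =>
        lt_of_le_of_ne (hx0 k) fun h0 => hB ⟨k, h0.symm⟩
      refine ⟨2 * π, by positivity, ⟨r₀, hr₀, fun r hr hrr => ?_⟩, fun f hf => ?_⟩
      · rw [div_self (by positivity), ENNReal.ofReal_one, one_mul]
        congr 1
        rw [Set.inter_eq_right]
        intro y hy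
        rw [hlam]
        exact fun i => (hnear y (Metric.ball_subset_ball hrr.le hy) i (hpos i)).le
      · rw [hzero]
        have : (2 * π : ℝ) = (2 : ℚ) • π := by
          rw [Rat.smul_def]; norm_num
        rw [this, map_smul, hf, smul_zero]

end Pool.Agent.Helper1.Tet
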