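import Pool.Agent.Helper1.Tet.ExtendAux
import Pool.Agent.Helper1.Tet.Strict
import Pool.Agent.Helper1.Tet.Perimeter

/-! # T9: extension of the constancy of the relations to all of `P` -/

open Real MeasureTheory Set InnerProductGeometry Filter Topology

namespace Pool.Agent.Helper1.Tet

theorem extend_good (P : Submodule ℝ (Fin 6 → ℝ)) (l₀ : Fin 6 → ℝ) (h₀ : l₀ ∈ P) (hT : l₀ ∈ TT)
    (hloc : ∀ n ∈ P, ∀ᶠ l in 𝓝[(P : Set (Fin 6 → ℝ))] l₀,
      ∑ j, n j * al l j = ∑ j, n j * al l₀ j) :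
    ∀ l ∈ P, Tri l → l ∈ TT ∧ ∀ n ∈ P, ∑ j, n j * al l j = ∑ j, n j * al l₀ j :=
  extend_good_aux (fun _ hl => TT_strict hl) (fun _ hl => perimeter hl) P l₀ h₀ hT hloc

end Pool.Agent.Helper1.Tet
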