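import Pool.Agent.Helper1.Tet.Defs

/-!
# T9: the line argument (with T5 and T8b as hypotheses)
-/

open Real MeasureTheory Set InnerProductGeometry Filter Topology
open scoped RealInnerProductSpace ENNReal ContDiff

namespace Pool.Agent.Helper1.Tet

/-! ### algebra and topology -/

lemma ex_WD (l : Fin 6 → ℝ) (j : Fin 6) :
    W l j ^ 2 + 16 * l j ^ 2 * Gr l = D l (ec j) * D l (ed j) := by
  fin_cases j <;> simp [W, wform, D, ea, eb, ec, ed, ix, heron, Gr] <;> ring

lemma ex_continuous_D (v : Fin 4) : Continuous fun l : Fin 6 → ℝ => D l v := by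
  fin_cases v <;> simp [D, heron] <;> fun_prop

lemma ex_continuous_W (j : Fin 6) : Continuous fun l : Fin 6 → ℝ => W l j := by
  unfold W wform; fun_prop

lemma ex_continuous_Gr : Continuous Gr := by
  unfold Gr; fun_prop

lemma ex_isOpen_Tri : IsOpen {l | Tri l} := by
  simp only [Tri, Set.ofPred_forall]
  refine isOpen_iInter_of_finite fun a => isOpen_iInter_of_finite fun b =>
    isOpen_iInter_of_finite fun c => isOpen_iInter_of_finite fun _ =>
    isOpen_iInter_of_finite fun _ => isOpen_iInter_of_finite fun _ => ?_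
  exact isOpen_lt (by fun_prop) (by fun_prop)

lemma ex_isOpen_TT : IsOpen TT :=
  ex_isOpen_Tri.inter (isOpen_lt continuous_const ex_continuous_Gr)

lemma ex_heron_pos {x y z : ℝ} (h1 : x < y + z) (h2 : y < x + z) (h3 : z < x + y) :
    0 < heron x y z := by
  unfold heron
  have a1 : 0 < x + y + z := by linarith
  have a2 : 0 < x + y - z := by linarith
  have a3 : 0 < x - y + z := by linarith
  have a4 : 0 < -x + y + z := by linarith
  positivity

lemma ex_D_pos {l : Fin 6 → ℝ} (hl : Tri l) (v : Fin 4) : 0 < D l v := by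
  have h : ∀ a b c : Fin 4, a ≠ b → b ≠ c → a ≠ c → l (ix a c) < l (ix a b) + l (ix b c) := hl
  fin_cases v
  · have h1 := h 1 2 3 (by decide) (by decide) (by decide)
    have h2 := h 1 3 2 (by decide) (by decide) (by decide)
    have h3 := h 2 1 3 (by decide) (by decide) (by decide)
    simp [ix] at h1 h2 h3
    exact ex_heron_pos (by linarith) (by linarith) (by linarith)
  · have h1 := h 0 2 3 (by decide) (by decide) (by decide)
    have h2 := h 0 3 2 (by decide) (by decide) (by decide)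
    have h3 := h 2 0 3 (by decide) (by decide) (by decide)
    simp [ix] at h1 h2 h3
    exact ex_heron_pos (by linarith) (by linarith) (by linarith)
  · have h1 := h 0 1 3 (by decide) (by decide) (by decide)
    have h2 := h 0 3 1 (by decide) (by decide) (by decide)
    have h3 := h 1 0 3 (by decide) (by decide) (by decide)
    simp [ix] at h1 h2 h3
    exact ex_heron_pos (by linarith) (by linarith) (by linarith)
  · have h1 := h 0 1 2 (by decide) (by decide) (by decide)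
    have h2 := h 0 2 1 (by decide) (by decide) (by decide)
    have h3 := h 1 0 2 (by decide) (by decide) (by decide)
    simp [ix] at h1 h2 h3
    exact ex_heron_pos (by linarith) (by linarith) (by linarith)

lemma ex_continuousAt_al {l : Fin 6 → ℝ} (hl : Tri l) (j : Fin 6) :
    ContinuousAt (fun l => al l j) l := by
  unfold al
  refine Real.continuous_arccos.continuousAt.comp ?_
  refine ((ex_continuous_W j).continuousAt).div ?_ ?_
  · exact ((ex_continuous_D _).sqrt.mul (ex_continuous_D _).sqrt).continuousAt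
  · have h1 := Real.sqrt_pos.2 (ex_D_pos hl (ec j))
    have h2 := Real.sqrt_pos.2 (ex_D_pos hl (ed j))
    positivity

/-- when the Gram determinant vanishes the angles are `0` or `π` -/
lemma ex_al_degenerate {l : Fin 6 → ℝ} (hl : Tri l) (hG : Gr l = 0) (j : Fin 6) :
    al l j = 0 ∨ al l j = π := by
  have h1 := ex_WD l j
  rw [hG, mul_zero, add_zero] at h1
  have hc := ex_D_pos hl (ec j)
  have hd := ex_D_pos hl (ed j)
  have h2 : (W l j / (√(D l (ec j)) * √(D l (ed j)))) ^ 2 = 1 := by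
    rw [div_pow, mul_pow, Real.sq_sqrt hc.le, Real.sq_sqrt hd.le, h1, div_self (by positivity)]
  rcases sq_eq_one_iff.1 h2 with h | h
  · left; unfold al; rw [h, Real.arccos_one]
  · right; unfold al; rw [h, Real.arccos_neg_one]

lemma ex_pos {l : Fin 6 → ℝ} (h : Tri l) (j : Fin 6) : 0 < l j := by
  have h' : ∀ a b c : Fin 4, a ≠ b → b ≠ c → a ≠ c → l (ix a c) < l (ix a b) + l (ix b c) := h
  fin_cases j
  · have h1 := h' 0 1 2 (by decide) (by decide) (by decide)
    have h2 := h' 1 0 2 (by decide) (by decide) (by decide)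
    simp [ix] at h1 h2 ⊢
    linarith
  · have h1 := h' 0 2 1 (by decide) (by decide) (by decide)
    have h2 := h' 2 0 1 (by decide) (by decide) (by decide)
    simp [ix] at h1 h2 ⊢
    linarith
  · have h1 := h' 0 3 1 (by decide) (by decide) (by decide)
    have h2 := h' 3 0 1 (by decide) (by decide) (by decide)
    simp [ix] at h1 h2 ⊢
    linarith
  · have h1 := h' 1 2 0 (by decide) (by decide) (by decide)
    have h2 := h' 2 1 0 (by decide) (by decide) (by decide)
    simp [ix] at h1 h2 ⊢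
    linarith
  · have h1 := h' 1 3 0 (by decide) (by decide) (by decide)
    have h2 := h' 3 1 0 (by decide) (by decide) (by decide)
    simp [ix] at h1 h2 ⊢
    linarith
  · have h1 := h' 2 3 0 (by decide) (by decide) (by decide)
    have h2 := h' 3 2 0 (by decide) (by decide) (by decide)
    simp [ix] at h1 h2 ⊢
    linarith

lemma ex_abs_lt {l : Fin 6 → ℝ} (hl : l ∈ TT) (j : Fin 6) :
    W l j / (√(D l (ec j)) * √(D l (ed j))) ≠ -1 ∧ W l j / (√(D l (ec j)) * √(D l (ed j))) ≠ 1 := by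
  have h1 := ex_WD l j
  have hc := ex_D_pos hl.1 (ec j)
  have hd := ex_D_pos hl.1 (ed j)
  have hlj : 0 < l j := ex_pos hl.1 j
  have hG := hl.2
  have h2 : (W l j / (√(D l (ec j)) * √(D l (ed j)))) ^ 2 ≠ 1 := by
    rw [div_pow, mul_pow, Real.sq_sqrt hc.le, Real.sq_sqrt hd.le]
    intro h
    rw [div_eq_one_iff_eq (by positivity)] at h
    have : 0 < 16 * l j ^ 2 * Gr l := by positivity
    linarith
  constructor
  · intro h; rw [h] at h2; norm_num at h2
  · intro h; rw [h] at h2; norm_num at h2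

/-- the angles are analytic on `TT` along lines -/
lemma ex_analyticAt (l₀ δ : Fin 6 → ℝ) (j : Fin 6) (t : ℝ) (ht : l₀ + t • δ ∈ TT) :
    AnalyticAt ℝ (fun t : ℝ => al (l₀ + t • δ) j) t := by
  refine ContDiffAt.analyticAt ?_
  unfold al
  have hcoord : ∀ i, ContDiff ℝ ω (fun t : ℝ => (l₀ + t • δ) i) := fun i => by
    simp only [Pi.add_apply, Pi.smul_apply, smul_eq_mul]
    fun_prop
  have hD : ∀ v, ContDiff ℝ ω (fun t : ℝ => D (l₀ + t • δ) v) := by
    intro v
    fin_cases v <;> simp [D, heron] <;> fun_prop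
  have hW : ContDiff ℝ ω (fun t : ℝ => W (l₀ + t • δ) j) := by
    unfold W wform
    fun_prop
  obtain ⟨h1, h2⟩ := ex_abs_lt ht j
  have hcomp : ContDiffAt ℝ ω (arccos ∘ fun t : ℝ => W (l₀ + t • δ) j /
      (√(D (l₀ + t • δ) (ec j)) * √(D (l₀ + t • δ) (ed j)))) t := ?_
  · exact hcomp
  refine ContDiffAt.comp t (Real.contDiffAt_arccos h1 h2) ?_
  have hc := ex_D_pos ht.1 (ec j)
  have hd := ex_D_pos ht.1 (ed j)
  refine hW.contDiffAt.div (((hD _).contDiffAt.sqrt hc.ne').mul ((hD _).contDiffAt.sqrt hd.ne')) ?_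
  have h3 := Real.sqrt_pos.2 hc
  have h4 := Real.sqrt_pos.2 hd
  positivity

lemma ex_const (P : Submodule ℝ (Fin 6 → ℝ)) (l₀ : Fin 6 → ℝ) (h₀ : l₀ ∈ P)
    (hloc : ∀ n ∈ P, ∀ᶠ l in 𝓝[(P : Set (Fin 6 → ℝ))] l₀,
      ∑ j, n j * al l j = ∑ j, n j * al l₀ j) (δ : Fin 6 → ℝ) (hδ : δ ∈ P) (a b : ℝ) (ha : a < 0)
    (hb : 0 < b) (hTT : ∀ t ∈ Ioo a b, l₀ + t • δ ∈ TT) :
    ∀ n ∈ P, ∀ t ∈ Ioo a b, ∑ j, n j * al (l₀ + t • δ) j = ∑ j, n j * al l₀ j := by
  intro n hn
  have han : AnalyticOnNhd ℝ (fun t : ℝ => ∑ j, n j * al (l₀ + t • δ) j) (Ioo a b) := by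
    intro t ht
    refine Finset.analyticAt_fun_sum _ fun j _ => ?_
    exact analyticAt_const.mul (ex_analyticAt l₀ δ j t (hTT t ht))
  have hcon : AnalyticOnNhd ℝ (fun _ : ℝ => ∑ j, n j * al l₀ j) (Ioo a b) := analyticOnNhd_const
  have htend : Tendsto (fun t : ℝ => l₀ + t • δ) (𝓝 0) (𝓝[(P : Set (Fin 6 → ℝ))] l₀) := by
    rw [tendsto_nhdsWithin_iff]
    constructor
    · have : Continuous fun t : ℝ => l₀ + t • δ := by fun_prop
      have h := this.tendsto 0
      simpa using h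
    · exact Eventually.of_forall fun t => P.add_mem h₀ (P.smul_mem t hδ)
  have hev : (fun t : ℝ => ∑ j, n j * al (l₀ + t • δ) j) =ᶠ[𝓝 0] fun _ => ∑ j, n j * al l₀ j :=
    htend.eventually (hloc n hn)
  exact han.eqOn_of_preconnected_of_eventuallyEq hcon isPreconnected_Ioo ⟨ha, hb⟩ hev

/-- the finite check -/
lemma ex_check (a l : Fin 6 → ℝ) (H : ℝ) (h : ∀ j, a j = 0 ∨ a j = π)
    (hs : ∀ v, 0 ≤ sv a v) (hg : ∀ c, 0 ≤ gc a c) (hH : H = ∑ j, l j * (π - a j))
    (ht : ∀ v, π * tt l v < H) (hq : ∀ c, H < π * qq l c) : False := by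
  have hpi := Real.pi_pos
  have s0 := hs 0
  have s1 := hs 1
  have s2 := hs 2
  have s3 := hs 3
  have g0 := hg 0
  have g1 := hg 1
  have g2 := hg 2
  have t0 := ht 0
  have t1 := ht 1
  have t2 := ht 2
  have t3 := ht 3
  have q0 := hq 0
  have q1 := hq 1
  have q2 := hq 2
  simp only [sv, gc, tt, qq, Fin.sum_univ_six, ea, eb, cl] at s0 s1 s2 s3 g0 g1 g2 t0 t1 t2 t3 q0 q1 q2 hH
  simp at s0 s1 s2 s3 g0 g1 g2 t0 t1 t2 t3 q0 q1 q2
  rcases h 0 with e0 | e0 <;> rcases h 1 with e1 | e1 <;> rcases h 2 with e2 | e2 <;>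
  rcases h 3 with e3 | e3 <;> rcases h 4 with e4 | e4 <;> rcases h 5 with e5 | e5 <;>
  rw [e0, e1, e2, e3, e4, e5] at hH <;> linarith

theorem extend_good_aux
    (hstrict : ∀ l ∈ TT, (∀ v, 0 < sv (al l) v) ∧ (∀ c, 0 ≤ gc (al l) c))
    (hper : ∀ l ∈ TT, (∀ v, π * tt l v < HH l) ∧ (∀ c, HH l < π * qq l c))
    (P : Submodule ℝ (Fin 6 → ℝ)) (l₀ : Fin 6 → ℝ) (h₀ : l₀ ∈ P) (hT : l₀ ∈ TT)
    (hloc : ∀ n ∈ P, ∀ᶠ l in 𝓝[(P : Set (Fin 6 → ℝ))] l₀,
      ∑ j, n j * al l j = ∑ j, n j * al l₀ j) :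
    ∀ l ∈ P, Tri l → l ∈ TT ∧ ∀ n ∈ P, ∑ j, n j * al l j = ∑ j, n j * al l₀ j := by
  intro l hl hTl
  set δ : Fin 6 → ℝ := l - l₀ with hδ
  have hδP : δ ∈ P := P.sub_mem hl h₀
  have hy1 : l₀ + (1 : ℝ) • δ = l := by rw [hδ]; simp
  have hcont : Continuous fun t : ℝ => l₀ + t • δ := by fun_prop
  have hTri : ∀ t ∈ Icc (0 : ℝ) 1, Tri (l₀ + t • δ) := by
    intro t ht a b c hab hbc hac
    have h1 := hT.1 a b c hab hbc hac
    have h2 := hTl a b c hab hbc hac
    simp only [hδ, Pi.add_apply, Pi.smul_apply, Pi.sub_apply, smul_eq_mul]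
    nlinarith [ht.1, ht.2, mul_nonneg ht.1 (sub_nonneg.2 h2.le), mul_nonneg (sub_nonneg.2 ht.2) (sub_nonneg.2 h1.le)]
  -- neighbourhood of `0`
  have hopen : IsOpen {t : ℝ | l₀ + t • δ ∈ TT} := ex_isOpen_TT.preimage hcont
  have h0mem : (0 : ℝ) ∈ {t : ℝ | l₀ + t • δ ∈ TT} := by simpa using hT
  obtain ⟨ε, hε, hball⟩ := Metric.isOpen_iff.1 hopen 0 h0mem
  -- no degeneration
  have hG : ∀ t ∈ Icc (0 : ℝ) 1, 0 < Gr (l₀ + t • δ) := by
    by_contra hcon
    push Not at hcon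
    obtain ⟨t₁, ht₁, hGt₁⟩ := hcon
    have hclosed : IsClosed {t : ℝ | Gr (l₀ + t • δ) ≤ 0} :=
      isClosed_le (ex_continuous_Gr.comp hcont) continuous_const
    have hcpt : IsCompact (Icc (0 : ℝ) 1 ∩ {t : ℝ | Gr (l₀ + t • δ) ≤ 0}) :=
      isCompact_Icc.inter_right hclosed
    obtain ⟨T, ⟨hTI, hTG⟩, hleast⟩ := hcpt.exists_isLeast ⟨t₁, ht₁, hGt₁⟩
    have hTpos : 0 < T := by
      rcases hTI.1.lt_or_eq with h | h
      · exact h
      · exfalso
        rw [← h] at hTG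
        have : Gr (l₀ + (0 : ℝ) • δ) = Gr l₀ := by simp
        simp only [Set.mem_ofPred_eq] at hTG
        rw [this] at hTG
        exact absurd hT.2 (not_lt.2 hTG)
    have hGlt : ∀ t, 0 ≤ t → t < T → 0 < Gr (l₀ + t • δ) := by
      intro t h1 h2
      by_contra h3
      exact absurd (hleast ⟨⟨h1, h2.le.trans hTI.2⟩, not_lt.1 h3⟩) (not_le.2 h2)
    have hTT : ∀ t ∈ Ioo (-ε) T, l₀ + t • δ ∈ TT := by
      intro t ht
      rcases lt_or_ge t 0 with h | h
      · apply hball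
        rw [Metric.mem_ball, Real.dist_eq, sub_zero, abs_lt]
        exact ⟨ht.1, by linarith⟩
      · exact ⟨hTri t ⟨h, ht.2.le.trans hTI.2⟩, hGlt t h ht.2⟩
    have hconst := ex_const P l₀ h₀ hloc δ hδP (-ε) T (by linarith) hTpos hTT
    -- limits at `T`
    have hne : (𝓝[<] T).NeBot := inferInstance
    have hev : ∀ᶠ t in 𝓝[<] T, t ∈ Ioo (-ε) T := by
      have : Ioo (-ε) T ∈ 𝓝[<] T := Ioo_mem_nhdsLT (by linarith)
      exact this
    have hGT : Gr (l₀ + T • δ) = 0 := by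
      refine le_antisymm hTG ?_
      have h1 : Tendsto (fun t => Gr (l₀ + t • δ)) (𝓝[<] T) (𝓝 (Gr (l₀ + T • δ))) :=
        ((ex_continuous_Gr.comp hcont).tendsto T).mono_left nhdsWithin_le_nhds
      exact ge_of_tendsto h1 (hev.mono fun t ht => (hTT t ht).2.le)
    have hTriT := hTri T hTI
    have hal : ∀ j, Tendsto (fun t => al (l₀ + t • δ) j) (𝓝[<] T) (𝓝 (al (l₀ + T • δ) j)) := by
      intro j
      have h1 : ContinuousAt (fun l => al l j) (l₀ + T • δ) := ex_continuousAt_al hTriT j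
      have h2 : Tendsto (fun t : ℝ => l₀ + t • δ) (𝓝 T) (𝓝 (l₀ + T • δ)) := hcont.tendsto T
      exact (h1.tendsto.comp h2).mono_left nhdsWithin_le_nhds
    have hs : ∀ v, 0 ≤ sv (al (l₀ + T • δ)) v := by
      intro v
      have h1 : Tendsto (fun t => sv (al (l₀ + t • δ)) v) (𝓝[<] T) (𝓝 (sv (al (l₀ + T • δ)) v)) := by
        unfold sv
        refine (tendsto_finsetSum _ fun j _ => ?_).sub_const _
        split_ifs
        · exact hal j
        · exact tendsto_const_nhds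
      exact ge_of_tendsto h1 (hev.mono fun t ht => ((hstrict _ (hTT t ht)).1 v).le)
    have hg : ∀ c, 0 ≤ gc (al (l₀ + T • δ)) c := by
      intro c
      have h1 : Tendsto (fun t => gc (al (l₀ + t • δ)) c) (𝓝[<] T) (𝓝 (gc (al (l₀ + T • δ)) c)) := by
        unfold gc
        refine (tendsto_finsetSum _ fun j _ => ?_).const_sub _
        split_ifs
        · exact tendsto_const_nhds
        · exact hal j
      exact ge_of_tendsto h1 (hev.mono fun t ht => ((hstrict _ (hTT t ht)).2 c))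
    have hlim : ∑ j, l₀ j * al (l₀ + T • δ) j = ∑ j, l₀ j * al l₀ j := by
      have h1 : Tendsto (fun t => ∑ j, l₀ j * al (l₀ + t • δ) j) (𝓝[<] T)
          (𝓝 (∑ j, l₀ j * al (l₀ + T • δ) j)) :=
        tendsto_finsetSum _ fun j _ => (hal j).const_mul _
      have h2 : Tendsto (fun t => ∑ j, l₀ j * al (l₀ + t • δ) j) (𝓝[<] T)
          (𝓝 (∑ j, l₀ j * al l₀ j)) := by
        refine tendsto_const_nhds.congr' ?_
        exact hev.mono fun t ht => (hconst l₀ h₀ t ht).symm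
      exact tendsto_nhds_unique h1 h2
    obtain ⟨hp1, hp2⟩ := hper l₀ hT
    refine ex_check (al (l₀ + T • δ)) l₀ (HH l₀) (fun j => ex_al_degenerate hTriT hGT j)
      hs hg ?_ hp1 hp2
    unfold HH
    simp only [mul_sub, Finset.sum_sub_distrib]
    rw [hlim]
  have hTT1 : ∀ t ∈ Icc (0 : ℝ) 1, l₀ + t • δ ∈ TT := fun t ht => ⟨hTri t ht, hG t ht⟩
  have h1mem : (1 : ℝ) ∈ {t : ℝ | l₀ + t • δ ∈ TT} := hTT1 1 ⟨by norm_num, le_refl _⟩
  obtain ⟨ε', hε', hball'⟩ := Metric.isOpen_iff.1 hopen 1 h1mem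
  refine ⟨by rw [← hy1]; exact h1mem, fun n hn => ?_⟩
  have hTT : ∀ t ∈ Ioo (-ε) (1 + ε'), l₀ + t • δ ∈ TT := by
    intro t ht
    rcases lt_or_ge t 0 with h | h
    · apply hball
      rw [Metric.mem_ball, Real.dist_eq, sub_zero, abs_lt]
      exact ⟨ht.1, by linarith⟩
    · rcases le_or_gt t 1 with h1 | h1
      · exact hTT1 t ⟨h, h1⟩
      · apply hball'
        rw [Metric.mem_ball, Real.dist_eq, abs_lt]
        exact ⟨by linarith, by linarith [ht.2]⟩
  have := ex_const P l₀ h₀ hloc δ hδP (-ε) (1 + ε') (by linarith) (by linarith) hTT n hn 1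
    ⟨by linarith, by linarith⟩
  rwa [hy1] at this

end Pool.Agent.Helper1.Tet
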