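import Pool.Agent.Helper1.Tet.Defs

/-!
# T26: Goldberg's one-parameter family of space-tiling tetrahedra
-/

open Real MeasureTheory Set InnerProductGeometry Filter Topology
open scoped RealInnerProductSpace ENNReal

namespace Pool.Agent.Helper1.Tet

/-- Goldberg's one-parameter family -/
noncomputable def gold (h : ℝ) : Fin 4 → E3 :=
  ![!₂[1, 0, 0], !₂[-1 / 2, √3 / 2, h], !₂[-1 / 2, -√3 / 2, 2 * h], !₂[1, 0, 3 * h]]

theorem gold_indep (h : ℝ) (hh : 0 < h) : AffineIndependent ℝ (gold h) := by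
  rw [affineIndependent_iff_of_fintype]
  intro w hw hs
  rw [Finset.weightedVSub_eq_linear_combination (hw := hw)] at hs
  rw [Fin.sum_univ_four] at hw hs
  have h0 := congrArg (fun v : E3 => v 0) hs
  have h1 := congrArg (fun v : E3 => v 1) hs
  have h2 := congrArg (fun v : E3 => v 2) hs
  simp [gold] at h0 h1 h2
  have h3 : (√3 : ℝ) ≠ 0 := by positivity
  have e1 : w 1 = w 2 := by
    have : (w 1 - w 2) * (√3 / 2) = 0 := by linear_combination h1
    rcases mul_eq_zero.1 this with h | h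
    · linarith
    · exfalso; apply h3; linarith
  have e2 : w 1 + 2 * w 2 + 3 * w 3 = 0 := by
    have : (w 1 + 2 * w 2 + 3 * w 3) * h = 0 := by linear_combination h2
    rcases mul_eq_zero.1 this with h | h
    · exact h
    · exact absurd h hh.ne'
  have e3 : w 1 = 0 := by linarith
  have e4 : w 2 = 0 := by linarith
  have e5 : w 3 = 0 := by linarith
  have e6 : w 0 = 0 := by linarith
  intro i
  fin_cases i <;> assumption

namespace Gold

/-! ### barycentric coordinates of the base triangle -/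

noncomputable def u0 (p : E3) : ℝ := (1 + 2 * p 0) / 3
noncomputable def u1 (p : E3) : ℝ := (1 - p 0 + √3 * p 1) / 3
noncomputable def u2 (p : E3) : ℝ := (1 - p 0 - √3 * p 1) / 3

lemma u_sum (p : E3) : u0 p + u1 p + u2 p = 1 := by unfold u0 u1 u2; ring

/-- the tetrahedron by inequalities -/
def T (h : ℝ) : Set E3 :=
  {p | 0 ≤ u1 p ∧ 0 ≤ u2 p ∧ 0 ≤ p 2 - h * (u1 p + 2 * u2 p) ∧
    0 ≤ h * (3 - 2 * u1 p - u2 p) - p 2}

lemma hull_eq (h : ℝ) (hh : 0 < h) : convexHull ℝ (range (gold h)) = T h := by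
  have s3 : √3 * √3 = (3 : ℝ) := Real.mul_self_sqrt (by norm_num)
  apply Subset.antisymm
  · apply convexHull_min
    · rintro _ ⟨i, rfl⟩
      fin_cases i
      · simp [gold, T, u1, u2]; nlinarith
      · simp [gold, T, u1, u2]; refine ⟨?_, ?_, ?_, ?_⟩ <;> nlinarith
      · simp [gold, T, u1, u2]; refine ⟨?_, ?_, ?_, ?_⟩ <;> nlinarith
      · simp [gold, T, u1, u2]; constructor <;> nlinarith
    · intro p hp q hq a b ha hb hab
      obtain ⟨p1, p2, p3, p4⟩ := hp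
      obtain ⟨q1, q2, q3, q4⟩ := hq
      have hb' : b = 1 - a := by linarith
      have e1 : u1 (a • p + b • q) = a * u1 p + b * u1 q := by
        simp [u1, hb']; ring
      have e2 : u2 (a • p + b • q) = a * u2 p + b * u2 q := by
        simp [u2, hb']; ring
      have e3 : (a • p + b • q) 2 = a * p 2 + b * q 2 := by simp
      refine ⟨?_, ?_, ?_, ?_⟩
      · rw [e1]; positivity
      · rw [e2]; positivity
      · rw [e1, e2, e3]
        have h1 := mul_nonneg ha p3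
        have h2 := mul_nonneg hb q3
        nlinarith
      · rw [e1, e2, e3]
        have h1 := mul_nonneg ha p4
        have h2 := mul_nonneg hb q4
        have h3 : h * 3 = a * (h * 3) + b * (h * 3) := by rw [hb']; ring
        nlinarith
  · rintro p ⟨h1, h2, h3, h4⟩
    set w : Fin 4 → ℝ := ![(h * (3 - 2 * u1 p - u2 p) - p 2) / (3 * h), u1 p, u2 p,
      (p 2 - h * (u1 p + 2 * u2 p)) / (3 * h)] with hwdef
    have hw0 : ∀ i ∈ Finset.univ, 0 ≤ w i := by
      intro i _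
      fin_cases i
      · exact div_nonneg h4 (by positivity)
      · exact h1
      · exact h2
      · exact div_nonneg h3 (by positivity)
    have hw1 : ∑ i, w i = 1 := by
      rw [Fin.sum_univ_four]
      simp [hwdef]
      field_simp
      ring
    have hmem := (convex_convexHull ℝ (range (gold h))).sum_mem (t := Finset.univ) (w := w)
      (z := gold h) hw0 hw1 (fun i _ => subset_convexHull ℝ _ (mem_range_self i))
    have he : ∑ i, w i • gold h i = p := by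
      rw [Fin.sum_univ_four]
      ext j
      fin_cases j
      · simp [hwdef, gold, u1, u2]
        field_simp
        ring
      · simp [hwdef, gold, u1, u2]
        linear_combination (p 1 / 3) * s3
      · simp [hwdef, gold, u1, u2]
        field_simp
        ring
    rwa [he] at hmem

/-! ### the isometries -/

/-- rotation about a vertical axis and translation -/
noncomputable def M (c s t1 t2 t3 : ℝ) (p : E3) : E3 :=
  !₂[c * p 0 - s * p 1 + t1, s * p 0 + c * p 1 + t2, p 2 + t3]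

lemma M_isometry {c s : ℝ} (hcs : c ^ 2 + s ^ 2 = 1) (t1 t2 t3 : ℝ) :
    Isometry (M c s t1 t2 t3) := by
  refine Isometry.of_dist_eq fun p q => ?_
  rw [EuclideanSpace.dist_eq, EuclideanSpace.dist_eq]
  congr 1
  simp only [Fin.sum_univ_three, Real.dist_eq, sq_abs]
  simp [M]
  linear_combination ((p 0 - q 0) ^ 2 + (p 1 - q 1) ^ 2) * hcs

lemma M_inv {c s : ℝ} (hcs : c ^ 2 + s ^ 2 = 1) (t1 t2 t3 : ℝ) (p : E3) :
    M c s t1 t2 t3 (M c (-s) (-(c * t1 + s * t2)) (-(-s * t1 + c * t2)) (-t3) p) = p := by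
  ext j
  fin_cases j
  · simp [M]; linear_combination (p 0 - t1) * hcs
  · simp [M]; linear_combination (p 1 - t2) * hcs
  · simp [M]

/-- the isometry as an equivalence -/
noncomputable def ME {c s : ℝ} (hcs : c ^ 2 + s ^ 2 = 1) (t1 t2 t3 : ℝ) : E3 ≃ᵢ E3 :=
  IsometryEquiv.mk' (M c s t1 t2 t3)
    (M c (-s) (-(c * t1 + s * t2)) (-(-s * t1 + c * t2)) (-t3)) (M_inv hcs t1 t2 t3)
    (M_isometry hcs t1 t2 t3)

/-- periodic extension of three numbers -/
def per (a b c : ℝ) (k : ℤ) : ℝ := if k % 3 = 0 then a else if k % 3 = 1 then b else c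

noncomputable def Ck (k : ℤ) : ℝ := if k % 3 = 0 then 1 else -1 / 2
noncomputable def Sk (k : ℤ) : ℝ := if k % 3 = 0 then 0 else if k % 3 = 1 then -√3 / 2 else √3 / 2

lemma CS (k : ℤ) : Ck k ^ 2 + Sk k ^ 2 = 1 := by
  have s3 : √3 * √3 = (3 : ℝ) := Real.mul_self_sqrt (by norm_num)
  unfold Ck Sk
  split_ifs <;> nlinarith

/-- rotation by `-2πk/3`, vertical translation by `-kh` -/
noncomputable def Rk (h : ℝ) (k : ℤ) : E3 ≃ᵢ E3 := ME (CS k) 0 0 (-(k * h))

lemma Rk_spec (h : ℝ) (k : ℤ) (q : E3) :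
    u1 (Rk h k q) = per (u0 q) (u1 q) (u2 q) (k + 1) ∧
    u2 (Rk h k q) = per (u0 q) (u1 q) (u2 q) (k + 2) ∧
    (Rk h k q) 2 = q 2 - k * h := by
  have s3 : √3 * √3 = (3 : ℝ) := Real.mul_self_sqrt (by norm_num)
  have hR : (Rk h k q : E3) = M (Ck k) (Sk k) 0 0 (-(k * h)) q := rfl
  rw [hR]
  have hk : k % 3 = 0 ∨ k % 3 = 1 ∨ k % 3 = 2 := by omega
  refine ⟨?_, ?_, ?_⟩
  · rcases hk with hk | hk | hk
    · have : (k + 1) % 3 = 1 := by omega
      simp [per, this, M, u1, Ck, Sk, hk]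
    · have : (k + 1) % 3 = 2 := by omega
      simp [per, this, M, u1, u2, Ck, Sk, hk]
      linear_combination (-q 0 / 2) * s3
    · have : (k + 1) % 3 = 0 := by omega
      simp [per, this, M, u1, u0, Ck, Sk, hk]
      linear_combination (q 0 / 2) * s3
  · rcases hk with hk | hk | hk
    · have : (k + 2) % 3 = 2 := by omega
      simp [per, this, M, u2, Ck, Sk, hk]
    · have : (k + 2) % 3 = 0 := by omega
      simp [per, this, M, u2, u0, Ck, Sk, hk]
      linear_combination (q 0 / 2) * s3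
    · have : (k + 2) % 3 = 1 := by omega
      simp [per, this, M, u1, u2, Ck, Sk, hk]
      linear_combination (-q 0 / 2) * s3
  · simp [M]; ring

/-- sign -/
def sg (b : Bool) : ℤ := if b then 1 else -1

lemma sg_sq (b : Bool) : ((sg b : ℤ) : ℝ) ^ 2 + 0 ^ 2 = 1 := by cases b <;> simp [sg]

/-- planar normalisation -/
noncomputable def Xk (b : Bool) (n1 n2 : ℤ) : E3 ≃ᵢ E3 :=
  ME (sg_sq b) (((sg b : ℝ) - 1) / 2 - 3 * (sg b : ℝ) * (1 - (sg b : ℝ) - n1 - n2) / 2)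
    (-(sg b : ℝ) * (n1 - n2) * √3 / 2) 0

lemma Xk_spec (b : Bool) (n1 n2 : ℤ) (q : E3) :
    u0 (Xk b n1 n2 q) = sg b * (u0 q - (1 - (sg b : ℝ) - n1 - n2)) ∧
    u1 (Xk b n1 n2 q) = sg b * (u1 q - n1) ∧
    u2 (Xk b n1 n2 q) = sg b * (u2 q - n2) ∧
    (Xk b n1 n2 q) 2 = q 2 := by
  have s3 : √3 * √3 = (3 : ℝ) := Real.mul_self_sqrt (by norm_num)
  have hR : (Xk b n1 n2 q : E3) = M (sg b) 0 (((sg b : ℝ) - 1) / 2 - 3 * (sg b : ℝ) *
    (1 - (sg b : ℝ) - n1 - n2) / 2) (-(sg b : ℝ) * (n1 - n2) * √3 / 2) 0 q := rfl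
  rw [hR]
  cases b
  · simp only [sg, M, u0, u1, u2]
    refine ⟨?_, ?_, ?_, ?_⟩
    · simp; ring
    · simp; linear_combination ((n1 - n2) / 6) * s3
    · simp; linear_combination ((n2 - n1) / 6) * s3
    · simp
  · simp only [sg, M, u0, u1, u2]
    refine ⟨?_, ?_, ?_, ?_⟩
    · simp; ring
    · simp; linear_combination ((n2 - n1) / 6) * s3
    · simp; linear_combination ((n1 - n2) / 6) * s3
    · simp

/-- the normalising isometry of a tile -/
noncomputable def Ψ (h : ℝ) (b : Bool) (n1 n2 k : ℤ) : E3 ≃ᵢ E3 := (Xk b n1 n2).trans (Rk h k)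

/-- normalised barycentric coordinates, periodically extended -/
noncomputable def vv (b : Bool) (n1 n2 : ℤ) (q : E3) (k : ℤ) : ℝ :=
  per (sg b * (u0 q - (1 - (sg b : ℝ) - n1 - n2))) (sg b * (u1 q - n1)) (sg b * (u2 q - n2)) k

/-- heights of the separating faces -/
noncomputable def LL (h : ℝ) (b : Bool) (n1 n2 : ℤ) (q : E3) (k : ℤ) : ℝ :=
  h * (k + vv b n1 n2 q (k + 1) + 2 * vv b n1 n2 q (k + 2))

lemma per_sum (a b c : ℝ) (k : ℤ) : per a b c k + per a b c (k + 1) + per a b c (k + 2) = a + b + c := by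
  have hk : k % 3 = 0 ∨ k % 3 = 1 ∨ k % 3 = 2 := by omega
  rcases hk with hk | hk | hk
  · have h1 : (k + 1) % 3 = 1 := by omega
    have h2 : (k + 2) % 3 = 2 := by omega
    simp [per, hk, h1, h2]
  · have h1 : (k + 1) % 3 = 2 := by omega
    have h2 : (k + 2) % 3 = 0 := by omega
    simp [per, hk, h1, h2]; ring
  · have h1 : (k + 1) % 3 = 0 := by omega
    have h2 : (k + 2) % 3 = 1 := by omega
    simp [per, hk, h1, h2]; ring

lemma per_add3 (a b c : ℝ) (k : ℤ) : per a b c (k + 3) = per a b c k := by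
  have : (k + 3) % 3 = k % 3 := by omega
  simp [per, this]

lemma vv_sum (b : Bool) (n1 n2 : ℤ) (q : E3) (k : ℤ) :
    vv b n1 n2 q k + vv b n1 n2 q (k + 1) + vv b n1 n2 q (k + 2) = 1 := by
  unfold vv
  rw [per_sum]
  have := u_sum q
  cases b
  · simp [sg]; linarith
  · simp [sg]; linarith

lemma vv_add3 (b : Bool) (n1 n2 : ℤ) (q : E3) (k : ℤ) :
    vv b n1 n2 q (k + 3) = vv b n1 n2 q k := per_add3 _ _ _ _

lemma LL_succ (h : ℝ) (b : Bool) (n1 n2 : ℤ) (q : E3) (k : ℤ) :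
    LL h b n1 n2 q (k + 1) = LL h b n1 n2 q k + 3 * h * vv b n1 n2 q k := by
  unfold LL
  have h1 := vv_sum b n1 n2 q k
  have h2 := vv_add3 b n1 n2 q k
  have e1 : k + 1 + 1 = k + 2 := by ring
  have e2 : k + 1 + 2 = k + 3 := by ring
  rw [e1, e2, h2]
  push_cast
  linear_combination -h * h1

lemma Ψ_spec (h : ℝ) (b : Bool) (n1 n2 k : ℤ) (q : E3) :
    u1 (Ψ h b n1 n2 k q) = vv b n1 n2 q (k + 1) ∧ u2 (Ψ h b n1 n2 k q) = vv b n1 n2 q (k + 2) ∧
    (Ψ h b n1 n2 k q) 2 - h * (u1 (Ψ h b n1 n2 k q) + 2 * u2 (Ψ h b n1 n2 k q))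
      = q 2 - LL h b n1 n2 q k ∧
    h * (3 - 2 * u1 (Ψ h b n1 n2 k q) - u2 (Ψ h b n1 n2 k q)) - (Ψ h b n1 n2 k q) 2
      = LL h b n1 n2 q (k + 1) - q 2 := by
  have hΨ : Ψ h b n1 n2 k q = Rk h k (Xk b n1 n2 q) := rfl
  obtain ⟨a1, a2, a3⟩ := Rk_spec h k (Xk b n1 n2 q)
  obtain ⟨c0, c1, c2, c3⟩ := Xk_spec b n1 n2 q
  rw [← hΨ, c0, c1, c2] at a1 a2
  rw [← hΨ, c3] at a3
  have b1 : u1 (Ψ h b n1 n2 k q) = vv b n1 n2 q (k + 1) := a1
  have b2 : u2 (Ψ h b n1 n2 k q) = vv b n1 n2 q (k + 2) := a2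
  refine ⟨b1, b2, ?_, ?_⟩
  · rw [b1, b2, a3, LL]; ring
  · rw [LL_succ, b1, b2, a3, LL]
    linear_combination (-3 * h) * vv_sum b n1 n2 q k

lemma mem_T_iff (h : ℝ) (b : Bool) (n1 n2 k : ℤ) (q : E3) :
    Ψ h b n1 n2 k q ∈ T h ↔ 0 ≤ vv b n1 n2 q (k + 1) ∧ 0 ≤ vv b n1 n2 q (k + 2) ∧
      0 ≤ q 2 - LL h b n1 n2 q k ∧ 0 ≤ LL h b n1 n2 q (k + 1) - q 2 := by
  obtain ⟨a1, a2, a3, a4⟩ := Ψ_spec h b n1 n2 k q
  unfold T
  show (0 ≤ u1 _ ∧ 0 ≤ u2 _ ∧ 0 ≤ _ ∧ 0 ≤ _) ↔ _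
  rw [a3, a4, a1, a2]

/-! ### covering -/

lemma vv_nonneg {b : Bool} {n1 n2 : ℤ} {q : E3} (h0 : 0 ≤ sg b * (u0 q - (1 - (sg b : ℝ) - n1 - n2)))
    (h1 : 0 ≤ sg b * (u1 q - n1)) (h2 : 0 ≤ sg b * (u2 q - n2)) (k : ℤ) : 0 ≤ vv b n1 n2 q k := by
  unfold vv per
  split_ifs <;> assumption

lemma exists_planar (q : E3) : ∃ (b : Bool) (n1 n2 : ℤ), ∀ k, 0 ≤ vv b n1 n2 q k := by
  have hs := u_sum q
  have a0 := Int.floor_le (u0 q)
  have a1 := Int.floor_le (u1 q)
  have a2 := Int.floor_le (u2 q)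
  have b0 := Int.lt_floor_add_one (u0 q)
  have b1 := Int.lt_floor_add_one (u1 q)
  have b2 := Int.lt_floor_add_one (u2 q)
  set f0 := ⌊u0 q⌋
  set f1 := ⌊u1 q⌋
  set f2 := ⌊u2 q⌋
  have c1 : f0 + f1 + f2 ≤ 1 := by
    have : ((f0 + f1 + f2 : ℤ) : ℝ) ≤ 1 := by push_cast; linarith
    exact_mod_cast this
  have c2 : -1 ≤ f0 + f1 + f2 := by
    have : (-3 : ℝ) + 1 < ((f0 + f1 + f2 : ℤ) : ℝ) := by push_cast; linarith
    have h2 : (-2 : ℝ) < ((f0 + f1 + f2 : ℤ) : ℝ) := by linarith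
    have h3 : (-2 : ℤ) < f0 + f1 + f2 := by exact_mod_cast h2
    omega
  rcases (show f0 + f1 + f2 = -1 ∨ f0 + f1 + f2 = 0 ∨ f0 + f1 + f2 = 1 by omega) with h | h | h
  · have hR : (f0 : ℝ) + f1 + f2 = -1 := by exact_mod_cast h
    refine ⟨false, f1 + 1, f2 + 1, vv_nonneg ?_ ?_ ?_⟩
    · simp [sg]; linarith
    · simp [sg]; linarith
    · simp [sg]; linarith
  · have hR : (f0 : ℝ) + f1 + f2 = 0 := by exact_mod_cast h
    refine ⟨true, f1, f2, vv_nonneg ?_ ?_ ?_⟩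
    · simp [sg]; linarith
    · simp [sg]; linarith
    · simp [sg]; linarith
  · have hR : (f0 : ℝ) + f1 + f2 = 1 := by exact_mod_cast h
    refine ⟨true, f1, f2, vv_nonneg ?_ ?_ ?_⟩
    · simp [sg]; linarith
    · simp [sg]; linarith
    · simp [sg]; linarith

lemma exists_cover (h : ℝ) (hh : 0 < h) (q : E3) :
    ∃ (b : Bool) (n1 n2 k : ℤ), Ψ h b n1 n2 k q ∈ T h := by
  obtain ⟨b, n1, n2, hv⟩ := exists_planar q
  have hle : ∀ k, vv b n1 n2 q k ≤ 1 := by
    intro k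
    have := vv_sum b n1 n2 q k
    have h1 := hv (k + 1)
    have h2 := hv (k + 2)
    linarith
  obtain ⟨k, hk1, hk2⟩ := Int.exists_greatest_of_bdd (P := fun k => LL h b n1 n2 q k ≤ q 2)
    ⟨⌈q 2 / h⌉, fun k hk => by
      have h1 : h * k ≤ q 2 := by
        refine le_trans ?_ hk
        unfold LL
        have h1 := hv (k + 1)
        have h2 := hv (k + 2)
        refine mul_le_mul_of_nonneg_left ?_ hh.le
        linarith
      have h2 : (k : ℝ) ≤ q 2 / h := by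
        rw [le_div_iff₀ hh]; linarith
      exact_mod_cast h2.trans (Int.le_ceil _)⟩
    ⟨⌊q 2 / h⌋ - 3, by
      have h1 : (⌊q 2 / h⌋ : ℝ) ≤ q 2 / h := Int.floor_le _
      rw [le_div_iff₀ hh] at h1
      refine le_trans ?_ h1
      unfold LL
      rw [mul_comm (_ : ℝ) h]
      refine mul_le_mul_of_nonneg_left ?_ hh.le
      have h2 := hle (⌊q 2 / h⌋ - 3 + 1)
      have h3 := hle (⌊q 2 / h⌋ - 3 + 2)
      push_cast
      linarith⟩
  refine ⟨b, n1, n2, k, (mem_T_iff _ _ _ _ _ _).2 ⟨hv _, hv _, by linarith, ?_⟩⟩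
  by_contra hc
  push Not at hc
  have := hk2 (k + 1) (by linarith)
  omega

/-! ### interiors -/

lemma pos_of_mem_interior {S : Set E3} {f : E3 → ℝ} {w : E3} {c : ℝ} (hc : 0 < c)
    (hf : ∀ p : E3, ∀ t : ℝ, f (p + t • w) = f p - t * c) (hS : ∀ p ∈ S, 0 ≤ f p) {p : E3}
    (hp : p ∈ interior S) : 0 < f p := by
  have h1 : Tendsto (fun t : ℝ => p + t • w) (𝓝 0) (𝓝 (p + (0 : ℝ) • w)) :=
    (continuous_const.add (continuous_id.smul continuous_const)).tendsto 0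
  rw [zero_smul, add_zero] at h1
  have h2 : ∀ᶠ t : ℝ in 𝓝 0, p + t • w ∈ S :=
    h1.eventually (mem_interior_iff_mem_nhds.1 hp)
  have h3 : ∀ᶠ t : ℝ in 𝓝[>] 0, p + t • w ∈ S := h2.filter_mono nhdsWithin_le_nhds
  obtain ⟨t, ht1, ht2⟩ := (h3.and self_mem_nhdsWithin).exists
  have h4 := hS _ ht1
  rw [hf] at h4
  have h5 : 0 < t := ht2
  nlinarith [mul_pos h5 hc]

lemma interior_T (h : ℝ) (hh : 0 < h) {p : E3} (hp : p ∈ interior (T h)) :
    0 < u1 p ∧ 0 < u2 p ∧ 0 < p 2 - h * (u1 p + 2 * u2 p) ∧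
    0 < h * (3 - 2 * u1 p - u2 p) - p 2 := by
  refine ⟨?_, ?_, ?_, ?_⟩
  · refine pos_of_mem_interior (w := !₂[1, 0, 0]) (c := 1 / 3) (by norm_num) ?_
      (fun p hp => hp.1) hp
    intro p t; simp [u1]; ring
  · refine pos_of_mem_interior (w := !₂[1, 0, 0]) (c := 1 / 3) (by norm_num) ?_
      (fun p hp => hp.2.1) hp
    intro p t; simp [u2]; ring
  · refine pos_of_mem_interior (f := fun p => p 2 - h * (u1 p + 2 * u2 p)) (w := !₂[0, 0, -1])
      (c := 1) (by norm_num) ?_ (fun p hp => hp.2.2.1) hp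
    intro p t; simp [u1, u2]; ring
  · refine pos_of_mem_interior (f := fun p => h * (3 - 2 * u1 p - u2 p) - p 2) (w := !₂[0, 0, 1])
      (c := 1) (by norm_num) ?_ (fun p hp => hp.2.2.2) hp
    intro p t; simp [u1, u2]; ring

/-! ### disjointness -/

lemma eq_of_strict (h : ℝ) (hh : 0 < h) {q : E3} {b b' : Bool} {n1 n2 k n1' n2' k' : ℤ}
    (H : 0 < vv b n1 n2 q (k + 1) ∧ 0 < vv b n1 n2 q (k + 2) ∧
      0 < q 2 - LL h b n1 n2 q k ∧ 0 < LL h b n1 n2 q (k + 1) - q 2)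
    (H' : 0 < vv b' n1' n2' q (k' + 1) ∧ 0 < vv b' n1' n2' q (k' + 2) ∧
      0 < q 2 - LL h b' n1' n2' q k' ∧ 0 < LL h b' n1' n2' q (k' + 1) - q 2) :
    b = b' ∧ n1 = n1' ∧ n2 = n2' ∧ k = k' := by
  have key : ∀ {b : Bool} {n1 n2 k : ℤ}, 0 < vv b n1 n2 q (k + 1) ∧ 0 < vv b n1 n2 q (k + 2) ∧
      0 < q 2 - LL h b n1 n2 q k ∧ 0 < LL h b n1 n2 q (k + 1) - q 2 →
      (∀ j, 0 < vv b n1 n2 q j) ∧ 0 < sg b * (u0 q - (1 - (sg b : ℝ) - n1 - n2)) ∧
      0 < sg b * (u1 q - n1) ∧ 0 < sg b * (u2 q - n2) := by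
    intro b n1 n2 k H
    obtain ⟨a1, a2, a3, a4⟩ := H
    have a0 : 0 < vv b n1 n2 q k := by
      have := LL_succ h b n1 n2 q k
      have h5 : 0 < 3 * h * vv b n1 n2 q k := by linarith
      exact (mul_pos_iff_of_pos_left (by positivity)).1 h5
    have hk : k % 3 = 0 ∨ k % 3 = 1 ∨ k % 3 = 2 := by omega
    have hall : 0 < sg b * (u0 q - (1 - (sg b : ℝ) - n1 - n2)) ∧
      0 < sg b * (u1 q - n1) ∧ 0 < sg b * (u2 q - n2) := by
      unfold vv per at a0 a1 a2
      rcases hk with hk | hk | hk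
      · have h1 : (k + 1) % 3 = 1 := by omega
        have h2 : (k + 2) % 3 = 2 := by omega
        simp only [hk, h1, h2] at a0 a1 a2
        norm_num at a0 a1 a2
        exact ⟨a0, a1, a2⟩
      · have h1 : (k + 1) % 3 = 2 := by omega
        have h2 : (k + 2) % 3 = 0 := by omega
        simp only [hk, h1, h2] at a0 a1 a2
        norm_num at a0 a1 a2
        exact ⟨a2, a0, a1⟩
      · have h1 : (k + 1) % 3 = 0 := by omega
        have h2 : (k + 2) % 3 = 1 := by omega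
        simp only [hk, h1, h2] at a0 a1 a2
        norm_num at a0 a1 a2
        exact ⟨a1, a2, a0⟩
    refine ⟨fun j => ?_, hall⟩
    obtain ⟨g0, g1, g2⟩ := hall
    unfold vv per
    split_ifs <;> assumption
  obtain ⟨v, p0, p1, p2⟩ := key H
  obtain ⟨v', p0', p1', p2'⟩ := key H'
  have hs := u_sum q
  have hb : b = b' ∧ n1 = n1' ∧ n2 = n2' := by
    cases b <;> cases b'
    · simp only [sg] at p0 p1 p2 p0' p1' p2'
      norm_num at p0 p1 p2 p0' p1' p2'
      refine ⟨rfl, ?_, ?_⟩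
      · have h1 : (n1 : ℝ) < n1' + 1 := by linarith
        have h2 : (n1' : ℝ) < n1 + 1 := by linarith
        have h3 : n1 < n1' + 1 := by exact_mod_cast h1
        have h4 : n1' < n1 + 1 := by exact_mod_cast h2
        omega
      · have h1 : (n2 : ℝ) < n2' + 1 := by linarith
        have h2 : (n2' : ℝ) < n2 + 1 := by linarith
        have h3 : n2 < n2' + 1 := by exact_mod_cast h1
        have h4 : n2' < n2 + 1 := by exact_mod_cast h2
        omega
    · exfalso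
      simp only [sg] at p0 p1 p2 p0' p1' p2'
      norm_num at p0 p1 p2 p0' p1' p2'
      have h1 : (n1' : ℝ) < n1 := by linarith
      have h2 : (n2' : ℝ) < n2 := by linarith
      have h3 : n1' < n1 := by exact_mod_cast h1
      have h4 : n2' < n2 := by exact_mod_cast h2
      have h5 : (-n1' - n2' : ℝ) < 2 - n1 - n2 := by linarith
      have h6 : -n1' - n2' < 2 - n1 - n2 := by exact_mod_cast h5
      omega
    · exfalso
      simp only [sg] at p0 p1 p2 p0' p1' p2'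
      norm_num at p0 p1 p2 p0' p1' p2'
      have h1 : (n1 : ℝ) < n1' := by linarith
      have h2 : (n2 : ℝ) < n2' := by linarith
      have h3 : n1 < n1' := by exact_mod_cast h1
      have h4 : n2 < n2' := by exact_mod_cast h2
      have h5 : (-n1 - n2 : ℝ) < 2 - n1' - n2' := by linarith
      have h6 : -n1 - n2 < 2 - n1' - n2' := by exact_mod_cast h5
      omega
    · simp only [sg] at p0 p1 p2 p0' p1' p2'
      norm_num at p0 p1 p2 p0' p1' p2'
      refine ⟨rfl, ?_, ?_⟩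
      · have h1 : (n1 : ℝ) < n1' + 1 := by linarith
        have h2 : (n1' : ℝ) < n1 + 1 := by linarith
        have h3 : n1 < n1' + 1 := by exact_mod_cast h1
        have h4 : n1' < n1 + 1 := by exact_mod_cast h2
        omega
      · have h1 : (n2 : ℝ) < n2' + 1 := by linarith
        have h2 : (n2' : ℝ) < n2 + 1 := by linarith
        have h3 : n2 < n2' + 1 := by exact_mod_cast h1
        have h4 : n2' < n2 + 1 := by exact_mod_cast h2
        omega
  obtain ⟨rfl, rfl, rfl⟩ := hb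
  refine ⟨rfl, rfl, rfl, ?_⟩
  have hmono : Monotone (LL h b n1 n2 q) := by
    refine monotone_int_of_le_succ fun j => ?_
    rw [LL_succ]
    have := v j
    have : 0 < 3 * h * vv b n1 n2 q j := by positivity
    linarith
  obtain ⟨-, -, a3, a4⟩ := H
  obtain ⟨-, -, a3', a4'⟩ := H'
  rcases lt_trichotomy k k' with hlt | heq | hgt
  · exfalso
    have := hmono (show k + 1 ≤ k' by omega)
    linarith
  · exact heq
  · exfalso
    have := hmono (show k' + 1 ≤ k by omega)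
    linarith

end Gold

open Gold in
theorem gold_tiles (h : ℝ) (hh : 0 < h) : TilesSpace (convexHull ℝ (range (gold h))) := by
  rw [hull_eq h hh]
  refine ⟨{S | ∃ (b : Bool) (n1 n2 k : ℤ), S = Ψ h b n1 n2 k ⁻¹' T h}, ?_, ?_, ?_⟩
  · rintro S ⟨b, n1, n2, k, rfl⟩
    refine ⟨(Ψ h b n1 n2 k).symm, ?_⟩
    exact ((Ψ h b n1 n2 k).toEquiv.image_symm_eq_preimage _).symm
  · rw [eq_univ_iff_forall]
    intro q
    obtain ⟨b, n1, n2, k, hq⟩ := exists_cover h hh q
    exact mem_sUnion.2 ⟨_, ⟨b, n1, n2, k, rfl⟩, hq⟩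
  · rintro S ⟨b, n1, n2, k, rfl⟩ S' ⟨b', n1', n2', k', rfl⟩ hne
    rw [Set.disjoint_left]
    intro q hq hq'
    apply hne
    have strict : ∀ {b : Bool} {n1 n2 k : ℤ}, q ∈ interior (Ψ h b n1 n2 k ⁻¹' T h) →
        0 < vv b n1 n2 q (k + 1) ∧ 0 < vv b n1 n2 q (k + 2) ∧
        0 < q 2 - LL h b n1 n2 q k ∧ 0 < LL h b n1 n2 q (k + 1) - q 2 := by
      intro b n1 n2 k hq
      have h1 : q ∈ (Ψ h b n1 n2 k).toHomeomorph ⁻¹' interior (T h) := by
        rw [Homeomorph.preimage_interior]; exact hq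
      have h2 : Ψ h b n1 n2 k q ∈ interior (T h) := h1
      have h3 := interior_T h hh h2
      obtain ⟨a1, a2, a3, a4⟩ := Ψ_spec h b n1 n2 k q
      rwa [a3, a4, a1, a2] at h3
    obtain ⟨rfl, rfl, rfl, rfl⟩ := eq_of_strict h hh (strict hq) (strict hq')
    rfl

end Pool.Agent.Helper1.Tet
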