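import Pool.Agent.Helper1.Tet.Defs
import Pool.Agent.Helper1.Tet.Goldberg

/-!
# TET T27 Lower: the shapes of tetrahedra which tile space have Hausdorff dimension at least one

The statement is proved from the two properties of Goldberg's family (module T26).
-/

open Real MeasureTheory Set InnerProductGeometry Filter Topology
open scoped RealInnerProductSpace ENNReal Pointwise

namespace Pool.Agent.Helper1.Tet

/-! ## scaling -/

/-- conjugation of an isometry of space by a dilation -/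
noncomputable def conjDil (c : ℝ) (hc : 0 < c) (φ : E3 ≃ᵢ E3) : E3 ≃ᵢ E3 where
  toFun x := c • φ (c⁻¹ • x)
  invFun x := c • φ.symm (c⁻¹ • x)
  left_inv x := by
    show c • φ.symm (c⁻¹ • (c • φ (c⁻¹ • x))) = x
    rw [smul_smul, inv_mul_cancel₀ hc.ne', one_smul, φ.symm_apply_apply, smul_smul,
      mul_inv_cancel₀ hc.ne', one_smul]
  right_inv x := by
    show c • φ (c⁻¹ • (c • φ.symm (c⁻¹ • x))) = x
    rw [smul_smul, inv_mul_cancel₀ hc.ne', one_smul, φ.apply_symm_apply, smul_smul,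
      mul_inv_cancel₀ hc.ne', one_smul]
  isometry_toFun := by
    refine Isometry.of_dist_eq fun x y => ?_
    show dist (c • φ (c⁻¹ • x)) (c • φ (c⁻¹ • y)) = dist x y
    rw [dist_smul₀, φ.dist_eq, dist_smul₀, ← mul_assoc, ← norm_mul, mul_inv_cancel₀ hc.ne',
      norm_one, one_mul]

theorem TilesSpace.smul {T : Set E3} (h : TilesSpace T) {c : ℝ} (hc : 0 < c) :
    TilesSpace (c • T) := by
  obtain ⟨𝒯, h1, h2, h3⟩ := h
  refine ⟨(fun S : Set E3 => c • S) '' 𝒯, ?_, ?_, ?_⟩
  · rintro _ ⟨S, hS, rfl⟩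
    obtain ⟨φ, rfl⟩ := h1 S hS
    refine ⟨conjDil c hc φ, ?_⟩
    ext x
    constructor
    · rintro ⟨_, ⟨t, ht, rfl⟩, rfl⟩
      refine ⟨c • t, ⟨t, ht, rfl⟩, ?_⟩
      show c • φ (c⁻¹ • (c • t)) = c • φ t
      rw [smul_smul, inv_mul_cancel₀ hc.ne', one_smul]
    · rintro ⟨_, ⟨t, ht, rfl⟩, rfl⟩
      refine ⟨φ t, ⟨t, ht, rfl⟩, ?_⟩
      show c • φ t = c • φ (c⁻¹ • (c • t))
      rw [smul_smul, inv_mul_cancel₀ hc.ne', one_smul]
  · refine eq_univ_of_forall fun x => ?_
    have hx : c⁻¹ • x ∈ ⋃₀ 𝒯 := by rw [h2]; exact mem_univ _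
    obtain ⟨S, hS, hxS⟩ := hx
    exact ⟨c • S, ⟨S, hS, rfl⟩, ⟨c⁻¹ • x, hxS, by
      show c • (c⁻¹ • x) = x
      rw [smul_smul, mul_inv_cancel₀ hc.ne', one_smul]⟩⟩
  · rintro _ ⟨S, hS, rfl⟩ _ ⟨S', hS', rfl⟩ hne
    have hSS : S ≠ S' := fun h => hne (by rw [h])
    show Disjoint (interior (c • S)) (interior (c • S'))
    rw [interior_smul₀ hc.ne', interior_smul₀ hc.ne']
    rw [Set.disjoint_left]
    rintro _ ⟨x, hx, rfl⟩ ⟨y, hy, hxy⟩
    have : y = x := by
      have := congrArg (fun z => c⁻¹ • z) hxy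
      simpa [smul_smul, inv_mul_cancel₀ hc.ne'] using this
    subst this
    exact (Set.disjoint_left.1 (h3 hS hS' hSS)) hx hy

theorem range_smul' (c : ℝ) (p : Fin 4 → E3) :
    range (fun i => c • p i) = c • range p := by
  ext x
  constructor
  · rintro ⟨i, rfl⟩
    exact ⟨p i, ⟨i, rfl⟩, rfl⟩
  · rintro ⟨_, ⟨i, rfl⟩, rfl⟩
    exact ⟨i, rfl⟩

theorem len_smul {c : ℝ} (hc : 0 < c) (p : Fin 4 → E3) (j : Fin 6) :
    len (fun i => c • p i) j = c * len p j := by
  simp only [len]
  rw [dist_smul₀, Real.norm_of_nonneg hc.le]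

theorem indep_smul {c : ℝ} (hc : 0 < c) {p : Fin 4 → E3} (hp : AffineIndependent ℝ p) :
    AffineIndependent ℝ (fun i => c • p i) := by
  have hinj : Function.Injective (LinearMap.lsmul ℝ E3 c).toAffineMap := by
    intro x y hxy
    have hxy' : c • x = c • y := hxy
    have := congrArg (fun z => c⁻¹ • z) hxy'
    simpa [smul_smul, inv_mul_cancel₀ hc.ne'] using this
  exact hp.map' _ hinj

/-- every nondegenerate tetrahedron has a rescaled copy of volume one -/
theorem exists_scale {p : Fin 4 → E3} (hp : AffineIndependent ℝ p) :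
    ∃ c : ℝ, 0 < c ∧ volume (convexHull ℝ (range fun i => c • p i)) = 1 := by
  set V := volume (convexHull ℝ (range p)) with hV
  have hfin : V ≠ ∞ := by
    have hcomp : IsCompact (convexHull ℝ (range p)) :=
      (finite_range p).isCompact_convexHull (𝕜 := ℝ)
    exact hcomp.measure_lt_top.ne
  have hpos : V ≠ 0 := by
    have hspan : affineSpan ℝ (range p) = ⊤ := by
      rw [hp.affineSpan_eq_top_iff_card_eq_finrank_add_one]
      simp
    have hint : (interior (convexHull ℝ (range p))).Nonempty :=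
      interior_convexHull_nonempty_iff_affineSpan_eq_top.2 hspan
    intro h0
    have := measure_mono_null interior_subset (h0 ▸ hV.symm ▸ rfl : volume (convexHull ℝ (range p)) = 0)
    exact (isOpen_interior.measure_pos volume hint).ne' this
  have hv : 0 < V.toReal := ENNReal.toReal_pos hpos hfin
  refine ⟨(V.toReal⁻¹) ^ ((3 : ℝ)⁻¹), by positivity, ?_⟩
  set c : ℝ := (V.toReal⁻¹) ^ ((3 : ℝ)⁻¹) with hc
  have hcpos : 0 < c := by positivity
  have hc3 : c ^ 3 = V.toReal⁻¹ := by
    rw [hc, ← Real.rpow_natCast, ← Real.rpow_mul (by positivity)]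
    norm_num
  rw [range_smul', convexHull_smul, Measure.addHaar_smul, ← hV]
  have hfr : Module.finrank ℝ E3 = 3 := by simp
  rw [hfr, hc3, abs_of_pos (by positivity), ENNReal.ofReal_inv_of_pos hv, ENNReal.ofReal_toReal hfin]
  exact ENNReal.inv_mul_cancel hpos hfin

/-- The edge vectors of the (labelled) tetrahedra of volume one which tile space. -/
def shapes : Set (Fin 6 → ℝ) :=
  {l | ∃ p : Fin 4 → E3, AffineIndependent ℝ p ∧ volume (convexHull ℝ (range p)) = 1 ∧
    TilesSpace (convexHull ℝ (range p)) ∧ l = len p}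

theorem len_gold_zero (h : ℝ) : len (gold h) 0 = √(3 + h ^ 2) := by
  have h3 : √3 ^ 2 = (3 : ℝ) := Real.sq_sqrt (by norm_num)
  simp only [len, ea, eb, gold, EuclideanSpace.dist_eq, Fin.sum_univ_three]
  congr 1
  simp [Real.dist_eq, sq_abs]
  nlinarith [h3]

theorem len_gold_two (h : ℝ) (hh : 0 < h) : len (gold h) 2 = 3 * h := by
  simp only [len, ea, eb, gold, EuclideanSpace.dist_eq, Fin.sum_univ_three]
  simp [Real.dist_eq, Real.sqrt_sq_eq_abs, abs_of_pos hh]

/-! ## T27 Lower -/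

/-- The shapes which tile space have Hausdorff dimension at least one. -/
theorem one_le_dimH_shapes : 1 ≤ dimH shapes := by
  set f : (Fin 6 → ℝ) → ℝ := fun l => l 2 / l 0 with hf
  have hsub : shapes ⊆ {l : Fin 6 → ℝ | 0 < l 0} := by
    rintro l ⟨p, hp, -, -, rfl⟩
    show 0 < dist (p (ea 0)) (p (eb 0))
    rw [dist_pos]
    exact fun h => absurd (hp.injective h) (by decide)
  have hconv : Convex ℝ {l : Fin 6 → ℝ | 0 < l 0} :=
    convex_halfSpace_gt (LinearMap.proj (R := ℝ) (φ := fun _ : Fin 6 => ℝ) 0).isLinear 0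
  have hcd : ContDiffOn ℝ 1 f {l : Fin 6 → ℝ | 0 < l 0} := by
    refine ContDiffOn.div ?_ ?_ fun l hl => (show (0 : ℝ) < l 0 from hl).ne'
    · exact (contDiff_apply ℝ ℝ (2 : Fin 6)).contDiffOn
    · exact (contDiff_apply ℝ ℝ (0 : Fin 6)).contDiffOn
  have himg : Ioo (0 : ℝ) 3 ⊆ f '' shapes := by
    intro y hy
    -- `3h/√(3+h²) = y` for `h = √(3 y²/(9-y²))`
    have hy9 : 0 < 9 - y ^ 2 := by nlinarith [hy.1, hy.2]
    set h : ℝ := √(3 * y ^ 2 / (9 - y ^ 2)) with hh
    have hyp : 0 < y := hy.1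
    have hpos : 0 < h := Real.sqrt_pos.2 (by positivity)
    have hsq : h ^ 2 = 3 * y ^ 2 / (9 - y ^ 2) := Real.sq_sqrt (by positivity)
    obtain ⟨c, hc, hvol⟩ := exists_scale (gold_indep h hpos)
    refine ⟨len (fun i => c • gold h i), ⟨_, indep_smul hc (gold_indep h hpos), hvol, ?_, rfl⟩, ?_⟩
    · rw [range_smul', convexHull_smul]
      exact (gold_tiles h hpos).smul hc
    · show len (fun i => c • gold h i) 2 / len (fun i => c • gold h i) 0 = y
      rw [len_smul hc, len_smul hc, len_gold_zero, len_gold_two h hpos,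
        mul_div_mul_left _ _ hc.ne']
      have hs : √(3 + h ^ 2) = 3 * h / y := by
        rw [Real.sqrt_eq_iff_mul_self_eq (by positivity) (by positivity)]
        have : (3 * h / y) * (3 * h / y) = 9 * h ^ 2 / y ^ 2 := by ring
        rw [this, hsq]
        field_simp
        ring
      rw [hs]
      field_simp
  have h1 : dimH (Ioo (0 : ℝ) 3) = 1 := by
    have : (interior (Ioo (0 : ℝ) 3)).Nonempty := by
      rw [interior_Ioo]; exact ⟨1, by norm_num, by norm_num⟩
    rw [Real.dimH_of_nonempty_interior this]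
    simp
  calc (1 : ℝ≥0∞) = dimH (Ioo (0 : ℝ) 3) := h1.symm
    _ ≤ dimH (f '' shapes) := dimH_mono himg
    _ ≤ dimH shapes := hcd.dimH_image_le hconv hsub

end Pool.Agent.Helper1.Tet
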