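import Pool.Agent.Helper1.Tet.Defs

/-!
# Rational relations between the angles span the vector of edge lengths
-/

open Real MeasureTheory Set InnerProductGeometry Filter Topology
open scoped RealInnerProductSpace ENNReal

namespace Pool.Agent.Helper1.Tet

/-- A `ℚ`-linear functional with values in `ℝ` which kills the kernel of `T` factors through
`T`. -/
theorem exists_factor {V W X : Type*} [AddCommGroup V] [Module ℚ V] [AddCommGroup W] [Module ℚ W]
    [AddCommGroup X] [Module ℚ X] (T : V →ₗ[ℚ] W) (ψ : V →ₗ[ℚ] X)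
    (h : LinearMap.ker T ≤ LinearMap.ker ψ) : ∃ g : W →ₗ[ℚ] X, g ∘ₗ T = ψ := by
  let f₀ : LinearMap.range T →ₗ[ℚ] X :=
    ((LinearMap.ker T).liftQ ψ h) ∘ₗ T.quotKerEquivRange.symm.toLinearMap
  obtain ⟨g, hg⟩ := LinearMap.exists_extend f₀
  refine ⟨g, ?_⟩
  ext v
  have h1 : g (T v) = f₀ ⟨T v, LinearMap.mem_range_self T v⟩ := by
    rw [← hg]; rfl
  rw [LinearMap.comp_apply, h1]
  have h2 : T.quotKerEquivRange.symm ⟨T v, LinearMap.mem_range_self T v⟩
      = Submodule.Quotient.mk v := by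
    rw [LinearEquiv.symm_apply_eq]
    apply Subtype.ext
    rfl
  simp only [f₀, LinearMap.comp_apply, LinearEquiv.coe_coe]
  rw [h2]
  rfl

theorem exists_relations (l α : Fin 6 → ℝ)
    (h : ∀ f : ℝ →ₗ[ℚ] ℝ, f π = 0 → ∑ j, l j * f (α j) = 0) :
    ∃ (r : ℕ) (N : Fin r → Fin 6 → ℚ) (q : Fin r → ℚ),
      LinearIndependent ℝ (fun (k : Fin r) (j : Fin 6) => (N k j : ℝ)) ∧
      (∀ k, ∑ j, (N k j : ℝ) * α j = q k * π) ∧
      l ∈ Submodule.span ℝ (range fun (k : Fin r) (j : Fin 6) => (N k j : ℝ)) := by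
  classical
  let S : Submodule ℚ ℝ := Submodule.span ℚ {π}
  let T₀ : (Fin 6 → ℚ) →ₗ[ℚ] ℝ := ∑ j, (LinearMap.proj j : (Fin 6 → ℚ) →ₗ[ℚ] ℚ).smulRight (α j)
  have hT₀ : ∀ n : Fin 6 → ℚ, T₀ n = ∑ j, (n j : ℝ) * α j := by
    intro n
    simp only [T₀, LinearMap.sum_apply, LinearMap.smulRight_apply, LinearMap.proj_apply]
    exact Finset.sum_congr rfl fun j _ => by rw [Rat.smul_def]
  let T : (Fin 6 → ℚ) →ₗ[ℚ] (ℝ ⧸ S) := S.mkQ ∘ₗ T₀
  let R := LinearMap.ker T
  let b : Module.Basis (Fin (Module.finrank ℚ R)) ℚ R := Module.finBasis ℚ R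
  have hq : ∀ k, ∃ q : ℚ, ∑ j, ((b k : Fin 6 → ℚ) j : ℝ) * α j = q * π := by
    intro k
    have h1 : T (b k : Fin 6 → ℚ) = 0 := (b k).2
    have h2 : T₀ (b k : Fin 6 → ℚ) ∈ S := (Submodule.Quotient.mk_eq_zero S).1 h1
    rw [Submodule.mem_span_singleton] at h2
    obtain ⟨q, hq⟩ := h2
    refine ⟨q, ?_⟩
    rw [← hT₀, ← hq, Rat.smul_def]
  choose q hq using hq
  refine ⟨Module.finrank ℚ R, fun k => (b k : Fin 6 → ℚ), q, ?_, hq, ?_⟩
  · have h1 : LinearIndependent ℚ (fun k => ((b k : R) : Fin 6 → ℚ)) :=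
      b.linearIndependent.map' R.subtype (Submodule.ker_subtype R)
    have h2 := (linearIndependent_algebraMap_comp_iff (R := ℚ) (S := ℝ)).2 h1
    exact h2
  · by_contra hl
    obtain ⟨φ, hφl, hφ⟩ := Submodule.exists_le_ker_of_notMem hl
    -- the coefficients of `φ`
    let e : Fin 6 → Fin 6 → ℝ := fun j => Pi.single j 1
    have hφe : ∀ x : Fin 6 → ℝ, φ x = ∑ j, x j * φ (e j) := by
      intro x
      have h1 : x = ∑ j, x j • e j := by
        funext i
        simp [e, Finset.sum_apply, Pi.single_apply]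
      conv_lhs => rw [h1]
      rw [map_sum]
      exact Finset.sum_congr rfl fun j _ => by rw [map_smul, smul_eq_mul]
    let ψ : (Fin 6 → ℚ) →ₗ[ℚ] ℝ :=
      ∑ j, (LinearMap.proj j : (Fin 6 → ℚ) →ₗ[ℚ] ℚ).smulRight (φ (e j))
    have hψ : ∀ n : Fin 6 → ℚ, ψ n = φ (fun j => (n j : ℝ)) := by
      intro n
      rw [hφe]
      simp only [ψ, LinearMap.sum_apply, LinearMap.smulRight_apply, LinearMap.proj_apply]
      exact Finset.sum_congr rfl fun j _ => by rw [Rat.smul_def]
    have hker : LinearMap.ker T ≤ LinearMap.ker ψ := by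
      intro n hn
      rw [LinearMap.mem_ker, hψ]
      have h1 : (⟨n, hn⟩ : R) = ∑ k, b.repr ⟨n, hn⟩ k • b k := (b.sum_repr _).symm
      have h2 : (fun j => (n j : ℝ)) = ∑ k, ((b.repr ⟨n, hn⟩ k : ℚ) : ℝ) •
          (fun j => (((b k : R) : Fin 6 → ℚ) j : ℝ)) := by
        funext j
        have h3 := congrArg (fun r : R => (r : Fin 6 → ℚ) j) h1
        simp only [Submodule.coe_sum, Submodule.coe_smul, Finset.sum_apply, Pi.smul_apply,
          smul_eq_mul] at h3
        simp only [Finset.sum_apply, Pi.smul_apply, smul_eq_mul]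
        rw [h3]
        push_cast
        rfl
      rw [h2, map_sum]
      refine Finset.sum_eq_zero fun k _ => ?_
      rw [map_smul]
      have h4 : φ (fun j => (((b k : R) : Fin 6 → ℚ) j : ℝ)) = 0 :=
        hφ (Submodule.subset_span ⟨k, rfl⟩)
      rw [h4, smul_zero]
    obtain ⟨g, hg⟩ := exists_factor T ψ hker
    have h5 := h (g ∘ₗ S.mkQ) (by
      rw [LinearMap.comp_apply]
      have : S.mkQ π = 0 := by
        rw [Submodule.mkQ_apply, Submodule.Quotient.mk_eq_zero]
        exact Submodule.mem_span_singleton_self π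
      rw [this, map_zero])
    apply hφl
    rw [hφe, ← h5]
    refine Finset.sum_congr rfl fun j _ => ?_
    congr 1
    rw [LinearMap.comp_apply]
    have h6 : T₀ (Pi.single j 1) = α j := by
      simp only [T₀, LinearMap.sum_apply, LinearMap.smulRight_apply, LinearMap.proj_apply]
      simp [Pi.single_apply]
    have h7 : ψ (Pi.single j 1) = φ (e j) := by
      simp only [ψ, LinearMap.sum_apply, LinearMap.smulRight_apply, LinearMap.proj_apply]
      simp [Pi.single_apply]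
    rw [← h7, ← hg, LinearMap.comp_apply]
    simp only [T, LinearMap.comp_apply]
    rw [h6]

end Pool.Agent.Helper1.Tet
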