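import Pool.Agent.Helper1.Tet.Defs

/-! # T21a: the volume of a tetrahedron -/

open Real MeasureTheory Set InnerProductGeometry Filter Topology
open scoped RealInnerProductSpace ENNReal Pointwise

namespace Pool.Agent.Helper1.Tet

/-- the linear map sending the standard basis to the edge vectors at the vertex `0` -/
noncomputable def emap (p : Fin 4 → E3) : E3 →ₗ[ℝ] E3 :=
  (EuclideanSpace.basisFun (Fin 3) ℝ).toBasis.constr ℝ (fun i : Fin 3 => p i.succ - p 0)

lemma emap_basis (p : Fin 4 → E3) (i : Fin 3) :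
    emap p (EuclideanSpace.basisFun (Fin 3) ℝ i) = p i.succ - p 0 := by
  have := (EuclideanSpace.basisFun (Fin 3) ℝ).toBasis.constr_basis ℝ
    (fun i : Fin 3 => p i.succ - p 0) i
  rwa [OrthonormalBasis.coe_toBasis] at this

lemma det_emap (p : Fin 4 → E3) : LinearMap.det (emap p) =
    Matrix.det (Matrix.of fun i j : Fin 3 => (p j.succ - p 0) i) := by
  rw [← LinearMap.det_toMatrix (EuclideanSpace.basisFun (Fin 3) ℝ).toBasis]
  congr 1
  ext i j
  rw [LinearMap.toMatrix_apply, OrthonormalBasis.coe_toBasis, emap_basis]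
  simp

lemma len_sq (p : Fin 4 → E3) (j : Fin 6) :
    len p j ^ 2 = (p (ea j) 0 - p (eb j) 0) ^ 2 + (p (ea j) 1 - p (eb j) 1) ^ 2 +
      (p (ea j) 2 - p (eb j) 2) ^ 2 := by
  unfold len
  rw [EuclideanSpace.dist_eq, Real.sq_sqrt (Finset.sum_nonneg fun i _ => sq_nonneg _),
    Fin.sum_univ_three]
  simp [Real.dist_eq, sq_abs]

lemma Gr_len (p : Fin 4 → E3) : Gr (len p) = LinearMap.det (emap p) ^ 2 := by
  rw [det_emap, Matrix.det_fin_three]
  unfold Gr
  simp only [len_sq]
  simp only [ea, eb, Matrix.of_apply, PiLp.sub_apply]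
  simp only [Matrix.cons_val_zero, Matrix.cons_val_one, Matrix.cons_val]
  simp only [Fin.succ_zero_eq_one, Fin.succ_one_eq_two]
  have h3 : (Fin.succ 2 : Fin 4) = 3 := rfl
  simp only [h3]
  ring

/-- the standard tetrahedron -/
noncomputable def stdTet : Fin 4 → E3 :=
  Fin.cons 0 (fun i : Fin 3 => EuclideanSpace.basisFun (Fin 3) ℝ i)

lemma emap_std (p : Fin 4 → E3) (i : Fin 4) : p i = p 0 + emap p (stdTet i) := by
  refine Fin.cases ?_ (fun i => ?_) i
  · simp [stdTet]
  · rw [stdTet, Fin.cons_succ, emap_basis]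
    abel

lemma stdTet_indep : AffineIndependent ℝ stdTet := by
  rw [affineIndependent_iff_linearIndependent_vsub ℝ stdTet 0]
  have h1 : LinearIndependent ℝ (fun i : Fin 3 => (EuclideanSpace.basisFun (Fin 3) ℝ i : E3)) := by
    have := (EuclideanSpace.basisFun (Fin 3) ℝ).toBasis.linearIndependent
    rwa [OrthonormalBasis.coe_toBasis] at this
  have h2 := h1.comp (fun i : {x : Fin 4 // x ≠ 0} => i.1.pred i.2) (by
    intro a b hab
    exact Subtype.ext (Fin.pred_inj.1 hab))
  have h3 : (fun i : {x : Fin 4 // x ≠ 0} => stdTet ↑i -ᵥ stdTet 0) =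
      ((fun i : Fin 3 => (EuclideanSpace.basisFun (Fin 3) ℝ i : E3)) ∘
        (fun i : {x : Fin 4 // x ≠ 0} => i.1.pred i.2)) := by
    funext i
    obtain ⟨i, hi⟩ := i
    simp only [Function.comp]
    obtain ⟨k, rfl⟩ := Fin.exists_succ_eq.2 hi
    simp [stdTet]
  rw [h3]
  exact h2

lemma interior_tet (p : Fin 4 → E3) (hp : AffineIndependent ℝ p) :
    (interior (convexHull ℝ (range p))).Nonempty := by
  rw [interior_convexHull_nonempty_iff_affineSpan_eq_top,
    hp.affineSpan_eq_top_iff_card_eq_finrank_add_one]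
  simp

lemma volume_pos_tet (p : Fin 4 → E3) (hp : AffineIndependent ℝ p) :
    0 < volume (convexHull ℝ (range p)) :=
  lt_of_lt_of_le (isOpen_interior.measure_pos volume (interior_tet p hp))
    (measure_mono interior_subset)

lemma volume_lt_top_tet (p : Fin 4 → E3) : volume (convexHull ℝ (range p)) < ∞ :=
  ((finite_range p).isCompact_convexHull ℝ).measure_lt_top

theorem volume_tet : ∃ c : ℝ, 0 < c ∧ ∀ p : Fin 4 → E3, AffineIndependent ℝ p →
    volume (convexHull ℝ (range p)) = ENNReal.ofReal (c * √(Gr (len p))) := by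
  refine ⟨(volume (convexHull ℝ (range stdTet))).toReal, ?_, fun p hp => ?_⟩
  · exact ENNReal.toReal_pos (volume_pos_tet _ stdTet_indep).ne' (volume_lt_top_tet _).ne
  · have h1 : convexHull ℝ (range p) = (fun x => p 0 + x) '' (emap p '' convexHull ℝ (range stdTet)) := by
      have h2 : emap p '' convexHull ℝ (range stdTet) =
          convexHull ℝ (emap p '' range stdTet) := (emap p).image_convexHull _
      rw [h2]
      have h3 : range p = (fun x => p 0 + x) '' (emap p '' range stdTet) := by
        rw [← range_comp, ← range_comp]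
        congr 1
        funext i
        exact emap_std p i
      rw [h3]
      have h4 : ((fun x => p 0 + x) '' convexHull ℝ (emap p '' range stdTet)) =
          p 0 +ᵥ convexHull ℝ (emap p '' range stdTet) := rfl
      rw [h4, ← convexHull_vadd]
      rfl
    rw [h1, image_add_left, measure_preimage_add, Measure.addHaar_image_linearMap,
      Gr_len, Real.sqrt_sq_eq_abs, mul_comm, ENNReal.ofReal_mul ENNReal.toReal_nonneg,
      ENNReal.ofReal_toReal (volume_lt_top_tet _).ne]

end Pool.Agent.Helper1.Tet
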