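import Pool.Agent.Helper1.Tet.CovHard
import Pool.Agent.Helper1.Tet.Relations
import Pool.Agent.Helper1.Tet.Volume
import Pool.Agent.Helper1.Tet.DehnZero
import Pool.Agent.Helper1.Tet.Dual
import Pool.Agent.Helper1.Tet.Lower

/-! The shapes of tetrahedra with Dehn invariant zero, and of tetrahedra which tile space. -/

open Real MeasureTheory Set InnerProductGeometry Filter Topology
open scoped ContDiff ENNReal NNReal

namespace Pool.Agent.Helper1.Tet

/-- the edge length vectors of tetrahedra with vanishing Dehn invariant -/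
def DZ : Set (Fin 6 → ℝ) :=
  {l | l ∈ TT ∧ ∀ f : ℝ →ₗ[ℚ] ℝ, f π = 0 → ∑ j, l j * f (al l j) = 0}

theorem cov_FF {r : ℕ} (N : Fin r → Fin 6 → ℝ) (q : Fin r → ℝ)
    (hN : LinearIndependent ℝ N) : Cov (FF N q) := by
  rcases Nat.lt_or_ge r 3 with h | h
  · exact cov_FF_le_two (by omega) N q hN
  rcases Nat.lt_or_ge r 5 with h' | h'
  · interval_cases r
    · exact cov_FF_three N q hN
    · exact cov_FF_four N q hN
  · exact cov_FF_ge_five h' N q hN

theorem cov_DZ_normalized : Cov (DZ ∩ {l | l 0 = 1}) := by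
  have hsub : DZ ∩ {l | l 0 = 1} ⊆ ⋃ (r : ℕ) (x : {x : (Fin r → Fin 6 → ℚ) × (Fin r → ℚ) //
      LinearIndependent ℝ (fun (k : Fin r) (j : Fin 6) => (x.1 k j : ℝ))}),
      FF (fun k j => ((x : (Fin r → Fin 6 → ℚ) × (Fin r → ℚ)).1 k j : ℝ))
        (fun k => ((x : (Fin r → Fin 6 → ℚ) × (Fin r → ℚ)).2 k : ℝ)) := by
    rintro l ⟨⟨hT, hf⟩, h0⟩
    obtain ⟨r, N, q, hN, hrel, hspan⟩ := exists_relations l (al l) hf
    rw [mem_iUnion]
    refine ⟨r, ?_⟩
    rw [mem_iUnion]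
    exact ⟨⟨(N, q), hN⟩, hT, h0, hspan, hrel⟩
  exact (Cov.iUnion fun r => Cov.iUnion fun x => cov_FF _ _ x.2).mono hsub

/-- tetrahedra of volume one with Dehn invariant zero -/
theorem cov_DZ_volume (c : ℝ) (hc : 0 < c) : Cov (DZ ∩ {l | c * √(Gr l) = 1}) := by
  refine cov_volume_one _ (fun l hl => hl.1.1) c hc (fun l hl => hl.2) ?_
  refine cov_DZ_normalized.mono ?_
  rintro ρ ⟨h0, t, ht, hT, -⟩
  refine ⟨⟨(TT_smul ht).1 hT.1, fun f hf => ?_⟩, h0⟩
  have h1 := hT.2 f hf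
  rw [al_smul ht] at h1
  simp only [Pi.smul_apply, smul_eq_mul, mul_assoc, ← Finset.mul_sum] at h1
  rcases mul_eq_zero.1 h1 with h | h
  · exact absurd h ht.ne'
  · exact h

theorem cov_shapes : Cov shapes := by
  obtain ⟨c, hc, hvol⟩ := volume_tet
  refine (cov_DZ_volume c hc).mono ?_
  rintro l ⟨p, hp, hv, ht, rfl⟩
  refine ⟨⟨len_mem_TT p hp, fun f hf => dehn_zero p hp ht f hf⟩, ?_⟩
  have h1 := hvol p hp
  rw [hv] at h1
  have h2 : ENNReal.ofReal (c * √(Gr (len p))) = ENNReal.ofReal 1 := by rw [← h1]; simp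
  exact (ENNReal.ofReal_eq_ofReal_iff (by positivity) (by norm_num)).1 h2

/-- The shapes of tetrahedra which tile space are contained in a countable union of Lipschitz
curves, and have Hausdorff dimension one. -/
theorem main : (∃ γ : ℕ → ℝ → (Fin 6 → ℝ), (∀ n, ∃ K, LipschitzWith K (γ n)) ∧
    shapes ⊆ ⋃ n, range (γ n)) ∧ dimH shapes = 1 :=
  ⟨cov_shapes.exists_curves, le_antisymm cov_shapes.dimH_le one_le_dimH_shapes⟩

end Pool.Agent.Helper1.Tet
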