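import Pool.Agent.Helper1.Tet.Defs

/-!
# T15b: extension along the region of positive vertex slacks
-/

open Real MeasureTheory Set InnerProductGeometry Filter Topology
open scoped RealInnerProductSpace ENNReal

namespace Pool.Agent.Helper1.Tet

/-- Jacobi's identity for the cofactors of a singular symmetric matrix with unit diagonal -/
lemma adj_aux (a b c d e f : ℝ) (h : (!![1, a, b, c; a, 1, d, e; b, d, 1, f; c, e, f, 1] :
    Matrix (Fin 4) (Fin 4) ℝ).det = 0) (j : Fin 6) :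
    (!![1, a, b, c; a, 1, d, e; b, d, 1, f; c, e, f, 1] :
    Matrix (Fin 4) (Fin 4) ℝ).adjugate (ec j) (ed j) ^ 2 =
    (!![1, a, b, c; a, 1, d, e; b, d, 1, f; c, e, f, 1] :
    Matrix (Fin 4) (Fin 4) ℝ).adjugate (ec j) (ec j) *
    (!![1, a, b, c; a, 1, d, e; b, d, 1, f; c, e, f, 1] :
    Matrix (Fin 4) (Fin 4) ℝ).adjugate (ed j) (ed j) := by
  have hd : (!![1, a, b, c; a, 1, d, e; b, d, 1, f; c, e, f, 1] :
    Matrix (Fin 4) (Fin 4) ℝ).det = 1 - a^2 - b^2 - c^2 - d^2 - e^2 - f^2 + a^2*f^2 + b^2*e^2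
      + c^2*d^2 + 2*a*b*d + 2*a*c*e + 2*b*c*f + 2*d*e*f - 2*a*b*e*f - 2*a*c*d*f - 2*b*c*d*e := by
    rw [Matrix.det_succ_row_zero]
    simp [Fin.sum_univ_four, Matrix.det_fin_three, Fin.succAbove, Matrix.submatrix_apply]
    ring
  rw [hd] at h
  fin_cases j
  · simp [ec, ed, Matrix.adjugate_fin_succ_eq_det_submatrix, Matrix.det_fin_three, Fin.succAbove]
    linear_combination (-(1 - a^2)) * h
  · simp [ec, ed, Matrix.adjugate_fin_succ_eq_det_submatrix, Matrix.det_fin_three, Fin.succAbove]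
    linear_combination (-(1 - b^2)) * h
  · simp [ec, ed, Matrix.adjugate_fin_succ_eq_det_submatrix, Matrix.det_fin_three, Fin.succAbove]
    linear_combination (-(1 - c^2)) * h
  · simp [ec, ed, Matrix.adjugate_fin_succ_eq_det_submatrix, Matrix.det_fin_three, Fin.succAbove]
    linear_combination (-(1 - d^2)) * h
  · simp [ec, ed, Matrix.adjugate_fin_succ_eq_det_submatrix, Matrix.det_fin_three, Fin.succAbove]
    linear_combination (-(1 - e^2)) * h
  · simp [ec, ed, Matrix.adjugate_fin_succ_eq_det_submatrix, Matrix.det_fin_three, Fin.succAbove]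
    linear_combination (-(1 - f^2)) * h

lemma adjugate_sq (α : Fin 6 → ℝ) (hdet : (GG α).det = 0) (j : Fin 6) :
    (GG α).adjugate (ec j) (ed j) ^ 2 =
      (GG α).adjugate (ec j) (ec j) * (GG α).adjugate (ed j) (ed j) :=
  adj_aux _ _ _ _ _ _ hdet j

/-- continuity of the matrix along a segment -/
lemma continuous_GG (α δ : Fin 6 → ℝ) : Continuous fun t : ℝ => GG (α + t • δ) := by
  have h : ∀ j, Continuous fun t : ℝ => cos ((α + t • δ) j) := by
    intro j
    simp only [Pi.add_apply, Pi.smul_apply, smul_eq_mul]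
    fun_prop
  refine continuous_matrix fun i j => ?_
  fin_cases i <;> fin_cases j <;> simp [GG] <;> fun_prop

lemma sv_affine (α δ : Fin 6 → ℝ) (t : ℝ) (v : Fin 4) :
    sv (α + t • δ) v = (1 - t) * sv α v + t * sv (α + δ) v := by
  unfold sv
  simp only [Pi.add_apply, Pi.smul_apply, smul_eq_mul]
  fin_cases v <;> simp [Fin.sum_univ_six, ea, eb] <;> ring

lemma continuous_gc (α δ : Fin 6 → ℝ) (c : Fin 3) : Continuous fun t : ℝ => gc (α + t • δ) c := by
  unfold gc
  refine continuous_const.sub (continuous_finsetSum _ fun j _ => ?_)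
  split_ifs
  · exact continuous_const
  · simp only [Pi.add_apply, Pi.smul_apply, smul_eq_mul]
    fun_prop

lemma continuous_sv (α δ : Fin 6 → ℝ) (v : Fin 4) : Continuous fun t : ℝ => sv (α + t • δ) v := by
  simp_rw [sv_affine]
  fun_prop

/-- `region_extend` from the statements of the modules T4b, T5, T15a -/
theorem region_core (A : Submodule ℝ (Fin 6 → ℝ)) (l₀ : Fin 6 → ℝ)
    (hs0 : ∀ v, 0 < sv (al l₀) v) (hg0 : ∀ c, 0 ≤ gc (al l₀) c)
    (hadj0 : ∀ j, 0 < (GG (al l₀)).adjugate (ec j) (ed j))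
    (hA : ∀ α : Fin 6 → ℝ, (∀ v, 0 < sv α v) → (∀ v c, 0 < sv α v + gc α c) →
      (∀ j, α j ∈ Ioo 0 π) ∧ (∀ v, 0 < (GG α).adjugate v v))
    (hB : ∀ α : Fin 6 → ℝ, (∀ j, α j ∈ Ioo 0 π) → (GG α).det = 0 →
      (∀ v, 0 < (GG α).adjugate v v) → (∀ j, 0 < (GG α).adjugate (ec j) (ed j)) →
      ∀ c, 0 ≤ gc α c)
    (hdet : ∀ δ ∈ A, (GG (al l₀ + δ)).det = 0) :
    ∀ δ ∈ A, (∀ v, 0 < sv (al l₀ + δ) v) → ∀ c, 0 ≤ gc (al l₀ + δ) c := by
  intro δ hδ hsv
  have hdet' : ∀ t : ℝ, (GG (al l₀ + t • δ)).det = 0 := fun t => hdet _ (A.smul_mem t hδ)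
  have hsv' : ∀ t ∈ Icc (0 : ℝ) 1, ∀ v, 0 < sv (al l₀ + t • δ) v := by
    intro t ht v
    rw [sv_affine]
    rcases eq_or_lt_of_le ht.1 with h | h
    · rw [← h]
      simpa using hs0 v
    · have h1 : 0 ≤ (1 - t) * sv (al l₀) v := mul_nonneg (by linarith [ht.2]) (hs0 v).le
      have h2 : 0 < t * sv (al l₀ + δ) v := mul_pos h (hsv v)
      linarith
  set S : Set ℝ := {t | (∀ c, 0 ≤ gc (al l₀ + t • δ) c) ∧
    ∀ j, 0 ≤ (GG (al l₀ + t • δ)).adjugate (ec j) (ed j)} with hS
  have hcadj : ∀ j, Continuous fun t : ℝ => (GG (al l₀ + t • δ)).adjugate (ec j) (ed j) := by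
    intro j
    exact ((continuous_GG (al l₀) δ).matrix_adjugate).matrix_elem (ec j) (ed j)
  have hclosed : IsClosed S := by
    rw [hS]
    simp only [ofPred_and, ofPred_forall]
    refine (isClosed_iInter fun c => ?_).inter (isClosed_iInter fun j => ?_)
    · exact isClosed_le continuous_const (continuous_gc _ _ c)
    · exact isClosed_le continuous_const (hcadj j)
  -- at the points of `S` everything is strict
  have hstrict : ∀ t ∈ S ∩ Icc (0 : ℝ) 1, (∀ v c, 0 < sv (al l₀ + t • δ) v + gc (al l₀ + t • δ) c) ∧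
      ∀ j, 0 < (GG (al l₀ + t • δ)).adjugate (ec j) (ed j) := by
    rintro t ⟨⟨ht1, ht2⟩, ht⟩
    have hgood : ∀ v c, 0 < sv (al l₀ + t • δ) v + gc (al l₀ + t • δ) c := fun v c =>
      add_pos_of_pos_of_nonneg (hsv' t ht v) (ht1 c)
    refine ⟨hgood, fun j => ?_⟩
    obtain ⟨-, hd⟩ := hA _ (hsv' t ht) hgood
    have hsq := adjugate_sq _ (hdet' t) j
    refine lt_of_le_of_ne (ht2 j) ?_
    intro h0
    rw [← h0] at hsq
    have := mul_pos (hd (ec j)) (hd (ed j))
    rw [← hsq] at this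
    norm_num at this
  have hsub : Icc (0 : ℝ) 1 ⊆ S := by
    refine (hclosed.inter isClosed_Icc).Icc_subset_of_forall_exists_gt ?_ ?_
    · constructor
      · simpa using hg0
      · intro j
        simpa using (hadj0 j).le
    · rintro t ⟨htS, ht⟩ y hy
      have ht' : t ∈ Icc (0 : ℝ) 1 := Ico_subset_Icc_self ht
      obtain ⟨hgood, hpos⟩ := hstrict t ⟨htS, ht'⟩
      have hev : ∀ᶠ s in 𝓝 t, (∀ v c, 0 < sv (al l₀ + s • δ) v + gc (al l₀ + s • δ) c) ∧
          (∀ j, 0 < (GG (al l₀ + s • δ)).adjugate (ec j) (ed j)) := by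
        refine Filter.Eventually.and ?_ ?_
        · rw [Filter.eventually_all]
          intro v
          rw [Filter.eventually_all]
          intro c
          exact ((continuous_sv _ _ v).add (continuous_gc _ _ c)).continuousAt.eventually
            (lt_mem_nhds (hgood v c))
        · rw [Filter.eventually_all]
          intro j
          exact (hcadj j).continuousAt.eventually (lt_mem_nhds (hpos j))
      have hev2 : ∀ᶠ s in 𝓝[>] t, s ∈ Ioc t (min y 1) := by
        apply Ioc_mem_nhdsGT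
        exact lt_min hy ht.2
      obtain ⟨s, hs1, hs2⟩ := ((hev.filter_mono nhdsWithin_le_nhds).and hev2).exists
      have hs01 : s ∈ Icc (0 : ℝ) 1 :=
        ⟨ht.1.trans hs2.1.le, hs2.2.trans (min_le_right _ _)⟩
      obtain ⟨hang, hd⟩ := hA _ (hsv' s hs01) hs1.1
      have hgc := hB _ hang (hdet' s) hd hs1.2
      exact ⟨s, ⟨hgc, fun j => (hs1.2 j).le⟩, hs2.1, hs2.2.trans (min_le_left _ _)⟩
  have h1 := (hsub (right_mem_Icc.2 zero_le_one)).1
  simpa using h1

end Pool.Agent.Helper1.Tet
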