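import Pool.Agent.Helper1.Tet.Defs

/-! # T18 ZeroSet: zero sets of real analytic functions of two variables have dimension at most 1
(helper45) -/

open Real MeasureTheory Set InnerProductGeometry Filter Topology
open scoped RealInnerProductSpace ENNReal

namespace Pool.Agent.Helper1.Tet

/-- a regular zero set has locally dimension at most `dim - 1` -/
theorem zeroSet_local {E : Type*} [NormedAddCommGroup E] [NormedSpace ℝ E]
    [FiniteDimensional ℝ E] {G : E → ℝ} {z : E} (hG : ContDiffAt ℝ 1 G z) (hz : G z = 0)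
    (hd : fderiv ℝ G z ≠ 0) :
    ∃ t ∈ 𝓝[{x | G x = 0}] z, dimH t ≤ ((Module.finrank ℝ E - 1 : ℕ) : ℝ≥0∞) := by
  have : ProperSpace E := FiniteDimensional.proper ℝ E
  have : CompleteSpace E := FiniteDimensional.complete ℝ E
  have hstr : HasStrictFDerivAt G (fderiv ℝ G z) z :=
    (hG.hasStrictFDerivAt one_ne_zero)
  have hsurj : Function.Surjective (fderiv ℝ G z) := by
    have := LinearMap.surjective (f := (fderiv ℝ G z).toLinearMap) (by
      intro h
      apply hd
      ext x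
      exact LinearMap.congr_fun h x)
    exact this
  have hr : (fderiv ℝ G z).range = ⊤ := LinearMap.range_eq_top.2 hsurj
  obtain ⟨K, s, hs, hL⟩ := (hstr.to_implicitFunction hr).exists_lipschitzOnWith
  set g := hstr.implicitFunction G (fderiv ℝ G z) hr (G z) with hg
  have h1 := hstr.eq_implicitFunction hr
  have h2 : ∀ᶠ x in 𝓝 z, (hstr.implicitToOpenPartialHomeomorph G (fderiv ℝ G z) hr x).snd ∈ s := by
    have hc : ContinuousAt (hstr.implicitToOpenPartialHomeomorph G (fderiv ℝ G z) hr) z :=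
      (hstr.implicitToOpenPartialHomeomorph G (fderiv ℝ G z) hr).continuousAt
        (hstr.mem_implicitToOpenPartialHomeomorph_source hr)
    have hc2 := hc.snd
    have : (hstr.implicitToOpenPartialHomeomorph G (fderiv ℝ G z) hr z).snd = 0 := by simp
    apply hc2
    have h0 : s ∈ 𝓝 (hstr.implicitToOpenPartialHomeomorph G (fderiv ℝ G z) hr z).snd := by
      rw [this]
      exact hs
    exact h0
  refine ⟨g '' s, ?_, ?_⟩
  · filter_upwards [self_mem_nhdsWithin, nhdsWithin_le_nhds h1, nhdsWithin_le_nhds h2] with x hx hx1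
      hx2
    refine ⟨_, hx2, ?_⟩
    have hx' : G x = 0 := hx
    rw [hx'] at hx1
    rw [hg, hz]
    exact hx1
  · refine (hL.dimH_image_le).trans ((dimH_mono (subset_univ s)).trans ?_)
    rw [Real.dimH_univ_eq_finrank]
    have h6 := LinearMap.finrank_range_add_finrank_ker (fderiv ℝ G z).toLinearMap
    have h7 : Module.finrank ℝ (LinearMap.range (fderiv ℝ G z).toLinearMap) =
        Module.finrank ℝ ℝ := by
      have : LinearMap.range (fderiv ℝ G z).toLinearMap = ⊤ := hr
      rw [this, finrank_top]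
    have h8 : Module.finrank ℝ (fderiv ℝ G z).ker =
        Module.finrank ℝ (LinearMap.ker (fderiv ℝ G z).toLinearMap) := rfl
    rw [Module.finrank_self] at h7
    rw [h8]
    exact_mod_cast le_of_eq (by omega)

/-- if all iterated derivatives vanish at a point, an analytic function vanishes near it -/
theorem zeroSet_flat {E : Type*} [NormedAddCommGroup E] [NormedSpace ℝ E]
    {f : E → ℝ} {z : E} (hf : AnalyticAt ℝ f z)
    (h : ∀ n, iteratedFDeriv ℝ n f z = 0) : ∀ᶠ w in 𝓝 z, f w = 0 := by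
  obtain ⟨p, r, hp⟩ := hf
  have h1 : ∀ w ∈ Metric.eball (0 : E) r, f (z + w) = 0 := by
    intro w hw
    have h2 := hp.hasSum hw
    have h3 : ∀ n, p n (fun _ => w) = 0 := by
      intro n
      have h4 := hp.factorial_smul w n
      rw [h n] at h4
      simp only [_root_.zero_apply, nsmul_eq_mul] at h4
      have h5 : ((n.factorial : ℕ) : ℝ) ≠ 0 := by exact_mod_cast n.factorial_ne_zero
      exact (mul_eq_zero.1 h4).resolve_left h5
    simp only [h3] at h2
    exact h2.unique hasSum_zero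
  have h2 : Metric.eball z r ∈ 𝓝 z := Metric.eball_mem_nhds z hp.r_pos
  filter_upwards [h2] with w hw
  have h3 := h1 (w - z) (by
    rw [Metric.mem_eball, edist_zero_right]
    rw [Metric.mem_eball, edist_eq_enorm_sub] at hw
    exact hw)
  rwa [add_sub_cancel] at h3

theorem zeroSet_level {E : Type*} [NormedAddCommGroup E] [NormedSpace ℝ E]
    [FiniteDimensional ℝ E] {f : E → ℝ} {O : Set E} (hf : AnalyticOnNhd ℝ f O) (n : ℕ) :
    dimH {z | z ∈ O ∧ iteratedFDeriv ℝ n f z = 0 ∧ iteratedFDeriv ℝ (n + 1) f z ≠ 0} ≤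
      ((Module.finrank ℝ E - 1 : ℕ) : ℝ≥0∞) := by
  set A := {z | z ∈ O ∧ iteratedFDeriv ℝ n f z = 0 ∧ iteratedFDeriv ℝ (n + 1) f z ≠ 0} with hA
  by_contra hlt
  rw [not_le] at hlt
  obtain ⟨z, hz, hz'⟩ := exists_mem_nhdsWithin_lt_dimH_of_lt_dimH hlt
  obtain ⟨hzO, hz0, hz1⟩ := hz
  have hGa : AnalyticAt ℝ (iteratedFDeriv ℝ n f) z := hf.iteratedFDeriv n z hzO
  have hne : fderiv ℝ (iteratedFDeriv ℝ n f) z ≠ 0 := by
    intro h0
    apply hz1
    ext m
    rw [iteratedFDeriv_succ_apply_left, h0]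
    simp
  obtain ⟨v, hv⟩ : ∃ v, fderiv ℝ (iteratedFDeriv ℝ n f) z v ≠ 0 := by
    by_contra hcon
    push Not at hcon
    apply hne
    ext1 v
    exact hcon v
  obtain ⟨m, hm⟩ : ∃ m, fderiv ℝ (iteratedFDeriv ℝ n f) z v m ≠ 0 := by
    by_contra hcon
    push Not at hcon
    apply hv
    ext1 m
    exact hcon m
  set φ : ContinuousMultilinearMap ℝ (fun _ : Fin n => E) ℝ →L[ℝ] ℝ :=
    ContinuousMultilinearMap.apply ℝ (fun _ : Fin n => E) ℝ m with hφ
  have hG : ContDiffAt ℝ 1 (fun x => φ (iteratedFDeriv ℝ n f x)) z :=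
    φ.contDiff.contDiffAt.comp z (hGa.contDiffAt.of_le le_top)
  have hd : fderiv ℝ (fun x => φ (iteratedFDeriv ℝ n f x)) z ≠ 0 := by
    intro h0
    have h1 : fderiv ℝ (fun x => φ (iteratedFDeriv ℝ n f x)) z =
        φ.comp (fderiv ℝ (iteratedFDeriv ℝ n f) z) :=
      (φ.hasFDerivAt.comp z hGa.differentiableAt.hasFDerivAt).fderiv
    rw [h1] at h0
    have h2 := DFunLike.congr_fun h0 v
    apply hm
    exact h2
  have hz00 : φ (iteratedFDeriv ℝ n f z) = 0 := by rw [hz0]; simp
  obtain ⟨t, ht, htd⟩ := zeroSet_local hG hz00 hd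
  have hsub : A ⊆ {x | φ (iteratedFDeriv ℝ n f x) = 0} := by
    intro x hx
    show φ (iteratedFDeriv ℝ n f x) = 0
    rw [hx.2.1]; simp
  exact absurd (hz' t (nhdsWithin_mono z hsub ht)) (not_lt.2 htd)

/-! ## T18 ZeroSet -/
theorem dimH_zero_set {f : ℝ × ℝ → ℝ} {O : Set (ℝ × ℝ)} (hO : IsOpen O)
    (hf : AnalyticOnNhd ℝ f O) :
    dimH {z | z ∈ O ∧ f z = 0 ∧ ¬ ∀ᶠ w in 𝓝 z, f w = 0} ≤ 1 := by
  have hsub : {z | z ∈ O ∧ f z = 0 ∧ ¬ ∀ᶠ w in 𝓝 z, f w = 0} ⊆
      ⋃ n, {z | z ∈ O ∧ iteratedFDeriv ℝ n f z = 0 ∧ iteratedFDeriv ℝ (n + 1) f z ≠ 0} := by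
    rintro z ⟨hzO, hz0, hz1⟩
    rw [mem_iUnion]
    have hex : ∃ n, iteratedFDeriv ℝ n f z ≠ 0 := by
      by_contra hcon
      push Not at hcon
      exact hz1 (zeroSet_flat (hf z hzO) hcon)
    classical
    have hmin : ∀ m < Nat.find hex, iteratedFDeriv ℝ m f z = 0 := fun m hm => by
      have := Nat.find_min hex hm
      push Not at this
      exact this
    have hspec := Nat.find_spec hex
    obtain h0 | ⟨m, hm⟩ : Nat.find hex = 0 ∨ ∃ m, Nat.find hex = m + 1 := by
      rcases Nat.find hex with _ | m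
      · exact Or.inl rfl
      · exact Or.inr ⟨m, rfl⟩
    · exfalso
      rw [h0] at hspec
      apply hspec
      ext m
      rw [iteratedFDeriv_zero_apply, hz0]
      simp
    · refine ⟨m, hzO, hmin m (by omega), ?_⟩
      rw [← hm]
      exact hspec
  refine (dimH_mono hsub).trans ?_
  rw [dimH_iUnion]
  refine iSup_le fun n => ?_
  refine (zeroSet_level hf n).trans ?_
  have : Module.finrank ℝ (ℝ × ℝ) = 2 := by simp
  rw [this]
  norm_num

end Pool.Agent.Helper1.Tet
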